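import Pool.Agent.Lib.MP_f9389f_co.CbBasic

/-! Long strands of a sphere and crossing components of annuli. -/

namespace Pool.Agent.Lib.MP_f9389f_co

universe u

open SimpleGraph

section

variable {V : Type u} {G : SimpleGraph V}

/-- A chain passes through every shell of width `k`. -/
theorem ann_pass (hG : G.Connected) {k s : ℕ} {A : Set V} {x a b : V} (h : Ch G k A a b)
    (ha : G.dist x a < s) (hb : s ≤ G.dist x b) :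
    ∃ y ∈ A, s ≤ G.dist x y ∧ G.dist x y ≤ s + k ∧ Ch G k A y b := by
  obtain ⟨z, y, -, -, h1, h2, h3, h4, h5⟩ := h.entry (fun v => s ≤ G.dist x v) (by omega) hb
  have := tri hG x z y
  exact ⟨y, h2, h3, by omega, h5⟩

/-- At every distance two of the three strands are close. -/
theorem ann_step (hG : G.Connected) {o x : V} {c k τ m β : ℕ} (hC : ClawP G o (k + c) τ)
    (hx : x ∈ Lv G o m) {A : Fin 3 → Set V} (hl : ∀ i, A i ⊆ Lv G o m) (hc : ∀ i, Conn G c (A i))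
    (ha : ∀ i, ∃ a ∈ A i, G.dist x a ≤ k) (hb : ∀ i, ∃ b ∈ A i, β ≤ G.dist x b) (h1 : k < β)
    (h2 : τ ≤ β) : ∃ l : Fin 3, ∃ P ∈ A (l + 1), ∃ Q ∈ A (l + 2), G.dist P Q ≤ τ ∧
      β ≤ G.dist x P + τ ∧ G.dist x P ≤ β + c + τ := by
  have he : ∀ i, ∃ e ∈ A i, β ≤ G.dist x e ∧ G.dist x e ≤ β + c := by
    intro i
    obtain ⟨a, ha1, ha2⟩ := ha i
    obtain ⟨b, hb1, hb2⟩ := hb i
    obtain ⟨y, h3, h4, h5, -⟩ := ann_pass hG (hc i a ha1 b hb1) (ha2.trans_lt h1) hb2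
    exact ⟨y, h3, h4, h5⟩
  choose e he1 he2 he3 using he
  have key : ∃ i j, i ≠ j ∧ ∃ u ∈ A i, G.dist u (e j) < τ := by
    by_contra hn
    refine hC m (fun i => {x} ∪ A i) x e ?_ ?_ (fun i => Or.inl rfl) (fun i => Or.inr (he1 i)) ?_
    · rintro i v (rfl | hv)
      · exact hx
      · exact hl i hv
    · intro i
      obtain ⟨a, ha1, ha2⟩ := ha i
      exact (conn_singleton G _ x).union ((hc i).mono (by omega)) rfl ha1 (by omega)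
    · rintro i j hij u (rfl | hu)
      · exact h2.trans (he2 j)
      · by_contra h3
        exact hn ⟨i, j, hij, u, hu, by omega⟩
  obtain ⟨i, j, hij, u, hu, h3⟩ := key
  have t1 := tri hG x u (e j)
  have t2 := tri hG x (e j) u
  have t3 : G.dist (e j) u = G.dist u (e j) := dist_comm
  have b1 := he2 j
  have b2 := he3 j
  have hor : ∀ i j : Fin 3, i ≠ j →
      ∃ l : Fin 3, (i = l + 1 ∧ j = l + 2) ∨ (j = l + 1 ∧ i = l + 2) := by decide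
  obtain ⟨l, ⟨rfl, rfl⟩ | ⟨rfl, rfl⟩⟩ := hor i j hij
  · exact ⟨l, u, hu, _, he1 _, by omega, by omega, by omega⟩
  · exact ⟨l, _, he1 _, u, hu, by omega, by omega, by omega⟩

end

theorem l3Stmt : L3Stmt.{u} := by
  intro V G hG o c w k τ Δ hC hL m x hx A hl hc ha hb hap
  obtain ⟨g, hg⟩ : ∃ g, g = Δ + 2 * τ + c + k + 1 := ⟨_, rfl⟩
  rw [← hg] at hb
  have hs : ∀ j : Fin 7, ∃ l : Fin 3, ∃ P ∈ A (l + 1), ∃ Q ∈ A (l + 2), G.dist P Q ≤ τ ∧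
      (j + 1) * g ≤ G.dist x P + τ ∧ G.dist x P ≤ (j + 1) * g + c + τ := by
    intro j
    have h1 : 1 * g ≤ ((j : ℕ) + 1) * g := Nat.mul_le_mul_right g (by omega)
    have h2 : ((j : ℕ) + 1) * g ≤ 7 * g := Nat.mul_le_mul_right g (by omega)
    refine ann_step hG hC hx hl hc ha (fun i => ?_) (by omega) (by omega)
    obtain ⟨b, hb1, hb2⟩ := hb i
    exact ⟨b, hb1, h2.trans hb2⟩
  choose l P hP Q hQ h1 h2 h3 using hs
  have far0 : ∀ j j' : Fin 7, j < j' → Δ ≤ G.dist (P j) (P j') := by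
    intro j j' hj
    have a1 : ((j : ℕ) + 1 + 1) * g ≤ ((j' : ℕ) + 1) * g :=
      Nat.mul_le_mul_right g (by have : (j : ℕ) < j' := hj; omega)
    rw [Nat.succ_mul] at a1
    have a2 := tri hG x (P j) (P j')
    have a3 := h2 j'
    have a4 := h3 j
    omega
  have far : ∀ j j' : Fin 7, j ≠ j' → Δ ≤ G.dist (P j) (P j') := by
    intro j j' hj
    rcases lt_or_gt_of_ne hj with h | h
    · exact far0 j j' h
    · rw [dist_comm]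
      exact far0 j' j h
  obtain ⟨l0, hl0⟩ := Fintype.exists_lt_card_fiber_of_mul_lt_card (n := 2) l (by simp)
  obtain ⟨j1, j2, j3, m1, m2, m3, n1, n2, n3⟩ := Finset.two_lt_card_iff.1 hl0
  have e1 : l j1 = l0 := (Finset.mem_filter.1 m1).2
  have e2 : l j2 = l0 := (Finset.mem_filter.1 m2).2
  have e3 : l j3 = l0 := (Finset.mem_filter.1 m3).2
  obtain ⟨J, hJ, hJ'⟩ : ∃ J : Fin 3 → Fin 7, (∀ t, l (J t) = l0) ∧ ∀ t t', t ≠ t' → J t ≠ J t' := by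
    refine ⟨![j1, j2, j3], fun t => ?_, fun t t' ht => ?_⟩
    · fin_cases t
      exacts [e1, e2, e3]
    · fin_cases t <;> fin_cases t' <;> simp at ht ⊢
      exacts [n1, n2, n1.symm, n3, n2.symm, n3.symm]
  have hne : ∀ l : Fin 3, l + 1 ≠ l + 2 := by decide
  exact hL m (A (l0 + 1)) (A (l0 + 2)) (hl _) (hl _) (hc _) (hc _) (hap _ _ (hne l0))
    (fun t => P (J t)) (fun t => Q (J t)) (fun t => hJ t ▸ hP (J t)) (fun t => hJ t ▸ hQ (J t))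
    (fun t => h1 (J t)) fun t t' ht => far _ _ (hJ' t t' ht)

section

variable {V : Type u} {G : SimpleGraph V}

/-- The component of `e` contains a strand across the shell between `lo` and `hi`. -/
def AnCov (G : SimpleGraph V) (o : V) (c B w r₀ r₃ : ℕ) (x e : V) (lo hi : ℕ) : Prop :=
  ∃ F : Set V, (∀ v ∈ F, Ch G w (An G o c B r₀ r₃ x) e v) ∧ Conn G c F ∧
    (∃ a ∈ F, G.dist x a ≤ lo + w) ∧ ∃ b ∈ F, hi ≤ G.dist x b

theorem ann_io (hG : G.Connected) {o x e : V} {c B w r₀ r₃ s s₄ : ℕ} (hcw : c ≤ w)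
    (h : Cross G o c B w r₀ r₃ x e) (h0 : r₀ ≤ s) (h1 : s ≤ s₄) (h2 : s₄ + w ≤ r₃)
    (hB : 2 * r₃ ≤ B) :
    (∀ lo hi, r₀ ≤ lo → hi ≤ s → AnCov G o c B w r₀ r₃ x e lo hi) ∨
      ∀ lo hi, s ≤ lo → hi ≤ s₄ → AnCov G o c B w r₀ r₃ x e lo hi := by
  obtain ⟨he, ⟨u, hu, hu'⟩, v, hv, hv'⟩ := h
  obtain ⟨z, hz, z1, z2⟩ : ∃ z, Ch G w (An G o c B r₀ r₃ x) e z ∧ s ≤ G.dist x z ∧
      G.dist x z ≤ s + w := by
    by_cases h3 : s ≤ G.dist x u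
    · exact ⟨u, hu, h3, by omega⟩
    · obtain ⟨y, -, a1, a2, a3⟩ := ann_pass hG (x := x) (s := s) (hu.symm.trans hv) (by omega)
        (by omega)
      exact ⟨y, hv.trans a3.symm, a1, a2⟩
  have hzA := hz.mem he
  obtain ⟨t, ht, ht'⟩ := YL.far hG hzA.1 x hB
  obtain ⟨z', y, c1, -, -, -, c2, c3, -⟩ := ht.entry
    (fun y => ¬ (r₀ < G.dist x y ∧ G.dist x y < r₃)) (not_not.2 hzA.2) (by omega)
  have hF : ∀ v ∈ {v | Ch G c (YL G o c B (G.dist o x) ∩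
      {y | ¬ ¬ (r₀ < G.dist x y ∧ G.dist x y < r₃)}) z v}, Ch G w (An G o c B r₀ r₃ x) e v :=
    fun v hv => hz.trans (Ch.mono hv hcw fun y hy => ⟨hy.1, not_not.1 hy.2⟩)
  have t1 := tri hG x z' y
  have t2 := tri hG x y z'
  have t3 : G.dist y z' = G.dist z' y := dist_comm
  by_cases h3 : G.dist x y ≤ r₀
  · exact Or.inl fun lo hi a1 a2 =>
      ⟨_, hF, conn_comp _ _ _ _, ⟨z', c1, by omega⟩, z, Ch.refl _, by omega⟩
  · exact Or.inr fun lo hi a1 a2 =>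
      ⟨_, hF, conn_comp _ _ _ _, ⟨z, Ch.refl _, by omega⟩, z', c1, by omega⟩

theorem ann_apart {o x e e' : V} {c B w r₀ r₃ : ℕ} (he : e ∈ An G o c B r₀ r₃ x)
    (he' : e' ∈ An G o c B r₀ r₃ x) (hn : ¬ Ch G w (An G o c B r₀ r₃ x) e e') {F F' : Set V}
    (hF : ∀ v ∈ F, Ch G w (An G o c B r₀ r₃ x) e v)
    (hF' : ∀ v ∈ F', Ch G w (An G o c B r₀ r₃ x) e' v) : Apart G w F F' := by
  intro v hv v' hv'
  by_contra h
  exact hn (((hF v hv).tail ((hF v hv).mem he) ((hF' v' hv').mem he') (by omega)).trans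
    (hF' v' hv').symm)

theorem ann_three {o x e₁ e₂ e₃ : V} {c B w r₀ r₃ lo hi : ℕ} (hL : L3P G o c w (lo + w) hi)
    (m₁ : e₁ ∈ An G o c B r₀ r₃ x) (m₂ : e₂ ∈ An G o c B r₀ r₃ x) (m₃ : e₃ ∈ An G o c B r₀ r₃ x)
    (n₁ : ¬ Ch G w (An G o c B r₀ r₃ x) e₁ e₂) (n₂ : ¬ Ch G w (An G o c B r₀ r₃ x) e₁ e₃)
    (n₃ : ¬ Ch G w (An G o c B r₀ r₃ x) e₂ e₃) (h₁ : AnCov G o c B w r₀ r₃ x e₁ lo hi)
    (h₂ : AnCov G o c B w r₀ r₃ x e₂ lo hi) (h₃ : AnCov G o c B w r₀ r₃ x e₃ lo hi) : False := by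
  obtain ⟨F₁, a₁, b₁, c₁, d₁⟩ := h₁
  obtain ⟨F₂, a₂, b₂, c₂, d₂⟩ := h₂
  obtain ⟨F₃, a₃, b₃, c₃, d₃⟩ := h₃
  have p₁ := ann_apart m₁ m₂ n₁ a₁ a₂
  have p₂ := ann_apart m₁ m₃ n₂ a₁ a₃
  have p₃ := ann_apart m₂ m₃ n₃ a₂ a₃
  refine hL (G.dist o x) x rfl ![F₁, F₂, F₃] (fun i => ?_) (fun i => ?_) (fun i => ?_) (fun i => ?_)
    fun i j hij => ?_
  · fin_cases i
    exacts [fun v hv => ((a₁ v hv).mem m₁).1.1, fun v hv => ((a₂ v hv).mem m₂).1.1,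
      fun v hv => ((a₃ v hv).mem m₃).1.1]
  · fin_cases i
    exacts [b₁, b₂, b₃]
  · fin_cases i
    exacts [c₁, c₂, c₃]
  · fin_cases i
    exacts [d₁, d₂, d₃]
  · fin_cases i <;> fin_cases j <;> simp at hij ⊢
    exacts [p₁, p₂, p₁.symm, p₃, p₂.symm, p₃.symm]

end

theorem n2Stmt : N2Stmt.{u} := by
  intro V G hG o c B w r₀ s₁ s₂ s₃ s₄ r₃ hcw L1 L2 L3 L4 h1 h2 h3 h4 h5 hB x e₁ e₂ e₃ c₁ c₂ c₃
  by_contra hn
  have n₁ : ¬ Ch G w (An G o c B r₀ r₃ x) e₁ e₂ := fun h => hn (Or.inl h)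
  have n₂ : ¬ Ch G w (An G o c B r₀ r₃ x) e₁ e₃ := fun h => hn (Or.inr (Or.inl h))
  have n₃ : ¬ Ch G w (An G o c B r₀ r₃ x) e₂ e₃ := fun h => hn (Or.inr (Or.inr h))
  have miss : ∀ e, Cross G o c B w r₀ r₃ x e →
      (AnCov G o c B w r₀ r₃ x e s₁ s₂ ∧ AnCov G o c B w r₀ r₃ x e s₂ s₃ ∧
        AnCov G o c B w r₀ r₃ x e s₃ s₄) ∨
      (AnCov G o c B w r₀ r₃ x e r₀ s₁ ∧ AnCov G o c B w r₀ r₃ x e s₂ s₃ ∧
        AnCov G o c B w r₀ r₃ x e s₃ s₄) ∨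
      (AnCov G o c B w r₀ r₃ x e r₀ s₁ ∧ AnCov G o c B w r₀ r₃ x e s₁ s₂ ∧
        AnCov G o c B w r₀ r₃ x e s₃ s₄) ∨
      (AnCov G o c B w r₀ r₃ x e r₀ s₁ ∧ AnCov G o c B w r₀ r₃ x e s₁ s₂ ∧
        AnCov G o c B w r₀ r₃ x e s₂ s₃) := by
    intro e he
    rcases ann_io hG hcw he (s := s₁) (s₄ := s₄) h1 (by omega) h5 hB with a | a
    · rcases ann_io hG hcw he (s := s₂) (s₄ := s₄) (by omega) (by omega) h5 hB with b | b
      · rcases ann_io hG hcw he (s := s₃) (s₄ := s₄) (by omega) h4 h5 hB with d | d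
        · exact Or.inr (Or.inr (Or.inr
            ⟨a _ _ le_rfl le_rfl, b _ _ h1 le_rfl, d _ _ (by omega) le_rfl⟩))
        · exact Or.inr (Or.inr (Or.inl
            ⟨a _ _ le_rfl le_rfl, b _ _ h1 le_rfl, d _ _ le_rfl le_rfl⟩))
      · exact Or.inr (Or.inl ⟨a _ _ le_rfl le_rfl, b _ _ le_rfl h4, b _ _ h3 le_rfl⟩)
    · exact Or.inl ⟨a _ _ le_rfl (by omega), a _ _ h2 h4, a _ _ (by omega) le_rfl⟩
  have k1 := ann_three L1 c₁.1 c₂.1 c₃.1 n₁ n₂ n₃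
  have k2 := ann_three L2 c₁.1 c₂.1 c₃.1 n₁ n₂ n₃
  have k3 := ann_three L3 c₁.1 c₂.1 c₃.1 n₁ n₂ n₃
  have k4 := ann_three L4 c₁.1 c₂.1 c₃.1 n₁ n₂ n₃
  rcases miss e₁ c₁ with ⟨_, _, _⟩ | ⟨_, _, _⟩ | ⟨_, _, _⟩ | ⟨_, _, _⟩ <;>
    rcases miss e₂ c₂ with ⟨_, _, _⟩ | ⟨_, _, _⟩ | ⟨_, _, _⟩ | ⟨_, _, _⟩ <;>
    rcases miss e₃ c₃ with ⟨_, _, _⟩ | ⟨_, _, _⟩ | ⟨_, _, _⟩ | ⟨_, _, _⟩ <;>
    first
      | exact k1 ‹_› ‹_› ‹_›
      | exact k2 ‹_› ‹_› ‹_›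
      | exact k3 ‹_› ‹_› ‹_›
      | exact k4 ‹_› ‹_› ‹_›

end Pool.Agent.Lib.MP_f9389f_co
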