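import Mathlib

/-! Fat minors, minors and quasi-isometries of graphs. -/

namespace Pool.Agent.Lib.MP_f9389f_co

/-- The sets `Y` and `Z` are at distance at least `K` in `G`. -/
def Apart {V : Type*} (G : SimpleGraph V) (K : ℕ) (Y Z : Set V) : Prop :=
  ∀ y ∈ Y, ∀ z ∈ Z, K ≤ G.dist y z

/-- `G` contains a `K`-fat `H` minor: connected branch sets `B u`, and for each edge `e = uw` of
`H` a path with vertex set `P e` from `B u` to `B w`, all pairwise at distance at least `K`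
except for a path and the branch set of one of its ends. -/
def HasFatMinor {V ι : Type*} (G : SimpleGraph V) (H : SimpleGraph ι) (K : ℕ) : Prop :=
  ∃ (B : ι → Set V) (P : Sym2 ι → Set V),
    (∀ u, (G.induce (B u)).Connected) ∧
    (∀ u w, H.Adj u w → ∃ a ∈ B u, ∃ b ∈ B w, ∃ p : G.Walk a b,
      p.IsPath ∧ P s(u, w) = {x | x ∈ p.support}) ∧
    (∀ u w, u ≠ w → Apart G K (B u) (B w)) ∧
    (∀ e ∈ H.edgeSet, ∀ f ∈ H.edgeSet, e ≠ f → Apart G K (P e) (P f)) ∧
    ∀ e ∈ H.edgeSet, ∀ u, u ∉ e → Apart G K (P e) (B u)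

/-- `G` contains an `H` minor: pairwise disjoint connected branch sets, joined by an edge of `G`
for each edge of `H`. -/
def HasMinor {V ι : Type*} (G : SimpleGraph V) (H : SimpleGraph ι) : Prop :=
  ∃ B : ι → Set V, (∀ u, (G.induce (B u)).Connected) ∧
    (∀ u w, u ≠ w → Disjoint (B u) (B w)) ∧
    ∀ u w, H.Adj u w → ∃ a ∈ B u, ∃ b ∈ B w, G.Adj a b

/-- `φ` is an `(M, A)`-quasi-isometry from `G` to `G'`. -/
def IsQI {V W : Type*} (G : SimpleGraph V) (G' : SimpleGraph W) (φ : V → W) (M A : ℕ) : Prop :=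
  (∀ x y, (M : ℝ)⁻¹ * G.dist x y - A ≤ G'.dist (φ x) (φ y) ∧
    (G'.dist (φ x) (φ y) : ℝ) ≤ M * G.dist x y + A) ∧
  ∀ w, ∃ x, G'.dist w (φ x) ≤ A

end Pool.Agent.Lib.MP_f9389f_co
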