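import Mathlib
import Pool.Agent.Lib.MP_f9389f_co.Defs

/-! Geodesic combings of graphs. -/

namespace Pool.Agent.Lib.MP_f9389f_co

/-- `G` has a geodesic combing with fellow traveller constant `c`: there are a base vertex `o`
and, for every vertex `x`, a shortest walk `p x` from `o` to `x`, such that for adjacent `x`, `y`
the `t`-th vertices of `p x` and of `p y` are at distance at most `c`, for every `t` (after its
end a walk rests at its last vertex). -/
def HasCombing {V : Type*} (G : SimpleGraph V) (c : ℕ) : Prop :=
  ∃ (o : V) (p : ∀ x, G.Walk o x), (∀ x, (p x).length = G.dist o x) ∧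
    ∀ x y, G.Adj x y → ∀ t, G.dist ((p x).getVert t) ((p y).getVert t) ≤ c

end Pool.Agent.Lib.MP_f9389f_co
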