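import Mathlib
import Pool.Agent.Lib.MP_f9389f_co.CbStmt

/-! Definitions and intermediate statements for the combable case. -/

namespace Pool.Agent.Lib.MP_f9389f_co

universe u

open SimpleGraph

abbrev K33 : SimpleGraph (Fin 3 ⊕ Fin 3) := completeBipartiteGraph (Fin 3) (Fin 3)

section Metric

variable {V : Type u}

/-- Chains inside `A` with steps of length at most `k`. -/
def Ch (G : SimpleGraph V) (k : ℕ) (A : Set V) : V → V → Prop :=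
  Relation.ReflTransGen fun a b => a ∈ A ∧ b ∈ A ∧ G.dist a b ≤ k

/-- `A` is connected by chains with steps at most `k`. -/
def Conn (G : SimpleGraph V) (k : ℕ) (A : Set V) : Prop := ∀ a ∈ A, ∀ b ∈ A, Ch G k A a b

/-- The closed `h`-neighbourhood of `A`. -/
def Nb (G : SimpleGraph V) (h : ℕ) (A : Set V) : Set V := {v | ∃ a ∈ A, G.dist a v ≤ h}

/-- The sphere of radius `m` about `o`. -/
def Lv (G : SimpleGraph V) (o : V) (m : ℕ) : Set V := {x | G.dist o x = m}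

/-- The combing in functional form. -/
structure Cmb (G : SimpleGraph V) (c : ℕ) (o : V) (σ : V → ℕ → V) : Prop where
  conn : G.Connected
  zero : ∀ x, σ x 0 = o
  lev : ∀ x t, t ≤ G.dist o x → G.dist o (σ x t) = t
  stop : ∀ x t, G.dist o x ≤ t → σ x t = x
  step : ∀ x t, G.dist (σ x t) (σ x (t + 1)) ≤ 1
  ft : ∀ x y, G.dist x y ≤ 1 → ∀ t, G.dist (σ x t) (σ y t) ≤ c

/-- The part of the combing line of `x` between times `s` and `t`. -/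
def Seg (σ : V → ℕ → V) (x : V) (s t : ℕ) : Set V := {v | ∃ i, s ≤ i ∧ i ≤ t ∧ σ x i = v}

/-- No claw inside a sphere. -/
def ClawP (G : SimpleGraph V) (o : V) (k ρ : ℕ) : Prop :=
  ∀ (m : ℕ) (Q : Fin 3 → Set V) (z : V) (t : Fin 3 → V), (∀ i, Q i ⊆ Lv G o m) →
    (∀ i, Conn G k (Q i)) → (∀ i, z ∈ Q i) → (∀ i, t i ∈ Q i) →
    (∀ i j, i ≠ j → ∀ u ∈ Q i, ρ ≤ G.dist u (t j)) → False

/-- No two separated strands of a sphere that are close at three far apart places. -/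
def LipsP (G : SimpleGraph V) (o : V) (c w τ Δ : ℕ) : Prop :=
  ∀ (m : ℕ) (A₁ A₂ : Set V), A₁ ⊆ Lv G o m → A₂ ⊆ Lv G o m → Conn G c A₁ → Conn G c A₂ →
    Apart G w A₁ A₂ → ∀ p q : Fin 3 → V, (∀ i, p i ∈ A₁) → (∀ i, q i ∈ A₂) →
    (∀ i, G.dist (p i) (q i) ≤ τ) → (∀ i j, i ≠ j → Δ ≤ G.dist (p i) (p j)) → False

/-- No three separated long strands of a sphere start near a point. -/
def L3P (G : SimpleGraph V) (o : V) (c w k S : ℕ) : Prop :=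
  ∀ (m : ℕ) (x : V), x ∈ Lv G o m → ∀ A : Fin 3 → Set V, (∀ i, A i ⊆ Lv G o m) →
    (∀ i, Conn G c (A i)) → (∀ i, ∃ a ∈ A i, G.dist x a ≤ k) → (∀ i, ∃ b ∈ A i, S ≤ G.dist x b) →
    (∀ i j, i ≠ j → Apart G w (A i) (A j)) → False

/-- Points of the sphere of radius `m` whose `c`-component in the sphere has diameter `≥ B`. -/
def YL (G : SimpleGraph V) (o : V) (c B m : ℕ) : Set V :=
  {y | y ∈ Lv G o m ∧ ∃ u v, Ch G c (Lv G o m) y u ∧ Ch G c (Lv G o m) y v ∧ B ≤ G.dist u v}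

/-- The annulus about `x` inside the big part of the sphere through `x`. -/
def An (G : SimpleGraph V) (o : V) (c B r₀ r₃ : ℕ) (x : V) : Set V :=
  {y | y ∈ YL G o c B (G.dist o x) ∧ r₀ < G.dist x y ∧ G.dist x y < r₃}

/-- `e` lies in a component of the annulus that crosses it. -/
def Cross (G : SimpleGraph V) (o : V) (c B w r₀ r₃ : ℕ) (x e : V) : Prop :=
  e ∈ An G o c B r₀ r₃ x ∧ (∃ u, Ch G w (An G o c B r₀ r₃ x) e u ∧ G.dist x u ≤ r₀ + w) ∧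
    ∃ v, Ch G w (An G o c B r₀ r₃ x) e v ∧ r₃ ≤ G.dist x v + w

/-- Every annulus has at most two crossing components. -/
def N2P (G : SimpleGraph V) (o : V) (c B w r₀ r₃ : ℕ) : Prop :=
  ∀ x e₁ e₂ e₃, Cross G o c B w r₀ r₃ x e₁ → Cross G o c B w r₀ r₃ x e₂ →
    Cross G o c B w r₀ r₃ x e₃ → Ch G w (An G o c B r₀ r₃ x) e₁ e₂ ∨
      Ch G w (An G o c B r₀ r₃ x) e₁ e₃ ∨ Ch G w (An G o c B r₀ r₃ x) e₂ e₃

/-- A point with two separated long arms captures all big points near it. -/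
def TTP (G : SimpleGraph V) (o : V) (c B w ρ r₀ r₃ : ℕ) : Prop :=
  ∀ (z : V) (P₁ P₂ : Set V) (t₁ t₂ : V), P₁ ⊆ YL G o c B (G.dist o z) →
    P₂ ⊆ YL G o c B (G.dist o z) → Conn G w P₁ → Conn G w P₂ → z ∈ P₁ → z ∈ P₂ → t₁ ∈ P₁ →
    t₂ ∈ P₂ → (∀ u ∈ P₁, ρ ≤ G.dist u t₂) → (∀ u ∈ P₂, ρ ≤ G.dist u t₁) →
    r₃ + ρ ≤ G.dist z t₁ → r₃ + ρ ≤ G.dist z t₂ →
    ∀ y ∈ YL G o c B (G.dist o z), G.dist z y ≤ r₀ → ∃ u, (u ∈ P₁ ∨ u ∈ P₂) ∧ G.dist z u < r₃ ∧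
      Ch G w (YL G o c B (G.dist o z) ∩ {v | G.dist z v < r₃}) u y

/-- `x` and `y` are joined by a chain of big points inside a ball of radius `S`. -/
def GRel (G : SimpleGraph V) (o : V) (c B w S : ℕ) (x y : V) : Prop :=
  ∃ z, x ∈ YL G o c B (G.dist o x) ∧ G.dist z x ≤ S ∧
    Ch G w (YL G o c B (G.dist o x) ∩ {v | G.dist z v ≤ S}) x y

/-- Good points: big points near them are related to them. -/
def Good (G : SimpleGraph V) (o : V) (c B w S r : ℕ) (x : V) : Prop :=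
  x ∈ YL G o c B (G.dist o x) ∧
    ∀ y ∈ YL G o c B (G.dist o x), G.dist x y ≤ r → GRel G o c B w S x y

/-- Good points are dense among the big points. -/
def GoodP (G : SimpleGraph V) (o : V) (c B w S r : ℕ) : Prop :=
  ∀ a, a ∈ YL G o c B (G.dist o a) → ∃ x, Good G o c B w S r x ∧ GRel G o c B w S a x

end Metric

section Graph

variable {α : Type u}

/-- There is a walk of length at most `n`. -/
def Near (L : SimpleGraph α) (n : ℕ) (a b : α) : Prop := ∃ p : L.Walk a b, p.length ≤ n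

/-- Maximum degree at most two. -/
def Deg2 (L : SimpleGraph α) : Prop :=
  ∀ v a b d, L.Adj v a → L.Adj v b → L.Adj v d → a = b ∨ a = d ∨ b = d

/-- `t` has two different neighbours. -/
def Two (L : SimpleGraph α) (t : α) : Prop := ∃ a b, a ≠ b ∧ L.Adj t a ∧ L.Adj t b

/-- Walks inside `T`. -/
def LCh (L : SimpleGraph α) (T : Set α) : α → α → Prop :=
  Relation.ReflTransGen fun a b => a ∈ T ∧ b ∈ T ∧ L.Adj a b

def LConn (L : SimpleGraph α) (T : Set α) : Prop := ∀ a ∈ T, ∀ b ∈ T, LCh L T a b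

/-- All vertices of `T` and all their neighbours have two neighbours. -/
def Inn (L : SimpleGraph α) (T : Set α) : Prop := ∀ t ∈ T, ∀ s, s = t ∨ L.Adj s t → Two L s

/-- No two far apart strands of `C` lie over three common far apart places. -/
def FoldP (L : SimpleGraph α) (C : Set α) (q : α → α) (n : ℕ) : Prop :=
  ∀ (F₁ F₂ : Set α) (T : Fin 3 → Set α) (a b : Fin 3 → α), F₁ ⊆ C → F₂ ⊆ C → LConn L F₁ →
    LConn L F₂ → Inn L F₁ → Inn L F₂ → (∀ x ∈ F₁, ∀ y ∈ F₂, ¬ Near L 5 x y) →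
    (∀ i, LConn L (T i)) → (∀ i, Inn L (T i)) →
    (∀ i j, i ≠ j → ∀ x ∈ T i, ∀ y ∈ T j, ¬ Near L n x y) → (∀ i, a i ∈ F₁) → (∀ i, b i ∈ F₂) →
    (∀ i, q (a i) ∈ T i) → (∀ i, q (b i) ∈ T i) → False

/-- The layered graph: the edges of `L` inside `W` and the edges to the parents. -/
def Lay (L : SimpleGraph α) (W : Set α) (lev : α → ℕ) (par : α → α) : SimpleGraph α :=
  SimpleGraph.fromRel fun a b => a ∈ W ∧ (L.Adj a b ∨ (0 < lev a ∧ par a = b))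

end Graph

/-- The structure on the spheres: a net `N`, a projection `ψ` to it and a graph `L` on it. -/
structure LevelPkg {V : Type u} (G : SimpleGraph V) (o : V) (c w w₂ D : ℕ) (N : Set V)
    (ψ : V → V) (L : SimpleGraph V) : Prop where
  mem : ∀ x, ψ x ∈ N
  fix : ∀ t ∈ N, ψ t = t
  lev : ∀ x, G.dist o (ψ x) = G.dist o x
  adjN : ∀ s t, L.Adj s t → s ∈ N
  adjlev : ∀ s t, L.Adj s t → G.dist o s = G.dist o t
  near : ∀ x, G.dist x (ψ x) ≤ D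
  adjdist : ∀ s t, L.Adj s t → G.dist s t ≤ D
  close : ∀ x y, G.dist o x = G.dist o y → G.dist x y ≤ c → ψ x = ψ y ∨ L.Adj (ψ x) (ψ y)
  deg : Deg2 L
  sep : ∀ z y, G.dist o z = G.dist o y → Two L (ψ z) → Two L (ψ y) → G.dist z y ≤ w₂ →
    Near L 3 (ψ z) (ψ y)
  real : ∀ T, LConn L T → (∀ t ∈ T, Two L t) → ∃ A, Conn G w A ∧ (∀ x, ψ x ∈ T → x ∈ A) ∧
    ∀ z ∈ A, ∃ t ∈ T, ψ z = t ∨ L.Adj (ψ z) t

/-! ### The statements -/

def K33Stmt : Prop := ∀ (V : Type u) (G : SimpleGraph V), G.Connected → ∀ (K : ℕ)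
  (X Z : Fin 3 → Set V), (∀ a, Conn G 1 (X a)) → (∀ i, Conn G 1 (Z i)) →
  (∀ a b, a ≠ b → Apart G (3 * K) (X a) (X b)) → (∀ i j, i ≠ j → Apart G (3 * K) (Z i) (Z j)) →
  (∀ a i, Apart G K (X a) (Z i)) → (∀ a i, ∃ x ∈ X a, ∃ z ∈ Z i, G.dist x z ≤ K) →
  HasFatMinor G K33 K

def TrimStmt : Prop := ∀ (V : Type u) (G : SimpleGraph V), G.Connected → ∀ (K : ℕ), 1 ≤ K →
  ∀ (T A : Fin 3 → Set V) (z : V), (∀ i, z ∈ A i) → (∀ i, Conn G 1 (A i)) →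
  (∀ i, ∃ t ∈ A i, t ∈ T i) → (∀ i j, i ≠ j → Apart G K (A i) (T j)) →
  ∃ X : Set V, (∀ x ∈ X, ∃ i, x ∈ A i) ∧ Conn G 1 X ∧ (∀ j, Apart G K X (T j)) ∧
    ∀ j, ∃ x ∈ X, ∃ t ∈ T j, G.dist x t ≤ K

/-- Two walls over three common columns give a fat `K33`. The levels are `n` (top of the lower
branch set), `n + K + e` (level of the sets `J i`) and `m` (level of the two strands). -/
def WallStmt : Prop := ∀ (V : Type u) (G : SimpleGraph V) (c : ℕ) (o : V) (σ : V → ℕ → V),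
  Cmb G c o σ → ∀ (K : ℕ), 1 ≤ K → ∀ (n e k m : ℕ), n + K + e + e + k + 2 * K ≤ m →
  ∀ (A₁ A₂ : Set V), A₁ ⊆ Lv G o m → A₂ ⊆ Lv G o m → Conn G k A₁ → Conn G k A₂ →
  Apart G (2 * k + 3 * K) A₁ A₂ → ∀ (p q : Fin 3 → V) (J : Fin 3 → Set V), (∀ i, p i ∈ A₁) →
  (∀ i, q i ∈ A₂) → (∀ i, Conn G 1 (J i)) → (∀ i, σ (p i) (n + K + e) ∈ J i) →
  (∀ i, σ (q i) (n + K + e) ∈ J i) →
  (∀ i, ∀ v ∈ J i, n + K ≤ G.dist o v ∧ G.dist o v ≤ n + K + e + e) →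
  (∀ i j, i ≠ j → Apart G (3 * K) (Seg σ (p i) n m ∪ Seg σ (q i) (n + K + e) m ∪ J i)
    (Seg σ (p j) n m ∪ Seg σ (q j) (n + K + e) m ∪ J j)) →
  HasFatMinor G K33 K

def ClawStmt : Prop := ∀ (V : Type u) (G : SimpleGraph V) (c : ℕ) (o : V) (σ : V → ℕ → V),
  Cmb G c o σ → ∀ (K : ℕ), 1 ≤ K → ¬ HasFatMinor G K33 K → ∀ k : ℕ,
  ClawP G o k (4 * k + 7 * c + 15 * K)

def LipsStmt : Prop := ∀ (V : Type u) (G : SimpleGraph V) (c : ℕ) (o : V) (σ : V → ℕ → V),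
  Cmb G c o σ → ∀ (K : ℕ), 1 ≤ K → ¬ HasFatMinor G K33 K → ∀ τ : ℕ,
  LipsP G o c (2 * c + 3 * K) τ (6 * τ + 6 * c + 9 * K)

def L3Stmt : Prop := ∀ (V : Type u) (G : SimpleGraph V), G.Connected → ∀ (o : V)
  (c w k τ Δ : ℕ), ClawP G o (k + c) τ → LipsP G o c w τ Δ →
  L3P G o c w k (7 * (Δ + 2 * τ + c + k + 1))

def N2Stmt : Prop := ∀ (V : Type u) (G : SimpleGraph V), G.Connected → ∀ (o : V)
  (c B w r₀ s₁ s₂ s₃ s₄ r₃ : ℕ), c ≤ w → L3P G o c w (r₀ + w) s₁ → L3P G o c w (s₁ + w) s₂ →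
  L3P G o c w (s₂ + w) s₃ → L3P G o c w (s₃ + w) s₄ → r₀ ≤ s₁ → s₁ ≤ s₂ → s₂ ≤ s₃ → s₃ ≤ s₄ →
  s₄ + w ≤ r₃ → 2 * r₃ ≤ B → N2P G o c B w r₀ r₃

def TTStmt : Prop := ∀ (V : Type u) (G : SimpleGraph V), G.Connected → ∀ (o : V)
  (c B w ρ r₀ r₃ : ℕ), c ≤ w → ClawP G o w ρ → N2P G o c B w r₀ r₃ → ρ ≤ r₀ → r₀ + w < r₃ →
  2 * r₃ ≤ B → TTP G o c B w ρ r₀ r₃

def GoodStmt : Prop := ∀ (V : Type u) (G : SimpleGraph V), G.Connected → ∀ (o : V)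
  (c B w ρ r₀ r₃ : ℕ), c ≤ w → N2P G o c B w r₀ r₃ → TTP G o c B w ρ r₀ r₃ → ρ ≤ r₀ →
  r₀ + w < r₃ → 8 * r₃ + 2 * w ≤ B → GoodP G o c B w (4 * r₃ + 2 * w) r₀

def LevelStmt : Prop := ∀ (V : Type u) (G : SimpleGraph V), G.Connected → ∀ (o : V)
  (c B w ρ w₂ r₃ r S : ℕ), c ≤ w → ClawP G o w ρ → TTP G o c B w ρ w₂ r₃ → GoodP G o c B w S r →
  r₃ + ρ ≤ r → r₃ ≤ S → w ≤ S →
  ∃ (N : Set V) (ψ : V → V) (L : SimpleGraph V), LevelPkg G o c w w₂ (11 * (2 * S + B)) N ψ L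

def FoldStmt : Prop := ∀ (V : Type u) (G : SimpleGraph V) (c : ℕ) (o : V) (σ : V → ℕ → V),
  Cmb G c o σ → ∀ (K : ℕ), 1 ≤ K → ¬ HasFatMinor G K33 K → ∀ (w D R : ℕ) (N : Set V) (ψ : V → V)
  (L : SimpleGraph V), LevelPkg G o c w (2 * w + 15 * K) D N ψ L → 2 * w + 2 * K ≤ R →
  FoldP L {a | a ∈ N ∧ R ≤ G.dist o a} (fun a => ψ (σ a (G.dist o a - R))) (2 * R + 3 * K + 5)

def GateStmt : Prop := ∀ (c₁ n : ℕ), ∃ c₅ : ℕ, ∀ (α : Type u) (L : SimpleGraph α) (C : Set α)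
  (q : α → α), Deg2 L → (∀ a ∈ C, ∀ b, L.Adj a b → b ∈ C) →
  (∀ a ∈ C, ∀ b, L.Adj a b → Near L c₁ (q a) (q b)) → FoldP L C q n →
  ∃ (par : α → α) (owner : Sym2 α → Sym2 α), (∀ a ∈ C, Near L c₅ (q a) (par a)) ∧
    ∀ a ∈ C, ∀ b, L.Adj a b → ∃ ω : L.Walk (par a) (par b), ∀ f ∈ ω.edges, owner f = s(a, b)

def LayStmt : Prop := ∀ (α : Type u) (L : SimpleGraph α) (W : Set α) (lev : α → ℕ) (par : α → α)
  (owner : Sym2 α → Sym2 α), Deg2 L →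
  (∀ a ∈ W, ∀ b, L.Adj a b → b ∈ W ∧ lev a = lev b ∧ 0 < lev a) →
  (∀ a ∈ W, 0 < lev a → par a ∈ W ∧ lev (par a) + 1 = lev a) →
  (∀ a ∈ W, ∀ b, L.Adj a b → ∃ ω : L.Walk (par a) (par b), ∀ f ∈ ω.edges, owner f = s(a, b)) →
  ¬ HasMinor (Lay L W lev par) (⊤ : SimpleGraph (Fin 5)) ∧ ¬ HasMinor (Lay L W lev par) K33

end Pool.Agent.Lib.MP_f9389f_co
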