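import Mathlib
import Pool.Agent.Lib.MP_f9389f_co.CbDefs

/-! Basic lemmas on chains, combings and short walks. -/

namespace Pool.Agent.Lib.MP_f9389f_co

universe u

open SimpleGraph

section Metric

variable {V : Type u} {G : SimpleGraph V} {k k' : ℕ} {A A' : Set V} {a b d : V}

theorem Ch.refl (a : V) : Ch G k A a a := Relation.ReflTransGen.refl

theorem Ch.trans (h : Ch G k A a b) (h' : Ch G k A b d) : Ch G k A a d :=
  Relation.ReflTransGen.trans h h'

theorem Ch.single (ha : a ∈ A) (hb : b ∈ A) (h : G.dist a b ≤ k) : Ch G k A a b :=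
  Relation.ReflTransGen.single ⟨ha, hb, h⟩

theorem Ch.tail (h : Ch G k A a b) (hb : b ∈ A) (hd : d ∈ A) (hbd : G.dist b d ≤ k) :
    Ch G k A a d := h.trans (Ch.single hb hd hbd)

theorem Ch.symm (h : Ch G k A a b) : Ch G k A b a := by
  induction h with
  | refl => exact Ch.refl _
  | tail _ h2 ih => exact (Ch.single h2.2.1 h2.1 (by rw [dist_comm]; exact h2.2.2)).trans ih

theorem Ch.mono (h : Ch G k A a b) (hk : k ≤ k') (hA : A ⊆ A') : Ch G k' A' a b := by
  induction h with
  | refl => exact Ch.refl _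
  | tail _ h2 ih => exact ih.tail (hA h2.1) (hA h2.2.1) (h2.2.2.trans hk)

theorem Ch.mem (h : Ch G k A a b) (ha : a ∈ A) : b ∈ A := by
  induction h with
  | refl => exact ha
  | tail _ h2 _ => exact h2.2.1

/-- A chain from `a` stays in the component of `a`. -/
theorem Ch.comp (h : Ch G k A a b) : Ch G k {x | Ch G k A a x} a b := by
  induction h with
  | refl => exact Ch.refl _
  | @tail x y h1 h2 ih =>
    have h1' : Ch G k A a x := h1
    exact ih.tail h1' (h1'.tail h2.1 h2.2.1 h2.2.2) h2.2.2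

theorem conn_comp (G : SimpleGraph V) (k : ℕ) (A : Set V) (a : V) :
    Conn G k {x | Ch G k A a x} := fun _ hx _ hy => (Ch.comp hx).symm.trans (Ch.comp hy)

/-- First entry of a chain into the set `{x | P x}`. -/
theorem Ch.entry (h : Ch G k A a b) (P : V → Prop) (ha : ¬ P a) (hb : P b) :
    ∃ z y, Ch G k (A ∩ {x | ¬ P x}) a z ∧ z ∈ A ∧ ¬ P z ∧ y ∈ A ∧ P y ∧ G.dist z y ≤ k ∧
      Ch G k A y b := by
  have key : (Ch G k (A ∩ {x | ¬ P x}) a b ∧ ¬ P b) ∨
      ∃ z y, Ch G k (A ∩ {x | ¬ P x}) a z ∧ z ∈ A ∧ ¬ P z ∧ y ∈ A ∧ P y ∧ G.dist z y ≤ k ∧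
        Ch G k A y b := by
    clear hb
    induction h with
    | refl => exact Or.inl ⟨Ch.refl _, ha⟩
    | @tail x y _ h2 ih =>
      rcases ih with ⟨h3, h4⟩ | ⟨z, y', h3, h4, h5, h6, h7, h8, h9⟩
      · by_cases hy : P y
        · exact Or.inr ⟨x, y, h3, h2.1, h4, h2.2.1, hy, h2.2.2, Ch.refl _⟩
        · exact Or.inl ⟨h3.tail ⟨h2.1, h4⟩ ⟨h2.2.1, hy⟩ h2.2.2, hy⟩
      · exact Or.inr ⟨z, y', h3, h4, h5, h6, h7, h8, h9.tail h2.1 h2.2.1 h2.2.2⟩
  rcases key with ⟨_, h2⟩ | h2
  · exact absurd hb h2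
  · exact h2

/-- A chain either avoids `{x | P x}` or reaches it. -/
theorem Ch.avoid_or (h : Ch G k A a b) (P : V → Prop) (ha : ¬ P a) :
    Ch G k (A ∩ {x | ¬ P x}) a b ∨ ∃ y, P y ∧ Ch G k A a y := by
  induction h with
  | refl => exact Or.inl (Ch.refl _)
  | @tail x y h1 h2 ih =>
    have h1' : Ch G k A a x := h1
    rcases ih with h3 | h3
    · by_cases hy : P y
      · exact Or.inr ⟨y, hy, h1'.tail h2.1 h2.2.1 h2.2.2⟩
      · by_cases hx : P x
        · exact Or.inr ⟨x, hx, h1'⟩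
        · exact Or.inl (h3.tail ⟨h2.1, hx⟩ ⟨h2.2.1, hy⟩ h2.2.2)
    · exact Or.inr h3

theorem Conn.mono (h : Conn G k A) (hk : k ≤ k') : Conn G k' A :=
  fun a ha b hb => (h a ha b hb).mono hk subset_rfl

theorem conn_of_base (z : V) (h : ∀ a ∈ A, Ch G k A z a) : Conn G k A :=
  fun a ha b hb => (h a ha).symm.trans (h b hb)

theorem Conn.union (h : Conn G k A) (h' : Conn G k A') (ha : a ∈ A) (hb : b ∈ A')
    (hab : G.dist a b ≤ k) : Conn G k (A ∪ A') := by
  refine conn_of_base a fun x hx => ?_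
  rcases hx with hx | hx
  · exact (h a ha x hx).mono le_rfl Set.subset_union_left
  · exact (Ch.single (A := A ∪ A') (Or.inl ha) (Or.inr hb) hab).trans
      ((h' b hb x hx).mono le_rfl Set.subset_union_right)

theorem Conn.union' (h : Conn G k A) (h' : Conn G k A') (ha : a ∈ A) (ha' : a ∈ A') :
    Conn G k (A ∪ A') := h.union h' ha ha' (by simp)

theorem conn_singleton (G : SimpleGraph V) (k : ℕ) (a : V) : Conn G k {a} := by
  intro x hx y hy
  rw [Set.mem_singleton_iff] at hx hy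
  subst hx; subst hy; exact Ch.refl _

theorem Apart.symm {K : ℕ} (h : Apart G K A A') : Apart G K A' A :=
  fun y hy z hz => by rw [dist_comm]; exact h z hz y hy

theorem Apart.mono {K K' : ℕ} {Y Y' : Set V} (h : Apart G K A A') (hK : K' ≤ K) (hY : Y ⊆ A)
    (hY' : Y' ⊆ A') : Apart G K' Y Y' := fun y hy z hz => hK.trans (h y (hY hy) z (hY' hz))

theorem tri (hG : G.Connected) (a b d : V) : G.dist a d ≤ G.dist a b + G.dist b d :=
  hG.dist_triangle

theorem dist_le_one_of_adj (h : G.Adj a b) : G.dist a b ≤ 1 := by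
  rw [dist_eq_one_iff_adj.2 h]

theorem eq_or_adj_of_dist (hG : G.Connected) (h : G.dist a b ≤ 1) : a = b ∨ G.Adj a b := by
  rcases Nat.le_one_iff_eq_zero_or_eq_one.1 h with h | h
  · exact Or.inl ((hG.dist_eq_zero_iff).1 h)
  · exact Or.inr (dist_eq_one_iff_adj.1 h)

/-- One step along a geodesic. -/
theorem exists_step (hG : G.Connected) {n : ℕ} (h : G.dist a b = n + 1) :
    ∃ x, G.dist a x = n ∧ G.dist x b ≤ 1 := by
  obtain ⟨p, hp⟩ := hG.exists_walk_length_eq_dist b a
  cases p with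
  | nil => simp at h
  | @cons _ x _ hx p =>
    have h1 : G.dist x a ≤ p.length := dist_le p
    have h2 := tri hG a x b
    have h3 : G.dist x b ≤ 1 := dist_le_one_of_adj hx.symm
    rw [dist_comm] at hp h1
    simp only [Walk.length_cons] at hp
    exact ⟨x, by omega, h3⟩

/-- The interval between two vertices carries a chain with unit steps. -/
theorem ch_interval (hG : G.Connected) (a b : V) :
    Ch G 1 {v | G.dist a v + G.dist v b = G.dist a b} a b := by
  have key : ∀ n, ∀ x, G.dist a x = n → G.dist a x + G.dist x b = G.dist a b →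
      Ch G 1 {v | G.dist a v + G.dist v b = G.dist a b} a x := by
    intro n
    induction n with
    | zero =>
      intro x hx _
      rw [(hG.dist_eq_zero_iff).1 hx]; exact Ch.refl _
    | succ n ih =>
      intro x hx hx'
      obtain ⟨y, hy, hyx⟩ := exists_step hG hx
      have h1 := tri hG y x b
      have h2 := tri hG a y b
      have h3 : G.dist a y + G.dist y b = G.dist a b := by omega
      exact (ih y hy h3).tail h3 hx' hyx
  exact key _ b rfl (by simp)

theorem conn_interval (hG : G.Connected) (a b : V) :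
    Conn G 1 {v | G.dist a v + G.dist v b = G.dist a b} := by
  refine conn_of_base a fun x hx => (ch_interval hG a x).mono le_rfl fun v hv => ?_
  simp only [Set.mem_ofPred_eq] at hx hv ⊢
  have h1 := tri hG v x b
  have h2 := tri hG a v b
  omega

theorem subset_nb (G : SimpleGraph V) (h : ℕ) (A : Set V) : A ⊆ Nb G h A :=
  fun a ha => ⟨a, ha, by simp⟩

theorem Conn.nb (hG : G.Connected) (h : Conn G k A) : Conn G 1 (Nb G k A) := by
  have h1 : ∀ a ∈ A, ∀ v, G.dist a v ≤ k → Ch G 1 (Nb G k A) a v := fun a ha v hv =>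
    (ch_interval hG a v).mono le_rfl fun x hx => ⟨a, ha, by
      simp only [Set.mem_ofPred_eq] at hx; omega⟩
  have h2 : ∀ a b, Ch G k A a b → Ch G 1 (Nb G k A) a b := by
    intro a b hab
    induction hab with
    | refl => exact Ch.refl _
    | tail _ h3 ih => exact ih.trans (h1 _ h3.1 _ h3.2.2)
  rintro x ⟨a, ha, hx⟩ y ⟨b, hb, hy⟩
  exact (h1 a ha x hx).symm.trans ((h2 a b (h a ha b hb)).trans (h1 b hb y hy))

theorem Conn.induce (hG : G.Connected) (h : Conn G 1 A) (hne : A.Nonempty) :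
    (G.induce A).Connected := by
  have key : ∀ a b, Ch G 1 A a b → ∀ (ha : a ∈ A) (hb : b ∈ A),
      (G.induce A).Reachable ⟨a, ha⟩ ⟨b, hb⟩ := by
    intro a b hab
    induction hab with
    | refl => intro _ _; exact Reachable.refl _
    | @tail x y _ h3 ih =>
      intro ha hb
      refine (ih ha h3.1).trans ?_
      rcases eq_or_adj_of_dist hG h3.2.2 with h4 | h4
      · subst h4; exact Reachable.refl _
      · exact Adj.reachable (by simpa using h4)
  obtain ⟨a, ha⟩ := hne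
  have : Nonempty A := ⟨⟨a, ha⟩⟩
  exact ⟨fun x y => key x y (h _ x.2 _ y.2) x.2 y.2⟩

theorem ClawP.three {o : V} {ρ m : ℕ} (h : ClawP G o k ρ) {Q₁ Q₂ Q₃ : Set V} {z t₁ t₂ t₃ : V}
    (l₁ : Q₁ ⊆ Lv G o m) (l₂ : Q₂ ⊆ Lv G o m) (l₃ : Q₃ ⊆ Lv G o m) (c₁ : Conn G k Q₁)
    (c₂ : Conn G k Q₂) (c₃ : Conn G k Q₃) (z₁ : z ∈ Q₁) (z₂ : z ∈ Q₂) (z₃ : z ∈ Q₃)
    (m₁ : t₁ ∈ Q₁) (m₂ : t₂ ∈ Q₂) (m₃ : t₃ ∈ Q₃)
    (a₁ : ∀ u ∈ Q₁, ρ ≤ G.dist u t₂ ∧ ρ ≤ G.dist u t₃)
    (a₂ : ∀ u ∈ Q₂, ρ ≤ G.dist u t₁ ∧ ρ ≤ G.dist u t₃)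
    (a₃ : ∀ u ∈ Q₃, ρ ≤ G.dist u t₁ ∧ ρ ≤ G.dist u t₂) : False := by
  refine h m ![Q₁, Q₂, Q₃] z ![t₁, t₂, t₃] ?_ ?_ ?_ ?_ ?_
  · intro i; fin_cases i <;> simpa
  · intro i; fin_cases i <;> simpa
  · intro i; fin_cases i <;> simpa
  · intro i; fin_cases i <;> simpa
  · intro i j hij u hu
    fin_cases i <;> fin_cases j <;> simp at hij hu ⊢
    exacts [(a₁ u hu).1, (a₁ u hu).2, (a₂ u hu).1, (a₂ u hu).2, (a₃ u hu).1, (a₃ u hu).2]

/-! Big points -/

variable {o : V} {c B m : ℕ}

theorem YL.lv {y : V} (h : y ∈ YL G o c B m) : G.dist o y = m := h.1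

theorem YL.of_ch {y y' : V} (h : y ∈ YL G o c B m) (h' : Ch G c (Lv G o m) y y') :
    y' ∈ YL G o c B m := by
  obtain ⟨h1, u, v, hu, hv, huv⟩ := h
  exact ⟨h'.mem h1, u, v, h'.symm.trans hu, h'.symm.trans hv, huv⟩

theorem YL.ch {y y' : V} (h : y ∈ YL G o c B m) (h' : Ch G c (Lv G o m) y y') :
    Ch G c (YL G o c B m) y y' := h'.comp.mono le_rfl fun _ hx => YL.of_ch h hx

/-- From a big point a chain of big points leaves every ball of radius below `B / 2`. -/
theorem YL.far (hG : G.Connected) {y : V} (h : y ∈ YL G o c B m) (x : V) {r : ℕ}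
    (hr : 2 * r ≤ B) : ∃ v, Ch G c (YL G o c B m) y v ∧ r ≤ G.dist x v := by
  obtain ⟨h1, u, v, hu, hv, huv⟩ := id h
  have h2 := tri hG u x v
  rw [dist_comm (u := u) (v := x)] at h2
  by_cases h3 : r ≤ G.dist x u
  · exact ⟨u, YL.ch h hu, h3⟩
  · exact ⟨v, YL.ch h hv, by omega⟩

/-! Combings -/

variable {σ : V → ℕ → V}

theorem Cmb.dist_le (h : Cmb G c o σ) (x : V) (s n : ℕ) : G.dist (σ x s) (σ x (s + n)) ≤ n := by
  induction n with
  | zero => simp
  | succ n ih =>
    have h1 := tri h.conn (σ x s) (σ x (s + n)) (σ x (s + n + 1))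
    have h2 := h.step x (s + n)
    rw [← add_assoc]; omega

theorem Cmb.dist_le' (h : Cmb G c o σ) (x : V) {s t : ℕ} (hst : s ≤ t) :
    G.dist (σ x s) (σ x t) ≤ t - s := by
  obtain ⟨n, rfl⟩ := Nat.exists_eq_add_of_le hst
  simpa using h.dist_le x s n

theorem Cmb.dist_top (h : Cmb G c o σ) (x : V) (s : ℕ) : G.dist (σ x s) x ≤ G.dist o x - s := by
  by_cases hs : s ≤ G.dist o x
  · have := h.dist_le' x hs
    rwa [h.stop x _ le_rfl] at this
  · rw [h.stop x s (by omega)]; simp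

theorem Cmb.lev_le (h : Cmb G c o σ) (x : V) (t : ℕ) : G.dist o (σ x t) ≤ t := by
  by_cases ht : t ≤ G.dist o x
  · exact (h.lev x t ht).le
  · rw [h.stop x t (by omega)]; omega

theorem Cmb.conn_seg (h : Cmb G c o σ) (x : V) (s t : ℕ) : Conn G 1 (Seg σ x s t) := by
  refine conn_of_base (σ x s) ?_
  rintro _ ⟨i, hs, ht, rfl⟩
  induction i, hs using Nat.le_induction with
  | base => exact Ch.refl _
  | succ i hi ih =>
    exact (ih (by omega)).tail ⟨i, hi, by omega, rfl⟩ ⟨i + 1, by omega, ht, rfl⟩ (h.step x i)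

theorem Cmb.conn_proj (h : Cmb G c o σ) (hA : Conn G 1 A) (n : ℕ) :
    Conn G c ((fun y => σ y n) '' A) := by
  rintro _ ⟨x, hx, rfl⟩ _ ⟨y, hy, rfl⟩
  have := hA x hx y hy
  clear hy
  induction this with
  | refl => exact Ch.refl _
  | tail _ h2 ih => exact ih.tail ⟨_, h2.1, rfl⟩ ⟨_, h2.2.1, rfl⟩ (h.ft _ _ h2.2.2 n)

theorem HasCombing.cmb (hG : G.Connected) (h : HasCombing G c) : ∃ o σ, Cmb G c o σ := by
  obtain ⟨o, p, hl, hf⟩ := h
  have step : ∀ x t, G.dist ((p x).getVert t) ((p x).getVert (t + 1)) ≤ 1 := by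
    intro x t
    by_cases ht : t < (p x).length
    · exact dist_le_one_of_adj ((p x).adj_getVert_succ ht)
    · rw [(p x).getVert_of_length_le (by omega), (p x).getVert_of_length_le (by omega)]; simp
  have dl : ∀ x s n, G.dist ((p x).getVert s) ((p x).getVert (s + n)) ≤ n := by
    intro x s n
    induction n with
    | zero => simp
    | succ n ih =>
      have h1 := tri hG ((p x).getVert s) ((p x).getVert (s + n)) ((p x).getVert (s + n + 1))
      have h2 := step x (s + n)
      rw [← add_assoc]; omega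
  refine ⟨o, fun x t => (p x).getVert t, hG, fun x => by simp, fun x t ht => ?_,
    fun x t ht => (p x).getVert_of_length_le (by rw [hl]; exact ht), step, fun x y hxy t => ?_⟩
  · have h1 := dl x 0 t
    obtain ⟨n, hn⟩ := Nat.exists_eq_add_of_le ht
    have h2 := dl x t n
    rw [← hn, (p x).getVert_of_length_le (hl x).le] at h2
    have h3 := tri hG o ((p x).getVert t) x
    simp only [Walk.getVert_zero, zero_add] at h1
    omega
  · rcases eq_or_adj_of_dist hG hxy with rfl | h1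
    · simp
    · exact hf x y h1 t

end Metric

section Graph

variable {α : Type u} {L : SimpleGraph α} {a b d : α} {n n' : ℕ} {T T' : Set α}

theorem Near.refl (L : SimpleGraph α) (n : ℕ) (a : α) : Near L n a a := ⟨Walk.nil, by simp⟩

theorem Near.symm (h : Near L n a b) : Near L n b a := by
  obtain ⟨p, hp⟩ := h; exact ⟨p.reverse, by simpa⟩

theorem Near.trans (h : Near L n a b) (h' : Near L n' b d) : Near L (n + n') a d := by
  obtain ⟨p, hp⟩ := h; obtain ⟨q, hq⟩ := h'
  exact ⟨p.append q, by rw [Walk.length_append]; omega⟩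

theorem Near.mono (h : Near L n a b) (hn : n ≤ n') : Near L n' a b := by
  obtain ⟨p, hp⟩ := h; exact ⟨p, hp.trans hn⟩

theorem Near.of_adj (h : L.Adj a b) : Near L 1 a b := ⟨h.toWalk, by simp⟩

theorem Near.of_or (h : a = b ∨ L.Adj a b) : Near L 1 a b := by
  rcases h with rfl | h
  · exact Near.refl _ _ _
  · exact Near.of_adj h

theorem Near.zero (h : Near L 0 a b) : a = b := by
  obtain ⟨p, hp⟩ := h
  exact Walk.eq_of_length_eq_zero (Nat.le_zero.1 hp)

theorem Near.succ (h : Near L (n + 1) a b) : ∃ x, (a = x ∨ L.Adj a x) ∧ Near L n x b := by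
  obtain ⟨p, hp⟩ := h
  cases p with
  | nil => exact ⟨a, Or.inl rfl, Near.refl _ _ _⟩
  | cons h p => exact ⟨_, Or.inr h, p, by simpa using hp⟩

/-- A property preserved by edges is preserved by short walks. -/
theorem Near.induct (h : Near L n a b) (P : α → Prop) (ha : P a)
    (hP : ∀ x y, P x → L.Adj x y → P y) : P b := by
  obtain ⟨p, -⟩ := h
  induction p with
  | nil => exact ha
  | cons h p ih => exact ih (hP _ _ ha h)

theorem LCh.refl (a : α) : LCh L T a a := Relation.ReflTransGen.refl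

theorem LCh.trans (h : LCh L T a b) (h' : LCh L T b d) : LCh L T a d :=
  Relation.ReflTransGen.trans h h'

theorem LCh.single (ha : a ∈ T) (hb : b ∈ T) (h : L.Adj a b) : LCh L T a b :=
  Relation.ReflTransGen.single ⟨ha, hb, h⟩

theorem LCh.symm (h : LCh L T a b) : LCh L T b a := by
  induction h with
  | refl => exact LCh.refl _
  | tail _ h2 ih => exact (LCh.single h2.2.1 h2.1 h2.2.2.symm).trans ih

theorem LCh.mono (h : LCh L T a b) (hT : T ⊆ T') : LCh L T' a b := by
  induction h with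
  | refl => exact LCh.refl _
  | tail _ h2 ih => exact ih.trans (LCh.single (hT h2.1) (hT h2.2.1) h2.2.2)

theorem LCh.mem (h : LCh L T a b) (ha : a ∈ T) : b ∈ T := by
  induction h with
  | refl => exact ha
  | tail _ h2 _ => exact h2.2.1

theorem LCh.induct (h : LCh L T a b) (P : α → Prop) (ha : P a)
    (hP : ∀ x y, P x → L.Adj x y → P y) : P b := by
  induction h with
  | refl => exact ha
  | tail _ h2 ih => exact hP _ _ ih h2.2.2

end Graph

section Proj

variable {V : Type u} {G : SimpleGraph V} {c w w₂ D : ℕ} {o : V} {σ : V → ℕ → V} {N : Set V}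
  {ψ : V → V} {L : SimpleGraph V}

theorem proj_one (h : Cmb G c o σ) (P : LevelPkg G o c w w₂ D N ψ L) {m : ℕ} {u v : V}
    (hu : m ≤ G.dist o u) (hv : m ≤ G.dist o v) (huv : G.dist u v ≤ 1) :
    Near L 1 (ψ (σ u m)) (ψ (σ v m)) :=
  Near.of_or (P.close _ _ (by rw [h.lev u m hu, h.lev v m hv]) (h.ft u v huv m))

theorem proj_dist (h : Cmb G c o σ) (P : LevelPkg G o c w w₂ D N ψ L) {m : ℕ} {u : V} (n : ℕ) :
    ∀ v, m + n ≤ G.dist o u → G.dist u v ≤ n → Near L n (ψ (σ u m)) (ψ (σ v m)) := by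
  induction n with
  | zero =>
    intro v _ hv
    rw [(h.conn.dist_eq_zero_iff).1 (Nat.le_zero.1 hv)]; exact Near.refl _ _ _
  | succ n ih =>
    intro v hu hv
    by_cases h1 : G.dist u v ≤ n
    · exact (ih v (by omega) h1).mono (by omega)
    · obtain ⟨x, hx, hxv⟩ := exists_step h.conn (show G.dist u v = n + 1 by omega)
      have h2 := tri h.conn o x u
      have h3 := tri h.conn o v u
      rw [dist_comm (u := x) (v := u)] at h2
      rw [dist_comm (u := v) (v := u)] at h3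
      exact (ih x (by omega) hx.le).trans (proj_one h P (by omega) (by omega) hxv)

theorem proj_line (h : Cmb G c o σ) (P : LevelPkg G o c w w₂ D N ψ L) {m : ℕ} {p : V} (n : ℕ) :
    ∀ t, m ≤ t → t + n = G.dist o p → Near L n (ψ (σ (σ p t) m)) (ψ (σ p m)) := by
  induction n with
  | zero =>
    intro t _ ht
    rw [h.stop p t (by omega)]; exact Near.refl _ _ _
  | succ n ih =>
    intro t hm ht
    have h1 := proj_one h P (m := m) (u := σ p t) (v := σ p (t + 1))
      (by rw [h.lev p t (by omega)]; exact hm) (by rw [h.lev p (t + 1) (by omega)]; omega)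
      (h.step p t)
    have := h1.trans (ih (t + 1) (by omega) (by omega))
    rwa [add_comm] at this

end Proj

end Pool.Agent.Lib.MP_f9389f_co
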