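import Mathlib
import Pool.Agent.Lib.MP_f9389f_co.CbBasic

/-! Assembly of the planar model. -/

namespace Pool.Agent.Lib.MP_f9389f_co

universe u

open SimpleGraph

theorem HasFatMinor.mono {V ι : Type*} {G : SimpleGraph V} {H : SimpleGraph ι} {K K' : ℕ}
    (h : HasFatMinor G H K') (hK : K ≤ K') : HasFatMinor G H K := by
  obtain ⟨B, P, h1, h2, h3, h4, h5⟩ := h
  exact ⟨B, P, h1, h2, fun u w h y hy z hz => hK.trans (h3 u w h y hy z hz),
    fun e he f hf h y hy z hz => hK.trans (h4 e he f hf h y hy z hz),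
    fun e he u h y hy z hz => hK.trans (h5 e he u h y hy z hz)⟩

theorem HasMinor.of_induce {V ι : Type*} {G : SimpleGraph V} {H : SimpleGraph ι} {W : Set V}
    (h : HasMinor (G.induce W) H) : HasMinor G H := by
  obtain ⟨B, h1, h2, h3⟩ := h
  refine ⟨fun u => Subtype.val '' B u, fun u => ?_, fun u w huw => ?_, fun u w huw => ?_⟩
  · let f : (G.induce W).induce (B u) →g G.induce (Subtype.val '' B u) :=
      ⟨fun x => ⟨x.1.1, x.1, x.2, rfl⟩, fun h => h⟩
    refine (h1 u).map f ?_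
    rintro ⟨_, x, hx, rfl⟩
    exact ⟨⟨x, hx⟩, rfl⟩
  · exact (Set.disjoint_image_iff Subtype.val_injective).2 (h2 u w huw)
  · obtain ⟨a, ha, b, hb, hab⟩ := h3 u w huw
    exact ⟨a, ⟨a, ha, rfl⟩, b, ⟨b, hb, rfl⟩, hab⟩

theorem lip_of_adj {V W : Type*} {G : SimpleGraph V} {H : SimpleGraph W} (hG : G.Connected)
    (hH : H.Connected) (f : V → W) {M : ℕ} (h : ∀ u v, G.Adj u v → H.dist (f u) (f v) ≤ M)
    (u v : V) : H.dist (f u) (f v) ≤ M * G.dist u v := by
  obtain ⟨p, hp⟩ := hG.exists_walk_length_eq_dist u v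
  rw [← hp]
  clear hp
  induction p with
  | nil => simp
  | @cons a b d hab p ih =>
    have h1 : H.dist (f a) (f d) ≤ H.dist (f a) (f b) + H.dist (f b) (f d) := hH.dist_triangle
    have h2 := h a b hab
    rw [Walk.length_cons, Nat.mul_succ]
    omega

theorem qi_of {V W : Type*} {G : SimpleGraph V} {H : SimpleGraph W} (hG : G.Connected)
    (hH : H.Connected) (φ : V → W) (r : W → V) {M A : ℕ} (hM : 1 ≤ M)
    (h1 : ∀ u v, G.Adj u v → H.dist (φ u) (φ v) ≤ M)
    (h2 : ∀ s t, H.Adj s t → G.dist (r s) (r t) ≤ M) (h3 : ∀ u, G.dist u (r (φ u)) ≤ A)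
    (h4 : ∀ s, φ (r s) = s) : IsQI G H φ M (2 * A) := by
  refine ⟨fun x y => ⟨?_, ?_⟩, fun s => ⟨r s, by simp [h4]⟩⟩
  · have a1 := lip_of_adj hH hG r h2 (φ x) (φ y)
    have a2 : G.dist x y ≤ G.dist x (r (φ x)) + G.dist (r (φ x)) y := hG.dist_triangle
    have a3 : G.dist (r (φ x)) y ≤ G.dist (r (φ x)) (r (φ y)) + G.dist (r (φ y)) y :=
      hG.dist_triangle
    have a4 := h3 x
    have a5 := h3 y
    rw [dist_comm] at a5
    have a6 : G.dist x y ≤ M * (H.dist (φ x) (φ y) + 2 * A) := by nlinarith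
    have a7 : (G.dist x y : ℝ) ≤ M * (H.dist (φ x) (φ y) + 2 * A) := by exact_mod_cast a6
    have a8 : (0 : ℝ) < M := by exact_mod_cast hM
    rw [sub_le_iff_le_add, inv_mul_le_iff₀ a8]
    push_cast
    exact a7
  · have a1 := lip_of_adj hG hH φ h1 x y
    have a2 : (H.dist (φ x) (φ y) : ℝ) ≤ M * G.dist x y := by exact_mod_cast a1
    have a3 : (0 : ℝ) ≤ ((2 * A : ℕ) : ℝ) := by positivity
    linarith

theorem LevelPkg.weaken {V : Type u} {G : SimpleGraph V} {o : V} {c w w₂ w₃ D : ℕ} {N : Set V}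
    {ψ : V → V} {L : SimpleGraph V} (P : LevelPkg G o c w w₂ D N ψ L) (h : w₃ ≤ w₂) :
    LevelPkg G o c w w₃ D N ψ L :=
  { P with sep := fun z y h1 h2 h3 h4 => P.sep z y h1 h2 h3 (h4.trans h) }

/-- The model built from the level structure and the parents. -/
theorem model {V : Type u} {G : SimpleGraph V} {c w w₂ D R c₅ : ℕ} {o : V} {σ : V → ℕ → V}
    {N : Set V} {ψ : V → V} {L : SimpleGraph V} (hLay : LayStmt.{u}) (h : Cmb G c o σ)
    (P : LevelPkg G o c w w₂ D N ψ L) (hR : 1 ≤ R) (hD : D ≤ R) (par : V → V)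
    (owner : Sym2 V → Sym2 V)
    (p₁ : ∀ a, a ∈ N → R ≤ G.dist o a → Near L c₅ (ψ (σ a (G.dist o a - R))) (par a))
    (p₂ : ∀ a, a ∈ N → R ≤ G.dist o a → ∀ b, L.Adj a b →
      ∃ ω : L.Walk (par a) (par b), ∀ f ∈ ω.edges, owner f = s(a, b)) :
    ∃ (W : Type u) (G' : SimpleGraph W) (φ : V → W), G'.Connected ∧ Function.Surjective φ ∧
      IsQI G G' φ (R + D + 2 + c₅ * (D + 1)) (2 * (R + D)) ∧
      ¬ HasMinor G' (⊤ : SimpleGraph (Fin 5)) ∧ ¬ HasMinor G' K33 := by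
  have hG := h.conn
  set W : Set V := {t | t ∈ N ∧ R ∣ G.dist o t} with hW
  set lev : V → ℕ := fun t => G.dist o t / R with hlev
  have nearN : ∀ {n a b}, Near L n a b → a ∈ N → b ∈ N ∧ G.dist o b = G.dist o a :=
    fun {n a b} hab ha => hab.induct (fun x => x ∈ N ∧ G.dist o x = G.dist o a) ⟨ha, rfl⟩
      fun x y hx hxy => ⟨P.adjN _ _ hxy.symm, by rw [← P.adjlev _ _ hxy, hx.2]⟩
  have neard : ∀ {n a b}, Near L n a b → G.dist a b ≤ n * D := by
    intro n
    induction n with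
    | zero => intro a b hab; rw [hab.zero]; simp
    | succ n ih =>
      intro a b hab
      obtain ⟨x, hx, hxb⟩ := hab.succ
      have h1 := ih hxb
      have h2 := tri hG a x b
      have h3 : G.dist a x ≤ D := by
        rcases hx with rfl | hx
        · simp
        · exact P.adjdist _ _ hx
      rw [Nat.succ_mul]; omega
  have posR : ∀ a ∈ W, 0 < lev a → R ≤ G.dist o a := fun a _ ha =>
    (Nat.div_pos_iff.1 ha).2
  have parlev : ∀ a, a ∈ N → R ≤ G.dist o a → par a ∈ N ∧ G.dist o (par a) + R = G.dist o a := by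
    intro a ha hl
    obtain ⟨h1, h2⟩ := nearN (p₁ a ha hl) (P.mem _)
    rw [P.lev, h.lev a _ (by omega)] at h2
    exact ⟨h1, by omega⟩
  have w₁ : ∀ a ∈ W, ∀ b, L.Adj a b → b ∈ W ∧ lev a = lev b ∧ 0 < lev a := by
    intro a ha b hab
    have h1 := P.adjlev _ _ hab
    refine ⟨⟨P.adjN _ _ hab.symm, h1 ▸ ha.2⟩, by simp only [hlev, h1], ?_⟩
    have h2 : G.dist o a ≠ 0 := fun h0 => by
      have h3 := (hG.dist_eq_zero_iff).1 h0
      have h4 := (hG.dist_eq_zero_iff).1 (h1 ▸ h0)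
      exact hab.ne (h3.symm.trans h4)
    exact Nat.div_pos (Nat.le_of_dvd (Nat.pos_of_ne_zero h2) ha.2) hR
  have w₂' : ∀ a ∈ W, 0 < lev a → par a ∈ W ∧ lev (par a) + 1 = lev a := by
    intro a ha hl
    obtain ⟨h1, h2⟩ := parlev a ha.1 (posR a ha hl)
    refine ⟨⟨h1, ?_⟩, ?_⟩
    · have h3 := ha.2
      rw [← h2] at h3
      exact (Nat.dvd_add_left (dvd_refl R)).1 h3
    · simp only [hlev]
      rw [← h2, Nat.add_div_right _ hR]
  obtain ⟨m₅, m₃⟩ := hLay V L W lev par owner P.deg w₁ w₂'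
    fun a ha b hab => p₂ a ha.1 (posR a ha (w₁ a ha b hab).2.2) b hab
  set H := (Lay L W lev par).induce W with hH
  have adjH : ∀ a b : W, L.Adj a b → H.Adj a b := fun a b hab => by
    simp only [hH, Lay, comap_adj, Function.Embedding.subtype_apply, fromRel_adj]
    exact ⟨hab.ne, Or.inl ⟨a.2, Or.inl hab⟩⟩
  have adjP : ∀ a b : W, 0 < lev a → par a = b → H.Adj a b := fun a b ha hab => by
    simp only [hH, Lay, comap_adj, Function.Embedding.subtype_apply, fromRel_adj]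
    refine ⟨fun h0 => ?_, Or.inl ⟨a.2, Or.inr ⟨ha, hab⟩⟩⟩
    have := (w₂' a a.2 ha).2
    rw [hab, ← h0] at this
    omega
  have oW : o ∈ W := by
    have h1 := P.lev o
    rw [dist_self] at h1
    have h2 := (hG.dist_eq_zero_iff).1 h1
    exact ⟨h2 ▸ P.mem o, by simp⟩
  have reach : ∀ n, ∀ a : W, lev a = n → H.Reachable a ⟨o, oW⟩ := by
    intro n
    induction n with
    | zero =>
      intro a ha
      have h1 : G.dist o a = 0 := by
        rcases Nat.eq_zero_or_pos (G.dist o a) with h1 | h1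
        · exact h1
        · have := Nat.div_pos (Nat.le_of_dvd h1 a.2.2) hR
          simp only [hlev] at ha
          omega
      have h2 : a = ⟨o, oW⟩ := Subtype.ext ((hG.dist_eq_zero_iff).1 h1).symm
      rw [h2]
    | succ n ih =>
      intro a ha
      obtain ⟨h1, h2⟩ := w₂' a a.2 (by omega)
      exact (adjP a ⟨_, h1⟩ (by omega) rfl).reachable.trans (ih ⟨_, h1⟩ (by simp only; omega))
  have hHc : H.Connected := by
    have : Nonempty W := ⟨⟨o, oW⟩⟩
    exact ⟨fun a b => (reach _ a rfl).trans (reach _ b rfl).symm⟩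
  have nearH : ∀ n, ∀ a b : W, Near L n a b → H.dist a b ≤ n := by
    intro n
    induction n with
    | zero => intro a b hab; rw [Subtype.ext hab.zero]; simp
    | succ n ih =>
      intro a b hab
      obtain ⟨x, hx, hxb⟩ := hab.succ
      rcases hx with rfl | hx
      · exact (ih a b hxb).trans (by omega)
      · have h1 := ih ⟨x, (w₁ a a.2 x hx).1⟩ b hxb
        have h2 := tri hHc a ⟨x, (w₁ a a.2 x hx).1⟩ b
        have h3 := dist_le_one_of_adj (adjH a ⟨x, (w₁ a a.2 x hx).1⟩ hx)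
        omega
  have fl : ∀ n : ℕ, n / R * R ≤ n ∧ n < n / R * R + R := fun n =>
    ⟨Nat.div_mul_le_self n R, Nat.lt_div_mul_add hR⟩
  have φW : ∀ u, ψ (σ u (G.dist o u / R * R)) ∈ W := fun u =>
    ⟨P.mem _, by rw [P.lev, h.lev u _ (fl _).1]; exact Dvd.intro_left _ rfl⟩
  set φ : V → W := fun u => ⟨_, φW u⟩ with hφ
  have sec : ∀ s : W, φ s = s := fun s => Subtype.ext (by
    simp only [hφ]
    rw [Nat.div_mul_cancel s.2.2, h.stop _ _ le_rfl, P.fix _ s.2.1])
  have half : ∀ u v, G.Adj u v → G.dist o u ≤ G.dist o v →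
      H.dist (φ u) (φ v) ≤ R + D + 2 + c₅ * (D + 1) := by
    intro u v huv hl
    have d1 := dist_le_one_of_adj huv
    have d2 := tri hG o u v
    by_cases e : G.dist o u / R = G.dist o v / R
    · refine (nearH 1 _ _ ?_).trans (by omega)
      simp only [hφ]
      rw [← e]
      exact proj_one h P (fl _).1 ((fl _).1.trans hl) d1
    · have e1 : G.dist o u / R + 1 ≤ G.dist o v / R :=
        Nat.succ_le_of_lt (lt_of_le_of_ne (Nat.div_le_div_right hl) e)
      have e2 : (G.dist o u / R + 1) * R ≤ G.dist o v / R * R := Nat.mul_le_mul_right R e1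
      have e3 := fl (G.dist o u)
      have e4 := fl (G.dist o v)
      rw [Nat.succ_mul] at e2
      have e5 : G.dist o v / R * R = G.dist o v := by omega
      have e6 : G.dist o v = G.dist o u / R * R + R := by omega
      have e7 : (φ v : V) = ψ v := by
        simp only [hφ]
        rw [e5, h.stop _ _ le_rfl]
      have e8 : G.dist o (ψ v) = G.dist o u / R * R + R := by rw [P.lev, e6]
      have lv : 0 < lev (φ v) := by
        simp only [hlev]
        rw [e7]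
        exact Nat.div_pos (by omega) hR
      obtain ⟨q1, -⟩ := w₂' _ (φ v).2 lv
      have n1 := p₁ (ψ v) (P.mem v) (by omega)
      rw [e8, Nat.add_sub_cancel] at n1
      have n2 := proj_dist h P (m := G.dist o u / R * R) (u := v) D (ψ v) (by omega) (P.near v)
      have n3 := proj_one h P (m := G.dist o u / R * R) (u := u) (v := v) e3.1 (by omega) d1
      have n4 := nearH _ (φ u) ⟨_, q1⟩ (by
        simp only [e7]; exact (n3.trans n2).trans n1)
      have n5 := dist_le_one_of_adj (adjP (φ v) ⟨_, q1⟩ lv rfl).symm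
      have n6 := tri hHc (φ u) ⟨_, q1⟩ (φ v)
      rw [Nat.mul_succ]
      omega
  refine ⟨W, H, φ, hHc, fun s => ⟨s, sec s⟩,
    qi_of hG hHc φ Subtype.val (by omega) ?_ ?_ ?_ sec,
    fun hm => m₅ hm.of_induce, fun hm => m₃ hm.of_induce⟩
  · intro u v huv
    rcases le_total (G.dist o u) (G.dist o v) with hl | hl
    · exact half u v huv hl
    · rw [dist_comm]; exact half v u huv.symm hl
  · have key : ∀ s t : V, s ∈ W ∧ (L.Adj s t ∨ (0 < lev s ∧ par s = t)) →
        G.dist s t ≤ R + D + 2 + c₅ * (D + 1) := by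
      rintro s t ⟨hs, hst | ⟨hl, rfl⟩⟩
      · have := P.adjdist _ _ hst
        omega
      · have h0 := posR s hs hl
        have h1 := neard (p₁ s hs.1 h0)
        have h2 := h.dist_top s (G.dist o s - R)
        have h3 := P.near (σ s (G.dist o s - R))
        have h4 := tri hG s (σ s (G.dist o s - R)) (par s)
        have h5 := tri hG (σ s (G.dist o s - R)) (ψ (σ s (G.dist o s - R))) (par s)
        rw [dist_comm] at h2
        rw [Nat.mul_succ]
        omega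
    intro s t hst
    simp only [hH, Lay, comap_adj, Function.Embedding.subtype_apply, fromRel_adj] at hst
    rcases hst.2 with h1 | h1
    · exact key _ _ h1
    · rw [dist_comm]; exact key _ _ h1
  · intro u
    have h1 := h.dist_top u (G.dist o u / R * R)
    have h2 := P.near (σ u (G.dist o u / R * R))
    have h3 := tri hG u (σ u (G.dist o u / R * R)) (ψ (σ u (G.dist o u / R * R)))
    have h4 := fl (G.dist o u)
    rw [dist_comm] at h1
    show G.dist u (ψ (σ u (G.dist o u / R * R))) ≤ R + D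
    omega

theorem comb_main (hClaw : ClawStmt.{u}) (hLips : LipsStmt.{u}) (hL3 : L3Stmt.{u})
    (hN2 : N2Stmt.{u}) (hTT : TTStmt.{u}) (hGood : GoodStmt.{u}) (hLevel : LevelStmt.{u})
    (hFold : FoldStmt.{u}) (hGate : GateStmt.{u}) (hLay : LayStmt.{u}) (K₀ c : ℕ) :
    ∃ M A : ℕ, 1 ≤ M ∧ ∀ (V : Type u) (G : SimpleGraph V), G.Connected → HasCombing G c →
      ¬ HasFatMinor G K33 K₀ →
      ∃ (W : Type u) (G' : SimpleGraph W) (φ : V → W), G'.Connected ∧ Function.Surjective φ ∧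
        IsQI G G' φ M A ∧ ¬ HasMinor G' (⊤ : SimpleGraph (Fin 5)) ∧ ¬ HasMinor G' K33 := by
  obtain ⟨K, hK, hK₀⟩ : ∃ K, 1 ≤ K ∧ K₀ ≤ K := ⟨K₀ + 1, by omega, by omega⟩
  obtain ⟨w, hw⟩ : ∃ w, w = 2 * c + 3 * K := ⟨_, rfl⟩
  obtain ⟨ρ, hρ⟩ : ∃ ρ : ℕ → ℕ, ∀ k, ρ k = 4 * k + 7 * c + 15 * K := ⟨_, fun _ => rfl⟩
  obtain ⟨s, hs⟩ : ∃ s : ℕ → ℕ, ∀ k, s k = 7 * (6 * ρ (k + w + c) + 6 * c + 9 * K +
    2 * ρ (k + w + c) + c + (k + w) + 1) := ⟨_, fun _ => rfl⟩
  have hs' : ∀ k, k < s k := fun k => by rw [hs]; omega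
  obtain ⟨r₃', hr₃'⟩ : ∃ r, r = s (s (s (s (ρ w)))) + w := ⟨_, rfl⟩
  obtain ⟨r₃, hr₃⟩ : ∃ r, r = s (s (s (s (r₃' + ρ w)))) + w := ⟨_, rfl⟩
  obtain ⟨B, hB⟩ : ∃ B, B = 8 * r₃ + 2 * w := ⟨_, rfl⟩
  obtain ⟨D, hD⟩ : ∃ D, D = 11 * (2 * (4 * r₃ + 2 * w) + B) := ⟨_, rfl⟩
  obtain ⟨R, hR⟩ : ∃ R, R = D + 2 * w + 2 * K := ⟨_, rfl⟩
  obtain ⟨c₅, hc₅⟩ := hGate D (2 * R + 3 * K + 5)
  refine ⟨R + D + 2 + c₅ * (D + 1), 2 * (R + D), by omega, fun V G hG hc hf => ?_⟩
  obtain ⟨o, σ, h⟩ := hc.cmb hG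
  have hf' : ¬ HasFatMinor G K33 K := fun h => hf (h.mono hK₀)
  have claw : ∀ k, ClawP G o k (ρ k) := fun k => by
    rw [hρ]; exact hClaw V G c o σ h K hK hf' k
  have l3 : ∀ k, L3P G o c w (k + w) (s k) := fun k => by
    rw [hs]
    exact hL3 V G hG o c w (k + w) _ _ (claw _) (hw ▸ hLips V G c o σ h K hK hf' _)
  have up : ∀ r, r < s (s (s (s r))) := fun r =>
    ((hs' _).trans (hs' _)).trans ((hs' _).trans (hs' _))
  have n2 : ∀ r, 2 * (s (s (s (s r))) + w) ≤ B → N2P G o c B w r (s (s (s (s r))) + w) :=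
    fun r hr => hN2 V G hG o c B w r _ _ _ _ _ (by omega) (l3 _) (l3 _) (l3 _) (l3 _) (hs' _).le
      (hs' _).le (hs' _).le (hs' _).le le_rfl hr
  have u₁ := up (ρ w)
  have u₂ := up (r₃' + ρ w)
  have n₁ : N2P G o c B w (ρ w) r₃' := hr₃' ▸ n2 _ (by omega)
  have n₂ : N2P G o c B w (r₃' + ρ w) r₃ := hr₃ ▸ n2 _ (by omega)
  have t₁ := hTT V G hG o c B w (ρ w) _ _ (by omega) (claw w) n₁ le_rfl (by omega) (by omega)
  have t₂ := hTT V G hG o c B w (ρ w) _ _ (by omega) (claw w) n₂ (by omega) (by omega) (by omega)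
  have g := hGood V G hG o c B w (ρ w) _ _ (by omega) n₂ t₂ (by omega) (by omega) (by omega)
  obtain ⟨N, ψ, L, P⟩ := hLevel V G hG o c B w (ρ w) (ρ w) r₃' _ _ (by omega) (claw w) t₁ g le_rfl
    (by omega) (by omega)
  rw [← hD] at P
  have fold := hFold V G c o σ h K hK hf' w D R N ψ L (P.weaken (by rw [hρ]; omega)) (by omega)
  obtain ⟨par, owner, p₁, p₂⟩ := hc₅ V L {a | a ∈ N ∧ R ≤ G.dist o a}
    (fun a => ψ (σ a (G.dist o a - R))) P.deg
    (fun a ha b hab => ⟨P.adjN _ _ hab.symm, P.adjlev _ _ hab ▸ ha.2⟩)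
    (fun a ha b hab => by
      have := ha.2
      rw [← P.adjlev _ _ hab]
      exact proj_dist h P D b (by omega) (P.adjdist _ _ hab)) fold
  exact model hLay h P (by omega) (by omega) par owner (fun a h1 h2 => p₁ a ⟨h1, h2⟩)
    fun a h1 h2 => p₂ a ⟨h1, h2⟩

end Pool.Agent.Lib.MP_f9389f_co
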