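import Mathlib
import Pool.Agent.Lib.MP_f9389f_co.CbBasic

/-! No claw and no pair of lips inside a sphere of a combable graph without a fat `K33`. -/

namespace Pool.Agent.Lib.MP_f9389f_co

universe u

open SimpleGraph

section Aux

variable {V : Type u} {G : SimpleGraph V} {c : ℕ} {o : V} {σ : V → ℕ → V}

/-- Levels change at most by the distance. -/
theorem clw_lev (hG : G.Connected) (o u v : V) : G.dist o v ≤ G.dist o u + G.dist u v :=
  tri hG o u v

theorem clw_lev' (hG : G.Connected) (o u v : V) : G.dist o u ≤ G.dist o v + G.dist u v := by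
  have := tri hG o v u
  rwa [dist_comm (u := v) (v := u)] at this

/-- Sets on separated levels are apart. -/
theorem clw_apart_lev (hG : G.Connected) {Y Z : Set V} {a b K : ℕ}
    (hY : ∀ y ∈ Y, G.dist o y ≤ a) (hZ : ∀ z ∈ Z, b ≤ G.dist o z) (h : a + K ≤ b) :
    Apart G K Y Z := by
  intro y hy z hz
  have h1 := hY y hy
  have h2 := hZ z hz
  have h3 := clw_lev hG o y z
  omega

/-- Sets near two far apart points are apart. -/
theorem clw_apart_near (hG : G.Connected) {Y Z : Set V} {p q : V} {a b K : ℕ}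
    (hY : ∀ y ∈ Y, G.dist y p ≤ a) (hZ : ∀ z ∈ Z, G.dist z q ≤ b)
    (h : a + b + K ≤ G.dist p q) : Apart G K Y Z := by
  intro y hy z hz
  have h1 := hY y hy
  have h2 := hZ z hz
  have h3 := tri hG p y q
  have h4 := tri hG y z q
  rw [dist_comm (u := p) (v := y)] at h3
  omega

theorem clw_seg_near (h : Cmb G c o σ) {x : V} {s t m : ℕ} (hx : G.dist o x = m) :
    ∀ v ∈ Seg σ x s t, G.dist v x ≤ m - s := by
  rintro _ ⟨i, hs, -, rfl⟩
  have := h.dist_top x i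
  omega

theorem clw_seg_lev (h : Cmb G c o σ) {x : V} {s t : ℕ} (hx : t ≤ G.dist o x) :
    ∀ v ∈ Seg σ x s t, s ≤ G.dist o v := by
  rintro _ ⟨i, hs, ht, rfl⟩
  rw [h.lev x i (ht.trans hx)]; exact hs

theorem clw_seg_lev' (h : Cmb G c o σ) {x : V} {s t : ℕ} :
    ∀ v ∈ Seg σ x s t, G.dist o v ≤ t := by
  rintro _ ⟨i, -, ht, rfl⟩
  exact (h.lev_le x i).trans ht

/-- The thickened shadow of a set on the level `n`. -/
def Shad (G : SimpleGraph V) (c : ℕ) (σ : V → ℕ → V) (n : ℕ) (A : Set V) : Set V :=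
  Nb G c ((fun y => σ y n) '' A)

theorem shad_conn (h : Cmb G c o σ) {A : Set V} (hA : Conn G 1 A) (n : ℕ) :
    Conn G 1 (Shad G c σ n A) := (h.conn_proj hA n).nb h.conn

theorem shad_mem {A : Set V} {y : V} (hy : y ∈ A) (n : ℕ) : σ y n ∈ Shad G c σ n A :=
  subset_nb G c _ ⟨y, hy, rfl⟩

theorem shad_lev (h : Cmb G c o σ) {A : Set V} {n : ℕ} (hA : ∀ y ∈ A, n ≤ G.dist o y) :
    ∀ v ∈ Shad G c σ n A, n ≤ G.dist o v + c ∧ G.dist o v ≤ n + c := by
  rintro v ⟨_, ⟨y, hy, rfl⟩, hv⟩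
  have h1 := h.lev y n (hA y hy)
  have h2 := clw_lev h.conn o (σ y n) v
  have h3 := clw_lev' h.conn o (σ y n) v
  simp only at hv
  omega

/-- A point of the shadow is near a point of the set. -/
theorem shad_near (h : Cmb G c o σ) {A : Set V} {n : ℕ} :
    ∀ v ∈ Shad G c σ n A, ∃ y ∈ A, G.dist y v ≤ G.dist o y - n + c := by
  rintro v ⟨_, ⟨y, hy, rfl⟩, hv⟩
  refine ⟨y, hy, ?_⟩
  have h1 := h.dist_top y n
  have h2 := tri h.conn y (σ y n) v
  rw [dist_comm (u := y) (v := σ y n)] at h2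
  simp only at hv
  omega

end Aux

/-- The trimmed branch set on a level `n` of a claw. -/
theorem claw_level (h2 : TrimStmt.{u}) {V : Type u} {G : SimpleGraph V} {c : ℕ} {o : V}
    {σ : V → ℕ → V} (h : Cmb G c o σ) {K : ℕ} (hK : 1 ≤ K) {k m n₃ n₁ n : ℕ}
    {Q : Fin 3 → Set V} {z : V} {t : Fin 3 → V} (hQ : ∀ i, Q i ⊆ Lv G o m)
    (hc : ∀ i, Conn G k (Q i)) (hz : ∀ i, z ∈ Q i) (ht : ∀ i, t i ∈ Q i)
    (hf : ∀ i j, i ≠ j → ∀ u ∈ Q i, 4 * k + 7 * c + 15 * K ≤ G.dist u (t j))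
    (hm : m = n₁ + k) (h13 : n₁ = n₃ + 3 * c + 6 * K) (hn : n₃ + K ≤ n) (hn' : n ≤ n₁) :
    ∃ X : Set V, (∀ x ∈ X, n ≤ G.dist o x + c ∧ G.dist o x ≤ n + c) ∧ Conn G 1 X ∧
      (∀ j, Apart G K X (Seg σ (t j) (n₃ + K) n₁)) ∧
      ∀ j, ∃ x ∈ X, ∃ v ∈ Seg σ (t j) (n₃ + K) n₁, G.dist x v ≤ K := by
  have hG := h.conn
  have hlev : ∀ i, ∀ y ∈ Nb G k (Q i), n ≤ G.dist o y := by
    rintro i y ⟨u, hu, huy⟩
    have h3 : G.dist o u = m := hQ i hu
    have h4 := clw_lev' hG o u y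
    omega
  obtain ⟨X, hX, hXc, hXa, hXn⟩ := h2 V G hG K hK (fun j => Seg σ (t j) (n₃ + K) n₁)
    (fun i => Shad G c σ n (Nb G k (Q i))) (σ z n)
    (fun i => shad_mem (subset_nb G k _ (hz i)) n)
    (fun i => shad_conn h ((hc i).nb hG) n)
    (fun i => ⟨σ (t i) n, shad_mem (subset_nb G k _ (ht i)) n, n, hn, hn', rfl⟩)
    (by
      intro i j hij v hv w hw
      obtain ⟨y, ⟨u, hu, huy⟩, hyv⟩ := shad_near h v hv
      have h3 : G.dist o u = m := hQ i hu
      have h4 := clw_lev hG o u y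
      have h5 := clw_seg_near h (hQ j (ht j)) w hw
      have h6 := hf i j hij u hu
      have h7 := tri hG u y (t j)
      have h8 := tri hG y v (t j)
      have h9 := tri hG v w (t j)
      omega)
  refine ⟨X, fun x hx => ?_, hXc, hXa, hXn⟩
  obtain ⟨i, hi⟩ := hX x hx
  exact shad_lev h (hlev i) x hi

theorem clawStmt (h1 : K33Stmt.{u}) (h2 : TrimStmt.{u}) : ClawStmt.{u} := by
  intro V G c o σ h K hK hno k m Q z t hQ hc hz ht hf
  have hG := h.conn
  have htl : ∀ i, G.dist o (t i) = m := fun i => hQ i (ht i)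
  have hm : k + 3 * c + 6 * K ≤ m := by
    have h3 := hf 0 1 (by decide) (t 0) (ht 0)
    have h4 := tri hG (t 0) o (t 1)
    rw [dist_comm (u := t 0) (v := o), htl 0, htl 1] at h4
    omega
  obtain ⟨n₃, hn₃⟩ := Nat.exists_eq_add_of_le' hm
  obtain ⟨X₀, l₀, c₀, a₀, b₀⟩ := claw_level h2 h hK (n₃ := n₃) (n₁ := n₃ + 3 * c + 6 * K)
    (n := n₃ + 3 * c + 6 * K) hQ hc hz ht hf (by omega) rfl (by omega) le_rfl
  obtain ⟨X₁, l₁, c₁, a₁, b₁⟩ := claw_level h2 h hK (n₃ := n₃) (n₁ := n₃ + 3 * c + 6 * K)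
    (n := n₃ + 3 * K + c) hQ hc hz ht hf (by omega) rfl (by omega) (by omega)
  set X₂ : Set V := ⋃ i, Seg σ (t i) 0 n₃ with hX₂
  have l₂ : ∀ x ∈ X₂, G.dist o x ≤ n₃ := by
    intro x hx
    obtain ⟨i, hi⟩ := Set.mem_iUnion.1 hx
    exact clw_seg_lev' h x hi
  have c₂ : Conn G 1 X₂ := by
    refine conn_of_base o fun x hx => ?_
    obtain ⟨i, hi⟩ := Set.mem_iUnion.1 hx
    exact (h.conn_seg (t i) 0 n₃ o ⟨0, le_rfl, Nat.zero_le _, h.zero _⟩ x hi).mono le_rfl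
      (Set.subset_iUnion (fun i => Seg σ (t i) 0 n₃) i)
  have a₂ : ∀ j, Apart G K X₂ (Seg σ (t j) (n₃ + K) (n₃ + 3 * c + 6 * K)) := fun j =>
    clw_apart_lev hG l₂ (clw_seg_lev h (by rw [htl j]; omega)) le_rfl
  have b₂ : ∀ j, ∃ x ∈ X₂, ∃ v ∈ Seg σ (t j) (n₃ + K) (n₃ + 3 * c + 6 * K), G.dist x v ≤ K := by
    intro j
    refine ⟨σ (t j) n₃, Set.mem_iUnion.2 ⟨j, n₃, Nat.zero_le _, le_rfl, rfl⟩, σ (t j) (n₃ + K),
      ⟨n₃ + K, le_rfl, by omega, rfl⟩, h.dist_le _ _ _⟩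
  have e₁₀ : Apart G (3 * K) X₁ X₀ :=
    clw_apart_lev (o := o) hG (a := n₃ + 3 * K + c + c) (b := n₃ + 2 * c + 6 * K)
      (fun y hy => (l₁ y hy).2) (fun y hy => by have := (l₀ y hy).1; omega) (by omega)
  have e₂₀ : Apart G (3 * K) X₂ X₀ :=
    clw_apart_lev (o := o) hG (b := n₃ + 2 * c + 6 * K) l₂
      (fun y hy => by have := (l₀ y hy).1; omega) (by omega)
  have e₂₁ : Apart G (3 * K) X₂ X₁ :=
    clw_apart_lev (o := o) hG (b := n₃ + 3 * K) l₂
      (fun y hy => by have := (l₁ y hy).1; omega) (by omega)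
  refine hno (h1 V G hG K ![X₀, X₁, X₂] (fun j => Seg σ (t j) (n₃ + K) (n₃ + 3 * c + 6 * K))
    ?_ (fun j => h.conn_seg _ _ _) ?_ ?_ ?_ ?_)
  · intro a; fin_cases a
    exacts [c₀, c₁, c₂]
  · intro a b hab
    fin_cases a <;> fin_cases b <;> first | exact absurd rfl hab | skip
    exacts [e₁₀.symm, e₂₀.symm, e₁₀, e₂₁.symm, e₂₀, e₂₁]
  · intro i j hij
    refine clw_apart_near hG (clw_seg_near h (htl i)) (clw_seg_near h (htl j)) ?_
    have := hf i j hij (t i) (ht i)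
    omega
  · intro a; fin_cases a
    exacts [a₀, a₁, a₂]
  · intro a; fin_cases a
    exacts [b₀, b₁, b₂]

theorem lipsStmt (hw : WallStmt.{u}) : LipsStmt.{u} := by
  intro V G c o σ h K hK hno τ m A₁ A₂ l₁ l₂ c₁ c₂ hA p q hp hq hpq hf
  have hG := h.conn
  have hpl : ∀ i, G.dist o (p i) = m := fun i => l₁ (hp i)
  have hql : ∀ i, G.dist o (q i) = m := fun i => l₂ (hq i)
  have hm : τ + 3 * c + 3 * K ≤ m := by
    have h3 := hf 0 1 (by decide)
    have h4 := tri hG (p 0) o (p 1)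
    rw [dist_comm (u := p 0) (v := o), hpl 0, hpl 1] at h4
    omega
  obtain ⟨n, hn⟩ := Nat.exists_eq_add_of_le' hm
  set I : Fin 3 → Set V := fun i => {v | G.dist (p i) v + G.dist v (q i) = G.dist (p i) (q i)}
    with hI
  have hIp : ∀ i, ∀ y ∈ I i, G.dist (p i) y ≤ τ := by
    intro i y hy
    have h3 : G.dist (p i) y + G.dist y (q i) = G.dist (p i) (q i) := hy
    have := hpq i
    omega
  have hnear : ∀ i, ∀ v ∈ Seg σ (p i) n m ∪ Seg σ (q i) (n + K + c) m ∪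
      Shad G c σ (n + K + c) (I i), G.dist v (p i) ≤ 3 * τ + 3 * c + 3 * K := by
    rintro i v ((hv | hv) | hv)
    · have := clw_seg_near h (hpl i) v hv
      omega
    · have h3 := clw_seg_near h (hql i) v hv
      have h4 := tri hG v (q i) (p i)
      have h5 := hpq i
      rw [dist_comm (u := q i) (v := p i)] at h4
      omega
    · obtain ⟨y, hy, hyv⟩ := shad_near h v hv
      have h3 := hIp i y hy
      have h4 := clw_lev hG o (p i) y
      have h5 := tri hG (p i) y v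
      rw [dist_comm (u := v) (v := p i)]
      rw [hpl i] at h4
      omega
  refine hno (hw V G c o σ h K hK n c c m (by omega) A₁ A₂ l₁ l₂ c₁ c₂ hA p q
    (fun i => Shad G c σ (n + K + c) (I i)) hp hq
    (fun i => shad_conn h (conn_interval hG (p i) (q i)) _)
    (fun i => shad_mem (A := I i) (by simp [hI]) _)
    (fun i => shad_mem (A := I i) (by simp [hI]) _) ?_ ?_)
  · intro i v hv
    have h3 := shad_lev h (A := I i) (n := n + K + c) (fun y hy => by
      have h4 := hIp i y hy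
      have h5 := clw_lev' hG o (p i) y
      rw [hpl i] at h5
      omega) v hv
    omega
  · intro i j hij
    refine clw_apart_near hG (hnear i) (hnear j) ?_
    have := hf i j hij
    omega

end Pool.Agent.Lib.MP_f9389f_co
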