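import Mathlib
import Pool.Agent.Lib.MP_f9389f_co.CbBasic

/-! Two strands over three common places give a fat minor. -/

namespace Pool.Agent.Lib.MP_f9389f_co

universe u

open SimpleGraph

section

variable {V : Type u} {G : SimpleGraph V} {o : V} {c w w₂ D : ℕ} {N : Set V} {ψ : V → V}
  {L : SimpleGraph V}

theorem LevelPkg.lconn_lev (P : LevelPkg G o c w w₂ D N ψ L) {T : Set V} (hT : LConn L T)
    {a b : V} (ha : a ∈ T) (hb : b ∈ T) : G.dist o b = G.dist o a :=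
  (hT a ha b hb).induct (fun x => G.dist o x = G.dist o a) rfl
    fun _ _ hx hxy => by rw [← P.adjlev _ _ hxy, hx]

theorem LevelPkg.real' (P : LevelPkg G o c w w₂ D N ψ L) {T : Set V} (hT : LConn L T)
    (hI : Inn L T) {a : V} (ha : a ∈ T) : ∃ A, Conn G w A ∧ (∀ x, ψ x ∈ T → x ∈ A) ∧
      (∀ z ∈ A, G.dist o z = G.dist o a) ∧
      ∀ z ∈ A, Two L (ψ z) ∧ ∃ t ∈ T, Near L 1 t (ψ z) := by
  obtain ⟨A, h1, h2, h3⟩ := P.real T hT fun t ht => hI t ht t (Or.inl rfl)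
  refine ⟨A, h1, h2, fun z hz => ?_, fun z hz => ?_⟩
  · obtain ⟨t, ht, h4⟩ := h3 z hz
    rw [← P.lev z, ← P.lconn_lev hT ha ht]
    rcases h4 with h4 | h4
    · rw [h4]
    · exact P.adjlev _ _ h4
  · obtain ⟨t, ht, h4⟩ := h3 z hz
    exact ⟨hI t ht _ h4, t, ht, (Near.of_or h4).symm⟩

theorem LevelPkg.sep' (P : LevelPkg G o c w w₂ D N ψ L) {T T' : Set V} {z y : V}
    (hz : Two L (ψ z) ∧ ∃ t ∈ T, Near L 1 t (ψ z)) (hy : Two L (ψ y) ∧ ∃ t ∈ T', Near L 1 t (ψ y))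
    (hl : G.dist o z = G.dist o y) (hf : ∀ x ∈ T, ∀ y ∈ T', ¬ Near L 5 x y) :
    w₂ < G.dist z y := by
  by_contra hc
  obtain ⟨h1, t, ht, h2⟩ := hz
  obtain ⟨h3, t', ht', h4⟩ := hy
  exact hf t ht t' ht' ((h2.trans (P.sep z y hl h1 h3 (not_lt.1 hc))).trans h4.symm)

end

theorem foldStmt (hW : WallStmt.{u}) : FoldStmt.{u} := by
  intro V G c o σ h K hK hf w D R N ψ L P hR F₁ F₂ T a b hF₁ hF₂ c₁ c₂ i₁ i₂ far cT iT farT
    ha hb qa qb
  have hG := h.conn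
  simp only at qa qb
  obtain ⟨m, hm⟩ : ∃ m, G.dist o (a 0) = m + R :=
    ⟨G.dist o (a 0) - R, by have := (hF₁ (ha 0)).2; omega⟩
  have la : ∀ i, G.dist o (a i) = m + R := fun i => by rw [P.lconn_lev c₁ (ha 0) (ha i), hm]
  have lb : ∀ i, G.dist o (b i) = m + R := fun i => by
    have h1 := P.lconn_lev (cT i) (qa i) (qb i)
    have h2 := (hF₂ (hb i)).2
    rw [P.lev, P.lev, h.lev _ _ (by omega), h.lev _ _ (by omega), la] at h1
    omega
  simp only [la, lb, Nat.add_sub_cancel] at qa qb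
  obtain ⟨A₁, k₁, s₁, l₁, r₁⟩ := P.real' c₁ i₁ (ha 0)
  obtain ⟨A₂, k₂, s₂, l₂, r₂⟩ := P.real' c₂ i₂ (hb 0)
  choose S kS sS lS rS using fun i => P.real' (cT i) (iT i) (qa i)
  have lS' : ∀ i, ∀ z ∈ S i, G.dist o z = m := fun i z hz => by
    rw [lS i z hz, P.lev, h.lev _ _ (by rw [la]; omega)]
  have gap : ∀ i j, i ≠ j → ∀ z ∈ S i, ∀ y ∈ S j, 2 * w + 15 * K < G.dist z y :=
    fun i j hij z hz y hy => P.sep' (rS i z hz) (rS j y hy) (by rw [lS' i z hz, lS' j y hy])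
      fun x hx y hy hn => farT i j hij x hx y hy (hn.mono (by omega))
  obtain ⟨n, rfl⟩ : ∃ n, m = n + K + w := by
    have h1 := gap 0 1 (by decide) _ (sS 0 _ (qa 0)) _ (sS 1 _ (qa 1))
    have h2 := tri hG (σ (a 0) m) o (σ (a 1) m)
    rw [dist_comm (v := o), lS' 0 _ (sS 0 _ (qa 0)), lS' 1 _ (sS 1 _ (qa 1))] at h2
    exact ⟨m - K - w, by omega⟩
  set m := n + K + w with hmn
  have col : ∀ i, ∀ u ∈ Seg σ (a i) n (m + R) ∪ Seg σ (b i) m (m + R) ∪ Nb G w (S i),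
      (∃ p t, G.dist o p = m + R ∧ ψ (σ p m) ∈ T i ∧ m ≤ t ∧ t ≤ m + R ∧ σ p t = u) ∨
        ∃ s ∈ S i, G.dist s u ≤ w + K := by
    rintro i u ((⟨t, h1, h2, rfl⟩ | ⟨t, h1, h2, rfl⟩) | ⟨s, h1, h2⟩)
    · by_cases h3 : m ≤ t
      · exact Or.inl ⟨a i, t, la i, qa i, h3, h2, rfl⟩
      · refine Or.inr ⟨_, sS i _ (qa i), ?_⟩
        have := h.dist_le' (a i) (show t ≤ m by omega)
        rw [dist_comm]; omega
    · exact Or.inl ⟨b i, t, lb i, qb i, h1, h2, rfl⟩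
    · exact Or.inr ⟨s, h1, by omega⟩
  have low : ∀ i u, ((∃ p t, G.dist o p = m + R ∧ ψ (σ p m) ∈ T i ∧ m ≤ t ∧ t ≤ m + R ∧
      σ p t = u) ∨ ∃ s ∈ S i, G.dist s u ≤ w + K) → G.dist o u ≤ m + w + 6 * K →
      ∃ s ∈ S i, G.dist s u ≤ w + 6 * K := by
    rintro i u (⟨p, t, h1, h2, h3, h4, rfl⟩ | ⟨s, h1, h2⟩) hu
    · rw [h.lev p t (by omega)] at hu
      have := h.dist_le' p h3
      exact ⟨_, sS i _ h2, by omega⟩
    · exact ⟨s, h1, by omega⟩
  have high : ∀ i u, ((∃ p t, G.dist o p = m + R ∧ ψ (σ p m) ∈ T i ∧ m ≤ t ∧ t ≤ m + R ∧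
      σ p t = u) ∨ ∃ s ∈ S i, G.dist s u ≤ w + K) → m + w + 3 * K < G.dist o u + 3 * K →
      m + w + K < G.dist o u → ∃ x ∈ T i, Near L R (ψ (σ u m)) x := by
    rintro i u (⟨p, t, h1, h2, h3, h4, rfl⟩ | ⟨s, h1, h2⟩) _ hu
    · exact ⟨_, h2, (proj_line h P (m + R - t) t h3 (by omega)).mono (by omega)⟩
    · have := tri hG o s u
      rw [lS' i s h1] at this
      omega
  refine hf (hW V G c o σ h K hK n w w (m + R) (by omega) A₁ A₂
    (fun z hz => (l₁ z hz).trans (la 0)) (fun z hz => (l₂ z hz).trans (lb 0)) k₁ k₂ ?_ a b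
    (fun i => Nb G w (S i)) (fun i => s₁ _ (by rw [P.fix _ (hF₁ (ha i)).1]; exact ha i))
    (fun i => s₂ _ (by rw [P.fix _ (hF₂ (hb i)).1]; exact hb i)) (fun i => (kS i).nb hG)
    (fun i => subset_nb _ _ _ (sS i _ (qa i))) (fun i => subset_nb _ _ _ (sS i _ (qb i))) ?_ ?_)
  · intro z hz y hy
    have := P.sep' (r₁ z hz) (r₂ y hy) (by rw [l₁ z hz, l₂ y hy, la, lb]) far
    omega
  · rintro i v ⟨s, h1, h2⟩
    have h3 := tri hG o s v
    have h4 := tri hG o v s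
    rw [dist_comm (u := v)] at h4
    rw [lS' i s h1] at h3 h4
    omega
  · intro i j hij u hu v hv
    by_contra hc
    have hu' := col i u hu
    have hv' := col j v hv
    have t1 := tri hG o u v
    have t2 := tri hG o v u
    rw [dist_comm (u := v)] at t2
    by_cases hl : G.dist o u ≤ m + w + 3 * K ∨ G.dist o v ≤ m + w + 3 * K
    · obtain ⟨s, h1, h2⟩ := low i u hu' (by omega)
      obtain ⟨s', h3, h4⟩ := low j v hv' (by omega)
      have h5 := gap i j hij s h1 s' h3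
      have h6 := tri hG s u s'
      have h7 := tri hG u v s'
      rw [dist_comm] at h4
      omega
    · obtain ⟨x, h1, h2⟩ := high i u hu' (by omega) (by omega)
      obtain ⟨y, h3, h4⟩ := high j v hv' (by omega) (by omega)
      have h5 := proj_dist h P (m := m) (u := u) (3 * K) v (by omega) (by omega)
      exact farT i j hij x h1 y h3 (((h2.symm.trans h5).trans h4).mono (by omega))

end Pool.Agent.Lib.MP_f9389f_co
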