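import Pool.Agent.Lib.MP_f9389f_co.CbBasic

/-! Gates: parents and owners in graphs of maximum degree two. -/

namespace Pool.Agent.Lib.MP_f9389f_co

universe u

open SimpleGraph

namespace Gate

variable {α : Type u} {L : SimpleGraph α}

/-- An injective path `γ 0, …, γ N`. -/
structure Line (L : SimpleGraph α) (γ : ℕ → α) (N : ℕ) : Prop where
  inj : ∀ i ≤ N, ∀ j ≤ N, γ i = γ j → i = j
  adj : ∀ i < N, L.Adj (γ i) (γ (i + 1))

/-- A piece of a path. -/
def Sg (γ : ℕ → α) (s t : ℕ) : Set α := {v | ∃ i, s ≤ i ∧ i ≤ t ∧ γ i = v}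

/-- The outer neighbours of the component of `s` in `S`. -/
def Att (L : SimpleGraph α) (S : Set α) (s : α) : Set α :=
  {x | x ∉ S ∧ ∃ u, LCh L S s u ∧ L.Adj u x}

variable {γ : ℕ → α} {N : ℕ} {S : Set α} {x y y' z : α}

theorem Line.nb (h : Line L γ N) (hd : Deg2 L) {i : ℕ} (h0 : 0 < i) (h1 : i < N)
    (hy : L.Adj (γ i) y) : ∃ j, (j + 1 = i ∨ j = i + 1) ∧ γ j = y := by
  obtain ⟨i, rfl⟩ : ∃ j, i = j + 1 := ⟨i - 1, by omega⟩
  rcases hd _ _ _ _ (h.adj i (by omega)).symm (h.adj _ h1) hy with e | e | e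
  · have := h.inj _ (by omega) _ (by omega) e
    omega
  · exact ⟨i, .inl rfl, e⟩
  · exact ⟨_, .inr rfl, e⟩

theorem Line.near (h : Line L γ N) (hd : Deg2 L) {n : ℕ} : ∀ {i : ℕ}, Near L n (γ i) y → n ≤ i →
    i + n ≤ N → ∃ j, j ≤ i + n ∧ i ≤ j + n ∧ γ j = y := by
  induction n with
  | zero => exact fun {i} hn _ _ => ⟨i, le_rfl, le_rfl, hn.zero⟩
  | succ n ih =>
    intro i hn h0 h1
    obtain ⟨x, rfl | hx, h2⟩ := hn.succ
    · obtain ⟨j, a, b, e⟩ := ih h2 (by omega) (by omega)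
      exact ⟨j, by omega, by omega, e⟩
    · obtain ⟨k, hk, rfl⟩ := h.nb hd (by omega) (by omega) hx
      obtain ⟨j, a, b, e⟩ := ih h2 (by omega) (by omega)
      exact ⟨j, by omega, by omega, e⟩

theorem Line.close (h : Line L γ N) (i k : ℕ) (hk : i + k ≤ N) : Near L k (γ i) (γ (i + k)) := by
  induction k with
  | zero => exact Near.refl _ _ _
  | succ k ih => exact (ih (by omega)).trans (Near.of_adj (h.adj (i + k) (by omega)))

theorem Line.close' (h : Line L γ N) {i j n : ℕ} (hi : i ≤ j) (hj : j ≤ N) (hn : j ≤ i + n) :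
    Near L n (γ i) (γ j) := by
  obtain ⟨k, rfl⟩ := Nat.exists_eq_add_of_le hi
  exact (h.close i k hj).mono (by omega)

theorem Line.conn (h : Line L γ N) {s t : ℕ} (ht : t ≤ N) : LConn L (Sg γ s t) := by
  have key : ∀ i, s ≤ i → i ≤ t → LCh L (Sg γ s t) (γ s) (γ i) := fun i hi => by
    induction i, hi using Nat.le_induction with
    | base => exact fun _ => LCh.refl _
    | succ i hi ih =>
      exact fun h1 => (ih (by omega)).trans (LCh.single ⟨i, hi, by omega, rfl⟩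
        ⟨i + 1, by omega, h1, rfl⟩ (h.adj i (by omega)))
  rintro _ ⟨i, a, b, rfl⟩ _ ⟨j, a', b', rfl⟩
  exact (key i a b).symm.trans (key j a' b')

theorem Line.two (h : Line L γ N) {i : ℕ} (h0 : 0 < i) (h1 : i < N) : Two L (γ i) := by
  obtain ⟨i, rfl⟩ : ∃ j, i = j + 1 := ⟨i - 1, by omega⟩
  refine ⟨_, _, fun e => ?_, (h.adj i (by omega)).symm, h.adj _ h1⟩
  have := h.inj _ (by omega) _ (by omega) e
  omega

theorem Line.inn (h : Line L γ N) (hd : Deg2 L) {s t : ℕ} (hs : 2 ≤ s) (ht : t + 2 ≤ N) :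
    Inn L (Sg γ s t) := by
  rintro _ ⟨i, a, b, rfl⟩ v (rfl | hv)
  · exact h.two (by omega) (by omega)
  · obtain ⟨j, hj, rfl⟩ := h.nb hd (by omega) (by omega) hv.symm
    exact h.two (by omega) (by omega)

theorem Line.le (h : Line L γ N) {M : ℕ} (hM : M ≤ N) : Line L γ M :=
  ⟨fun i hi j hj => h.inj i (by omega) j (by omega), fun i hi => h.adj i (by omega)⟩

theorem Line.ext (h : Line L γ N) (hy : L.Adj (γ N) y) (hn : ∀ i ≤ N, γ i ≠ y) :
    ∃ δ, Line L δ (N + 1) ∧ δ (N + 1) = y ∧ ∀ i ≤ N, δ i = γ i := by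
  refine ⟨fun i => if i ≤ N then γ i else y, ⟨fun i hi j hj e => ?_, fun i hi => ?_⟩, by simp,
    fun i hi => if_pos hi⟩
  · split_ifs at e with h1 h2 h2
    · exact h.inj i h1 j h2 e
    · exact absurd e (hn i h1)
    · exact absurd e.symm (hn j h2)
    · omega
  · rw [if_pos (by omega)]
    split_ifs with h1
    · exact h.adj i h1
    · rwa [show i = N by omega]

theorem path (hy : y ∉ S) (_hx : x ∈ S) (ha : L.Adj x y) (h : LCh L S x z) :
    ∃ δ M, Line L δ M ∧ 1 ≤ M ∧ δ 0 = y ∧ δ M = z ∧ ∀ i, 0 < i → i ≤ M → LCh L S x (δ i) := by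
  induction h with
  | refl =>
    obtain ⟨δ, h1, h2, h3⟩ := (show Line L (fun _ => y) 0 from
      ⟨fun _ _ _ _ _ => by omega, fun _ _ => by omega⟩).ext ha.symm fun _ _ => ha.ne'
    exact ⟨δ, 1, h1, le_rfl, h3 0 le_rfl, h2, fun i a b => by
      rw [show i = 0 + 1 by omega, h2]; exact LCh.refl _⟩
  | @tail u v h1 h2 ih =>
    obtain ⟨δ, M, a1, a2, a3, a4, a5⟩ := ih
    by_cases hv : ∃ i ≤ M, δ i = v
    · obtain ⟨i, hi, e⟩ := hv
      refine ⟨δ, i, a1.le hi, Nat.pos_of_ne_zero fun e' => hy ?_, a3, e,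
        fun j b c => a5 j b (by omega)⟩
      rw [← a3, ← e', e]
      exact h2.2.1
    · obtain ⟨δ', b1, b2, b3⟩ := a1.ext (y := v) (a4 ▸ h2.2.2) fun i hi e => hv ⟨i, hi, e⟩
      refine ⟨δ', M + 1, b1, by omega, (b3 0 (by omega)).trans a3, b2, fun i b c => ?_⟩
      rcases Nat.lt_or_eq_of_le c with c | c
      · rw [b3 i (by omega)]
        exact a5 i b (by omega)
      · rw [c, b2]
        exact LCh.trans h1 (LCh.single h2.1 h2.2.1 h2.2.2)

/-- The component of `x` in `S` is the inner part of a path from `y` to `y'`. -/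
structure Thr (L : SimpleGraph α) (S : Set α) (x y y' : α) (γ : ℕ → α) (N : ℕ) : Prop
    extends Line L γ N where
  two : 2 ≤ N
  first : γ 0 = y
  last : γ N = y'
  inner : ∀ i, 0 < i → i < N → LCh L S x (γ i)
  all : ∀ z, LCh L S x z → ∃ i, 0 < i ∧ i < N ∧ γ i = z

theorem thread (hd : Deg2 L) (hx : x ∈ S) (hy : y ∈ Att L S x) (hy' : y' ∈ Att L S x)
    (hn : y ≠ y') : ∃ γ N, Thr L S x y y' γ N := by
  obtain ⟨h1, u, hu, ha⟩ := hy
  obtain ⟨h1', u', hu', ha'⟩ := hy'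
  obtain ⟨δ, M, a1, a2, a3, a4, a5⟩ := path h1 (hu.mem hx) ha (hu.symm.trans hu')
  obtain ⟨γ, b1, b2, b3⟩ := a1.ext (y := y') (a4 ▸ ha') fun i hi e => by
    rcases Nat.eq_zero_or_pos i with rfl | h0
    · exact hn (a3.symm.trans e)
    · exact h1' (e ▸ (a5 i h0 hi).mem (hu.mem hx))
  have b0 := (b3 0 (by omega)).trans a3
  refine ⟨γ, M + 1, b1, by omega, b0, b2, fun i b c => ?_, fun z hz => ?_⟩
  · rw [b3 i (by omega)]
    exact hu.trans (a5 i b (by omega))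
  · have hz' := hu'.symm.trans hz
    clear hz
    induction hz' with
    | refl => exact ⟨M, a2, by omega, (b3 M le_rfl).trans a4⟩
    | tail _ h2 ih =>
      obtain ⟨i, c1, c2, rfl⟩ := ih
      obtain ⟨j, hj, rfl⟩ := b1.nb hd c1 c2 h2.2.2
      refine ⟨j, Nat.pos_of_ne_zero fun e => h1 ?_, lt_of_le_of_ne (by omega) fun e => h1' ?_, rfl⟩
      · rw [← b0, ← e]; exact h2.2.1
      · rw [← b2, ← e]; exact h2.2.1

theorem Thr.out (h : Thr L S x y y' γ N) (hd : Deg2 L) (hx : x ∈ S) {u v : α} (hu : LCh L S x u)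
    (hv : v ∉ S) (ha : L.Adj u v) : v = y ∨ (v = y' ∧ u = γ (N - 1)) := by
  obtain ⟨i, a, b, rfl⟩ := h.all u hu
  obtain ⟨j, hj, rfl⟩ := h.toLine.nb hd a b ha
  by_cases h0 : j = 0
  · exact .inl (h0 ▸ h.first)
  by_cases h1 : j = N
  · exact .inr ⟨h1 ▸ h.last, by congr 1; omega⟩
  · exact absurd ((h.inner j (by omega) (by omega)).mem hx) hv

theorem att_eq (h : LCh L S x z) : Att L S x = Att L S z :=
  Set.ext fun _ => and_congr_right fun _ => exists_congr fun _ => and_congr_left fun _ =>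
    ⟨h.symm.trans, h.trans⟩

theorem stay {m : ℕ} : ∀ {x : α}, Near L m x z → (∀ t, Near L m x t → t ∈ S) → LCh L S x z := by
  induction m with
  | zero => exact fun h _ => h.zero ▸ LCh.refl _
  | succ m ih =>
    intro x h hS
    obtain ⟨u, rfl | hu, h2⟩ := h.succ
    · exact ih h2 fun t ht => hS t (ht.mono (by omega))
    · exact (LCh.single (hS _ (Near.refl _ _ _)) (hS _ ((Near.of_adj hu).mono (by omega))) hu).trans
        (ih h2 fun t ht => hS t (((Near.of_adj hu).trans ht).mono (by omega)))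

theorem entry {m : ℕ} (hz : z ∉ S) : ∀ {x : α}, Near L m x z → x ∈ S →
    ∃ t ∈ Att L S x, Near L m x t := by
  induction m with
  | zero => exact fun h hx => absurd (h.zero ▸ hx) hz
  | succ m ih =>
    intro x h hx
    obtain ⟨u, rfl | hu, h2⟩ := h.succ
    · exact (ih h2 hx).imp fun t ht => ⟨ht.1, ht.2.mono (by omega)⟩
    by_cases h3 : u ∈ S
    · obtain ⟨t, a, b⟩ := ih h2 h3
      exact ⟨t, att_eq (LCh.single hx h3 hu) ▸ a, ((Near.of_adj hu).trans b).mono (by omega)⟩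
    · exact ⟨u, ⟨h3, x, LCh.refl _, hu⟩, (Near.of_adj hu).mono (by omega)⟩

theorem walk (h : LCh L S x z) : ∃ ω : L.Walk x z, ∀ f ∈ ω.edges, ∃ v ∈ f, LCh L S x v := by
  induction h with
  | refl => exact ⟨.nil, by simp⟩
  | tail h1 h2 ih =>
    obtain ⟨ω, hω⟩ := ih
    refine ⟨ω.concat h2.2.2, fun f hf => ?_⟩
    rw [Walk.edges_concat, List.concat_eq_append, List.mem_append, List.mem_singleton] at hf
    rcases hf with hf | rfl
    · exact hω f hf
    · exact ⟨_, Sym2.mem_mk_left _ _, h1⟩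

theorem walk_att (hy : y ∈ Att L S x) (hy' : y' ∈ Att L S x) :
    ∃ ω : L.Walk y y', ∀ f ∈ ω.edges, ∃ v ∈ f, LCh L S x v := by
  obtain ⟨-, u, hu, ha⟩ := hy
  obtain ⟨-, u', hu', ha'⟩ := hy'
  obtain ⟨ω, hω⟩ := walk (hu.symm.trans hu')
  refine ⟨.cons ha.symm (ω.concat ha'), fun f hf => ?_⟩
  rw [Walk.edges_cons, Walk.edges_concat, List.concat_eq_append, List.mem_cons, List.mem_append,
    List.mem_singleton] at hf
  rcases hf with rfl | hf | rfl
  · exact ⟨_, Sym2.mem_mk_right _ _, hu⟩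
  · exact (hω f hf).imp fun v hv => ⟨hv.1, hu.trans hv.2⟩
  · exact ⟨_, Sym2.mem_mk_left _ _, hu'⟩

theorem exists_net (L : SimpleGraph α) (r : ℕ) : ∃ S : Set α,
    (∀ x ∉ S, ∀ y ∉ S, Near L r x y → x = y) ∧ ∀ v, ∃ x ∉ S, Near L r v x := by
  obtain ⟨T, hT⟩ := zorn_subset {T : Set α | T.Pairwise fun x y => ¬ Near L r x y} fun c hc hc' =>
    ⟨⋃₀ c, (Set.pairwise_sUnion hc'.directedOn).2 hc, fun s hs => Set.subset_sUnion_of_mem hs⟩
  refine ⟨Tᶜ, fun x hx y hy h => by_contra fun e => hT.prop (not_not.1 hx) (not_not.1 hy) e h,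
    fun v => by_contra fun h => ?_⟩
  have h1 : ∀ x ∈ T, ¬ Near L r v x := fun x hx e => h ⟨x, not_not.2 hx, e⟩
  have h2 : insert v T ∈ {T : Set α | T.Pairwise fun x y => ¬ Near L r x y} :=
    hT.prop.insert fun x hx _ => ⟨h1 x hx, fun e => h1 x hx e.symm⟩
  exact h1 v (hT.le_of_ge h2 (Set.subset_insert _ _) (Set.mem_insert _ _)) (Near.refl _ _ _)

theorem disp (hd : Deg2 L) {r : ℕ} (dense : ∀ v, ∃ x ∉ S, Near L r v x) (hx : x ∈ S)
    (hy : y ∈ Att L S x) : Near L (2 * r) x y := by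
  obtain ⟨h1, u, hu, ha⟩ := hy
  obtain ⟨δ, M, a1, -, rfl, rfl, a5⟩ := path h1 (hu.mem hx) ha hu.symm
  by_cases hM : M ≤ 2 * r
  · exact (a1.close' (Nat.zero_le _) le_rfl (by omega)).symm
  · obtain ⟨t, ht, h2⟩ := dense (δ (r + 1))
    obtain ⟨j, a, b, rfl⟩ := a1.near hd h2 (by omega) (by omega)
    exact absurd ((a5 j (by omega) (by omega)).mem (hu.mem hx)) ht

/-- The points of `C` whose image is far from the gates. -/
def Fr (L : SimpleGraph α) (C S : Set α) (q : α → α) (c : ℕ) : Set α :=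
  {a | a ∈ C ∧ ∀ t, Near L c (q a) t → t ∈ S}

section main

variable {C : Set α} {q : α → α} {c g : ℕ} (hd : Deg2 L) (hC : ∀ a ∈ C, ∀ b, L.Adj a b → b ∈ C)
  (hq : ∀ a ∈ C, ∀ b, L.Adj a b → Near L c (q a) (q b)) (hg : 10 * c + 10 ≤ g)
  (sep : ∀ x ∉ S, ∀ y ∉ S, Near L (5 * g) x y → x = y) {a b : α}

theorem Fr.mem (ha : a ∈ Fr L C S q c) : q a ∈ S := ha.2 _ (Near.refl _ _ _)

include hq in
theorem Fr.lch (h : LCh L (Fr L C S q c) a b) : LCh L S (q a) (q b) := by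
  induction h with
  | refl => exact LCh.refl _
  | tail _ h2 ih => exact ih.trans (stay (hq _ h2.1.1 _ h2.2.2) h2.1.2)

include hq hg sep in
theorem Fr.bd (ha : a ∈ Fr L C S q c) (hb : b ∈ Att L (Fr L C S q c) a) (hx : x ∉ S)
    (h : Near L c (q b) x) : x ∈ Att L S (q a) := by
  obtain ⟨-, u, hu, h1⟩ := hb
  have h2 := (Fr.lch hq hu).trans (stay (hq _ (hu.mem ha).1 _ h1) (hu.mem ha).2)
  obtain ⟨t, h3, h4⟩ := entry hx h (h2.mem (Fr.mem ha))
  rwa [att_eq h2, ← sep t h3.1 x hx ((h4.symm.trans h).mono (by omega))]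

include hd hC hq hg sep in
theorem cross {s x' : α} (hγ : Thr L S s x x' γ N) (hx : x ∉ S) (hx' : x' ∉ S)
    (ha : a ∈ Fr L C S q c) (hs : LCh L S s (q a)) (hy : y ∈ Att L (Fr L C S q c) a)
    (hy' : y' ∈ Att L (Fr L C S q c) a) (h : Near L c (q y) x) (h' : Near L c (q y') x') :
    ∃ F ⊆ C, LConn L F ∧ Inn L F ∧ (∀ u ∈ F, ∀ v, Near L 5 u v → LCh L (Fr L C S q c) a v) ∧
      ∀ θ, g ≤ θ → θ ≤ 3 * g → ∃ p ∈ F, q p ∈ Sg γ θ (θ + c) := by
  have l := hγ.toLine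
  have far : ∀ m ≤ 5 * g, ¬ Near L m x x' := fun m hm e => by
    have := l.inj 0 (by omega) N le_rfl
      (hγ.first.trans ((sep x hx x' hx' (e.mono hm)).trans hγ.last.symm))
    have := hγ.two
    omega
  have hN : 5 * g < N := lt_of_not_ge fun e =>
    far N e (hγ.first ▸ hγ.last ▸ l.close' (Nat.zero_le _) le_rfl (by omega))
  obtain ⟨κ, M, hκ⟩ := thread hd ha hy hy' fun e => far (c + c) (by omega) (h.symm.trans (e ▸ h'))
  have k := hκ.toLine
  have M2 := hκ.two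
  have fr : ∀ j, 0 < j → j < M → κ j ∈ Fr L C S q c := fun j a1 a2 => (hκ.inner j a1 a2).mem ha
  have : ∀ j, ∃ i, 0 < j → j < M → c < i ∧ i + c < N ∧ γ i = q (κ j) := fun j => by
    by_cases hj : 0 < j ∧ j < M
    · obtain ⟨i, a1, a2, e⟩ := hγ.all _ (hs.trans (Fr.lch hq (hκ.inner j hj.1 hj.2)))
      refine ⟨i, fun _ _ => ⟨lt_of_not_ge fun e' => hx ((fr j hj.1 hj.2).2 x ?_),
        lt_of_not_ge fun e' => hx' ((fr j hj.1 hj.2).2 x' ?_), e⟩⟩
      · rw [← e, ← hγ.first]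
        exact (l.close' (Nat.zero_le _) a2.le (by omega)).symm
      · rw [← e, ← hγ.last]
        exact l.close' a2.le le_rfl e'
    · exact ⟨0, fun a1 a2 => absurd ⟨a1, a2⟩ hj⟩
  choose I hI using this
  have step : ∀ j, 0 < j → j + 1 < M → I (j + 1) ≤ I j + c ∧ I j ≤ I (j + 1) + c :=
    fun j a1 a2 => by
    obtain ⟨b1, b2, b3⟩ := hI j a1 (by omega)
    obtain ⟨b4, b5, b6⟩ := hI (j + 1) (by omega) a2
    obtain ⟨i, d1, d2, d3⟩ := l.near hd (b3 ▸ hq _ (fr j a1 (by omega)).1 _ (k.adj j (by omega)))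
      b1.le b2.le
    rw [l.inj _ (by omega) _ (by omega) (b6.trans d3.symm)]
    exact ⟨d1, d2⟩
  have steps : ∀ j m, 0 < j → j + m < M → I (j + m) ≤ I j + m * c ∧ I j ≤ I (j + m) + m * c :=
    fun j m a1 => by
    induction m with
    | zero => simp
    | succ m ih =>
      intro a2
      have := ih (by omega)
      have := step (j + m) (by omega) (by omega)
      rw [Nat.succ_mul, ← add_assoc]
      omega
  have e1 : I 1 ≤ 2 * c := by
    obtain ⟨b1, b2, b3⟩ := hI 1 one_pos (by omega)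
    have n1 : Near L (c + c) (γ (I 1)) x := by
      rw [b3]
      exact (hq _ (fr 1 one_pos (by omega)).1 _ (hκ.first ▸ (k.adj 0 (by omega)).symm)).trans h
    by_contra e
    by_cases e' : I 1 + (c + c) ≤ N
    · obtain ⟨i, d1, d2, d3⟩ := l.near hd n1 (by omega) e'
      have := l.inj _ (by omega) 0 (by omega) (d3.trans hγ.first.symm)
      omega
    · exact far (c + c + (c + c)) (by omega)
        (n1.symm.trans (hγ.last ▸ l.close' (by omega) le_rfl (by omega)))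
  have e2 : N ≤ I (M - 1) + 2 * c := by
    obtain ⟨b1, b2, b3⟩ := hI (M - 1) (by omega) (by omega)
    have n1 : Near L (c + c) (γ (I (M - 1))) x' := by
      have := k.adj (M - 1) (by omega)
      rw [show M - 1 + 1 = M by omega, hκ.last] at this
      rw [b3]
      exact (hq _ (fr _ (by omega) (by omega)).1 _ this).trans h'
    by_contra e
    by_cases e' : c + c ≤ I (M - 1)
    · obtain ⟨i, d1, d2, d3⟩ := l.near hd n1 e' (by omega)
      have := l.inj _ (by omega) N le_rfl (d3.trans hγ.last.symm)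
      omega
    · have n2 : Near L (c + c) x (γ (I (M - 1))) := by
        rw [← hγ.first]
        exact l.close' (Nat.zero_le _) (by omega) (by omega)
      exact far (c + c + (c + c)) (by omega) (n2.trans n1)
  have lo : ∀ j, 0 < j → j < M → g ≤ I j → 6 ≤ j := fun j a1 a2 a3 => by
    by_contra e
    have h1 := (steps 1 (j - 1) one_pos (by omega)).1
    have h2 := Nat.mul_le_mul_right c (show j - 1 ≤ 5 by omega)
    rw [show 1 + (j - 1) = j by omega] at h1
    omega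
  have up : ∀ j, 0 < j → j < M → I j ≤ 3 * g + c → j ≤ M - 6 := fun j a1 a2 a3 => by
    by_contra e
    have h1 := (steps j (M - 1 - j) a1 (by omega)).1
    have h2 := Nat.mul_le_mul_right c (show M - 1 - j ≤ 5 by omega)
    rw [show j + (M - 1 - j) = M - 1 by omega] at h1
    omega
  have M7 := lo (M - 1) (by omega) (by omega) (by omega)
  refine ⟨Sg κ 6 (M - 6), ?_, k.conn (by omega), k.inn hd (by omega) (by omega), ?_,
    fun θ t1 t2 => ?_⟩
  · rintro _ ⟨j, a1, a2, rfl⟩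
    exact (fr j (by omega) (by omega)).1
  · rintro _ ⟨j, a1, a2, rfl⟩ v hv
    obtain ⟨i, d1, d2, rfl⟩ := k.near hd hv (by omega) (by omega)
    exact hκ.inner i (by omega) (by omega)
  · have ex : ∃ j, 0 < j ∧ θ ≤ I j := ⟨M - 1, by omega, by omega⟩
    classical
    obtain ⟨a1, a2⟩ := Nat.find_spec ex
    have a3 : Nat.find ex ≤ M - 1 := Nat.find_min' ex ⟨by omega, by omega⟩
    have a4 := lo _ a1 (by omega) (by omega)
    have a5 := Nat.find_min ex (show Nat.find ex - 1 < Nat.find ex by omega)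
    have a6 := (step (Nat.find ex - 1) (by omega) (by omega)).1
    rw [show Nat.find ex - 1 + 1 = Nat.find ex by omega] at a6
    exact ⟨_, ⟨_, a4, up _ a1 (by omega) (by omega), rfl⟩, _, a2, by omega,
      (hI _ a1 (by omega)).2.2⟩

include hd hC hq hg sep in
theorem uniq {n : ℕ} (hn : n + 10 * c + 10 ≤ g) (hF : FoldP L C q n) {a' b b' z' x₁ x₂ x₁' x₂' : α}
    (ha : a ∈ Fr L C S q c) (ha' : a' ∈ Fr L C S q c) (hs : LCh L S (q a) (q a'))
    (hz : z ∈ Att L (Fr L C S q c) a) (hb : b ∈ Att L (Fr L C S q c) a)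
    (hz' : z' ∈ Att L (Fr L C S q c) a') (hb' : b' ∈ Att L (Fr L C S q c) a') (g1 : x₁ ∉ S)
    (g2 : x₂ ∉ S) (g1' : x₁' ∉ S) (g2' : x₂' ∉ S) (n1 : Near L c (q z) x₁) (n2 : Near L c (q b) x₂)
    (n1' : Near L c (q z') x₁') (n2' : Near L c (q b') x₂') (e : x₁ ≠ x₂) (e' : x₁' ≠ x₂') :
    LCh L (Fr L C S q c) a a' := by
  obtain ⟨γ, N, hγ⟩ := thread hd (Fr.mem ha) (Fr.bd hq hg sep ha hz g1 n1) (Fr.bd hq hg sep ha hb g2 n2) e
  have l := hγ.toLine
  have hN : 5 * g < N := lt_of_not_ge fun h => e (sep _ g1 _ g2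
    (hγ.first ▸ hγ.last ▸ l.close' (Nat.zero_le _) le_rfl (by omega)))
  have o : ∀ t ∈ Att L S (q a'), t = x₁ ∨ t = x₂ := fun t ⟨h1, u, h2, h3⟩ =>
    (hγ.out hd (Fr.mem ha) (hs.trans h2) h1 h3).imp_right And.left
  obtain ⟨F, f1, f2, f3, f4, f5⟩ := cross hd hC hq hg sep hγ g1 g2 ha (LCh.refl _) hz hb n1 n2
  obtain ⟨F', f1', f2', f3', f4', f5'⟩ : ∃ F ⊆ C, LConn L F ∧ Inn L F ∧
      (∀ u ∈ F, ∀ v, Near L 5 u v → LCh L (Fr L C S q c) a' v) ∧
      ∀ θ, g ≤ θ → θ ≤ 3 * g → ∃ p ∈ F, q p ∈ Sg γ θ (θ + c) := by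
    rcases o _ (Fr.bd hq hg sep ha' hz' g1' n1') with rfl | rfl <;>
      rcases o _ (Fr.bd hq hg sep ha' hb' g2' n2') with rfl | rfl
    · exact absurd rfl e'
    · exact cross hd hC hq hg sep hγ g1 g2 ha' hs hz' hb' n1' n2'
    · exact cross hd hC hq hg sep hγ g1 g2 ha' hs hb' hz' n2' n1'
    · exact absurd rfl e'
  by_contra h
  have t : ∀ i : Fin 3, g ≤ (i + 1) * g ∧ (i + 1) * g ≤ 3 * g := fun i =>
    ⟨Nat.le_mul_of_pos_left _ (by omega), Nat.mul_le_mul_right _ i.2⟩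
  choose p p1 p2 using fun i : Fin 3 => f5 _ (t i).1 (t i).2
  choose p' p1' p2' using fun i : Fin 3 => f5' _ (t i).1 (t i).2
  refine hF F F' (fun i => Sg γ ((i + 1) * g) ((i + 1) * g + c)) p p' f1 f1' f2 f2' f3 f3'
    (fun u hu v hv h5 => h ((f4 u hu v h5).trans (f4' v hv v (Near.refl _ _ _)).symm))
    (fun i => l.conn (by have := t i; omega))
    (fun i => l.inn hd (by have := t i; omega) (by have := t i; omega)) ?_ p1 p1' p2 p2'
  rintro i j hij _ ⟨s, a1, a2, rfl⟩ _ ⟨s', a1', a2', rfl⟩ h5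
  have := t i
  have := t j
  obtain ⟨m, d1, d2, d3⟩ := l.near hd h5 (by omega) (by omega)
  have := l.inj _ (by omega) _ (by omega) d3
  rcases lt_or_gt_of_ne (Fin.val_ne_of_ne hij) with h6 | h6
  · have := Nat.mul_le_mul_right g (show (i : ℕ) + 1 + 1 ≤ j + 1 by omega)
    rw [Nat.succ_mul] at this
    omega
  · have := Nat.mul_le_mul_right g (show (j : ℕ) + 1 + 1 ≤ i + 1 by omega)
    rw [Nat.succ_mul] at this
    omega

include hq hg sep in
theorem exists_par (dense : ∀ v, ∃ x ∉ S, Near L (5 * g) v x) : ∃ par : α → α,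
    (∀ a, ∀ x ∉ S, Near L c (q a) x → par a = x) ∧
    (∀ a ∈ Fr L C S q c, par a ∈ Att L S (q a)) ∧
    (∀ a ∈ Fr L C S q c, ∀ b ∈ Att L (Fr L C S q c) a, ∀ x ∉ S, Near L c (q b) x →
      ∃ z ∈ Att L (Fr L C S q c) a, Near L c (q z) (par a)) ∧
    ∀ a ∈ Fr L C S q c, ∀ b, LCh L (Fr L C S q c) a b → par a = par b := by
  classical
  let Bd : α → Set α := fun a => {x | x ∉ S ∧ ∃ z ∈ Att L (Fr L C S q c) a, Near L c (q z) x}
  let A : α → Set α := fun a => if ∃ x ∉ S, Near L c (q a) x then {x | x ∉ S ∧ Near L c (q a) x}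
    else if (Bd a).Nonempty then Bd a else Att L S (q a)
  have nf : ∀ a ∈ Fr L C S q c, A a = if (Bd a).Nonempty then Bd a else Att L S (q a) :=
    fun a ha => if_neg fun ⟨x, h1, h2⟩ => h1 (ha.2 x h2)
  have ne : ∀ a, (A a).Nonempty := fun a => by
    simp only [A]
    split_ifs with h1 h2
    · exact h1
    · exact h2
    · obtain ⟨x, h3, h4⟩ := dense (q a)
      exact (entry h3 h4 (by_contra fun e => h1 ⟨_, e, Near.refl _ _ _⟩)).imp fun t ht => ht.1
  have sp : ∀ a, (ne a).some ∈ A a := fun a => (ne a).some_mem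
  refine ⟨fun a => (ne a).some, fun a x h1 h2 => ?_, fun a ha => ?_, fun a ha b hb x h1 h2 => ?_,
    fun a ha b hb => ?_⟩
  · have := (show A a = _ from if_pos ⟨x, h1, h2⟩).subset (sp a)
    exact sep _ this.1 _ h1 ((this.2.symm.trans h2).mono (by omega))
  · have := (nf a ha).subset (sp a)
    split_ifs at this
    · obtain ⟨h1, z, h2, h3⟩ := this
      exact Fr.bd hq hg sep ha h2 h1 h3
    · exact this
  · have := (nf a ha).subset (sp a)
    rw [if_pos ⟨x, h1, b, hb, h2⟩] at this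
    exact this.2
  · have : A a = A b := by
      rw [nf a ha, nf b (hb.mem ha), att_eq (Fr.lch hq hb)]
      simp only [Bd, att_eq hb]
    have key : ∀ (s t : Set α) (hs : s.Nonempty) (ht : t.Nonempty), s = t → hs.some = ht.some := by
      rintro s _ hs ht rfl
      rfl
    exact key _ _ _ _ this

end main

end Gate

open Gate in
theorem gateStmt : GateStmt.{u} := by
  intro c n
  refine ⟨2 * (5 * (n + 10 * c + 10)) + c, fun α L C q hd hC hq hF => ?_⟩
  obtain ⟨S, sep, dense⟩ := exists_net L (5 * (n + 10 * c + 10))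
  have hg : 10 * c + 10 ≤ n + 10 * c + 10 := by omega
  obtain ⟨par, p1, p2, p3, p4⟩ := exists_par hq hg sep dense
  have an : ∀ a ∈ C, a ∉ Fr L C S q c → par a ∉ S ∧ Near L c (q a) (par a) := fun a h1 h2 => by
    by_contra h
    exact h2 ⟨h1, fun t ht => by_contra fun e => h (by rw [p1 a t e ht]; exact ⟨e, ht⟩)⟩
  let X : α → α → Prop := fun a b =>
    a ∈ Fr L C S q c ∧ L.Adj a b ∧ b ∉ Fr L C S q c ∧ par a ≠ par b
  have U : ∀ a b a' b', X a b → X a' b' → LCh L S (q a) (q a') → a = a' ∧ b = b' := by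
    rintro a b a' b' ⟨h1, h2, h3, h4⟩ ⟨h1', h2', h3', h4'⟩ hs
    have hb : b ∈ Att L (Fr L C S q c) a := ⟨h3, a, LCh.refl _, h2⟩
    have hb' : b' ∈ Att L (Fr L C S q c) a' := ⟨h3', a', LCh.refl _, h2'⟩
    obtain ⟨g2, n2⟩ := an b (hC a h1.1 b h2) h3
    obtain ⟨g2', n2'⟩ := an b' (hC a' h1'.1 b' h2') h3'
    obtain ⟨z, hz, n1⟩ := p3 a h1 b hb _ g2 n2
    obtain ⟨z', hz', n1'⟩ := p3 a' h1' b' hb' _ g2' n2'
    have h5 := uniq hd hC hq hg sep le_rfl hF h1 h1' hs hz hb hz' hb' (p2 a h1).1 g2 (p2 a' h1').1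
      g2' n1 n2 n1' n2' h4 h4'
    have h6 := p1 z _ (p2 a h1).1 n1
    obtain ⟨κ, M, hκ⟩ := thread hd h1 hz hb fun e => h4 (by rw [← h6, e])
    have h7 := (hκ.out hd h1 (LCh.refl _) h3 h2).resolve_left fun e => h4 (by rw [← h6, e])
    have h8 := (hκ.out hd h1 h5 h3' h2').resolve_left fun e =>
      h4' (by rw [← p4 a h1 a' h5, ← h6, e])
    exact ⟨h7.2.trans h8.2.symm, h8.1.symm⟩
  classical
  let P : Sym2 α → Sym2 α → Prop := fun f e =>
    ∃ a b, X a b ∧ (∃ v ∈ f, LCh L S (q a) v) ∧ e = s(a, b)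
  let owner : Sym2 α → Sym2 α := fun f => if h : ∃ e, P f e then h.choose else f
  have W : ∀ a b, X a b → ∃ ω : L.Walk (par a) (par b), ∀ f ∈ ω.edges, owner f = s(a, b) := by
    intro a b h
    obtain ⟨g2, n2⟩ := an b (hC a h.1.1 b h.2.1) h.2.2.1
    obtain ⟨ω, hω⟩ := walk_att (p2 a h.1)
      (Fr.bd hq hg sep h.1 ⟨h.2.2.1, a, LCh.refl _, h.2.1⟩ g2 n2)
    refine ⟨ω, fun f hf => ?_⟩
    have ex : ∃ e, P f e := ⟨_, a, b, h, hω f hf, rfl⟩
    obtain ⟨a', b', h', ⟨v', m', l'⟩, e⟩ := ex.choose_spec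
    obtain ⟨v, m, l⟩ := hω f hf
    have hv : LCh L S v v' := by
      by_cases e' : v = v'
      · exact e' ▸ LCh.refl _
      · have := ω.edges_subset_edgeSet hf
        rw [(Sym2.mem_and_mem_iff e').1 ⟨m, m'⟩] at this
        exact LCh.single (l.mem (Fr.mem h.1)) (l'.mem (Fr.mem h'.1)) this
    obtain ⟨rfl, rfl⟩ := U a b a' b' h h' ((l.trans hv).trans l'.symm)
    exact (dif_pos ex).trans e
  refine ⟨par, owner, fun a ha => ?_, fun a ha b hab => ?_⟩
  · by_cases h : a ∈ Fr L C S q c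
    · exact (disp hd dense (Fr.mem h) (p2 a h)).mono (by omega)
    · exact (an a ha h).2.mono (by omega)
  by_cases e : par a = par b
  · exact ⟨(Walk.nil : L.Walk (par a) (par a)).copy rfl e, by simp⟩
  by_cases h : a ∈ Fr L C S q c <;> by_cases h' : b ∈ Fr L C S q c
  · exact absurd (p4 a h b (LCh.single h h' hab)) e
  · exact W a b ⟨h, hab, h', e⟩
  · obtain ⟨ω, hω⟩ := W b a ⟨h', hab.symm, h, Ne.symm e⟩
    exact ⟨ω.reverse, fun f hf => (hω f (by simpa using hf)).trans Sym2.eq_swap⟩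
  · obtain ⟨g1, n1⟩ := an a ha h
    obtain ⟨g2, n2⟩ := an b (hC a ha b hab) h'
    exact absurd (sep _ g1 _ g2 (((n1.symm.trans (hq a ha b hab)).trans n2).mono (by omega))) e

end Pool.Agent.Lib.MP_f9389f_co
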