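import Mathlib
import Pool.Agent.Lib.MP_f9389f_co.CbStmt

/-! Hyperbolic graphs have geodesic combings. -/

namespace Pool.Agent.Lib.MP_f9389f_co

open SimpleGraph

theorem geo_dist {V : Type*} {G : SimpleGraph V} (hG : G.Connected) {o x : V} (p : G.Walk o x)
    (hp : p.length = G.dist o x) (t : ℕ) :
    G.dist o (p.getVert t) = min t (G.dist o x) ∧
      G.dist (p.getVert t) x + min t (G.dist o x) = G.dist o x := by
  have h1 : G.dist o (p.getVert t) ≤ min t (G.dist o x) := by
    have := dist_le (p.take t)
    rw [Walk.take_length, hp] at this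
    exact this
  have h2 : G.dist (p.getVert t) x ≤ G.dist o x - t := by
    have := dist_le (p.drop t)
    rw [Walk.drop_length, hp] at this
    exact this
  have h3 := hG.dist_triangle (u := o) (v := p.getVert t) (w := x)
  omega

/-- A connected graph with Gromov's four point condition (with constant `δ / 2`) has a geodesic
combing. -/
theorem hasCombing_of_hyperbolic {V : Type*} {G : SimpleGraph V} (hG : G.Connected) (δ : ℕ)
    (h : ∀ x y z w, G.dist x y + G.dist z w ≤
      max (G.dist x z + G.dist y w) (G.dist x w + G.dist y z) + δ) :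
    HasCombing G (2 * δ + 2) := by
  obtain ⟨o⟩ := hG.nonempty
  choose p hp using fun x => hG.exists_walk_length_eq_dist o x
  refine ⟨o, p, hp, fun x y e t => ?_⟩
  obtain ⟨a1, a2⟩ := geo_dist hG (p x) (hp x) t
  obtain ⟨b1, b2⟩ := geo_dist hG (p y) (hp y) t
  generalize (p x).getVert t = a at *
  generalize (p y).getVert t = b at *
  have e1 : G.dist x y = 1 := dist_eq_one_iff_adj.2 e
  have t1 := hG.dist_triangle (u := o) (v := x) (w := y)
  have t2 := hG.dist_triangle (u := o) (v := y) (w := x)
  have c1 := h a y o x
  have c2 := h a b o y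
  rw [dist_comm (u := a) (v := o), dist_comm (u := y) (v := x), dist_comm (u := y) (v := o)] at c1
  rw [dist_comm (u := a) (v := o), dist_comm (u := b) (v := o)] at c2
  rw [dist_comm (u := y) (v := x)] at t2
  omega

end Pool.Agent.Lib.MP_f9389f_co
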