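import Mathlib
import Pool.Agent.Lib.MP_f9389f_co.CbBasic

/-! Fat `K33` minors from six sets, trimming of tripods, and walls over three columns. -/

namespace Pool.Agent.Lib.MP_f9389f_co

universe u

open SimpleGraph

/-- Every vertex of a short walk is close to both ends. -/
theorem k33_support_close {V : Type u} {G : SimpleGraph V} {x z v : V} (p : G.Walk x z)
    (hv : v ∈ p.support) : G.dist x v ≤ p.length ∧ G.dist v z ≤ p.length := by
  classical
  exact ⟨(dist_le (p.takeUntil v hv)).trans (p.length_takeUntil_le_length hv),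
    (dist_le (p.dropUntil v hv)).trans (p.length_dropUntil_le_length hv)⟩

theorem k33Stmt : K33Stmt.{u} := by
  intro V G hG K X Z hX hZ hXX hZZ hXZ hc
  choose x hx z hz hxz using hc
  have hp : ∀ a i, ∃ p : G.Walk (x a i) (z a i), p.IsPath ∧ p.length = G.dist (x a i) (z a i) :=
    fun a i => hG.exists_path_of_dist _ _
  choose p hp hl using hp
  have hcl : ∀ a i, ∀ v ∈ (p a i).support, G.dist (x a i) v ≤ K ∧ G.dist v (z a i) ≤ K := by
    intro a i v hv
    have h1 := k33_support_close (p a i) hv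
    have h2 := hl a i
    have h3 := hxz a i
    omega
  refine ⟨Sum.elim X Z, fun e => {v | ∃ a i, e = s(Sum.inl a, Sum.inr i) ∧ v ∈ (p a i).support},
    ?_, ?_, ?_, ?_, ?_⟩
  · rintro (a | i)
    · exact (hX a).induce hG ⟨_, hx a 0⟩
    · exact (hZ i).induce hG ⟨_, hz 0 i⟩
  · have key : ∀ a i, {v | ∃ a' i', s((Sum.inl a : Fin 3 ⊕ Fin 3), Sum.inr i) =
        s(Sum.inl a', Sum.inr i') ∧ v ∈ (p a' i').support} = {v | v ∈ (p a i).support} := by
      intro a i
      ext v
      constructor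
      · rintro ⟨a', i', h1, h2⟩
        simp only [Sym2.eq_iff, Sum.inl.injEq, Sum.inr.injEq, reduceCtorEq, and_self,
          or_false] at h1
        obtain ⟨rfl, rfl⟩ := h1
        exact h2
      · intro h
        exact ⟨a, i, rfl, h⟩
    rintro (a | i) (b | j) huw
    · simp at huw
    · exact ⟨_, hx a j, _, hz a j, p a j, hp a j, key a j⟩
    · refine ⟨_, hz b i, _, hx b i, (p b i).reverse, (hp b i).reverse, ?_⟩
      rw [Sym2.eq_swap]
      refine (key b i).trans ?_
      ext v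
      simp
    · simp at huw
  · rintro (a | i) (b | j) huw
    · exact (hXX a b (fun h => huw (by rw [h]))).mono (by omega) subset_rfl subset_rfl
    · exact hXZ a j
    · exact (hXZ b i).symm
    · exact (hZZ i j (fun h => huw (by rw [h]))).mono (by omega) subset_rfl subset_rfl
  · rintro e - f - hef v ⟨a, i, rfl, hv⟩ w ⟨b, j, rfl, hw⟩
    obtain ⟨h1, h2⟩ := hcl a i v hv
    obtain ⟨h3, h4⟩ := hcl b j w hw
    by_cases hab : a = b
    · subst hab
      have hij : i ≠ j := fun h => hef (by rw [h])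
      have h5 := hZZ i j hij _ (hz a i) _ (hz a j)
      have h6 := tri hG (z a i) v (z a j)
      have h7 := tri hG v w (z a j)
      rw [dist_comm (u := z a i) (v := v)] at h6
      omega
    · have h5 := hXX a b hab _ (hx a i) _ (hx b j)
      have h6 := tri hG (x a i) v (x b j)
      have h7 := tri hG v w (x b j)
      rw [dist_comm (u := w) (v := x b j)] at h7
      omega
  · rintro e - u hu v ⟨a, i, rfl, hv⟩ w hw
    obtain ⟨h1, h2⟩ := hcl a i v hv
    rcases u with b | j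
    · have hab : a ≠ b := fun h => hu (by rw [h]; exact Sym2.mem_mk_left _ _)
      have h5 := hXX a b hab _ (hx a i) w hw
      have h6 := tri hG (x a i) v w
      omega
    · have hij : i ≠ j := fun h => hu (by rw [h]; exact Sym2.mem_mk_right _ _)
      have h5 := hZZ i j hij _ (hz a i) w hw
      have h6 := tri hG (z a i) v w
      rw [dist_comm (u := z a i) (v := v)] at h6
      omega

theorem trimStmt : TrimStmt.{u} := by
  intro V G hG K hK T A z hz hA hT hAT
  let S : Set V := {v | ∃ i, v ∈ A i} ∩ {v | ¬ ∃ j, ∃ t ∈ T j, G.dist v t < K}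
  have hzS : z ∈ S := by
    refine ⟨⟨0, hz 0⟩, ?_⟩
    rintro ⟨j, t, ht, h⟩
    obtain ⟨i, hi⟩ := exists_ne j
    exact absurd (hAT i j hi z (hz i) t ht) (by omega)
  refine ⟨{x | Ch G 1 S z x}, fun x hx => (Ch.mem hx hzS).1, conn_comp G 1 S z, ?_, ?_⟩
  · intro j x hx t ht
    by_contra h
    exact (Ch.mem hx hzS).2 ⟨j, t, ht, by omega⟩
  · intro j
    obtain ⟨t, htA, htT⟩ := hT j
    obtain ⟨z', y, h1, -, -, -, ⟨t', ht', h2⟩, h3, -⟩ :=
      (hA j z (hz j) t htA).entry (fun v => ∃ t ∈ T j, G.dist v t < K)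
        (fun h => hzS.2 ⟨j, h⟩) ⟨t, htT, by simp only [dist_self]; omega⟩
    refine ⟨z', h1.mono le_rfl ?_, t', ht', ?_⟩
    · rintro v ⟨hv1, hv2⟩
      refine ⟨⟨j, hv1⟩, ?_⟩
      rintro ⟨j', s, hs, h⟩
      by_cases hj : j = j'
      · subst hj
        exact hv2 ⟨s, hs, h⟩
      · exact absurd (hAT j j' hj v hv1 s hs) (by omega)
    · have h4 := tri hG z' y t'
      omega

section Wall

variable {V : Type u} {G : SimpleGraph V} {c : ℕ} {o : V} {σ : V → ℕ → V}

/-- Sets with separated levels are apart. -/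
theorem k33_apart_lev (hG : G.Connected) {Y Y' : Set V} {s K : ℕ}
    (h1 : ∀ y ∈ Y, G.dist o y ≤ s) (h2 : ∀ y ∈ Y', s + K ≤ G.dist o y) : Apart G K Y Y' := by
  intro y hy y' hy'
  have h3 := h1 y hy
  have h4 := h2 y' hy'
  have h5 := tri hG o y y'
  omega

theorem k33_lev_nb (hG : G.Connected) {A : Set V} {m k : ℕ} (hA : A ⊆ Lv G o m) {v : V}
    (hv : v ∈ Nb G k A) : m ≤ G.dist o v + k := by
  obtain ⟨a, ha, h⟩ := hv
  have h1 : G.dist o a = m := hA ha
  have h2 := tri hG o v a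
  rw [dist_comm (u := v) (v := a)] at h2
  omega

theorem k33_lev_seg_le (h : Cmb G c o σ) {x v : V} {s t : ℕ} (hv : v ∈ Seg σ x s t) :
    G.dist o v ≤ t := by
  obtain ⟨i, -, h2, rfl⟩ := hv
  exact (h.lev_le x i).trans h2

theorem k33_lev_seg_ge (h : Cmb G c o σ) {x v : V} {s t : ℕ} (ht : t ≤ G.dist o x)
    (hv : v ∈ Seg σ x s t) : s ≤ G.dist o v := by
  obtain ⟨i, h1, h2, rfl⟩ := hv
  rw [h.lev x i (h2.trans ht)]
  exact h1

/-- A column below a point of one strand stays away from the wall of the other strand. -/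
theorem k33_seg_apart (h : Cmb G c o σ) {A : Set V} {m k K s : ℕ} (hA : A ⊆ Lv G o m) {x : V}
    (hx : G.dist o x = m) (hxA : ∀ a ∈ A, 2 * k + 3 * K ≤ G.dist x a) :
    Apart G K (Seg σ x s m) (Nb G k A) := by
  rintro _ ⟨t, -, h2, rfl⟩ v hv
  have h3 := k33_lev_nb h.conn hA hv
  obtain ⟨a, ha, hav⟩ := hv
  have h4 := h.lev x t (by omega)
  have h5 := h.dist_top x t
  have h6 := hxA a ha
  have h7 := tri h.conn o (σ x t) v
  have h8 := tri h.conn x (σ x t) a
  have h9 := tri h.conn (σ x t) v a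
  rw [dist_comm (u := x) (v := σ x t)] at h8
  rw [dist_comm (u := v) (v := a)] at h9
  omega

end Wall

theorem wallStmt : WallStmt.{u} := by
  intro V G c o σ h K hK n e k m hm A₁ A₂ hA₁ hA₂ hc₁ hc₂ hA p q J hp hq hJ hpJ hqJ hlJ hcol
  have hG := h.conn
  have hlp : ∀ i, G.dist o (p i) = m := fun i => hA₁ (hp i)
  have hlq : ∀ i, G.dist o (q i) = m := fun i => hA₂ (hq i)
  let X₂ : Set V := {v | ∃ i, v ∈ Seg σ (p i) 0 n}
  have hl₀ : ∀ v ∈ Nb G k A₁, n + K + e + e + 2 * K ≤ G.dist o v := fun v hv => by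
    have := k33_lev_nb hG hA₁ hv
    omega
  have hl₁ : ∀ v ∈ Nb G k A₂, n + K + e + e + 2 * K ≤ G.dist o v := fun v hv => by
    have := k33_lev_nb hG hA₂ hv
    omega
  have hl₂ : ∀ v ∈ X₂, G.dist o v ≤ n := fun v ⟨_, hv⟩ => k33_lev_seg_le h hv
  have hc₃ : Conn G 1 X₂ := by
    refine conn_of_base o ?_
    rintro v ⟨i, hv⟩
    exact (h.conn_seg (p i) 0 n o ⟨0, le_rfl, Nat.zero_le _, h.zero _⟩ v hv).mono le_rfl
      fun w hw => ⟨i, hw⟩
  have a01 : Apart G (3 * K) (Nb G k A₁) (Nb G k A₂) := by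
    rintro u ⟨a, ha, hu⟩ v ⟨b, hb, hv⟩
    have h1 := hA a ha b hb
    have h2 := tri hG a u b
    have h3 := tri hG u v b
    rw [dist_comm (u := v) (v := b)] at h3
    omega
  have a20 : Apart G (3 * K) X₂ (Nb G k A₁) :=
    k33_apart_lev hG hl₂ fun v hv => by have := hl₀ v hv; omega
  have a21 : Apart G (3 * K) X₂ (Nb G k A₂) :=
    k33_apart_lev hG hl₂ fun v hv => by have := hl₁ v hv; omega
  let X : Fin 3 → Set V := ![Nb G k A₁, Nb G k A₂, X₂]
  have hZ : ∀ i, ∃ Z : Set V,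
      Z ⊆ Seg σ (p i) n m ∪ Seg σ (q i) (n + K + e) m ∪ J i ∧ Conn G 1 Z ∧
        (∀ j, Apart G K Z (X j)) ∧ ∀ j, ∃ x ∈ Z, ∃ t ∈ X j, G.dist x t ≤ K := by
    intro i
    have b01 : Apart G K (Seg σ (p i) (n + K + e) m) (Nb G k A₂) :=
      k33_seg_apart h hA₂ (hlp i) fun a ha => hA _ (hp i) a ha
    have b02 : Apart G K (Seg σ (p i) (n + K + e) m) X₂ :=
      (k33_apart_lev hG hl₂ fun v hv => by
        have := k33_lev_seg_ge h (hlp i).ge hv; omega).symm
    have b10 : Apart G K (J i ∪ Seg σ (q i) (n + K + e) m) (Nb G k A₁) := by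
      rintro u (hu | hu)
      · exact k33_apart_lev hG (s := n + K + e + e) (fun v hv => (hlJ i v hv).2)
          (fun v hv => by have := hl₀ v hv; omega) u hu
      · exact k33_seg_apart h hA₁ (hlq i) (fun a ha => hA.symm _ (hq i) a ha) u hu
    have b12 : Apart G K (J i ∪ Seg σ (q i) (n + K + e) m) X₂ := by
      refine (k33_apart_lev hG hl₂ ?_).symm
      rintro v (hv | hv)
      · exact (hlJ i v hv).1
      · have := k33_lev_seg_ge h (hlq i).ge hv
        omega
    have b20 : Apart G K (Seg σ (p i) n (n + K + e)) (Nb G k A₁) :=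
      k33_apart_lev hG (fun v hv => k33_lev_seg_le h hv) fun v hv => by have := hl₀ v hv; omega
    have b21 : Apart G K (Seg σ (p i) n (n + K + e)) (Nb G k A₂) :=
      k33_apart_lev hG (fun v hv => k33_lev_seg_le h hv) fun v hv => by have := hl₁ v hv; omega
    let Arm : Fin 3 → Set V :=
      ![Seg σ (p i) (n + K + e) m, J i ∪ Seg σ (q i) (n + K + e) m, Seg σ (p i) n (n + K + e)]
    have t1 : ∀ j, σ (p i) (n + K + e) ∈ Arm j := by
      intro j
      fin_cases j
      · exact ⟨_, le_rfl, by omega, rfl⟩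
      · exact Or.inl (hpJ i)
      · exact ⟨_, by omega, le_rfl, rfl⟩
    have t2 : ∀ j, Conn G 1 (Arm j) := by
      intro j
      fin_cases j
      · exact h.conn_seg _ _ _
      · exact (hJ i).union' (h.conn_seg _ _ _) (hqJ i) ⟨_, le_rfl, by omega, rfl⟩
      · exact h.conn_seg _ _ _
    have t3 : ∀ j, ∃ t ∈ Arm j, t ∈ X j := by
      intro j
      fin_cases j
      · exact ⟨p i, ⟨m, by omega, le_rfl, h.stop _ _ (hlp i).le⟩, subset_nb G k A₁ (hp i)⟩
      · exact ⟨q i, Or.inr ⟨m, by omega, le_rfl, h.stop _ _ (hlq i).le⟩, subset_nb G k A₂ (hq i)⟩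
      · exact ⟨σ (p i) n, ⟨n, le_rfl, by omega, rfl⟩, ⟨i, n, Nat.zero_le _, le_rfl, rfl⟩⟩
    have t4 : ∀ a b, a ≠ b → Apart G K (Arm a) (X b) := by
      intro a b hab
      fin_cases a <;> fin_cases b
      exacts [absurd rfl hab, b01, b02, b10, absurd rfl hab, b12, b20, b21, absurd rfl hab]
    obtain ⟨Z, h1, h2, h3, h4⟩ := trimStmt V G hG K hK X Arm (σ (p i) (n + K + e)) t1 t2 t3 t4
    refine ⟨Z, fun x hx => ?_, h2, h3, h4⟩
    obtain ⟨j, hj⟩ := h1 x hx
    fin_cases j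
    · obtain ⟨t, h5, h6, h7⟩ := hj
      exact Or.inl (Or.inl ⟨t, by omega, h6, h7⟩)
    · rcases hj with hj | hj
      · exact Or.inr hj
      · exact Or.inl (Or.inr hj)
    · obtain ⟨t, h5, h6, h7⟩ := hj
      exact Or.inl (Or.inl ⟨t, h5, by omega, h7⟩)
  choose Z hZ1 hZ2 hZ3 hZ4 using hZ
  refine k33Stmt V G hG K X Z ?_ hZ2 ?_ (fun i j hij => (hcol i j hij).mono le_rfl (hZ1 i) (hZ1 j))
    (fun a i => (hZ3 i a).symm) fun a i => ?_
  · intro a
    fin_cases a
    exacts [hc₁.nb hG, hc₂.nb hG, hc₃]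
  · intro a b hab
    fin_cases a <;> fin_cases b
    exacts [absurd rfl hab, a01, a20.symm, a01.symm, absurd rfl hab, a21.symm, a20, a21,
      absurd rfl hab]
  · obtain ⟨x, hx, t, ht, hxt⟩ := hZ4 i a
    exact ⟨t, ht, x, hx, by rw [SimpleGraph.dist_comm]; exact hxt⟩

end Pool.Agent.Lib.MP_f9389f_co
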