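import Pool.Agent.Lib.MP_f9389f_co.CbBasic

/-! The Voronoi quotient of the spheres. -/

namespace Pool.Agent.Lib.MP_f9389f_co

universe u

open SimpleGraph

/-- A maximal separated subset. -/
theorem lv_net {α : Type u} (Γ : SimpleGraph α) (Gd : Set α) (n : ℕ) :
    ∃ N ⊆ Gd, (∀ s ∈ N, ∀ t ∈ N, Near Γ n s t → s = t) ∧ ∀ g ∈ Gd, ∃ t ∈ N, Near Γ n g t := by
  obtain ⟨N, hN⟩ := zorn_subset {N | N ⊆ Gd ∧ N.Pairwise fun a b => ¬ Near Γ n a b}
    fun C hC hc => ⟨⋃₀ C, ⟨Set.sUnion_subset fun s hs => (hC hs).1,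
      (Set.pairwise_sUnion hc.directedOn).2 fun s hs => (hC hs).2⟩, fun s => Set.subset_sUnion_of_mem⟩
  refine ⟨N, hN.prop.1, fun s hs t ht h => by_contra fun hne => hN.prop.2 hs ht hne h,
    fun g hg => by_contra fun h => h ⟨g, hN.le_of_ge (y := insert g N) ⟨?_, ?_⟩
      (Set.subset_insert _ _) (Set.mem_insert _ _), Near.refl _ _ _⟩⟩
  · exact Set.insert_subset hg hN.prop.1
  · exact hN.prop.2.insert fun b hb _ => ⟨fun h' => h ⟨b, hb, h'⟩, fun h' => h ⟨b, hb, h'.symm⟩⟩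

/-- Voronoi cells that are connected. -/
theorem lv_vor {α : Type u} (Γ : SimpleGraph α) (N : Set α)
    (h : ∀ v, ∃ n, ∃ t ∈ N, Near Γ n v t) : ∃ ψ : α → α, (∀ v, ψ v ∈ N) ∧
      (∀ v n, ∀ t ∈ N, Near Γ n v t → Near Γ n v (ψ v)) ∧
      ∀ v, LCh Γ {u | ψ u = ψ v} v (ψ v) := by
  classical
  obtain ⟨_, _⟩ := exists_wellFoundedLT α
  obtain ⟨rk, r1, r2⟩ : ∃ rk : α → ℕ, (∀ v, {t | t ∈ N ∧ Near Γ (rk v) v t}.Nonempty) ∧
      ∀ v n, ∀ t ∈ N, Near Γ n v t → rk v ≤ n :=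
    ⟨fun v => Nat.find (h v), fun v => Nat.find_spec (h v),
      fun v n t ht hn => Nat.find_min' (h v) ⟨t, ht, hn⟩⟩
  obtain ⟨ψ, p1, p2⟩ : ∃ ψ : α → α, (∀ v, ψ v ∈ N ∧ Near Γ (rk v) v (ψ v)) ∧
      ∀ v, ∀ t ∈ N, Near Γ (rk v) v t → ψ v ≤ t :=
    ⟨fun v => wellFounded_lt.min _ (r1 v), fun v => wellFounded_lt.min_mem _ (r1 v),
      fun v t ht hn => wellFounded_lt.min_le (s := {t | t ∈ N ∧ Near Γ (rk v) v t}) ⟨ht, hn⟩⟩
  refine ⟨ψ, fun v => (p1 v).1, fun v n t ht hn => (p1 v).2.mono (r2 v n t ht hn), fun v => ?_⟩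
  obtain ⟨n, hn⟩ : ∃ n, rk v = n := ⟨_, rfl⟩
  induction n generalizing v with
  | zero =>
    have := (p1 v).2
    rw [hn] at this
    rw [← this.zero]
    exact LCh.refl _
  | succ n ih =>
    obtain ⟨x, hx, h1⟩ := Near.succ (hn ▸ (p1 v).2)
    have h2 := r2 x n _ (p1 v).1 h1
    have h3 := r2 v _ _ (p1 x).1 ((Near.of_or hx).trans (p1 x).2)
    have h4 : rk x = n := by omega
    have h5 : ψ x = ψ v := (p2 x _ (p1 v).1 (h4 ▸ h1)).antisymm
      (p2 v _ (p1 x).1 (((Near.of_or hx).trans (p1 x).2).mono (by omega)))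
    rcases hx with rfl | hx
    · omega
    · exact (LCh.single (T := {u | ψ u = ψ v}) rfl h5 hx).trans (h5 ▸ ih x h4)

section

variable {V : Type u} {G : SimpleGraph V} {o : V} {c B w S : ℕ} {x y : V}

theorem GRel.lv_mem (h : GRel G o c B w S x y) :
    ∃ z, G.dist z x ≤ S ∧ G.dist z y ≤ S ∧ y ∈ YL G o c B (G.dist o x) := by
  obtain ⟨z, h1, h2, h3⟩ := h
  exact ⟨z, h2, (h3.mem ⟨h1, h2⟩).2, (h3.mem ⟨h1, h2⟩).1⟩

theorem GRel.lv_symm (h : GRel G o c B w S x y) : GRel G o c B w S y x := by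
  obtain ⟨z, h1, h2, h3⟩ := h
  obtain ⟨h4, h5⟩ := h3.mem ⟨h1, h2⟩
  exact ⟨z, by rwa [YL.lv h4], h5, by rw [YL.lv h4]; exact h3.symm⟩

variable (G o c B w S) in
/-- The auxiliary graph on the points of the spheres. -/
def LvG : SimpleGraph V := SimpleGraph.fromRel fun x y => GRel G o c B w S x y ∨
  (x ∉ YL G o c B (G.dist o x) ∧ Ch G c (Lv G o (G.dist o x)) x y)

theorem lvG_adj : (LvG G o c B w S).Adj x y ↔ x ≠ y ∧ (GRel G o c B w S x y ∨
    (x ∉ YL G o c B (G.dist o x) ∧ Ch G c (Lv G o (G.dist o x)) x y)) := by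
  refine (fromRel_adj _ _ _).trans (and_congr_right fun _ => or_iff_left_of_imp ?_)
  rintro (h | ⟨h1, h2⟩)
  · exact Or.inl h.lv_symm
  · have e : G.dist o x = G.dist o y := h2.mem rfl
    exact Or.inr ⟨fun h => h1 (e ▸ YL.of_ch h (e ▸ h2.symm)), e ▸ h2.symm⟩

theorem lvG_or (h : GRel G o c B w S x y) : x = y ∨ (LvG G o c B w S).Adj x y :=
  (em _).imp_right fun h' => lvG_adj.2 ⟨h', Or.inl h⟩

theorem lvG_rel (h : (LvG G o c B w S).Adj x y) (hx : x ∈ YL G o c B (G.dist o x)) :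
    GRel G o c B w S x y := (lvG_adj.1 h).2.resolve_right fun h' => h'.1 hx

theorem lvG_lev {n : ℕ} (h : Near (LvG G o c B w S) n x y) : G.dist o y = G.dist o x := by
  refine h.induct (fun y => G.dist o y = G.dist o x) rfl fun a b ha hab => Eq.trans ?_ ha
  rcases (lvG_adj.1 hab).2 with h | h
  · exact YL.lv h.lv_mem.choose_spec.2.2
  · exact h.2.mem rfl

theorem lvG_big {n m : ℕ} (h : Near (LvG G o c B w S) n x y) (hx : x ∈ YL G o c B m) :
    y ∈ YL G o c B m :=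
  h.induct (fun y => y ∈ YL G o c B m) hx fun _ _ ha hab =>
    YL.lv ha ▸ (lvG_rel hab (by rwa [YL.lv ha])).lv_mem.choose_spec.2.2

theorem lvG_small {n : ℕ} (h : Near (LvG G o c B w S) n x y)
    (hx : x ∉ YL G o c B (G.dist o x)) : Near (LvG G o c B w S) 1 x y := by
  have k : Ch G c (Lv G o (G.dist o x)) x y := by
    refine h.induct (fun y => Ch G c (Lv G o (G.dist o x)) x y) (Ch.refl _) fun a b ha hab => ?_
    have e : G.dist o a = G.dist o x := ha.mem rfl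
    rcases (lvG_adj.1 hab).2 with ⟨_, h, _⟩ | h
    · exact absurd (YL.of_ch (e ▸ h) ha.symm) hx
    · exact ha.trans (e ▸ h.2)
  exact Near.of_or ((em _).imp_right fun h' => lvG_adj.2 ⟨h', Or.inr ⟨hx, k⟩⟩)

theorem lvG_dist (hG : G.Connected) {n : ℕ} (h : Near (LvG G o c B w S) n x y) :
    G.dist x y ≤ n * (2 * S + B) := by
  induction n generalizing x with
  | zero => simp [h.zero]
  | succ n ih =>
    obtain ⟨a, ha, h1⟩ := h.succ
    have h2 := ih h1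
    have h3 := tri hG x a y
    suffices G.dist x a ≤ 2 * S + B by rw [add_one_mul]; omega
    rcases ha with rfl | ha
    · simp
    rcases (lvG_adj.1 ha).2 with h | h
    · obtain ⟨z, h4, h5, -⟩ := h.lv_mem
      have := tri hG x z a
      rw [G.dist_comm] at h4
      omega
    · have : ¬ B ≤ G.dist x a := fun h' => h.1 ⟨rfl, x, a, Ch.refl _, h.2, h'⟩
      omega

variable (G o c B w S) in
/-- The closed neighbourhood in the auxiliary graph. -/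
def LvN (C : Set V) : Set V := {u | ∃ v ∈ C, v = u ∨ (LvG G o c B w S).Adj v u}

theorem lvN_conn {C : Set V} (h1 : ∀ v ∈ C, v ∈ YL G o c B (G.dist o v))
    (h2 : LConn (LvG G o c B w S) C) : Conn G w (LvN G o c B w S C) := by
  have k1 : ∀ v ∈ C, ∀ u, v = u ∨ (LvG G o c B w S).Adj v u →
      Ch G w (LvN G o c B w S C) v u := by
    rintro v hv u (rfl | h)
    · exact Ch.refl _
    · obtain ⟨z, a1, a2, a3⟩ := lvG_rel h (h1 v hv)
      exact a3.comp.mono le_rfl fun a ha => ⟨v, hv, lvG_or ⟨z, a1, a2, ha⟩⟩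
  have k2 : ∀ a b, LCh (LvG G o c B w S) C a b → Ch G w (LvN G o c B w S C) a b := by
    intro a b hab
    induction hab with
    | refl => exact Ch.refl _
    | tail _ h ih => exact ih.trans (k1 _ h.1 _ (Or.inr h.2.2))
  rintro a ⟨v, hv, ha⟩ b ⟨v', hv', hb⟩
  exact (k1 v hv a ha).symm.trans ((k2 v v' (h2 v hv v' hv')).trans (k1 v' hv' b hb))

end

theorem levelStmt : LevelStmt.{u} := by
  intro V G hG o c B w ρ w₂ r₃ r S hcw claw tt good hr hS hw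
  obtain ⟨N, n1, n2, n3⟩ := lv_net (LvG G o c B w S)
    {x | Good G o c B w S r x ∨ x ∉ YL G o c B (G.dist o x)} 4
  have n5 : ∀ v, ∃ t ∈ N, Near (LvG G o c B w S) 5 v t := fun v => by
    by_cases hv : v ∈ YL G o c B (G.dist o v)
    · obtain ⟨x, h1, h2⟩ := good v hv
      obtain ⟨t, ht, h3⟩ := n3 x (Or.inl h1)
      exact ⟨t, ht, (Near.of_or (lvG_or h2)).trans h3⟩
    · obtain ⟨t, ht, h3⟩ := n3 v (Or.inr hv)
      exact ⟨t, ht, h3.mono (by omega)⟩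
  obtain ⟨ψ, p1, p2, p3⟩ := lv_vor (LvG G o c B w S) N fun v => ⟨5, n5 v⟩
  have p5 : ∀ v, Near (LvG G o c B w S) 5 v (ψ v) := fun v =>
    (n5 v).elim fun t ht => p2 v 5 t ht.1 ht.2
  have v4 : ∀ v, ∀ t ∈ N, Near (LvG G o c B w S) 2 v t → ψ v = t := fun v t ht h =>
    n2 _ (p1 v) t ht ((p2 v 2 t ht h).symm.trans h)
  obtain ⟨L, hL⟩ : ∃ L : SimpleGraph V, ∀ s t, L.Adj s t ↔
      s ≠ t ∧ ∃ v v', (LvG G o c B w S).Adj v v' ∧ ψ v = s ∧ ψ v' = t :=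
    ⟨SimpleGraph.fromRel fun s t => ∃ v v', (LvG G o c B w S).Adj v v' ∧ ψ v = s ∧ ψ v' = t,
      fun s t => (fromRel_adj _ _ _).trans (and_congr_right fun _ => or_iff_left_of_imp
        fun ⟨v, v', h1, h2, h3⟩ => ⟨v', v, h1.symm, h3, h2⟩)⟩
  have l1 : ∀ v u, v = u ∨ (LvG G o c B w S).Adj v u → ψ v = ψ u ∨ L.Adj (ψ v) (ψ u) := by
    rintro v u (rfl | h)
    · exact Or.inl rfl
    · exact (em _).imp_right fun h' => (hL _ _).2 ⟨h', v, u, h, rfl, rfl⟩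
  have l11 : ∀ s t, L.Adj s t → Near (LvG G o c B w S) 11 s t := fun s t h => by
    obtain ⟨-, v, v', h1, rfl, rfl⟩ := (hL _ _).1 h
    exact (p5 v).symm.trans ((Near.of_adj h1).trans (p5 v'))
  have lN : ∀ s t, L.Adj s t → s ∈ N := fun s t h => by
    obtain ⟨-, v, v', -, rfl, -⟩ := (hL _ _).1 h
    exact p1 v
  have big : ∀ s t, L.Adj s t → s ∈ YL G o c B (G.dist o s) := fun s t h => by_contra fun hs =>
    h.ne (n2 s (lN _ _ h) t (lN _ _ h.symm) ((lvG_small (l11 s t h) hs).mono (by omega)))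
  have big' : ∀ v t, L.Adj (ψ v) t → v ∈ YL G o c B (G.dist o v) := fun v t h =>
    lvG_lev (p5 v) ▸ lvG_big (p5 v).symm (big _ t h)
  have cn : ∀ T, LConn L T → (∀ s ∈ T, ∃ t, L.Adj s t) →
      Conn G w (LvN G o c B w S {x | ψ x ∈ T}) := fun T h1 h2 => by
    have c1 : ∀ v, ψ v ∈ T → LCh (LvG G o c B w S) {x | ψ x ∈ T} v (ψ v) := fun v hv =>
      (p3 v).mono fun u (hu : ψ u = ψ v) => show ψ u ∈ T from hu ▸ hv
    have c2 : ∀ a b, LCh L T a b → LCh (LvG G o c B w S) {x | ψ x ∈ T} a b := by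
      intro a b hab
      induction hab with
      | refl => exact LCh.refl _
      | tail _ h ih =>
        obtain ⟨a1, a2, a3⟩ := h
        obtain ⟨-, v, v', a4, rfl, rfl⟩ := (hL _ _).1 a3
        exact ih.trans ((c1 v a1).symm.trans ((LCh.single (by exact a1) (by exact a2) a4).trans
          (c1 v' a2)))
    exact lvN_conn (fun v hv => (h2 _ hv).elim (big' v)) fun a ha b hb =>
      (c1 a ha).trans ((c2 _ _ (h1 _ ha _ hb)).trans (c1 b hb).symm)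
  have arm : ∀ t s, L.Adj t s → ∃ P, P ⊆ YL G o c B (G.dist o t) ∧ Conn G w P ∧
      (∀ z, ψ z = t → z ∈ P) ∧ s ∈ P ∧ (∀ s', L.Adj t s' → s' ≠ s → ∀ u ∈ P, r ≤ G.dist u s') ∧
      ∀ u ∈ P, Near L 2 t (ψ u) := fun t s h => by
    have a1 : LvN G o c B w S {x | ψ x ∈ ({t, s} : Set V)} ⊆ YL G o c B (G.dist o t) := by
      rintro u ⟨v, hv | hv, hu⟩
      · exact lvG_big ((hv ▸ (p5 v).symm).trans (Near.of_or hu)) (big t s h)
      · exact lvG_big ((l11 t s h).trans ((hv ▸ (p5 v).symm).trans (Near.of_or hu))) (big t s h)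
    refine ⟨_, a1, cn {t, s} ?_ ?_, fun z hz => ⟨z, Or.inl hz, Or.inl rfl⟩,
      ⟨s, Or.inr (v4 s s (lN _ _ h.symm) (Near.refl _ _ _)), Or.inl rfl⟩,
      fun s' h' hne u hu => by_contra fun hd => ?_, ?_⟩
    · rintro a (rfl | rfl) b (rfl | rfl)
      exacts [LCh.refl _, LCh.single (Or.inl rfl) (Or.inr rfl) h,
        LCh.single (Or.inr rfl) (Or.inl rfl) h.symm, LCh.refl _]
    · rintro a (rfl | rfl)
      exacts [⟨_, h⟩, ⟨_, h.symm⟩]
    · have g := (n1 (lN _ _ h'.symm)).resolve_right fun h => h (big _ _ h'.symm)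
      have g1 := g.2 u (lvG_lev (l11 _ _ h') ▸ a1 hu) (by rw [G.dist_comm]; omega)
      obtain ⟨v, hv, hu⟩ := hu
      have := v4 v s' (lN _ _ h'.symm) ((Near.of_or hu).trans (Near.of_or (lvG_or g1)).symm)
      rcases hv with hv | hv
      exacts [h'.ne (hv.symm.trans this), hne (this.symm.trans hv)]
    · rintro u ⟨v, hv | hv, hu⟩
      · exact (hv ▸ Near.of_or (l1 v u hu)).mono (by omega)
      · exact (Near.of_adj h).trans (hv ▸ Near.of_or (l1 v u hu))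
  refine ⟨N, ψ, L, p1, fun t ht => v4 t t ht (Near.refl _ _ _), fun x => lvG_lev (p5 x), lN,
    fun s t h => (lvG_lev (l11 s t h)).symm,
    fun x => (lvG_dist hG (p5 x)).trans (Nat.mul_le_mul_right _ (by omega)),
    fun s t h => lvG_dist hG (l11 s t h), fun x y e hd => l1 x y ?_, fun v a b d ha hb hd => ?_,
    ?_, fun T h1 h2 => ⟨_, cn T h1 fun s hs => (h2 s hs).elim fun a ⟨_, h⟩ => ⟨a, h.2.1⟩,
      fun x hx => ⟨x, hx, Or.inl rfl⟩,
      fun z ⟨v, hv, hz⟩ => ⟨ψ v, hv, (l1 v z hz).imp Eq.symm Adj.symm⟩⟩⟩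
  · have k : Ch G c (Lv G o (G.dist o x)) x y := Ch.single rfl e.symm hd
    by_cases hx : x ∈ YL G o c B (G.dist o x)
    · exact lvG_or ⟨x, hx, by simp, Ch.single ⟨hx, by simp⟩
        ⟨YL.of_ch hx k, hd.trans (hcw.trans hw)⟩ (hd.trans hcw)⟩
    · exact (em _).imp_right fun h' => lvG_adj.2 ⟨h', Or.inr ⟨hx, k⟩⟩
  · by_contra hne
    simp only [not_or] at hne
    obtain ⟨ab, ad, bd⟩ := hne
    have e := v4 v v (lN _ _ ha) (Near.refl _ _ _)
    have hρ : ρ ≤ r := by omega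
    obtain ⟨P, a1, a2, a3, a4, a5, -⟩ := arm v a ha
    obtain ⟨Q, b1, b2, b3, b4, b5, -⟩ := arm v b hb
    obtain ⟨R, d1, d2, d3, d4, d5, -⟩ := arm v d hd
    exact claw.three (fun _ h => (a1 h).1) (fun _ h => (b1 h).1) (fun _ h => (d1 h).1) a2 b2 d2
      (a3 v e) (b3 v e) (d3 v e) a4 b4 d4
      (fun u hu => ⟨hρ.trans (a5 b hb (Ne.symm ab) u hu), hρ.trans (a5 d hd (Ne.symm ad) u hu)⟩)
      (fun u hu => ⟨hρ.trans (b5 a ha ab u hu), hρ.trans (b5 d hd (Ne.symm bd) u hu)⟩)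
      fun u hu => ⟨hρ.trans (d5 a ha ad u hu), hρ.trans (d5 b hb bd u hu)⟩
  · rintro z y e ⟨a, b, ab, ha, hb⟩ ⟨y', -, -, hy, -⟩ hd
    have hρ : ρ ≤ r := by omega
    obtain ⟨P, a1, a2, a3, a4, a5, a6⟩ := arm _ a ha
    obtain ⟨Q, b1, b2, b3, b4, b5, b6⟩ := arm _ b hb
    rw [lvG_lev (p5 z)] at a1 b1
    obtain ⟨u, hu, h1, h2⟩ := tt z P Q a b a1 b1 a2 b2 (a3 z rfl) (b3 z rfl) a4 b4
      (fun u hu => hρ.trans (a5 b hb ab.symm u hu)) (fun u hu => hρ.trans (b5 a ha ab u hu))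
      (hr.trans (b5 a ha ab z (b3 z rfl))) (hr.trans (a5 b hb ab.symm z (a3 z rfl))) y
      (e ▸ big' y y' hy) hd
    have h3 : u ∈ YL G o c B (G.dist o z) := hu.elim (@a1 u) (@b1 u)
    have h4 : GRel G o c B w S u y := ⟨z, by rwa [YL.lv h3], h1.le.trans hS, by
      rw [YL.lv h3]
      exact h2.mono le_rfl fun v hv => ⟨hv.1, (le_of_lt hv.2).trans hS⟩⟩
    exact (hu.elim (a6 u) (b6 u)).trans (Near.of_or (l1 u y (lvG_or h4)))

end Pool.Agent.Lib.MP_f9389f_co
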