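import Pool.Agent.Lib.MP_f9389f_co.CbBasic

/-! The easy half of MacLane's criterion, and the layered graph. -/

namespace Pool.Agent.Lib.MP_f9389f_co

universe u

open SimpleGraph Finsupp

namespace Mac

/-- Chains modulo two. -/
abbrev Cn (α : Type u) := Sym2 α →₀ ZMod 2

variable {α β : Type u} {G : SimpleGraph β} {f : β → α} {x y : β}

/-- The chain of a walk. -/
noncomputable def ch (f : β → α) : ∀ {x y : β}, G.Walk x y → Cn α
  | _, _, .nil => 0
  | a, _, .cons' _ b _ _ p => single s(f a, f b) 1 + ch f p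

theorem ch_map {N : Type*} [AddCommGroup N] [Module (ZMod 2) N] (T : Cn α →ₗ[ZMod 2] N)
    (g : β → N) (P : β → Prop) (h : ∀ a b, P a → G.Adj a b →
      P b ∧ T (single s(f a, f b) 1) = g a + g b) (p : G.Walk x y) (hx : P x) :
    T (ch f p) = g x + g y := by
  induction p with
  | nil => simp [ch, ZModModule.add_self]
  | cons e p ih =>
    rw [ch, map_add, ih (h _ _ hx e).1, (h _ _ hx e).2, ZModModule.add_add_add_cancel]

theorem ch_supp (P : β → Prop) (h : ∀ a b, P a → G.Adj a b → P b) (p : G.Walk x y) (hx : P x)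
    {ε : Sym2 α} (he : ch f p ε ≠ 0) :
    ∃ a b, P a ∧ G.Adj a b ∧ s(a, b) ∈ p.edges ∧ ε = s(f a, f b) := by
  induction p with
  | nil => simp [ch] at he
  | @cons a b _ e p ih =>
    by_cases c : ε = s(f a, f b)
    · exact ⟨a, b, hx, e, by simp, c⟩
    · rw [ch, Finsupp.add_apply, single_eq_of_ne c, zero_add] at he
      obtain ⟨a', b', h1, h2, h3, h4⟩ := ih (h _ _ hx e) he
      exact ⟨a', b', h1, h2, by simp [h3], h4⟩

/-- The coboundary of a function on an edge. -/
def db (φ : α → ZMod 2) : Sym2 α → ZMod 2 :=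
  Sym2.lift ⟨fun a b => φ a + φ b, fun _ _ => add_comm _ _⟩

/-- The pairing of a chain with the coboundary of a function. -/
noncomputable def dl (φ : α → ZMod 2) : Cn α →ₗ[ZMod 2] ZMod 2 := linearCombination _ (db φ)

theorem dl_single (φ : α → ZMod 2) (a b : α) : dl φ (single s(a, b) 1) = φ a + φ b := by
  simp [dl, db]

/-- Incidence numbers. -/
def inc {U E : Type} [DecidableEq U] (s t : E → U) (v : U) (e : E) : ZMod 2 :=
  (if s e = v then 1 else 0) + if t e = v then 1 else 0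

/-- The crossing equations have no solution. -/
def Bad {U E : Type} [DecidableEq U] [Fintype E] (s t : E → U) : Prop :=
  ∃ (n : ℕ) (ζ : Fin n → E → ZMod 2), (∀ i v, ∑ e, ζ i e * inc s t v e = 0) ∧
    ∀ A : Fin n → E → ZMod 2,
      ¬ ∀ i j v, ∑ e, (A i e * ζ j e + A j e * ζ i e + ζ i e * ζ j e) * inc s t v e = 0

theorem two_faces {ι : Type u} (c : ι → ZMod 2)
    (h : ∀ i j k, c i ≠ 0 → c j ≠ 0 → c k ≠ 0 → i = j ∨ i = k ∨ j = k) :
    ∃ al : (ι →₀ ZMod 2) → ZMod 2, ∀ l m : ι →₀ ZMod 2, linearCombination _ c (l * m) =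
      al l * linearCombination _ c m + al m * linearCombination _ c l +
        linearCombination _ c l * linearCombination _ c m := by
  classical
  have key : ∀ s : Finset ι, (∀ k, c k ≠ 0 → k ∈ s) → ∀ l : ι →₀ ZMod 2,
      linearCombination (ZMod 2) c l = ∑ k ∈ s, l k * c k := fun s hs l => by
    rw [linearCombination_apply, Finsupp.sum]
    exact Finset.sum_congr_of_eq_on_inter (fun k _ a => by simp [not_not.1 (mt (hs k) a)])
      (fun k _ a => by simp [notMem_support_iff.1 a]) fun _ _ _ => rfl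
  by_cases h1 : ∃ i, c i ≠ 0
  · obtain ⟨i, hi⟩ := h1
    refine ⟨fun l => l i * c i, fun l m => ?_⟩
    by_cases h2 : ∃ j, j ≠ i ∧ c j ≠ 0
    · obtain ⟨j, hj, hj'⟩ := h2
      simp only [key {j, i} fun k hk => by
        rcases h j i k hj' hi hk with a | a | a <;> simp_all, Finset.sum_pair hj, mul_apply]
      generalize l i = a1, l j = a2, m i = a3, m j = a4, c i = a5, c j = a6
      revert a1 a2 a3 a4 a5 a6
      decide
    · simp only [key {i} fun k hk => by
        by_contra a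
        exact h2 ⟨k, by simpa using a, hk⟩, Finset.sum_singleton, mul_apply]
      generalize l i = a1, m i = a3, c i = a5
      revert a1 a3 a5
      decide
  · exact ⟨0, fun l m => by simp [key ∅ fun k hk => (h1 ⟨k, hk⟩).elim]⟩

theorem no_minor {ι : Type u} {H : SimpleGraph α} (face : ι → Cn α)
    (h1 : ∀ i φ, dl φ (face i) = 0)
    (h2 : ∀ ε i j k, face i ε ≠ 0 → face j ε ≠ 0 → face k ε ≠ 0 → i = j ∨ i = k ∨ j = k)
    (g : α → Cn α ⧸ LinearMap.range (linearCombination (ZMod 2) face))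
    (h3 : ∀ a b, H.Adj a b → Submodule.mkQ _ (single s(a, b) (1 : ZMod 2)) = g a + g b)
    {U E : Type} [DecidableEq U] [Fintype U] [Fintype E] {K : SimpleGraph U} {s t : E → U}
    (hK : ∀ e, K.Adj (s e) (t e)) (hi : ∀ e e', s(s e, t e) = s(s e', t e') → e = e')
    (hB : Bad s t) : ¬ HasMinor H K := by
  classical
  rintro ⟨B, b1, b2, b3⟩
  choose a ha b hb hab using fun e => b3 _ _ (hK e)
  have uq : ∀ {x v w}, x ∈ B v → x ∈ B w → v = w := fun h h' =>
    by_contra fun c => Set.disjoint_left.1 (b2 _ _ c) h h'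
  let φ : U → α → ZMod 2 := fun v x => if x ∈ B v then 1 else 0
  have hφ : ∀ {x v} w, x ∈ B v → φ w x = if v = w then 1 else 0 := fun w h =>
    if_congr ⟨uq h, fun c => c ▸ h⟩ rfl rfl
  have he : ∀ v e, db (φ v) s(a e, b e) = inc s t v e := fun v e => by
    rw [inc, ← hφ v (ha e), ← hφ v (hb e)]; rfl
  have inj : ∀ e e', s(a e, b e) = s(a e', b e') → e = e' := fun e e' h => hi _ _ <| by
    rcases Sym2.eq_iff.1 h with c | c
    · rw [uq (ha e) (c.1 ▸ ha e'), uq (hb e) (c.2 ▸ hb e')]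
    · rw [uq (ha e) (c.1 ▸ hb e'), uq (hb e) (c.2 ▸ ha e'), Sym2.eq_swap]
  obtain ⟨o, ho⟩ : ∃ o : U → α, ∀ v, o v ∈ B v :=
    ⟨fun v => (b1 v).nonempty.some, fun v => Subtype.prop _⟩
  let S : Submodule (ZMod 2) (Cn α) := supported _ _ {ε | ∀ v, db (φ v) ε = 0}
  have path : ∀ v, ∀ x ∈ B v, ∃ r ∈ S, Submodule.mkQ _ r = g (o v) + g x := fun v x hx => by
    obtain ⟨p⟩ := (b1 v).preconnected ⟨_, ho v⟩ ⟨x, hx⟩
    refine ⟨ch Subtype.val p, fun ε hε w => ?_, ch_map _ (fun z : B v => g z) (fun _ => True)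
      (fun _ _ _ h => ⟨trivial, h3 _ _ h⟩) p trivial⟩
    obtain ⟨c, d, -, -, -, rfl⟩ := ch_supp (fun _ => True) (fun _ _ _ _ => trivial) p trivial
      (mem_support_iff.1 hε)
    exact (congrArg₂ _ (hφ w c.2) (hφ w d.2)).trans (ZModModule.add_self _)
  choose r1 s1 q1 using fun e => path _ _ (ha e)
  choose r2 s2 q2 using fun e => path _ _ (hb e)
  have hS : ∀ r ∈ S, ∀ e, r s(a e, b e) = 0 := fun r hr e => by
    refine (mem_supported' _ _).1 hr _ fun c => ?_
    have := c (s e)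
    simp [he, inc, (hK e).ne'] at this
  obtain ⟨n, ζ, z1, z2⟩ := hB
  have lift : ∀ i, ∃ l, (∀ e, linearCombination (ZMod 2) face l s(a e, b e) = ζ i e) ∧
      ∀ ε, (∀ e, ε ≠ s(a e, b e)) → (∀ v, db (φ v) ε = 0) ∨
        linearCombination (ZMod 2) face l ε = 0 := fun i => by
    have : Submodule.mkQ (LinearMap.range (linearCombination (ZMod 2) face))
        (∑ e, ζ i e • (single s(a e, b e) 1 + (r1 e + r2 e))) = 0 := by
      have e1 : ∀ e, Submodule.mkQ _ (single s(a e, b e) 1 + (r1 e + r2 e)) =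
          ∑ v, inc s t v e • g (o v) := fun e => by
        rw [map_add, map_add, h3 _ _ (hab e), q1, q2, add_comm (g (o (s e))), add_add_add_comm,
          add_comm (g (o (t e))), ← add_assoc (g (a e)), ← add_assoc (g (b e)),
          ZModModule.add_self, ZModModule.add_self]
        simp [inc, add_smul, Finset.sum_add_distrib]
      simp only [map_sum, map_smul, e1, Finset.smul_sum, smul_smul]
      rw [Finset.sum_comm]
      simp only [← Finset.sum_smul, z1, zero_smul, Finset.sum_const_zero]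
    obtain ⟨l, hl⟩ := (Submodule.Quotient.mk_eq_zero _).1 this
    refine ⟨l, fun e => ?_, fun ε hε => or_iff_not_imp_left.2 fun c => ?_⟩
    · rw [hl, Finsupp.finsetSum_apply, Finset.sum_eq_single e (fun e' _ c => ?_) (by simp)]
      · simp [hS _ (s1 e), hS _ (s2 e)]
      · simp [hS _ (s1 e'), hS _ (s2 e'), single_eq_of_ne (mt (inj e e') c.symm)]
    · rw [hl, Finsupp.finsetSum_apply]
      refine Finset.sum_eq_zero fun e _ => ?_
      simp [(mem_supported' _ _).1 (s1 e) ε c, (mem_supported' _ _).1 (s2 e) ε c,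
        single_eq_of_ne (hε e)]
  choose l l1 l2 using lift
  have ev : ∀ ε m, linearCombination (ZMod 2) face m ε =
      linearCombination (ZMod 2) (fun i => face i ε) m := fun ε m => by
    simp [linearCombination_apply, Finsupp.sum, Finsupp.finsetSum_apply]
  choose al hal using fun ε => two_faces (fun i => face i ε) (h2 ε)
  simp only [← ev] at hal
  refine z2 (fun i e => al s(a e, b e) (l i)) fun i j v => ?_
  have cyc : dl (φ v) (linearCombination (ZMod 2) face (l i * l j)) = 0 := by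
    rw [apply_linearCombination, linearCombination_apply]
    simp [h1]
  rw [← cyc, dl, linearCombination_apply _ (v := db _), Finsupp.sum,
    Finset.sum_congr_of_eq_on_inter (s₂ := Finset.univ.image fun e => s(a e, b e))
      (g := fun ε => linearCombination (ZMod 2) face (l i * l j) ε • db (φ v) ε)
      (fun ε _ c => ?_) (fun ε _ c => by simp [notMem_support_iff.1 c]) fun _ _ _ => rfl,
    Finset.sum_image fun e _ e' _ => inj e e']
  · simp only [hal, l1, he, smul_eq_mul]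
  · have c' : ∀ e, ε ≠ s(a e, b e) := fun e d =>
      c (Finset.mem_image.2 ⟨e, Finset.mem_univ _, d.symm⟩)
    rcases l2 i ε c' with d | d
    · simp [d]
    · rcases l2 j ε c' with d' | d'
      · simp [d']
      · simp [hal, d, d']

theorem bad5 : Bad (![0, 0, 0, 0, 1, 1, 1, 2, 2, 3] : Fin 10 → Fin 5)
    ![1, 2, 3, 4, 2, 3, 4, 3, 4, 4] := by
  refine ⟨6, ![![1, 1, 0, 0, 1, 0, 0, 0, 0, 0], ![1, 0, 1, 0, 0, 1, 0, 0, 0, 0],
    ![1, 0, 0, 1, 0, 0, 1, 0, 0, 0], ![0, 1, 1, 0, 0, 0, 0, 1, 0, 0],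
    ![0, 1, 0, 1, 0, 0, 0, 0, 1, 0], ![0, 0, 1, 1, 0, 0, 0, 0, 0, 1]], by decide, fun A h => ?_⟩
  have h1 := h 0 5 1
  have h2 := h 0 5 2
  have h3 := h 1 3 0
  have h4 := h 1 4 2
  have h5 := h 1 4 4
  have h6 := h 1 5 0
  have h7 := h 2 3 1
  have h8 := h 2 3 4
  have h9 := h 3 5 0
  simp [Fin.sum_univ_succ, inc] at h1 h2 h3 h4 h5 h6 h7 h8 h9
  have : (1 : ZMod 2) = 0 := by
    linear_combination (norm := (ring_nf; reduce_mod_char))
      h1 + h2 + h3 + h4 + h5 + h6 + h7 + h8 + h9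
  exact one_ne_zero this

theorem bad33 : Bad (fun e : Fin 3 × Fin 3 => (.inl e.1 : Fin 3 ⊕ Fin 3)) fun e => .inr e.2 := by
  refine ⟨4, fun i e => ![![![1, 1, 0], ![1, 1, 0], ![0, 0, 0]], ![![1, 0, 1], ![1, 0, 1], ![0, 0, 0]],
    ![![1, 1, 0], ![0, 0, 0], ![1, 1, 0]], ![![1, 0, 1], ![0, 0, 0], ![1, 0, 1]]] i e.1 e.2,
    by decide, fun A h => ?_⟩
  have h1 := h 0 3 (.inl 1)
  have h2 := h 0 3 (.inr 1)
  have h3 := h 1 2 (.inl 0)
  have h4 := h 1 2 (.inl 2)
  have h5 := h 1 2 (.inr 1)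
  have h6 := h 1 3 (.inr 0)
  have h7 := h 2 3 (.inl 0)
  simp [Fintype.sum_prod_type, Fin.sum_univ_succ, inc] at h1 h2 h3 h4 h5 h6 h7
  have : (1 : ZMod 2) = 0 := by
    linear_combination (norm := (ring_nf; reduce_mod_char)) h1 + h2 + h3 + h4 + h5 + h6 + h7
  exact one_ne_zero this

/-- Sums of the edges to the parents. -/
noncomputable def tau (par : α → α) : ℕ → α → Cn α
  | 0, _ => 0
  | n + 1, v => single s(v, par v) 1 + tau par n (par v)

end Mac

open Mac in
theorem layStmt : LayStmt.{u} := by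
  intro α L W lev par owner hd hW hp hω
  have : ∀ e : Sym2 α, ∃ y : Cn α, (y = 0 ∧ ∀ a ∈ W, ∀ b, L.Adj a b → e ≠ s(a, b)) ∨
      ∃ a ∈ W, ∃ b, L.Adj a b ∧ e = s(a, b) ∧ ∃ ω : L.Walk (par a) (par b),
        (∀ f ∈ ω.edges, owner f = e) ∧
        y = single s(a, b) 1 + single s(a, par a) 1 + single s(b, par b) 1 + ch id ω := fun e => by
    by_cases c : ∃ a ∈ W, ∃ b, L.Adj a b ∧ e = s(a, b)
    · obtain ⟨a, ha, b, hab, rfl⟩ := c
      obtain ⟨ω, h⟩ := hω a ha b hab
      exact ⟨_, .inr ⟨a, ha, b, hab, rfl, ω, h, rfl⟩⟩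
    · exact ⟨0, .inl ⟨rfl, fun a ha b hab d => c ⟨a, ha, b, hab, d⟩⟩⟩
  choose face hf using this
  have h1 : ∀ i φ, dl φ (face i) = 0 := fun i φ => by
    rcases hf i with ⟨c, -⟩ | ⟨a, -, b, -, -, ω, -, c⟩
    · simp [c]
    · rw [c, map_add, ch_map (f := id) (dl φ) φ (fun _ => True)
        (fun _ _ _ _ => ⟨trivial, dl_single _ _ _⟩) ω trivial]
      simp only [map_add, dl_single]
      generalize φ a = x, φ b = y, φ (par a) = z, φ (par b) = w
      revert x y z w
      decide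
  have cas : ∀ x y i, face i s(x, y) ≠ 0 → (lev x = lev y ∧ (i = s(x, y) ∨ i = owner s(x, y))) ∨
      (lev y < lev x ∧ ∃ z, L.Adj x z ∧ i = s(x, z)) ∨
      (lev x < lev y ∧ ∃ z, L.Adj y z ∧ i = s(y, z)) := fun x y i h => by
    have vert : ∀ a ∈ W, ∀ b, L.Adj a b → i = s(a, b) → s(x, y) = s(a, par a) →
        (lev y < lev x ∧ ∃ z, L.Adj x z ∧ i = s(x, z)) ∨
        (lev x < lev y ∧ ∃ z, L.Adj y z ∧ i = s(y, z)) := fun a ha b hab hi c => by
      have := (hp a ha (hW a ha b hab).2.2).2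
      rcases Sym2.eq_iff.1 c with ⟨rfl, rfl⟩ | ⟨rfl, rfl⟩
      exacts [.inl ⟨by omega, b, hab, hi⟩, .inr ⟨by omega, b, hab, hi⟩]
    have hor : ∀ a ∈ W, ∀ b, L.Adj a b → s(x, y) = s(a, b) → lev x = lev y :=
      fun a ha b hab c => by
        have := (hW a ha b hab).2.1
        rcases Sym2.eq_iff.1 c with ⟨rfl, rfl⟩ | ⟨rfl, rfl⟩
        exacts [this, this.symm]
    rcases hf i with ⟨c, -⟩ | ⟨a, ha, b, hab, hi, ω, ho, c⟩
    · simp [c] at h
    by_cases c1 : s(x, y) = s(a, b)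
    · exact .inl ⟨hor a ha b hab c1, .inl (hi.trans c1.symm)⟩
    by_cases c2 : s(x, y) = s(a, par a)
    · exact .inr (vert a ha b hab hi c2)
    by_cases c3 : s(x, y) = s(b, par b)
    · exact .inr (vert b (hW a ha b hab).1 a hab.symm (hi.trans Sym2.eq_swap) c3)
    simp only [c, Finsupp.add_apply, single_eq_of_ne c1, single_eq_of_ne c2, single_eq_of_ne c3,
      zero_add] at h
    obtain ⟨a', b', d1, d2, d3, d4⟩ := ch_supp (· ∈ W) (fun a b ha h => (hW a ha b h).1) ω
      (hp a ha (hW a ha b hab).2.2).1 h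
    exact .inl ⟨hor a' d1 b' d2 d4, .inr (d4 ▸ (ho _ d3).symm)⟩
  have h2 : ∀ ε i j k, face i ε ≠ 0 → face j ε ≠ 0 → face k ε ≠ 0 → i = j ∨ i = k ∨ j = k := by
    refine Sym2.ind fun x y i j k hi hj hk => ?_
    rcases cas x y i hi with ⟨a, a'⟩ | ⟨a, z1, a', rfl⟩ | ⟨a, z1, a', rfl⟩ <;>
    rcases cas x y j hj with ⟨b, b'⟩ | ⟨b, z2, b', rfl⟩ | ⟨b, z2, b', rfl⟩ <;>
    rcases cas x y k hk with ⟨c, c'⟩ | ⟨c, z3, c', rfl⟩ | ⟨c, z3, c', rfl⟩ <;>
    first
      | omega
      | (rcases hd _ _ _ _ a' b' c' with rfl | rfl | rfl <;> simp)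
      | (rcases a' with rfl | rfl <;> rcases b' with rfl | rfl <;> rcases c' with rfl | rfl <;> simp)
  let q := Submodule.mkQ (LinearMap.range (linearCombination (ZMod 2) face))
  let g := fun v => q (tau par (lev v) v)
  have ver : ∀ a ∈ W, 0 < lev a → q (single s(a, par a) 1) = g a + g (par a) := fun a ha h => by
    simp only [g, ← (hp a ha h).2, tau, map_add, add_assoc, ZModModule.add_self, add_zero]
  have hor : ∀ n, ∀ a ∈ W, ∀ b, L.Adj a b → lev a = n → q (single s(a, b) 1) = g a + g b := by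
    intro n
    induction n with
    | zero => exact fun a ha b hab h => absurd h (hW a ha b hab).2.2.ne'
    | succ n ih =>
      intro a ha b hab h
      rcases hf s(a, b) with ⟨-, c⟩ | ⟨a', ha', b', hab', hi, ω, -, c⟩
      · exact absurd rfl (c a ha b hab)
      obtain ⟨d1, d2, d3⟩ := hW a' ha' b' hab'
      have d4 : lev a' = n + 1 ∧ g a + g b = g a' + g b' := by
        rcases Sym2.eq_iff.1 hi with ⟨rfl, rfl⟩ | ⟨rfl, rfl⟩
        exacts [⟨h, rfl⟩, ⟨d2.trans h, add_comm _ _⟩]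
      have d5 : q (face s(a, b)) = 0 :=
        (Submodule.Quotient.mk_eq_zero _).2 ⟨single s(a, b) 1, by simp⟩
      have d6 := hp a' ha' d3
      rw [c, map_add, map_add, map_add, ver a' ha' d3, ver b' d1 (d2 ▸ d3),
        ch_map (f := id) q g (fun x => x ∈ W ∧ lev x = n) (fun x y hx hxy =>
          ⟨⟨(hW x hx.1 y hxy).1, (hW x hx.1 y hxy).2.1 ▸ hx.2⟩, ih x hx.1 y hxy hx.2⟩) ω
          ⟨d6.1, by omega⟩, add_assoc, add_assoc, add_comm (g (par a')),
        ZModModule.add_add_add_cancel, add_comm (g b'), ZModModule.add_add_add_cancel,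
        add_eq_zero_iff_eq_neg,
        ZModModule.neg_eq_self] at d5
      rw [hi, d5, d4.2]
  have h3 : ∀ a b, (Lay L W lev par).Adj a b → q (single s(a, b) 1) = g a + g b := by
    have : ∀ a b, a ∈ W ∧ (L.Adj a b ∨ (0 < lev a ∧ par a = b)) →
        q (single s(a, b) 1) = g a + g b := by
      rintro a b ⟨ha, h | ⟨h, rfl⟩⟩
      exacts [hor _ a ha b h rfl, ver a ha h]
    rintro a b ⟨-, h | h⟩
    · exact this a b h
    · rw [Sym2.eq_swap, add_comm, this b a h]
  exact ⟨no_minor face h1 h2 g h3 (by simp only [top_adj]; decide) (by decide) bad5,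
    no_minor face h1 h2 g h3 (by simp) (by decide) bad33⟩

end Pool.Agent.Lib.MP_f9389f_co
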