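import Mathlib
import Pool.Agent.Lib.MP_f9389f_co.CbAsm

/-! Invariance under quasi-isometries. -/

namespace Pool.Agent.Lib.MP_f9389f_co

universe u

open SimpleGraph

theorem IsQI.lower {V W : Type*} {G : SimpleGraph V} {H : SimpleGraph W} {f : V → W} {M A : ℕ}
    (h : IsQI G H f M A) (hM : 1 ≤ M) (x y : V) : G.dist x y ≤ M * (H.dist (f x) (f y) + A) := by
  have h1 := (h.1 x y).1
  have h2 : (0 : ℝ) < M := by exact_mod_cast hM
  rw [sub_le_iff_le_add, inv_mul_le_iff₀ h2] at h1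
  exact_mod_cast h1

theorem IsQI.upper {V W : Type*} {G : SimpleGraph V} {H : SimpleGraph W} {f : V → W} {M A : ℕ}
    (h : IsQI G H f M A) (x y : V) : H.dist (f x) (f y) ≤ M * G.dist x y + A := by
  exact_mod_cast (h.1 x y).2

theorem conn_of_induce {V : Type u} {G : SimpleGraph V} {A : Set V}
    (h : (G.induce A).Connected) : Conn G 1 A := by
  intro a ha b hb
  have key : ∀ y : A, Relation.ReflTransGen (G.induce A).Adj ⟨a, ha⟩ y → Ch G 1 A a y := by
    intro y hy
    induction hy with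
    | refl => exact Ch.refl _
    | @tail x y _ e ih => exact ih.tail x.2 y.2 (dist_le_one_of_adj e)
  exact key _ ((reachable_iff_reflTransGen _ _).1 (h.preconnected ⟨a, ha⟩ ⟨b, hb⟩))

theorem Ch.exists_path {V : Type u} {G : SimpleGraph V} (hG : G.Connected) {A : Set V} {a b : V}
    (h : Ch G 1 A a b) (ha : a ∈ A) : ∃ p : G.Walk a b, p.IsPath ∧ ∀ x ∈ p.support, x ∈ A := by
  classical
  have key : ∃ p : G.Walk a b, ∀ x ∈ p.support, x ∈ A := by
    induction h with
    | refl => exact ⟨Walk.nil, by simpa using ha⟩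
    | @tail x y _ e ih =>
      obtain ⟨p, hp⟩ := ih
      rcases eq_or_adj_of_dist hG e.2.2 with rfl | h1
      · exact ⟨p, hp⟩
      · refine ⟨p.concat h1, fun z hz => ?_⟩
        simp only [Walk.support_concat, List.mem_append, List.mem_singleton] at hz
        rcases hz with hz | rfl
        exacts [hp z hz, e.2.1]
  obtain ⟨p, hp⟩ := key
  exact ⟨p.bypass, p.bypass_isPath, fun x hx => hp x (p.support_bypass_subset hx)⟩

theorem conn_support {V : Type u} {G : SimpleGraph V} {a b : V} (p : G.Walk a b) :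
    Conn G 1 {x | x ∈ p.support} := by
  induction p with
  | nil => simpa using conn_singleton G 1 _
  | @cons a b d e p ih =>
    have : {x | x ∈ (Walk.cons e p).support} = {a} ∪ {x | x ∈ p.support} := by
      ext x; simp
    rw [this]
    exact (conn_singleton G 1 a).union ih rfl (by simp) (dist_le_one_of_adj e)

theorem Conn.image {V W : Type u} {G : SimpleGraph V} {H : SimpleGraph W} {A : Set W} {k : ℕ}
    (h : Conn H 1 A) (g : W → V) (hg : ∀ s t, H.dist s t ≤ 1 → G.dist (g s) (g t) ≤ k) :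
    Conn G k (g '' A) := by
  rintro _ ⟨x, hx, rfl⟩ _ ⟨y, hy, rfl⟩
  have := h x hx y hy
  clear hy
  induction this with
  | refl => exact Ch.refl _
  | tail _ h2 ih => exact ih.tail ⟨_, h2.1, rfl⟩ ⟨_, h2.2.1, rfl⟩ (hg _ _ h2.2.2)

/-- Fat minors pull back along quasi-isometries. -/
theorem HasFatMinor.of_qi {V W : Type u} {ι : Type*} {G : SimpleGraph V} {H : SimpleGraph W}
    {X : SimpleGraph ι} {f : V → W} {M A K : ℕ} (hG : G.Connected) (hH : H.Connected)
    (hq : IsQI G H f M A) (hM : 1 ≤ M)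
    (h : HasFatMinor H X (3 * A + M * (2 * (M * (3 * A + 1)) + K))) : HasFatMinor G X K := by
  obtain ⟨B, P, h1, h2, h3, h4, h5⟩ := h
  choose g hg using hq.2
  obtain ⟨k, hk⟩ : ∃ k, k = M * (3 * A + 1) := ⟨_, rfl⟩
  rw [← hk] at h3 h4 h5
  have lip : ∀ s t, H.dist s t ≤ 1 → G.dist (g s) (g t) ≤ k := by
    intro s t hst
    have a1 := hq.lower hM (g s) (g t)
    have a2 := tri hH (f (g s)) s (f (g t))
    have a3 := tri hH s t (f (g t))
    have a4 := hg s
    have a5 := hg t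
    rw [dist_comm] at a4
    exact a1.trans (hk ▸ Nat.mul_le_mul_left M (by omega))
  have far : ∀ Y Z : Set W, Apart H (3 * A + M * (2 * k + K)) Y Z →
      Apart G K (Nb G k (g '' Y)) (Nb G k (g '' Z)) := by
    rintro Y Z hYZ v ⟨_, ⟨y, hy, rfl⟩, hv⟩ v' ⟨_, ⟨z, hz, rfl⟩, hv'⟩
    by_contra hlt
    have a1 := hYZ y hy z hz
    have a2 := hq.upper (g y) (g z)
    have a3 := tri hH y (f (g y)) z
    have a4 := tri hH (f (g y)) (f (g z)) z
    have a5 := hg y
    have a6 := hg z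
    rw [dist_comm] at a6
    have a7 := tri hG (g y) v (g z)
    have a8 := tri hG v v' (g z)
    rw [dist_comm] at hv'
    have a9 : M * (G.dist (g y) (g z) + 1) ≤ M * (2 * k + K) := Nat.mul_le_mul_left M (by omega)
    rw [Nat.mul_succ] at a9
    omega
  have ex : ∀ e : Sym2 ι, ∃ Q : Set V, Q ⊆ Nb G k (g '' P e) ∧ ∀ u w, X.Adj u w → e = s(u, w) →
      ∃ a ∈ Nb G k (g '' B u), ∃ b ∈ Nb G k (g '' B w), ∃ p : G.Walk a b,
        p.IsPath ∧ Q = {x | x ∈ p.support} := by
    intro e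
    induction e using Sym2.ind with
    | _ u w =>
      by_cases huw : X.Adj u w
      · obtain ⟨a, ha, b, hb, p, -, hp⟩ := h2 u w huw
        have c1 : Conn G 1 (Nb G k (g '' P s(u, w))) := by
          rw [hp]; exact ((conn_support p).image g lip).nb hG
        have ma : g a ∈ Nb G k (g '' P s(u, w)) := subset_nb _ _ _ ⟨a, by rw [hp]; simp, rfl⟩
        have mb : g b ∈ Nb G k (g '' P s(u, w)) := subset_nb _ _ _ ⟨b, by rw [hp]; simp, rfl⟩
        obtain ⟨q, q1, q2⟩ := (c1 _ ma _ mb).exists_path hG ma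
        refine ⟨{x | x ∈ q.support}, q2, fun u' w' _ e => ?_⟩
        rcases Sym2.eq_iff.1 e with ⟨rfl, rfl⟩ | ⟨rfl, rfl⟩
        · exact ⟨_, subset_nb _ _ _ ⟨a, ha, rfl⟩, _, subset_nb _ _ _ ⟨b, hb, rfl⟩, q, q1, rfl⟩
        · exact ⟨_, subset_nb _ _ _ ⟨b, hb, rfl⟩, _, subset_nb _ _ _ ⟨a, ha, rfl⟩, q.reverse,
            q1.reverse, by ext x; simp⟩
      · refine ⟨∅, Set.empty_subset _, fun u' w' h' e => absurd ?_ huw⟩
        rcases Sym2.eq_iff.1 e with ⟨rfl, rfl⟩ | ⟨rfl, rfl⟩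
        exacts [h', h'.symm]
  choose Q q1 q2 using ex
  refine ⟨fun u => Nb G k (g '' B u), Q, fun u => ?_, fun u w h => q2 _ u w h rfl,
    fun u w h => far _ _ (h3 u w h),
    fun e he e' he' h => (far _ _ (h4 e he e' he' h)).mono le_rfl (q1 e) (q1 e'),
    fun e he u h => (far _ _ (h5 e he u h)).mono le_rfl (q1 e) subset_rfl⟩
  obtain ⟨a⟩ := (h1 u).nonempty
  exact (((conn_of_induce (h1 u)).image g lip).nb hG).induce hG
    ⟨_, subset_nb _ _ _ ⟨a.1, a.2, rfl⟩⟩

/-- A quasi-isometry can be made surjective by contracting the target. -/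
theorem make_surj {V W : Type u} {G : SimpleGraph V} {H : SimpleGraph W} (hG : G.Connected)
    (hH : H.Connected) (f : V → W) {M A : ℕ} (hM : 1 ≤ M)
    (up : ∀ x y, H.dist (f x) (f y) ≤ M * G.dist x y + A)
    (lo : ∀ x y, G.dist x y ≤ M * (H.dist (f x) (f y) + A)) (de : ∀ w, ∃ x, H.dist w (f x) ≤ A) :
    ∃ (W' : Type u) (H' : SimpleGraph W') (φ : V → W'), H'.Connected ∧ Function.Surjective φ ∧
      IsQI G H' φ (M * (3 * A + 1) + A) (2 * (M * A)) ∧
      ∀ (ι : Type) (X : SimpleGraph ι), HasMinor H' X → HasMinor H X := by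
  classical
  have ex : ∀ w, ∃ n, ∃ x, H.dist w (f x) = n := fun w => ⟨_, (de w).choose, rfl⟩
  let rk : W → ℕ := fun w => Nat.find (ex w)
  have rk1 : ∀ w, ∃ x, H.dist w (f x) = rk w := fun w => Nat.find_spec (ex w)
  have rk2 : ∀ w x, rk w ≤ H.dist w (f x) := fun w x => Nat.find_min' (ex w) ⟨x, rfl⟩
  have rkA : ∀ w, rk w ≤ A := fun w => by
    obtain ⟨x, hx⟩ := de w
    exact (rk2 w x).trans hx
  have exp : ∀ w, ∃ w', H.dist w w' ≤ 1 ∧ rk w' ≤ rk w - 1 ∧ (rk w = 0 → w' = w) := by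
    intro w
    rcases Nat.eq_zero_or_eq_succ_pred (rk w) with h | h
    · exact ⟨w, by simp, by omega, fun _ => rfl⟩
    · obtain ⟨x, hx⟩ := rk1 w
      rw [dist_comm, h] at hx
      obtain ⟨y, h1, h2⟩ := exists_step hH hx
      have := rk2 y x
      rw [dist_comm] at this h2
      exact ⟨y, h2, by rw [h1] at this; simpa using this, fun h0 => by omega⟩
  choose par p1 p2 p3 using exp
  have it1 : ∀ n w, rk (par^[n] w) ≤ rk w - n := by
    intro n
    induction n with
    | zero => simp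
    | succ n ih =>
      intro w
      rw [Function.iterate_succ_apply']
      have := p2 (par^[n] w)
      have := ih w
      omega
  have it2 : ∀ n w, H.dist w (par^[n] w) ≤ n := by
    intro n
    induction n with
    | zero => simp
    | succ n ih =>
      intro w
      rw [Function.iterate_succ_apply']
      have := tri hH w (par^[n] w) (par (par^[n] w))
      have := p1 (par^[n] w)
      have := ih w
      omega
  have it0 : ∀ w, rk (par^[A] w) = 0 := fun w => by
    have := it1 A w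
    have := rkA w
    omega
  have rng : ∀ w, par^[A] w ∈ Set.range f := fun w => by
    obtain ⟨x, hx⟩ := rk1 (par^[A] w)
    rw [it0] at hx
    exact ⟨x, ((hH.dist_eq_zero_iff).1 hx).symm⟩
  let ρ : W → Set.range f := fun w => ⟨_, rng w⟩
  have ρpar : ∀ w, ρ (par w) = ρ w := fun w => Subtype.ext (by
    show par^[A] (par w) = par^[A] w
    rw [← Function.iterate_succ_apply, Function.iterate_succ_apply', p3 _ (it0 w)])
  have ρfix : ∀ s : Set.range f, ρ s = s := by
    rintro ⟨_, x, rfl⟩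
    have h0 : rk (f x) = 0 := by have := rk2 (f x) x; simpa using this
    exact Subtype.ext (Function.iterate_fixed (p3 _ h0) A)
  have fib : ∀ (S : Set (Set.range f)) (n : ℕ) (w : W), ρ w ∈ S →
      Ch H 1 (ρ ⁻¹' S) w (par^[n] w) := by
    intro S n
    induction n with
    | zero => intro w _; exact Ch.refl _
    | succ n ih =>
      intro w hw
      have h1 : ρ (par w) ∈ S := by rwa [ρpar]
      exact (Ch.single (A := ρ ⁻¹' S) hw h1 (p1 w)).trans (ih _ h1)
  let H' : SimpleGraph (Set.range f) :=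
    { Adj := fun s t => s ≠ t ∧ ∃ a b, H.Adj a b ∧ ρ a = s ∧ ρ b = t
      symm := ⟨fun _ _ ⟨h, a, b, e, h1, h2⟩ => ⟨h.symm, b, a, e.symm, h2, h1⟩⟩
      loopless := ⟨fun _ h => h.1 rfl⟩ }
  have reach : ∀ a b, H'.Reachable (ρ a) (ρ b) := by
    intro a b
    obtain ⟨p⟩ := hH.preconnected a b
    induction p with
    | nil => exact Reachable.refl _
    | @cons a b d e p ih =>
      by_cases h : ρ a = ρ b
      · rwa [h]
      · exact (Adj.reachable (show H'.Adj _ _ from ⟨h, a, b, e, rfl, rfl⟩)).trans ih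
  have hH' : H'.Connected := by
    have : Nonempty (Set.range f) := hH.nonempty.map ρ
    exact ⟨fun s t => by simpa [ρfix] using reach s t⟩
  have lip := lip_of_adj hH hH' ρ (M := 1) fun a b e => by
    by_cases h : ρ a = ρ b
    · simp [h]
    · exact dist_le_one_of_adj (show H'.Adj _ _ from ⟨h, a, b, e, rfl, rfl⟩)
  let φ : V → Set.range f := fun x => ⟨f x, x, rfl⟩
  let r : Set.range f → V := fun s => s.2.choose
  have hr : ∀ s, f (r s) = s := fun s => s.2.choose_spec
  have sec : ∀ s, φ (r s) = s := fun s => Subtype.ext (hr s)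
  refine ⟨Set.range f, H', φ, hH', fun s => ⟨r s, sec s⟩,
    qi_of hG hH' φ r (by nlinarith) ?_ ?_ ?_ sec, ?_⟩
  · intro u v huv
    have a1 := lip (φ u) (φ v)
    rw [ρfix, ρfix] at a1
    have a2 := up u v
    rw [dist_eq_one_iff_adj.2 huv] at a2
    have a3 : H.dist (φ u) (φ v) = H.dist (f u) (f v) := rfl
    nlinarith
  · rintro _ _ ⟨-, a, b, e, rfl, rfl⟩
    have a1 := lo (r (ρ a)) (r (ρ b))
    rw [hr, hr] at a1
    have a2 : H.dist a (ρ a) ≤ A := it2 A a
    have a3 : H.dist b (ρ b) ≤ A := it2 A b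
    have a4 := tri hH (ρ a) a (ρ b)
    have a5 := tri hH a b (ρ b)
    have a6 := dist_le_one_of_adj e
    rw [dist_comm] at a2
    have a7 : M * (H.dist (ρ a) (ρ b) + A) ≤ M * (3 * A + 1) := Nat.mul_le_mul_left M (by omega)
    omega
  · intro u
    have a1 := lo u (r (φ u))
    rw [hr] at a1
    simpa [φ] using a1
  · rintro ι X ⟨B, b1, b2, b3⟩
    refine ⟨fun u => ρ ⁻¹' B u, fun u => ?_, fun u w h => (b2 u w h).preimage ρ, fun u w h => ?_⟩
    · obtain ⟨s⟩ := (b1 u).nonempty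
      refine Conn.induce hH ?_ ⟨s.1.1, show ρ _ ∈ B u by rw [ρfix]; exact s.2⟩
      have key : ∀ y : B u, Relation.ReflTransGen (H'.induce (B u)).Adj s y →
          Ch H 1 (ρ ⁻¹' B u) s.1.1 y.1.1 := by
        intro y hy
        induction hy with
        | refl => exact Ch.refl _
        | @tail x y _ e ih =>
          obtain ⟨-, a, b, e', ha, hb⟩ := e
          have ma : ρ a ∈ B u := ha ▸ x.2
          have mb : ρ b ∈ B u := hb ▸ y.2
          have ca := fib (B u) A a ma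
          have cb := fib (B u) A b mb
          have ea : par^[A] a = x.1.1 := congrArg Subtype.val ha
          have eb : par^[A] b = y.1.1 := congrArg Subtype.val hb
          rw [ea] at ca
          rw [eb] at cb
          exact ((ih.trans ca.symm).tail ma mb (dist_le_one_of_adj e')).trans cb
      refine conn_of_base s.1.1 fun a ha => ?_
      exact (key ⟨ρ a, ha⟩ ((reachable_iff_reflTransGen _ _).1
        ((b1 u).preconnected s ⟨ρ a, ha⟩))).trans (fib (B u) A a ha).symm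
    · obtain ⟨s, hs, t, ht, -, a, b, e, rfl, rfl⟩ := b3 u w h
      exact ⟨a, hs, b, ht, e⟩

/-- The main theorem passes to graphs quasi-isometric to combable graphs. -/
theorem qi_main
    (main : ∀ K c : ℕ, ∃ M A : ℕ, 1 ≤ M ∧ ∀ (V : Type u) (G : SimpleGraph V), G.Connected →
      HasCombing G c → ¬ HasFatMinor G K33 K →
      ∃ (W : Type u) (G' : SimpleGraph W) (φ : V → W), G'.Connected ∧ Function.Surjective φ ∧
        IsQI G G' φ M A ∧ ¬ HasMinor G' (⊤ : SimpleGraph (Fin 5)) ∧ ¬ HasMinor G' K33)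
    (K c M₀ A₀ : ℕ) (hM₀ : 1 ≤ M₀) : ∃ M A : ℕ, 1 ≤ M ∧
      ∀ (V : Type u) (G : SimpleGraph V), G.Connected →
      (∃ (V₀ : Type u) (G₀ : SimpleGraph V₀) (f : V → V₀), G₀.Connected ∧ HasCombing G₀ c ∧
        IsQI G G₀ f M₀ A₀) → ¬ HasFatMinor G K33 K →
      ∃ (W : Type u) (G' : SimpleGraph W) (φ : V → W), G'.Connected ∧ Function.Surjective φ ∧
        IsQI G G' φ M A ∧ ¬ HasMinor G' (⊤ : SimpleGraph (Fin 5)) ∧ ¬ HasMinor G' K33 := by
  obtain ⟨M₁, A₁, hM₁, h⟩ := main (3 * A₀ + M₀ * (2 * (M₀ * (3 * A₀ + 1)) + K)) c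
  obtain ⟨A, hA⟩ : ∃ A, A = M₁ * A₀ + 2 * A₁ + A₀ := ⟨_, rfl⟩
  have hM : 1 ≤ M₁ * M₀ := Nat.mul_pos hM₁ hM₀
  refine ⟨M₁ * M₀ * (3 * A + 1) + A, 2 * (M₁ * M₀ * A), by nlinarith, ?_⟩
  rintro V G hG ⟨V₀, G₀, f, hG₀, hc, hq⟩ hf
  obtain ⟨W, G', φ, c', sj, q', m₅, m₃⟩ := h V₀ G₀ hG₀ hc fun h => hf (h.of_qi hG hG₀ hq hM₀)
  obtain ⟨W', H', ψ, a1, a2, a3, a4⟩ := make_surj hG c' (fun x => φ (f x)) (A := A) hM
    (fun x y => by
      have b1 := q'.upper (f x) (f y)
      have b2 := Nat.mul_le_mul_left M₁ (hq.upper x y)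
      rw [Nat.mul_add, ← Nat.mul_assoc] at b2
      omega)
    (fun x y => by
      have b1 := q'.lower hM₁ (f x) (f y)
      have b2 := hq.lower hM₀ x y
      have b3 : A₀ ≤ M₁ * A₀ := Nat.le_mul_of_pos_left _ hM₁
      calc G.dist x y ≤ M₀ * (M₁ * (G'.dist (φ (f x)) (φ (f y)) + A₁) + M₁ * A₀) :=
            b2.trans (Nat.mul_le_mul_left _ (by omega))
        _ = M₁ * M₀ * (G'.dist (φ (f x)) (φ (f y)) + A₁ + A₀) := by ring
        _ ≤ _ := Nat.mul_le_mul_left _ (by omega))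
    (fun w => by
      obtain ⟨v, rfl⟩ := sj w
      obtain ⟨x, hx⟩ := hq.2 v
      have b1 := q'.upper v (f x)
      have b2 := Nat.mul_le_mul_left M₁ hx
      exact ⟨x, by omega⟩)
  exact ⟨W', H', ψ, a1, a2, a3, fun h => m₅ (a4 _ _ h), fun h => m₃ (a4 _ _ h)⟩

end Pool.Agent.Lib.MP_f9389f_co
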