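import Mathlib
import Pool.Agent.Lib.MP_f9389f_co.CbBasic

/-! Points with two long arms, and density of good points. -/

namespace Pool.Agent.Lib.MP_f9389f_co

universe u

open SimpleGraph

variable {V : Type u} {G : SimpleGraph V} {o : V} {c B w ρ r₀ r₃ : ℕ}

/-- A chain from the inner ball to the outer rim ends in a crossing component. -/
theorem cross_out (hG : G.Connected) (hr : r₀ + w < r₃) {x y z : V}
    (h : Ch G w (YL G o c B (G.dist o x) ∩ {v | G.dist x v < r₃}) y z)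
    (hz : z ∈ YL G o c B (G.dist o x)) (hz' : G.dist x z < r₃) (hy : G.dist x y ≤ r₀)
    (hz'' : r₃ ≤ G.dist x z + w) : Cross G o c B w r₀ r₃ x z := by
  obtain ⟨u, v, h1, -, -, -, h5, h6, -⟩ :=
    h.symm.entry (fun v => G.dist x v ≤ r₀) (by omega) hy
  have h7 := tri hG x v u
  rw [dist_comm (u := v) (v := u)] at h7
  refine ⟨⟨hz, by omega, hz'⟩, ⟨u, h1.mono le_rfl ?_, by omega⟩, z, Ch.refl _, hz''⟩
  rintro a ⟨⟨a1, a2⟩, a3⟩
  exact ⟨a1, not_le.1 a3, a2⟩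

/-- A chain from the inner rim to the outside starts in a crossing component. -/
theorem cross_in (hG : G.Connected) (hr : r₀ + w < r₃) {x y z : V}
    (h : Ch G w (YL G o c B (G.dist o x) ∩ {v | r₀ < G.dist x v}) z y)
    (hz : z ∈ YL G o c B (G.dist o x)) (hz' : r₀ < G.dist x z) (hy : r₃ ≤ G.dist x y)
    (hz'' : G.dist x z ≤ r₀ + w) : Cross G o c B w r₀ r₃ x z := by
  obtain ⟨u, v, h1, -, -, -, h5, h6, -⟩ :=
    h.entry (fun v => r₃ ≤ G.dist x v) (by omega) hy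
  have h7 := tri hG x u v
  refine ⟨⟨hz, hz', by omega⟩, ⟨z, Ch.refl _, hz''⟩, u, h1.mono le_rfl ?_, by omega⟩
  rintro a ⟨⟨a1, a2⟩, a3⟩
  exact ⟨a1, a2, not_le.1 a3⟩

/-- Leaving the ball along a chain inside `P`. -/
theorem exit_cross (hG : G.Connected) (hr : r₀ + w < r₃) {x y t : V} {P : Set V}
    (hP : P ⊆ YL G o c B (G.dist o x)) (h : Ch G w P y t) (hy : G.dist x y ≤ r₀)
    (ht : r₃ ≤ G.dist x t) : ∃ z ∈ P, Cross G o c B w r₀ r₃ x z ∧
      Ch G w (YL G o c B (G.dist o x) ∩ {v | G.dist x v < r₃}) y z := by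
  obtain ⟨u, v, h1, h2, h3, -, h5, h6, -⟩ := h.entry (fun v => r₃ ≤ G.dist x v) (by omega) ht
  have h7 := tri hG x u v
  have h8 : Ch G w (YL G o c B (G.dist o x) ∩ {v | G.dist x v < r₃}) y u :=
    h1.mono le_rfl fun a ha => ⟨hP ha.1, not_le.1 ha.2⟩
  exact ⟨u, h2, cross_out hG hr h8 (hP h2) (by omega) hy (by omega), h8⟩

/-- Entering the inner ball along a chain inside `P`. -/
theorem enter_cross (hG : G.Connected) (hr : r₀ + w < r₃) {x y t : V} {P : Set V}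
    (hP : P ⊆ YL G o c B (G.dist o x)) (h : Ch G w P t y) (hy : G.dist x y ≤ r₀)
    (ht : r₃ ≤ G.dist x t) : ∃ z ∈ P, Cross G o c B w r₀ r₃ x z ∧
      Ch G w (P ∩ {v | r₀ < G.dist x v}) t z := by
  obtain ⟨u, v, h1, h2, h3, -, h5, h6, -⟩ := h.entry (fun v => G.dist x v ≤ r₀) (by omega) hy
  have h7 := tri hG x v u
  rw [dist_comm (u := v) (v := u)] at h7
  have h8 : Ch G w (P ∩ {v | r₀ < G.dist x v}) t u :=
    h1.mono le_rfl fun a ha => ⟨ha.1, not_le.1 ha.2⟩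
  exact ⟨u, h2, cross_in hG hr (h8.symm.mono le_rfl fun a ha => ⟨hP ha.1, ha.2⟩) (hP h2)
    (by omega) ht (by omega), h8⟩

theorem an_subset (x : V) :
    An G o c B r₀ r₃ x ⊆ YL G o c B (G.dist o x) ∩ {v | G.dist x v < r₃} :=
  fun _ ha => ⟨ha.1, ha.2.2⟩

theorem an_subset' (x : V) :
    An G o c B r₀ r₃ x ⊆ YL G o c B (G.dist o x) ∩ {v | r₀ < G.dist x v} :=
  fun _ ha => ⟨ha.1, ha.2.1⟩

theorem ttStmt : TTStmt.{u} := by
  intro V G hG o c B w ρ r₀ r₃ hcw hclaw hN hρ hr hB z P₁ P₂ t₁ t₂ hP₁ hP₂ c₁ c₂ z₁ z₂ m₁ m₂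
    a₁ a₂ f₁ f₂ y hy hzy
  obtain ⟨v, hv, hv'⟩ := YL.far hG hy z hB
  obtain ⟨zy, -, xy, cy⟩ := exit_cross hG hr subset_rfl (hv.mono hcw subset_rfl) hzy hv'
  obtain ⟨u₀, p₀, x₀, d₀⟩ := exit_cross hG hr hP₁ (c₁ z z₁ t₁ m₁) (by simp) (by omega)
  obtain ⟨u₁, p₁, x₁, d₁⟩ := enter_cross hG hr hP₁ (c₁ t₁ m₁ z z₁) (by simp) (by omega)
  obtain ⟨u₂, p₂, x₂, d₂⟩ := enter_cross hG hr hP₂ (c₂ t₂ m₂ z z₂) (by simp) (by omega)
  have fin : ∀ u, (u ∈ P₁ ∨ u ∈ P₂) → Cross G o c B w r₀ r₃ z u →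
      Ch G w (An G o c B r₀ r₃ z) u zy → ∃ u, (u ∈ P₁ ∨ u ∈ P₂) ∧ G.dist z u < r₃ ∧
      Ch G w (YL G o c B (G.dist o z) ∩ {v | G.dist z v < r₃}) u y := fun u hu hx hc =>
    ⟨u, hu, hx.1.2.2, (hc.mono le_rfl (an_subset z)).trans cy.symm⟩
  by_cases e₁ : Ch G w (An G o c B r₀ r₃ z) u₀ u₁
  · by_cases e₂ : Ch G w (An G o c B r₀ r₃ z) u₀ u₂
    · exfalso
      have hE : ∀ a, Ch G w (An G o c B r₀ r₃ z) u₀ a → a ∈ An G o c B r₀ r₃ z :=
        fun a ha => ha.mem x₀.1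
      have g₁ : ∀ a, Ch G w (P₁ ∩ {v | r₀ < G.dist z v}) t₁ a →
          a ∈ P₁ ∩ {v | r₀ < G.dist z v} := fun a ha =>
        ha.mem ⟨m₁, show r₀ < G.dist z t₁ by omega⟩
      have g₂ : ∀ a, Ch G w (P₂ ∩ {v | r₀ < G.dist z v}) t₂ a →
          a ∈ P₂ ∩ {v | r₀ < G.dist z v} := fun a ha =>
        ha.mem ⟨m₂, show r₀ < G.dist z t₂ by omega⟩
      have g₃ : ∀ a, Ch G w (YL G o c B (G.dist o z) ∩ {v | G.dist z v < r₃}) z a →
          a ∈ YL G o c B (G.dist o z) ∩ {v | G.dist z v < r₃} := fun a ha =>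
        ha.mem ⟨hP₁ z₁, show G.dist z z < r₃ by simp; omega⟩
      have far : ∀ a t, G.dist z a < r₃ → r₃ + ρ ≤ G.dist z t → ρ ≤ G.dist a t := by
        intro a t h1 h2
        have := tri hG z a t
        omega
      have nz : ∀ a, r₀ < G.dist z a → ρ ≤ G.dist a z := by
        intro a h1
        rw [dist_comm]; omega
      refine hclaw.three (m := G.dist o z)
        (Q₁ := {a | Ch G w (An G o c B r₀ r₃ z) u₀ a} ∪
          {a | Ch G w (P₁ ∩ {v | r₀ < G.dist z v}) t₁ a})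
        (Q₂ := {a | Ch G w (An G o c B r₀ r₃ z) u₀ a} ∪
          {a | Ch G w (P₂ ∩ {v | r₀ < G.dist z v}) t₂ a})
        (Q₃ := {a | Ch G w (YL G o c B (G.dist o z) ∩ {v | G.dist z v < r₃}) z a})
        (z := u₀) (t₁ := t₁) (t₂ := t₂) (t₃ := z) ?_ ?_ ?_
        ((conn_comp _ _ _ _).union' (conn_comp _ _ _ _) e₁ d₁)
        ((conn_comp _ _ _ _).union' (conn_comp _ _ _ _) e₂ d₂) (conn_comp _ _ _ _)
        (Or.inl (Ch.refl _)) (Or.inl (Ch.refl _)) d₀ (Or.inr (Ch.refl _)) (Or.inr (Ch.refl _))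
        (Ch.refl _) ?_ ?_ ?_
      · rintro a (ha | ha)
        exacts [(hE a ha).1.1, (hP₁ (g₁ a ha).1).1]
      · rintro a (ha | ha)
        exacts [(hE a ha).1.1, (hP₂ (g₂ a ha).1).1]
      · exact fun a ha => (g₃ a ha).1.1
      · rintro a (ha | ha)
        exacts [⟨far a _ (hE a ha).2.2 f₂, nz a (hE a ha).2.1⟩,
          ⟨a₁ a (g₁ a ha).1, nz a (g₁ a ha).2⟩]
      · rintro a (ha | ha)
        exacts [⟨far a _ (hE a ha).2.2 f₁, nz a (hE a ha).2.1⟩,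
          ⟨a₂ a (g₂ a ha).1, nz a (g₂ a ha).2⟩]
      · exact fun a ha => ⟨far a _ (g₃ a ha).2 f₁, far a _ (g₃ a ha).2 f₂⟩
    · rcases hN z u₀ u₂ zy x₀ x₂ xy with h | h | h
      exacts [absurd h e₂, fin u₀ (Or.inl p₀) x₀ h, fin u₂ (Or.inr p₂) x₂ h]
  · rcases hN z u₀ u₁ zy x₀ x₁ xy with h | h | h
    exacts [absurd h e₁, fin u₀ (Or.inl p₀) x₀ h, fin u₁ (Or.inl p₁) x₁ h]

/-- A chain to a far point can be chosen not to come back after leaving a small ball. -/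
theorem clean_start (hG : G.Connected) (hN : N2P G o c B w r₀ r₃) (hr : r₀ + w < r₃) {a b : V}
    (ha : a ∈ YL G o c B (G.dist o a)) (hab : Ch G w (YL G o c B (G.dist o a)) a b)
    (hb : r₃ ≤ G.dist a b) : ∃ e, r₀ < G.dist a e ∧
      Ch G w (YL G o c B (G.dist o a) ∩ {v | G.dist a v < r₃}) a e ∧
      Ch G w (YL G o c B (G.dist o a) ∩ {v | r₀ < G.dist a v}) e b := by
  by_contra hcon
  push Not at hcon
  set Y := YL G o c B (G.dist o a) with hY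
  obtain ⟨z₁, -, x₁, d₁⟩ := exit_cross hG hr subset_rfl hab (by simp) hb
  obtain ⟨z₂, -, x₂, d₂⟩ := enter_cross hG hr subset_rfl hab.symm (by simp) hb
  have hD : ∀ z, Ch G w (Y ∩ {v | G.dist a v < r₃}) a z → z ∈ Y ∩ {v | G.dist a v < r₃} :=
    fun z hz => hz.mem ⟨ha, show G.dist a a < r₃ by simp; omega⟩
  have hO : ∀ z, Ch G w (Y ∩ {v | r₀ < G.dist a v}) z₁ z → z ∈ Y ∩ {v | r₀ < G.dist a v} :=
    fun z hz => hz.mem ⟨x₁.1.1, x₁.1.2.1⟩
  have n₂ : ¬ Ch G w (Y ∩ {v | G.dist a v < r₃}) a z₂ := fun h => hcon z₂ x₂.1.2.1 h d₂.symm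
  have n₁ : ¬ Ch G w (Y ∩ {v | r₀ < G.dist a v}) z₁ b := hcon z₁ x₁.1.2.1 d₁
  have n₁₂ : ¬ Ch G w (An G o c B r₀ r₃ a) z₁ z₂ := fun h =>
    n₂ (d₁.trans (h.mono le_rfl (an_subset a)))
  have key : ∀ z, Ch G w Y a z → Ch G w (Y ∩ {v | G.dist a v < r₃}) a z ∨
      Ch G w (Y ∩ {v | r₀ < G.dist a v}) z₁ z := by
    intro z hz
    induction hz with
    | refl => exact Or.inl (Ch.refl _)
    | @tail z z' _ h2 ih =>
      obtain ⟨hz, hz', hd⟩ := h2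
      have t1 := tri hG a z z'
      have t2 := tri hG a z' z
      rw [dist_comm (u := z') (v := z)] at t2
      rcases ih with h3 | h3
      · by_cases h4 : G.dist a z' < r₃
        · exact Or.inl (h3.tail (hD z h3) ⟨hz', h4⟩ hd)
        · have x : Cross G o c B w r₀ r₃ a z :=
            cross_out hG hr h3 hz (hD z h3).2 (by simp) (by omega)
          rcases hN a z₁ z₂ z x₁ x₂ x with h | h | h
          · exact absurd h n₁₂
          · have h5 := h.mono le_rfl (an_subset' a)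
            exact Or.inr (h5.tail (hO z h5) ⟨hz', show r₀ < G.dist a z' by omega⟩ hd)
          · exact absurd (h3.trans (h.symm.mono le_rfl (an_subset a))) n₂
      · by_cases h4 : r₀ < G.dist a z'
        · exact Or.inr (h3.tail (hO z h3) ⟨hz', h4⟩ hd)
        · have back : Ch G w (An G o c B r₀ r₃ a) z₁ z →
              Ch G w (Y ∩ {v | G.dist a v < r₃}) a z' := fun h => by
            have h5 := d₁.trans (h.mono le_rfl (an_subset a))
            exact h5.tail (hD z h5) ⟨hz', show G.dist a z' < r₃ by omega⟩ hd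
          rcases h3.symm.avoid_or (fun v => r₃ ≤ G.dist a v) (by omega) with h5 | ⟨y, hy, h5⟩
          · refine Or.inl (back (h5.symm.mono le_rfl ?_))
            rintro v ⟨⟨v1, v2⟩, v3⟩
            exact ⟨v1, v2, not_le.1 v3⟩
          · have x : Cross G o c B w r₀ r₃ a z :=
              cross_in hG hr h5 hz (hO z h3).2 hy (by omega)
            rcases hN a z₁ z₂ z x₁ x₂ x with h | h | h
            · exact absurd h n₁₂
            · exact Or.inl (back h)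
            · exact absurd (h3.trans ((h.symm.mono le_rfl (an_subset' a)).trans d₂.symm)) n₁
  rcases key b hab with h | h
  · have := (hD b h).2
    simp only [Set.mem_ofPred_eq] at this
    omega
  · exact n₁ h

theorem goodStmt : GoodStmt.{u} := by
  intro V G hG o c B w ρ r₀ r₃ hcw hN hT hρ hr hB a ha
  obtain ⟨b, hb, hb'⟩ := YL.far hG ha a (r := 4 * r₃ + w) (by omega)
  obtain ⟨e, e₀, e₁, e₂⟩ := clean_start hG hN hr ha (hb.mono hcw subset_rfl) (by omega)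
  set Y := YL G o c B (G.dist o a) with hY
  have hD : ∀ z, Ch G w (Y ∩ {v | G.dist a v < r₃}) a z → z ∈ Y ∩ {v | G.dist a v < r₃} :=
    fun z hz => hz.mem ⟨ha, show G.dist a a < r₃ by simp; omega⟩
  have e₃ : G.dist a e < r₃ := (hD e e₁).2
  obtain ⟨p', p, k₁, k₂, k₃, k₄, k₅, k₆, k₇⟩ :=
    e₂.entry (fun v => 2 * r₃ ≤ G.dist a v) (by omega) (by omega)
  have tp := tri hG a p' p
  obtain ⟨t', t, l₁, l₂, l₃, l₄, l₅, l₆, -⟩ :=
    k₇.entry (fun v => 4 * r₃ + w ≤ G.dist a v) (by omega) hb'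
  have tt := tri hG a t' t
  have lp : G.dist o p = G.dist o a := k₄.1.1
  set P₁ : Set V := {v | Ch G w (Y ∩ {v | G.dist a v ≤ 2 * r₃ + w}) a v} with hP₁
  set P₂ : Set V :=
    {v | Ch G w (Y ∩ {v | r₀ < G.dist a v ∧ G.dist a v ≤ 4 * r₃ + 2 * w}) p v} with hP₂
  have q₁ : ∀ v ∈ P₁, v ∈ Y ∩ {v | G.dist a v ≤ 2 * r₃ + w} := fun v hv =>
    Ch.mem hv ⟨ha, by simp⟩
  have q₂ : ∀ v ∈ P₂, v ∈ Y ∩ {v | r₀ < G.dist a v ∧ G.dist a v ≤ 4 * r₃ + 2 * w} := fun v hv =>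
    Ch.mem hv ⟨k₄.1, k₄.2, by omega⟩
  have pP₁ : p ∈ P₁ := by
    have h1 : Ch G w (Y ∩ {v | G.dist a v ≤ 2 * r₃ + w}) a e :=
      e₁.mono le_rfl fun v hv => ⟨hv.1, by have := hv.2; simp only [Set.mem_ofPred_eq] at *; omega⟩
    have h2 : Ch G w (Y ∩ {v | G.dist a v ≤ 2 * r₃ + w}) e p' :=
      k₁.mono le_rfl fun v hv => ⟨hv.1.1, by
        have := hv.2; simp only [Set.mem_ofPred_eq] at *; omega⟩
    exact (h1.trans h2).tail ⟨k₂.1, show G.dist a p' ≤ _ by omega⟩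
      ⟨k₄.1, show G.dist a p ≤ _ by omega⟩ k₆
  have tP₂ : t ∈ P₂ := by
    have h2 : Ch G w (Y ∩ {v | r₀ < G.dist a v ∧ G.dist a v ≤ 4 * r₃ + 2 * w}) p t' :=
      l₁.mono le_rfl fun v hv => ⟨hv.1.1, hv.1.2, by
        have := hv.2; simp only [Set.mem_ofPred_eq] at *; omega⟩
    exact h2.tail ⟨l₂.1, l₂.2, by omega⟩ ⟨l₄.1, l₄.2, by omega⟩ l₆
  have s₁ : ∀ v ∈ P₁, Ch G w (Y ∩ {v | G.dist a v ≤ 4 * r₃ + 2 * w}) a v := fun v hv =>
    Ch.mono hv le_rfl fun x hx => ⟨hx.1, by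
      have := hx.2; simp only [Set.mem_ofPred_eq] at *; omega⟩
  have s₂ : ∀ v ∈ P₂, Ch G w (Y ∩ {v | G.dist a v ≤ 4 * r₃ + 2 * w}) p v := fun v hv =>
    Ch.mono hv le_rfl fun x hx => ⟨hx.1, hx.2.2⟩
  refine ⟨p, ⟨by rw [lp]; exact k₄.1, fun y hy hpy => ?_⟩, a, ha, by simp, s₁ p pP₁⟩
  have tq := tri hG a p t
  obtain ⟨u, hu, -, hu'⟩ := hT p P₁ P₂ a t (by rw [lp]; exact fun v hv => (q₁ v hv).1)
    (by rw [lp]; exact fun v hv => (q₂ v hv).1) (conn_comp _ _ _ _) (conn_comp _ _ _ _) pP₁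
    (Ch.refl _) (Ch.refl _) tP₂
    (fun v hv => by
      have h1 := (q₁ v hv).2
      have h2 := tri hG a v t
      simp only [Set.mem_ofPred_eq] at h1
      omega)
    (fun v hv => by
      have h1 := (q₂ v hv).2.1
      rw [dist_comm]; omega)
    (by rw [dist_comm]; omega) (by omega) y hy hpy
  refine ⟨a, by rw [lp]; exact k₄.1, by omega, ?_⟩
  rw [lp] at hu' ⊢
  have h1 : Ch G w (Y ∩ {v | G.dist a v ≤ 4 * r₃ + 2 * w}) p u := by
    rcases hu with hu | hu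
    exacts [(s₁ p pP₁).symm.trans (s₁ u hu), s₂ u hu]
  refine h1.trans (hu'.mono le_rfl fun v hv => ⟨hv.1, ?_⟩)
  have h2 := hv.2
  have h3 := tri hG a p v
  simp only [Set.mem_ofPred_eq] at *
  omega

end Pool.Agent.Lib.MP_f9389f_co
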