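import Mathlib
import Pool.Agent.Lib.MP_f9389f_co.CbAsm
import Pool.Agent.Lib.MP_f9389f_co.CbQI
import Pool.Agent.Lib.MP_f9389f_co.CbK33
import Pool.Agent.Lib.MP_f9389f_co.CbClaw
import Pool.Agent.Lib.MP_f9389f_co.CbAnn
import Pool.Agent.Lib.MP_f9389f_co.CbTT
import Pool.Agent.Lib.MP_f9389f_co.CbLevel
import Pool.Agent.Lib.MP_f9389f_co.CbFold
import Pool.Agent.Lib.MP_f9389f_co.CbGate
import Pool.Agent.Lib.MP_f9389f_co.CbMac

/-! The coarse Kuratowski theorem for graphs quasi-isometric to combable graphs. -/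

namespace Pool.Agent.Lib.MP_f9389f_co

universe u

theorem combable_main (K c M₀ A₀ : ℕ) (hM₀ : 1 ≤ M₀) : ∃ M A : ℕ, 1 ≤ M ∧
    ∀ (V : Type u) (G : SimpleGraph V), G.Connected →
      (∃ (V₀ : Type u) (G₀ : SimpleGraph V₀) (f : V → V₀), G₀.Connected ∧ HasCombing G₀ c ∧
        IsQI G G₀ f M₀ A₀) → ¬ HasFatMinor G K33 K →
      ∃ (W : Type u) (G' : SimpleGraph W) (φ : V → W), G'.Connected ∧ Function.Surjective φ ∧
        IsQI G G' φ M A ∧ ¬ HasMinor G' (⊤ : SimpleGraph (Fin 5)) ∧ ¬ HasMinor G' K33 :=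
  qi_main (comb_main (clawStmt k33Stmt trimStmt) (lipsStmt wallStmt) l3Stmt n2Stmt ttStmt goodStmt
    levelStmt (foldStmt wallStmt) gateStmt layStmt) K c M₀ A₀ hM₀

end Pool.Agent.Lib.MP_f9389f_co
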