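import Mathlib
import Pool.Agent.Lib.MP_f9389f_co.Defs

/-! The covering hypothesis for the doubling case. -/

namespace Pool.Agent.Lib.MP_f9389f_co

/-- Every ball of radius `s` in `G` is covered by at most `N` balls of radius `r`. -/
def Covered {V : Type*} (G : SimpleGraph V) (N r s : ℕ) : Prop :=
  ∀ x : V, ∃ T : Finset V, T.card ≤ N ∧ ∀ y, G.dist x y ≤ s → ∃ t ∈ T, G.dist t y ≤ r

end Pool.Agent.Lib.MP_f9389f_co
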