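import Mathlib
import Pool.Agent.Lib.MP_f9389f_co.CbBasic
import Pool.Agent.Lib.MP_f9389f_co.DbStmt

-- part Pool.Agent.Lib.MP_f9389f_co.DbNet
section

/-! Nets, colourings, geodesics and short walks for the doubling case. -/

namespace Pool.Agent.Lib.MP_f9389f_co.Db

universe u

open SimpleGraph

variable {V : Type u} {G : SimpleGraph V}

/-- Every ball of radius `ρ` holds at most `m` points of `S`. -/
def Cnt (G : SimpleGraph V) (S : Set V) (ρ m : ℕ) : Prop :=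
  ∀ x : V, ∀ F : Finset V, (∀ f ∈ F, f ∈ S ∧ G.dist x f ≤ ρ) → F.card ≤ m

theorem Cnt.mono {S : Set V} {ρ ρ' m : ℕ} (h : Cnt G S ρ m) (hρ : ρ' ≤ ρ) : Cnt G S ρ' m :=
  fun x F hF => h x F fun f hf => ⟨(hF f hf).1, (hF f hf).2.trans hρ⟩

/-- A maximal separated subset. -/
theorem exists_net (G : SimpleGraph V) (S : Set V) (L : ℕ) : ∃ T ⊆ S,
    (∀ a ∈ T, ∀ b ∈ T, a ≠ b → L < G.dist a b) ∧ ∀ s ∈ S, ∃ t ∈ T, G.dist s t ≤ L := by
  obtain ⟨T, hT⟩ := zorn_subset {T : Set V | T ⊆ S ∧ ∀ a ∈ T, ∀ b ∈ T, a ≠ b → L < G.dist a b}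
    (fun c hc hch => ⟨⋃₀ c, ⟨Set.sUnion_subset fun t ht => (hc ht).1, by
      rintro a ⟨s, hs, ha⟩ b ⟨t, ht, hb⟩ hab
      rcases hch.total hs ht with h | h
      · exact (hc ht).2 a (h ha) b hb hab
      · exact (hc hs).2 a ha b (h hb) hab⟩, fun s hs => Set.subset_sUnion_of_mem hs⟩)
  refine ⟨T, hT.prop.1, hT.prop.2, fun s hs => ?_⟩
  by_contra hne
  push Not at hne
  have h1 : insert s T ∈ {T : Set V | T ⊆ S ∧ ∀ a ∈ T, ∀ b ∈ T, a ≠ b → L < G.dist a b} := by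
    refine ⟨Set.insert_subset hs hT.prop.1, ?_⟩
    rintro a (rfl | ha) b (rfl | hb) hab
    · exact absurd rfl hab
    · exact hne b hb
    · rw [SimpleGraph.dist_comm]; exact hne a ha
    · exact hT.prop.2 a ha b hb hab
  have h2 : s ∈ T := hT.le_of_ge h1 (Set.subset_insert _ _) (Set.mem_insert _ _)
  simpa using hne s h2

/-- A colouring in which points of equal colour are far apart. -/
theorem exists_colour (G : SimpleGraph V) (L : ℕ) : ∀ (n : ℕ) (S : Set V),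
    (∀ x ∈ S, ∀ F : Finset V, (∀ f ∈ F, f ∈ S ∧ G.dist x f ≤ L) → F.card ≤ n) →
    ∃ χ : V → ℕ, (∀ x ∈ S, χ x < n) ∧
      ∀ a ∈ S, ∀ b ∈ S, a ≠ b → χ a = χ b → L < G.dist a b := by
  classical
  intro n
  induction n with
  | zero =>
    intro S h
    refine ⟨fun _ => 0, fun x hx => ?_, fun a ha => ?_⟩
    · simpa using h x hx {x} (by simpa using hx)
    · simpa using h a ha {a} (by simpa using ha)
  | succ n ih =>
    intro S h
    obtain ⟨T, hTS, hT, hc⟩ := exists_net G S L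
    obtain ⟨χ, h1, h2⟩ := ih (S \ T) fun x hx F hF => by
      obtain ⟨t, ht, hd⟩ := hc x hx.1
      have h3 : t ∉ F := fun h4 => (hF t h4).1.2 ht
      have h4 := h x hx.1 (insert t F) fun f hf => by
        rcases Finset.mem_insert.1 hf with rfl | hf
        · exact ⟨hTS ht, hd⟩
        · exact ⟨(hF f hf).1.1, (hF f hf).2⟩
      rw [Finset.card_insert_of_notMem h3] at h4
      omega
    refine ⟨fun x => if x ∈ T then n else χ x, fun x hx => ?_, fun a ha b hb hab he => ?_⟩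
    · by_cases h3 : x ∈ T
      · simp [h3]
      · have := h1 x ⟨hx, h3⟩
        simp only [h3, if_false]; omega
    · by_cases h3 : a ∈ T <;> by_cases h4 : b ∈ T <;> simp only [h3, h4, if_true, if_false] at he
      · exact hT a h3 b h4 hab
      · have := h1 b ⟨hb, h4⟩; omega
      · have := h1 a ⟨ha, h3⟩; omega
      · exact h2 a ⟨ha, h3⟩ b ⟨hb, h4⟩ hab he

theorem cnt_of_covered (hG : G.Connected) {N r s : ℕ} (h : Covered G N r s) {X : Set V}
    (hX : ∀ a ∈ X, ∀ b ∈ X, a ≠ b → 2 * r < G.dist a b) : Cnt G X s N := by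
  classical
  intro x F hF
  obtain ⟨T, hT, hc⟩ := h x
  choose! t ht using hc
  refine le_trans (Finset.card_le_card_of_injOn t (fun f hf => (ht f (hF f hf).2).1) ?_) hT
  intro a ha b hb he
  by_contra hab
  have h1 := hX a (hF a ha).1 b (hF b hb).1 hab
  have h2 := (ht a (hF a ha).2).2
  have h3 := (ht b (hF b hb).2).2
  have h4 := tri hG a (t a) b
  rw [← he] at h3
  rw [SimpleGraph.dist_comm] at h2
  omega

theorem covered_comp {N N' r s t : ℕ} (h : Covered G N r s)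
    (h' : Covered G N' s t) : Covered G (N' * N) r t := by
  classical
  intro x
  obtain ⟨T, hT, hc⟩ := h' x
  choose f hf hf' using h
  refine ⟨T.biUnion f, ?_, fun y hy => ?_⟩
  · exact (Finset.card_biUnion_le_card_mul T f N fun a _ => hf a).trans
      (Nat.mul_le_mul_right _ hT)
  · obtain ⟨a, ha, hd⟩ := hc y hy
    obtain ⟨b, hb, hd'⟩ := hf' a y hd
    exact ⟨b, Finset.mem_biUnion.2 ⟨a, ha, hb⟩, hd'⟩

/-- A graph that is `N`-doubling at all scales from `r` on satisfies the covering hypothesis. -/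
theorem covered_of_doubling {N r : ℕ}
    (h : ∀ s, r ≤ s → Covered G N s (2 * s)) : Covered G (N ^ 6) r (44 * r) := by
  have key : ∀ j, Covered G (N ^ (j + 1)) r (2 ^ (j + 1) * r) := by
    intro j
    induction j with
    | zero => simpa using h r le_rfl
    | succ j ih =>
      have h1 := covered_comp ih (h (2 ^ (j + 1) * r) (Nat.le_mul_of_pos_left _ (by positivity)))
      rwa [← pow_succ', ← mul_assoc, ← pow_succ'] at h1
  intro x
  obtain ⟨T, hT, hc⟩ := key 5 x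
  exact ⟨T, hT, fun y hy => hc y (by omega)⟩

theorem exists_geo (hG : G.Connected) (x y : V) : ∃ g : ℕ → V, g 0 = x ∧ g (G.dist x y) = y ∧
    (∀ i < G.dist x y, G.Adj (g i) (g (i + 1))) ∧
    ∀ i j, i ≤ j → j ≤ G.dist x y → G.dist (g i) (g j) = j - i := by
  obtain ⟨q, hq⟩ := hG.exists_walk_length_eq_dist x y
  have hadj : ∀ i < G.dist x y, G.Adj (q.getVert i) (q.getVert (i + 1)) := fun i hi =>
    q.adj_getVert_succ (by omega)
  have hle : ∀ i n, i + n ≤ G.dist x y → G.dist (q.getVert i) (q.getVert (i + n)) ≤ n := by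
    intro i n
    induction n with
    | zero => simp
    | succ n ih =>
      intro h
      have h1 := ih (by omega)
      have h2 := dist_le_one_of_adj (hadj (i + n) (by omega))
      have h3 := tri hG (q.getVert i) (q.getVert (i + n)) (q.getVert (i + n + 1))
      rw [← add_assoc]; omega
  have h0 : q.getVert 0 = x := q.getVert_zero
  have hl : q.getVert (G.dist x y) = y := by rw [← hq]; exact q.getVert_length
  refine ⟨q.getVert, h0, hl, hadj, fun i j hij hj => ?_⟩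
  have h1 := hle i (j - i) (by omega)
  have h2 := hle 0 i (by omega)
  have h3 := hle j (G.dist x y - j) (by omega)
  rw [show i + (j - i) = j by omega] at h1
  rw [zero_add, h0] at h2
  rw [show j + (G.dist x y - j) = G.dist x y by omega, hl] at h3
  have h4 := tri hG x (q.getVert i) y
  have h5 := tri hG (q.getVert i) (q.getVert j) y
  omega

variable {L L' : SimpleGraph V} {n : ℕ} {a b : V}

theorem near_le (h : Near L n a b) (hL : L ≤ L') : Near L' n a b := by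
  obtain ⟨p, hp⟩ := h
  exact ⟨p.mapLe hL, by simpa using hp⟩

theorem near_dist (h : Near L n a b) (hL : L ≤ G) : G.dist a b ≤ n := by
  obtain ⟨p, hp⟩ := near_le h hL
  exact (dist_le p).trans hp

theorem near_support (p : L.Walk a b) {z : V} (hz : z ∈ p.support) :
    ∃ i j, i + j = p.length ∧ Near L i a z ∧ Near L j z b := by
  classical
  refine ⟨_, _, ?_, ⟨p.takeUntil z hz, le_rfl⟩, ⟨p.dropUntil z hz, le_rfl⟩⟩
  rw [← Walk.length_append, Walk.take_spec]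

/-- A short walk stays in `T` unless it passes through `Z`. -/
theorem near_stay {T Z : Set V} (hT : ∀ z ∈ T, z ∉ Z → ∀ y, L.Adj z y → y ∈ T) :
    ∀ (n : ℕ) {a b : V}, Near L n a b → a ∈ T →
      b ∈ T ∨ ∃ z ∈ Z, Near L n a z ∧ Near L n z b := by
  intro n
  induction n with
  | zero => intro a b h ha; exact Or.inl (h.zero ▸ ha)
  | succ n ih =>
    intro a b h ha
    by_cases hZ : a ∈ Z
    · exact Or.inr ⟨a, hZ, Near.refl _ _ _, h⟩
    obtain ⟨x, hx, h'⟩ := h.succ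
    have hxT : x ∈ T := by
      rcases hx with rfl | hx
      exacts [ha, hT a ha hZ x hx]
    rcases ih h' hxT with h1 | ⟨z, hz, h1, h2⟩
    · exact Or.inl h1
    · exact Or.inr ⟨z, hz, ((Near.of_or hx).trans h1).mono (by omega), h2.mono (by omega)⟩

theorem conn_induce {A : Set V} (h : (G.induce A).Connected) : Conn G 1 A := by
  intro a ha b hb
  have key : ∀ y : A, Relation.ReflTransGen (G.induce A).Adj ⟨a, ha⟩ y → Ch G 1 A a y := by
    intro y hy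
    induction hy with
    | refl => exact Ch.refl _
    | @tail x y _ e ih => exact ih.tail x.2 y.2 (dist_le_one_of_adj e)
  exact key _ ((reachable_iff_reflTransGen _ _).1 (h.preconnected ⟨a, ha⟩ ⟨b, hb⟩))

theorem ch_walk (hL : L ≤ G) {A : Set V} (p : L.Walk a b) (h : ∀ z ∈ p.support, z ∈ A) :
    Ch G 1 A a b := by
  induction p with
  | nil => exact Ch.refl _
  | cons e p ih =>
    exact (Ch.single (h _ (by simp)) (h _ (by simp)) (dist_le_one_of_adj (hL e))).trans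
      (ih fun z hz => h z (by simp [hz]))

end Pool.Agent.Lib.MP_f9389f_co.Db
end

-- part Pool.Agent.Lib.MP_f9389f_co.DbPiece
section

/-! The sparse subgraph and the piece that is added for one pair of net points. -/

namespace Pool.Agent.Lib.MP_f9389f_co.Db

universe u

open SimpleGraph

variable {V : Type u} {G : SimpleGraph V}

/-- A sparse subgraph `Γ` of `G` on the vertex set `U`, with marked vertices `Mk`. -/
structure Sk (G Γ : SimpleGraph V) (X U Mk : Set V) (R κ C m D : ℕ) : Prop where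
  le : Γ ≤ G
  adjU : ∀ u v, Γ.Adj u v → u ∈ U
  mkU : Mk ⊆ U
  xMk : X ⊆ Mk
  close : ∀ u ∈ U, ∀ w ∈ U, G.dist u w ≤ κ → Near Γ C u w
  deg : ∀ u, u ∉ Mk → ∀ a b c, Γ.Adj u a → Γ.Adj u b → Γ.Adj u c → a = b ∨ a = c ∨ b = c
  cnt : Cnt G Mk (7 * R) m
  nearMk : ∀ u ∈ U, ∃ μ ∈ Mk, Near Γ (3 * R) u μ
  nearX : ∀ u ∈ U, ∃ x ∈ X, Near Γ D u x

/-- What is added for the pair `x, y`. -/
structure Piece (G Γ : SimpleGraph V) (U : Set V) (R k C m : ℕ) (x y : V) (Γ' : SimpleGraph V)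
    (U' : Set V) (M' : Finset V) : Prop where
  le : Γ' ≤ G
  adjU : ∀ u v, Γ'.Adj u v → u ∈ U'
  mkU : ∀ u ∈ M', u ∈ U'
  card : M'.card ≤ m * (2 * (k + 1))
  loc : ∀ u ∈ U', G.dist x u ≤ 3 * R + k
  far : ∀ u ∈ U', u ∉ M' → ∀ w ∈ U, k < G.dist u w
  deg : ∀ u, u ∉ M' → ∀ a b c, Γ'.Adj u a → Γ'.Adj u b → Γ'.Adj u c → a = b ∨ a = c ∨ b = c
  anchor : ∀ u ∈ M', ∃ p ∈ U, Near Γ' k u p
  nearMk : ∀ u ∈ U', ∃ μ ∈ M', Near Γ' (3 * R) u μ
  close : ∀ u ∈ U', ∀ w ∈ U', G.dist u w ≤ k → Near (Γ ⊔ Γ') (C + 7 * k) u w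
  link : Near (Γ ⊔ Γ') (m * (9 * R + 2 * k) + 2 * C) x y

/-- Consecutive near indices. -/
def Gap (Nr : ℕ → Prop) (l : ℕ) (γ : ℕ × ℕ) : Prop :=
  γ.1 < γ.2 ∧ γ.2 ≤ l ∧ Nr γ.1 ∧ Nr γ.2 ∧ ∀ i, γ.1 < i → i < γ.2 → ¬ Nr i

section

variable {g p : ℕ → V} (w : ∀ i, G.Walk (p i) (g i))

/-- The graph spanned by the chosen gaps and their jumps. -/
def gr (S : Finset (ℕ × ℕ)) : SimpleGraph V where
  Adj u v := G.Adj u v ∧ ∃ γ ∈ S, s(u, v) ∈ (w γ.1).edges ∨ s(u, v) ∈ (w γ.2).edges ∨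
    ∃ i, γ.1 ≤ i ∧ i < γ.2 ∧ s(u, v) = s(g i, g (i + 1))
  symm := ⟨fun u v h => ⟨h.1.symm, by rw [Sym2.eq_swap]; exact h.2⟩⟩
  loopless := ⟨fun u h => h.1.ne rfl⟩

theorem gr_mono {S S' : Finset (ℕ × ℕ)} (h : S ⊆ S') : gr w S ≤ gr w S' :=
  fun _ _ ⟨h1, γ, hγ, h2⟩ => ⟨h1, γ, h hγ, h2⟩

theorem gr_jump {S : Finset (ℕ × ℕ)} {γ : ℕ × ℕ} (hγ : γ ∈ S) {i : ℕ} (hi : i = γ.1 ∨ i = γ.2)
    {z : V} (hz : z ∈ (w i).support) :
    Near (gr w S) (w i).length z (p i) ∧ Near (gr w S) (w i).length z (g i) := by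
  have h1 : ∀ e ∈ (w i).edges, e ∈ (gr w S).edgeSet := by
    intro e he
    induction e using Sym2.ind with
    | _ u v =>
      refine ⟨(w i).adj_of_mem_edges he, γ, hγ, ?_⟩
      rcases hi with rfl | rfl
      exacts [Or.inl he, Or.inr (Or.inl he)]
  obtain ⟨a, b, hab, h2, h3⟩ := near_support ((w i).transfer _ h1) (z := z) (by simpa using hz)
  rw [Walk.length_transfer] at hab
  exact ⟨h2.symm.mono (by omega), h3.mono (by omega)⟩

theorem gr_seg {l : ℕ} (hg : ∀ i < l, G.Adj (g i) (g (i + 1))) {S : Finset (ℕ × ℕ)} {γ : ℕ × ℕ}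
    (hγ : γ ∈ S) (hl : γ.2 ≤ l) {i j : ℕ} (h1 : γ.1 ≤ i) (h2 : i ≤ j) (h3 : j ≤ γ.2) :
    Near (gr w S) (j - i) (g i) (g j) := by
  induction j, h2 using Nat.le_induction with
  | base => exact Near.refl _ _ _
  | succ j hj ih =>
    refine ((ih (by omega)).trans (Near.of_adj ?_)).mono (by omega)
    exact ⟨hg j (by omega), γ, hγ, Or.inr (Or.inr ⟨j, by omega, by omega, rfl⟩)⟩

end

variable {Γ : SimpleGraph V} {X U Mk : Set V} {R k C m D : ℕ}

/-- The choice of at most `n` gaps. -/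
theorem exists_gaps {g p μ : ℕ → V} (w : ∀ i, G.Walk (p i) (g i)) {Nr : ℕ → Prop}
    [DecidablePred Nr] [DecidableEq V] {l : ℕ} (hl : l ≤ 3 * R)
    (hg : ∀ i < l, G.Adj (g i) (g (i + 1))) (hNl : Nr l) (hw : ∀ i, Nr i → (w i).length ≤ k)
    (hμ : ∀ i, Nr i → Near Γ (3 * R) (p i) (μ i)) : ∀ (n a : ℕ), a ≤ l → Nr a →
      (((Finset.range (l + 1)).filter fun i => Nr i ∧ a ≤ i).image μ).card ≤ n →
      ∃ S : Finset (ℕ × ℕ), S.card ≤ n ∧ (∀ γ ∈ S, Gap Nr l γ) ∧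
        Near (Γ ⊔ gr w S) (n * (9 * R + 2 * k)) (p a) (p l) := by
  intro n
  induction n with
  | zero =>
    intro a ha hNa hc
    have h1 : μ a ∈ ((Finset.range (l + 1)).filter fun i => Nr i ∧ a ≤ i).image μ :=
      Finset.mem_image_of_mem _ (by simp [hNa]; omega)
    have := Finset.card_pos.2 ⟨_, h1⟩
    omega
  | succ n ih =>
    intro a ha hNa hc
    have h1 : μ a ∈ ((Finset.range (l + 1)).filter fun i => Nr i ∧ a ≤ i).image μ :=
      Finset.mem_image_of_mem _ (by simp [hNa]; omega)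
    let a' := Nat.findGreatest (fun i => Nr i ∧ μ i = μ a) l
    have ha' : Nr a' ∧ μ a' = μ a :=
      Nat.findGreatest_spec (P := fun i => Nr i ∧ μ i = μ a) ha ⟨hNa, rfl⟩
    have haa : a ≤ a' := Nat.le_findGreatest ha ⟨hNa, rfl⟩
    have hal : a' ≤ l := Nat.findGreatest_le l
    have hn : Near Γ (3 * R + 3 * R) (p a) (p a') :=
      (hμ a hNa).trans (by rw [← ha'.2]; exact (hμ a' ha'.1).symm)
    rcases hal.eq_or_lt with he | hlt
    · refine ⟨∅, by simp, by simp, ?_⟩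
      rw [← he]
      exact (near_le hn le_sup_left).mono (by rw [Nat.add_mul n 1]; omega)
    have hex : ∃ b, a' < b ∧ Nr b := ⟨l, hlt, hNl⟩
    let b := Nat.find hex
    have hb : a' < b ∧ Nr b := Nat.find_spec hex
    have hbl : b ≤ l := Nat.find_min' hex ⟨hlt, hNl⟩
    have hgap : Gap Nr l (a', b) :=
      ⟨hb.1, hbl, ha'.1, hb.2, fun i h2 h3 h4 => Nat.find_min hex h3 ⟨h2, h4⟩⟩
    obtain ⟨S, hS, hS', hS''⟩ := ih b hbl hb.2 (by
      have h2 : ((Finset.range (l + 1)).filter fun i => Nr i ∧ b ≤ i).image μ ⊆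
          (((Finset.range (l + 1)).filter fun i => Nr i ∧ a ≤ i).image μ).erase (μ a) := by
        intro z hz
        simp only [Finset.mem_image, Finset.mem_filter, Finset.mem_range] at hz
        obtain ⟨i, ⟨h3, h4, h5⟩, rfl⟩ := hz
        refine Finset.mem_erase.2 ⟨fun h6 => ?_, Finset.mem_image_of_mem _ (by simp [h4]; omega)⟩
        have : i ≤ a' := Nat.le_findGreatest (by omega) ⟨h4, h6⟩
        omega
      have h3 := Finset.card_le_card h2
      rw [Finset.card_erase_of_mem h1] at h3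
      omega)
    refine ⟨insert (a', b) S, (Finset.card_insert_le _ _).trans (by omega), ?_, ?_⟩
    · intro γ hγ
      rcases Finset.mem_insert.1 hγ with rfl | hγ
      exacts [hgap, hS' γ hγ]
    · have hm := Finset.mem_insert_self (a', b) S
      have e1 := ((gr_jump w hm (Or.inl rfl) (w a').start_mem_support).2).mono (hw a' ha'.1)
      have e2 := gr_seg w hg hm hbl (i := a') (j := b) le_rfl hb.1.le le_rfl
      have e3 := ((gr_jump w hm (Or.inr rfl) (w b).end_mem_support).1).mono (hw b hb.2)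
      have e4 := near_le hS'' (sup_le_sup_left (gr_mono w (Finset.subset_insert (a', b) S)) Γ)
      refine (((near_le hn le_sup_left).trans
        (near_le ((e1.trans e2).trans e3) le_sup_right)).trans e4).mono ?_
      rw [Nat.add_mul n 1]; omega

theorem Sk.piece (hG : G.Connected) (h : Sk G Γ X U Mk R (5 * k) C m D) (hk : k ≤ R) {x y : V}
    (hx : x ∈ U) (hy : y ∈ U) (hxy : G.dist x y ≤ 3 * R) :
    ∃ Γ' U' M', Piece G Γ U R k C m x y Γ' U' M' := by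
  classical
  obtain ⟨g, g0, gl, hg, hd⟩ := exists_geo hG x y
  set l := G.dist x y with hl
  let Nr : ℕ → Prop := fun i => ∃ q ∈ U, G.dist q (g i) ≤ k
  have hp : ∀ i, ∃ q μ : V, ∃ w : G.Walk q (g i), Nr i →
      q ∈ U ∧ w.length ≤ k ∧ μ ∈ Mk ∧ Near Γ (3 * R) q μ := by
    intro i
    by_cases hi : Nr i
    · obtain ⟨q, hq, hq'⟩ := hi
      obtain ⟨w, hw⟩ := hG.exists_walk_length_eq_dist q (g i)
      obtain ⟨μ, h1, h2⟩ := h.nearMk q hq
      exact ⟨q, μ, w, fun _ => ⟨hq, by omega, h1, h2⟩⟩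
    · exact ⟨g i, g i, Walk.nil, fun h' => absurd h' hi⟩
  choose p μ w hw using hp
  have hpg : ∀ i, Nr i → G.dist (p i) (g i) ≤ k := fun i hi => (dist_le (w i)).trans (hw i hi).2.1
  have hxg : ∀ i ≤ l, G.dist x (g i) ≤ 3 * R := fun i hi => by
    have := hd 0 i (Nat.zero_le _) hi
    rw [g0] at this; omega
  have N0 : Nr 0 := ⟨x, hx, by simp [g0]⟩
  have Nl : Nr l := ⟨y, hy, by simp [gl]⟩
  obtain ⟨S, hS, hgap, hlink⟩ := exists_gaps (Γ := Γ) (μ := μ) w hxy hg Nl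
    (fun i hi => (hw i hi).2.1) (fun i hi => (hw i hi).2.2.2) m 0 (Nat.zero_le _) N0
    (h.cnt x _ fun f hf => by
      simp only [Finset.mem_image, Finset.mem_filter, Finset.mem_range] at hf
      obtain ⟨i, ⟨h1, h2, -⟩, rfl⟩ := hf
      have e1 := hxg i (by omega)
      have e2 := hpg i h2
      have e3 := near_dist (hw i h2).2.2.2 h.le
      have e4 := tri hG x (g i) (μ i)
      have e5 := tri hG (g i) (p i) (μ i)
      rw [SimpleGraph.dist_comm] at e2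
      exact ⟨(hw i h2).2.2.1, by omega⟩)
  let M' : Finset V := S.biUnion fun γ => (w γ.1).support.toFinset ∪ (w γ.2).support.toFinset
  have hM : ∀ u, u ∈ M' ↔ ∃ γ ∈ S, u ∈ (w γ.1).support ∨ u ∈ (w γ.2).support := by
    intro u; simp [M']
  let U' : Set V := {u | u ∈ M' ∨ ∃ γ ∈ S, ∃ i, γ.1 ≤ i ∧ i ≤ γ.2 ∧ u = g i}
  have hle : gr w S ≤ G := fun _ _ h1 => h1.1
  have hidx : ∀ u ∈ U', ∃ γ ∈ S, ∃ i, γ.1 ≤ i ∧ i ≤ γ.2 ∧ Near (gr w S) k u (g i) := by
    rintro u (hu | ⟨γ, hγ, i, h1, h2, rfl⟩)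
    · obtain ⟨γ, hγ, hu | hu⟩ := (hM u).1 hu
      · exact ⟨γ, hγ, γ.1, le_rfl, (hgap γ hγ).1.le,
          (gr_jump w hγ (Or.inl rfl) hu).2.mono (hw _ (hgap γ hγ).2.2.1).2.1⟩
      · exact ⟨γ, hγ, γ.2, (hgap γ hγ).1.le, le_rfl,
          (gr_jump w hγ (Or.inr rfl) hu).2.mono (hw _ (hgap γ hγ).2.2.2.1).2.1⟩
    · exact ⟨γ, hγ, i, h1, h2, Near.refl _ _ _⟩
  have hcl : ∀ (u u' : V) (γ γ' : ℕ × ℕ) (i j : ℕ), γ ∈ S → γ' ∈ S → γ.1 ≤ i → i ≤ γ.2 →
      γ'.1 ≤ j → j ≤ γ'.2 → Near (gr w S) k u (g i) → Near (gr w S) k u' (g j) → i ≤ j →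
      G.dist u u' ≤ k → Near (Γ ⊔ gr w S) (C + 7 * k) u u' := by
    intro u u' γ γ' i j hγ hγ' a1 a2 b1 b2 n1 n2 hij huu
    obtain ⟨c1, c2, c3, c4, c5⟩ := hgap γ hγ
    obtain ⟨d1, d2, d3, d4, d5⟩ := hgap γ' hγ'
    have e1 := near_dist n1.symm hle
    have e2 := near_dist n2 hle
    have e3 := hd i j hij (by omega)
    have e4 := tri hG (g i) u (g j)
    have e5 := tri hG u u' (g j)
    by_cases hj : j ≤ γ.2
    · exact (near_le ((n1.trans (gr_seg w hg hγ c2 a1 hij hj)).trans n2.symm) le_sup_right).mono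
        (by omega)
    have e6 : γ.2 ≤ γ'.1 := by
      by_contra h6
      exact d5 γ.2 (by omega) (by omega) c4
    have f1 := gr_seg w hg hγ c2 a1 a2 le_rfl
    have f2 := ((gr_jump w hγ (Or.inr rfl) (w γ.2).end_mem_support).1).mono (hw _ c4).2.1
    have f3 := ((gr_jump w hγ' (Or.inl rfl) (w γ'.1).start_mem_support).2).mono (hw _ d3).2.1
    have f4 := gr_seg w hg hγ' d2 le_rfl b1 b2
    have f5 : Near Γ C (p γ.2) (p γ'.1) := by
      refine h.close _ (hw _ c4).1 _ (hw _ d3).1 ?_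
      have g1 := hpg _ c4
      have g2 := hpg _ d3
      have g3 := hd γ.2 γ'.1 e6 (by omega)
      have g4 := tri hG (p γ.2) (g γ.2) (p γ'.1)
      have g5 := tri hG (g γ.2) (g γ'.1) (p γ'.1)
      rw [SimpleGraph.dist_comm] at g2
      omega
    exact (((near_le ((n1.trans f1).trans f2) le_sup_right).trans (near_le f5 le_sup_left)).trans
      (near_le ((f3.trans f4).trans n2.symm) le_sup_right)).mono (by omega)
  have hint : ∀ u ∈ U', u ∉ M' → ∃ i ≤ l, u = g i ∧ ¬ Nr i := by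
    rintro u (hu | ⟨γ, hγ, i, h1, h2, rfl⟩) hu'
    · exact absurd hu hu'
    refine ⟨i, h2.trans (hgap γ hγ).2.1, rfl, (hgap γ hγ).2.2.2.2 i ?_ ?_⟩
    · refine h1.lt_of_ne fun he => hu' ((hM _).2 ⟨γ, hγ, Or.inl ?_⟩)
      rw [← he]; exact Walk.end_mem_support _
    · refine h2.lt_of_ne fun he => hu' ((hM _).2 ⟨γ, hγ, Or.inr ?_⟩)
      rw [he]; exact Walk.end_mem_support _
  have hadjU : ∀ u v, (gr w S).Adj u v → u ∈ U' := by
    rintro u v ⟨-, γ, hγ, h1 | h1 | ⟨i, h1, h2, h3⟩⟩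
    · exact Or.inl ((hM u).2 ⟨γ, hγ, Or.inl (Walk.fst_mem_support_of_mem_edges _ h1)⟩)
    · exact Or.inl ((hM u).2 ⟨γ, hγ, Or.inr (Walk.fst_mem_support_of_mem_edges _ h1)⟩)
    · rcases Sym2.eq_iff.1 h3 with h4 | h4
      · exact Or.inr ⟨γ, hγ, i, h1, h2.le, h4.1⟩
      · exact Or.inr ⟨γ, hγ, i + 1, by omega, h2, h4.1⟩
  refine ⟨gr w S, U', M', hle, hadjU, fun u hu => Or.inl hu, ?_, ?_, ?_, ?_, ?_, ?_, ?_, ?_⟩
  · refine (Finset.card_biUnion_le_card_mul S _ (2 * (k + 1)) fun γ hγ => ?_).trans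
      (Nat.mul_le_mul_right _ hS)
    have e1 := (w γ.1).support.toFinset_card_le
    have e2 := (w γ.2).support.toFinset_card_le
    have e3 := Finset.card_union_le (w γ.1).support.toFinset (w γ.2).support.toFinset
    have e4 := (hw _ (hgap γ hγ).2.2.1).2.1
    have e5 := (hw _ (hgap γ hγ).2.2.2.1).2.1
    rw [Walk.length_support] at e1 e2
    omega
  · intro u hu
    obtain ⟨γ, hγ, i, -, h2, h3⟩ := hidx u hu
    have e1 := hxg i (h2.trans (hgap γ hγ).2.1)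
    have e2 := near_dist h3.symm hle
    have e3 := tri hG x (g i) u
    omega
  · intro u hu hu' v hv
    obtain ⟨i, -, rfl, h2⟩ := hint u hu hu'
    by_contra h3
    exact h2 ⟨v, hv, by rw [SimpleGraph.dist_comm]; omega⟩
  · intro u hu' a b c ha hb hc
    obtain ⟨i, hi, rfl, -⟩ := hint u (hadjU _ _ ha) hu'
    have hinj : ∀ t ≤ l, g i = g t → i = t := by
      intro t ht he
      rcases le_total i t with h1 | h1
      · have := hd i t h1 ht
        rw [he, SimpleGraph.dist_self] at this; omega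
      · have := hd t i h1 hi
        rw [he, SimpleGraph.dist_self] at this; omega
    have key : ∀ v, (gr w S).Adj (g i) v → v = g (i + 1) ∨ v = g (i - 1) := by
      rintro v ⟨-, γ, hγ, h1 | h1 | ⟨t, h1, h2, h3⟩⟩
      · exact absurd ((hM _).2 ⟨γ, hγ, Or.inl (Walk.fst_mem_support_of_mem_edges _ h1)⟩) hu'
      · exact absurd ((hM _).2 ⟨γ, hγ, Or.inr (Walk.fst_mem_support_of_mem_edges _ h1)⟩) hu'
      · have h5 := (hgap γ hγ).2.1
        rcases Sym2.eq_iff.1 h3 with h4 | h4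
        · rw [hinj t (by omega) h4.1]; exact Or.inl h4.2
        · rw [hinj (t + 1) (by omega) h4.1]; exact Or.inr h4.2
    rcases key a ha with h1 | h1 <;> rcases key b hb with h2 | h2 <;>
      rcases key c hc with h3 | h3 <;> simp [h1, h2, h3]
  · intro u hu
    obtain ⟨γ, hγ, hu | hu⟩ := (hM u).1 hu
    · exact ⟨_, (hw _ (hgap γ hγ).2.2.1).1,
        (gr_jump w hγ (Or.inl rfl) hu).1.mono (hw _ (hgap γ hγ).2.2.1).2.1⟩
    · exact ⟨_, (hw _ (hgap γ hγ).2.2.2.1).1,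
        (gr_jump w hγ (Or.inr rfl) hu).1.mono (hw _ (hgap γ hγ).2.2.2.1).2.1⟩
  · rintro u (hu | ⟨γ, hγ, i, h1, h2, rfl⟩)
    · exact ⟨u, hu, Near.refl _ _ _⟩
    · have h3 := (hgap γ hγ).2.1
      exact ⟨g γ.1, (hM _).2 ⟨γ, hγ, Or.inl (Walk.end_mem_support _)⟩,
        (gr_seg w hg hγ h3 le_rfl h1 h2).symm.mono (by omega)⟩
  · intro u hu u' hu' huu
    obtain ⟨γ, hγ, i, a1, a2, n1⟩ := hidx u hu
    obtain ⟨γ', hγ', j, b1, b2, n2⟩ := hidx u' hu'
    rcases le_total i j with hij | hij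
    · exact hcl u u' γ γ' i j hγ hγ' a1 a2 b1 b2 n1 n2 hij huu
    · exact (hcl u' u γ' γ j i hγ' hγ b1 b2 a1 a2 n2 n1 hij (by rwa [SimpleGraph.dist_comm])).symm
  · have e1 := hpg 0 N0
    have e2 := hpg l Nl
    rw [g0, SimpleGraph.dist_comm] at e1
    rw [gl] at e2
    have f1 := h.close x hx _ (hw 0 N0).1 (by omega)
    have f2 := h.close _ (hw l Nl).1 y hy (by omega)
    exact (((near_le f1 le_sup_left).trans hlink).trans (near_le f2 le_sup_left)).mono (by omega)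

end Pool.Agent.Lib.MP_f9389f_co.Db
end

-- part Pool.Agent.Lib.MP_f9389f_co.DbClus
section

/-! Clusters of marked vertices and the blobs around them. -/

namespace Pool.Agent.Lib.MP_f9389f_co.Db

universe u

open SimpleGraph

variable {V : Type u} {G Γ : SimpleGraph V} {X U Mk : Set V} {R κ C m D : ℕ}

/-- A system of blobs. -/
structure Bl (G Γ : SimpleGraph V) (U Mk : Set V) (W : Set (Set V)) (C β : ℕ) : Prop where
  conn : ∀ w ∈ W, Conn G 1 w
  mark : ∀ w ∈ W, ∃ μ ∈ Mk, μ ∈ w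
  sub : ∀ w ∈ W, w ⊆ U
  cover : ∀ μ ∈ Mk, ∃ w ∈ W, μ ∈ w
  sep : ∀ w ∈ W, ∀ w' ∈ W, ∀ u ∈ w, ∀ u' ∈ w', Near Γ C u u' → w = w'
  diam : ∀ w ∈ W, ∀ u ∈ w, ∀ u' ∈ w, G.dist u u' ≤ β
  thread : ∀ w ∈ W, ∀ a ∈ w, ∀ z, Γ.Adj a z → z ∉ w → ∃ ν, ∃ q : Γ.Walk a ν, q.IsPath ∧
    ¬ Near Γ C a ν ∧ ∀ t ∈ q.support, t ∈ w ∧ (t ≠ ν → t ∉ Mk)

theorem stab (T : ℕ → Set V) (hm : ∀ t, T t ⊆ T (t + 1)) (hne : (T 0).Nonempty) (m : ℕ)
    (hb : ∀ F : Finset V, (∀ f ∈ F, f ∈ T m) → F.card ≤ m) : ∃ t < m, T (t + 1) ⊆ T t := by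
  classical
  by_contra h
  push Not at h
  have key : ∀ t ≤ m, ∃ F : Finset V, (∀ f ∈ F, f ∈ T t) ∧ F.card = t + 1 := by
    intro t
    induction t with
    | zero =>
      obtain ⟨a, ha⟩ := hne
      exact fun _ => ⟨{a}, by simpa using ha, by simp⟩
    | succ t ih =>
      intro ht
      obtain ⟨F, h1, h2⟩ := ih (by omega)
      obtain ⟨a, h3, h4⟩ := Set.not_subset.1 (h t (by omega))
      refine ⟨insert a F, fun f hf => ?_, ?_⟩
      · rcases Finset.mem_insert.1 hf with rfl | hf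
        exacts [h3, hm t (h1 f hf)]
      · rw [Finset.card_insert_of_notMem fun h5 => h4 (h1 a h5), h2]
  obtain ⟨F, h1, h2⟩ := key m le_rfl
  have := hb F h1
  omega

/-- The scales of the clustering. -/
def sc (C : ℕ) : ℕ → ℕ
  | 0 => C + 1
  | i + 1 => 2 * sc C i + C

theorem sc_mono (C : ℕ) : Monotone (sc C) :=
  monotone_nat_of_le_succ fun i => by rw [sc]; omega

theorem sc_pos (C i : ℕ) : C + 1 ≤ sc C i := sc_mono C (Nat.zero_le i)

/-- Chains of marked vertices with steps of length at most `s`. -/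
def Cl (Γ : SimpleGraph V) (Mk : Set V) (s : ℕ) : V → V → Prop :=
  Relation.ReflTransGen fun μ ν => μ ∈ Mk ∧ ν ∈ Mk ∧ Near Γ s μ ν

variable {s s' : ℕ} {μ ν ξ : V}

theorem Cl.refl (μ : V) : Cl Γ Mk s μ μ := Relation.ReflTransGen.refl

theorem Cl.trans (h : Cl Γ Mk s μ ν) (h' : Cl Γ Mk s ν ξ) : Cl Γ Mk s μ ξ :=
  Relation.ReflTransGen.trans h h'

theorem Cl.single (h1 : μ ∈ Mk) (h2 : ν ∈ Mk) (h : Near Γ s μ ν) : Cl Γ Mk s μ ν :=
  Relation.ReflTransGen.single ⟨h1, h2, h⟩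

theorem Cl.symm (h : Cl Γ Mk s μ ν) : Cl Γ Mk s ν μ := by
  induction h with
  | refl => exact Cl.refl _
  | tail _ h2 ih => exact (Cl.single h2.2.1 h2.1 h2.2.2.symm).trans ih

theorem Cl.mono (h : Cl Γ Mk s μ ν) (hs : s ≤ s') : Cl Γ Mk s' μ ν := by
  induction h with
  | refl => exact Cl.refl _
  | tail _ h2 ih => exact ih.trans (Cl.single h2.1 h2.2.1 (h2.2.2.mono hs))

theorem Cl.mem (h : Cl Γ Mk s μ ν) (hμ : μ ∈ Mk) : ν ∈ Mk := by
  induction h with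
  | refl => exact hμ
  | tail _ h2 _ => exact h2.2.1

theorem Cl.near {ρ : ℕ} (hle : Γ ≤ G) (hc : Cnt G Mk ρ m) (hs : m * s ≤ ρ) (hμ : μ ∈ Mk)
    (h : Cl Γ Mk s μ ν) : Near Γ (m * s) μ ν := by
  let T : ℕ → Set V := fun t => Nat.rec {μ} (fun _ A => A ∪ {y | y ∈ Mk ∧ ∃ x ∈ A, Near Γ s x y}) t
  have h1 : ∀ t, ∀ y ∈ T t, y ∈ Mk ∧ Near Γ (t * s) μ y := by
    intro t
    induction t with
    | zero =>
      intro y hy
      rw [show y = μ from hy]
      exact ⟨hμ, Near.refl _ _ _⟩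
    | succ t ih =>
      rintro y (hy | ⟨hy, x, hx, hn⟩)
      · exact ⟨(ih y hy).1, (ih y hy).2.mono (Nat.mul_le_mul_right _ (Nat.le_succ t))⟩
      · exact ⟨hy, ((ih x hx).2.trans hn).mono (by rw [Nat.succ_mul])⟩
  have h0 : ∀ t, μ ∈ T t := by
    intro t
    induction t with
    | zero => rfl
    | succ t ih => exact Or.inl ih
  obtain ⟨t, ht, h2⟩ := stab T (fun t => Set.subset_union_left) ⟨μ, rfl⟩ m fun F hF =>
    hc μ F fun f hf => ⟨(h1 m f (hF f hf)).1, (near_dist (h1 m f (hF f hf)).2 hle).trans hs⟩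
  have h3 : ν ∈ T t := by
    induction h with
    | refl => exact h0 t
    | tail _ h4 ih => exact h2 (Or.inr ⟨h4.2.1, _, ih, h4.2.2⟩)
  exact (h1 t ν h3).2.mono (Nat.mul_le_mul_right _ ht.le)

theorem near_mem (hU : ∀ u v, Γ.Adj u v → u ∈ U) {n : ℕ} {a b : V} (h : Near Γ n a b)
    (ha : a ∈ U) : b ∈ U := h.induct (· ∈ U) ha fun x y _ e => hU y x e.symm

/-- The largest level up to `m` at which the cluster of `μ` does not grow. -/
noncomputable def lev (Γ : SimpleGraph V) (Mk : Set V) (C m : ℕ) (μ : V) : ℕ :=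
  open Classical in
  Nat.findGreatest (fun i => ∀ ν, Cl Γ Mk (sc C (i + 1)) μ ν → Cl Γ Mk (sc C i) μ ν) m

theorem lev_le (μ : V) : lev Γ Mk C m μ ≤ m := by
  classical
  unfold lev; convert Nat.findGreatest_le m

theorem le_lev {i : ℕ} (hi : i ≤ m)
    (h : ∀ ν, Cl Γ Mk (sc C (i + 1)) μ ν → Cl Γ Mk (sc C i) μ ν) : i ≤ lev Γ Mk C m μ := by
  classical
  unfold lev
  convert Nat.le_findGreatest
    (P := fun i => ∀ ν, Cl Γ Mk (sc C (i + 1)) μ ν → Cl Γ Mk (sc C i) μ ν) hi h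

theorem lev_spec {ρ : ℕ} (hle : Γ ≤ G) (hc : Cnt G Mk ρ m) (hs : m * sc C m ≤ ρ) (hμ : μ ∈ Mk)
    (h : Cl Γ Mk (sc C (lev Γ Mk C m μ + 1)) μ ν) : Cl Γ Mk (sc C (lev Γ Mk C m μ)) μ ν := by
  classical
  obtain ⟨t, ht, h2⟩ := stab (fun i => {ν | Cl Γ Mk (sc C i) μ ν})
    (fun t ν hν => Cl.mono hν (sc_mono C (Nat.le_succ t))) ⟨μ, Cl.refl μ⟩ m fun F hF =>
      hc μ F fun f hf => ⟨Cl.mem (hF f hf) hμ,
        (near_dist (Cl.near hle hc hs hμ (hF f hf)) hle).trans hs⟩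
  have h3 := Nat.findGreatest_spec
    (P := fun i => ∀ ν, Cl Γ Mk (sc C (i + 1)) μ ν → Cl Γ Mk (sc C i) μ ν) ht.le h2
  revert ν
  unfold lev
  convert h3

theorem exists_bl (h : Sk G Γ X U Mk R κ C m D) (hs : m * sc C m ≤ 7 * R) :
    ∃ W, Bl G Γ U Mk W C (2 * sc C m + m * sc C m) := by
  classical
  let r : V → ℕ := fun μ => sc C (lev Γ Mk C m μ)
  have hr : ∀ μ, r μ ≤ sc C m := fun μ => sc_mono C (lev_le μ)
  have hsp : ∀ μ ∈ Mk, ∀ ν, Cl Γ Mk (sc C (lev Γ Mk C m μ + 1)) μ ν → Cl Γ Mk (r μ) μ ν :=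
    fun μ hμ ν => lev_spec h.le h.cnt hs hμ
  have hlev : ∀ μ ∈ Mk, ∀ ν, Cl Γ Mk (r μ) μ ν → r ν = r μ := by
    intro μ hμ ν hν
    have h1 : lev Γ Mk C m μ ≤ lev Γ Mk C m ν := le_lev (lev_le μ) fun ξ hξ =>
      hν.symm.trans (hsp μ hμ ξ ((hν.mono (sc_mono C (Nat.le_succ _))).trans hξ))
    have h2 : lev Γ Mk C m ν ≤ lev Γ Mk C m μ := le_lev (lev_le ν) fun ξ hξ =>
      (hν.mono (sc_mono C h1)).trans (hsp ν (hν.mem hμ) ξ
        ((hν.symm.mono (sc_mono C (h1.trans (Nat.le_succ _)))).trans hξ))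
    simp only [r, le_antisymm h2 h1]
  have hE : ∀ μ ∈ Mk, ∀ ν ∈ Mk, Near Γ (r μ + r ν + C) μ ν → Cl Γ Mk (r μ) μ ν := by
    have key : ∀ μ ∈ Mk, ∀ ν ∈ Mk, r ν ≤ r μ → Near Γ (r μ + r ν + C) μ ν → Cl Γ Mk (r μ) μ ν :=
      fun μ hμ ν hν h1 h2 => hsp μ hμ ν (Cl.single hμ hν (h2.mono (by
        rw [sc]; simp only [r] at h1 ⊢; omega)))
    intro μ hμ ν hν h2
    rcases le_total (r ν) (r μ) with h1 | h1
    · exact key μ hμ ν hν h1 h2
    · have h3 := key ν hν μ hμ h1 (h2.symm.mono (by omega))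
      rw [hlev ν hν μ h3]; exact h3.symm
  let B : V → Set V := fun μ => {v | ∃ ν, Cl Γ Mk (r μ) μ ν ∧ Near Γ (r μ) ν v}
  have hB : ∀ μ ∈ Mk, ∀ ν, Cl Γ Mk (r μ) μ ν → B μ = B ν := by
    intro μ hμ ν hν
    ext v
    simp only [B, Set.mem_ofPred_eq, hlev μ hμ ν hν]
    exact ⟨fun ⟨ξ, h1, h2⟩ => ⟨ξ, hν.symm.trans h1, h2⟩, fun ⟨ξ, h1, h2⟩ => ⟨ξ, hν.trans h1, h2⟩⟩
  have hch : ∀ μ ν v, Cl Γ Mk (r μ) μ ν → Near Γ (r μ) ν v → Ch G 1 (B μ) ν v := by
    rintro μ ν v h1 ⟨p, hp⟩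
    refine ch_walk h.le p fun z hz => ?_
    obtain ⟨i, j, h2, h3, -⟩ := near_support p hz
    exact ⟨ν, h1, h3.mono (by omega)⟩
  refine ⟨{w | ∃ μ ∈ Mk, w = B μ}, ?_, ?_, ?_, ?_, ?_, ?_, ?_⟩
  · rintro _ ⟨μ, -, rfl⟩
    refine conn_of_base μ ?_
    rintro v ⟨ν, h1, h2⟩
    refine Ch.trans ?_ (hch μ ν v h1 h2)
    clear h2
    induction h1 with
    | refl => exact Ch.refl _
    | tail h3 h4 ih => exact ih.trans (hch μ _ _ h3 h4.2.2)
  · rintro _ ⟨μ, hμ, rfl⟩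
    exact ⟨μ, hμ, μ, Cl.refl _, Near.refl _ _ _⟩
  · rintro _ ⟨μ, hμ, rfl⟩ v ⟨ν, h1, h2⟩
    exact near_mem h.adjU h2 (h.mkU (h1.mem hμ))
  · exact fun μ hμ => ⟨B μ, ⟨μ, hμ, rfl⟩, μ, Cl.refl _, Near.refl _ _ _⟩
  · rintro _ ⟨μ, hμ, rfl⟩ _ ⟨μ', hμ', rfl⟩ u ⟨ν, h1, h2⟩ u' ⟨ν', h3, h4⟩ hn
    rw [hB μ hμ ν h1, hB μ' hμ' ν' h3]
    refine hB ν (h1.mem hμ) ν' (hE ν (h1.mem hμ) ν' (h3.mem hμ') ?_)
    rw [hlev μ hμ ν h1, hlev μ' hμ' ν' h3]
    exact ((h2.trans hn).trans h4.symm).mono (by omega)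
  · rintro _ ⟨μ, hμ, rfl⟩ u ⟨ν, h1, h2⟩ u' ⟨ν', h3, h4⟩
    have h5 := Cl.near h.le h.cnt hs (h1.mem hμ) ((h1.symm.trans h3).mono (hr μ))
    have h6 := hr μ
    exact near_dist (((h2.symm.trans h5).trans h4).mono (by omega)) h.le
  · rintro _ ⟨μ, hμ, rfl⟩ a ⟨ν, h1, h2⟩ z hz hz'
    obtain ⟨p, hp⟩ := h2.symm
    have hq := p.length_bypass_le_length
    have hC : C + 1 ≤ r μ := sc_pos C _
    refine ⟨ν, p.bypass, p.bypass_isPath, fun hn =>
      hz' ⟨ν, h1, (hn.symm.trans (Near.of_adj hz)).mono hC⟩, fun t ht => ?_⟩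
    obtain ⟨i, j, h3, h4, h5⟩ := near_support p.bypass ht
    refine ⟨⟨ν, h1, h5.symm.mono (by omega)⟩, fun hne hM => hz' ⟨t, ?_, ?_⟩⟩
    · have h6 := hE ν (h1.mem hμ) t hM (h5.symm.mono (by rw [hlev μ hμ ν h1]; omega))
      rw [hlev μ hμ ν h1] at h6
      exact h1.trans h6
    · have h6 : j ≠ 0 := by
        rintro rfl
        exact hne h5.zero
      exact (h4.symm.trans (Near.of_adj hz)).mono (by omega)

end Pool.Agent.Lib.MP_f9389f_co.Db
end

-- part Pool.Agent.Lib.MP_f9389f_co.DbFat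
section

/-! Arcs between blobs and the fat skeleton. -/

namespace Pool.Agent.Lib.MP_f9389f_co.Db

universe u

open SimpleGraph

variable {V : Type u} {G Γ : SimpleGraph V} {X U Mk : Set V} {R κ C m D β : ℕ} {W : Set (Set V)}

/-- `v` lies in a blob. -/
def In (W : Set (Set V)) (v : V) : Prop := ∃ w ∈ W, v ∈ w

/-- A path whose inner vertices avoid the blobs. -/
def Free (W : Set (Set V)) {a b : V} (p : Γ.Walk a b) : Prop :=
  p.IsPath ∧ ∀ z ∈ p.support, z = a ∨ z = b ∨ ¬ In W z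

/-- `S` is the vertex set of an arc from `w` to `w'`. -/
def Arc (Γ : SimpleGraph V) (W : Set (Set V)) (w w' S : Set V) : Prop :=
  ∃ a ∈ w, ∃ b ∈ w', ∃ p : Γ.Walk a b, Free W p ∧ S = {z | z ∈ p.support}

theorem Free.reverse {a b : V} {p : Γ.Walk a b} (h : Free W p) : Free W p.reverse :=
  ⟨h.1.reverse, fun z hz => by
    have := h.2 z (by simpa using hz)
    tauto⟩

theorem Arc.symm {w w' S : Set V} (h : Arc Γ W w w' S) : Arc Γ W w' w S := by
  obtain ⟨a, ha, b, hb, p, hp, rfl⟩ := h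
  exact ⟨b, hb, a, ha, p.reverse, hp.reverse, by simp⟩

/-- The skeleton. -/
def skel (Γ : SimpleGraph V) (W : Set (Set V)) : SimpleGraph W where
  Adj w w' := w ≠ w' ∧ ∃ S, Arc Γ W w w' S
  symm := ⟨fun _ _ ⟨h1, S, h2⟩ => ⟨h1.symm, S, h2.symm⟩⟩
  loopless := ⟨fun _ h => h.1 rfl⟩

theorem Sk.path_nb (h : Sk G Γ X U Mk R κ C m D) {a b z y : V} (p : Γ.Walk a b) (hp : p.IsPath)
    (hz : z ∈ p.support) (ha : z ≠ a) (hb : z ≠ b) (hM : z ∉ Mk) (hy : Γ.Adj z y) :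
    y ∈ p.support := by
  induction p with
  | nil => simp [ha] at hz
  | @cons a c b e p ih =>
    have hz' : z ∈ p.support := by simpa [ha] using hz
    rw [Walk.cons_isPath_iff] at hp
    by_cases hc : z = c
    · subst hc
      cases p with
      | nil => exact absurd rfl hb
      | @cons _ c' _ e' p =>
        rcases h.deg z hM y a c' hy e.symm e' with h1 | h1 | h1
        · simp [h1]
        · simp [h1]
        · exact absurd (by simp [h1]) hp.2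
    · have := ih hp.1 hz' hc hb
      simp [this]

theorem Bl.notMk (hB : Bl G Γ U Mk W C β) {z : V} (hz : ¬ In W z) : z ∉ Mk :=
  fun h => hz (hB.cover z h)

theorem free_nb (h : Sk G Γ X U Mk R κ C m D) (hB : Bl G Γ U Mk W C β) {a b : V} {p : Γ.Walk a b}
    (hp : Free W p) : ∀ z ∈ {z | z ∈ p.support}, z ∉ ({a, b} : Set V) → ∀ y, Γ.Adj z y →
      y ∈ {z | z ∈ p.support} := by
  intro z hz hz' y hy
  simp only [Set.mem_insert_iff, Set.mem_singleton_iff, not_or] at hz'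
  refine h.path_nb p hp.1 hz hz'.1 hz'.2 (hB.notMk ?_) hy
  have := hp.2 z hz
  tauto

theorem arc_blob (h : Sk G Γ X U Mk R κ C m D) (hB : Bl G Γ U Mk W C β) {w w' w'' : W} {S : Set V}
    (hS : Arc Γ W w w' S) {u v : V} (hu : u ∈ S) (hv : v ∈ w''.1) (hn : Near Γ C u v) :
    w'' = w ∨ w'' = w' := by
  obtain ⟨a, ha, b, hb, p, hp, rfl⟩ := hS
  have key : ∀ z, z = a ∨ z = b → Near Γ C z v → w'' = w ∨ w'' = w' := by
    rintro z (rfl | rfl) h1
    · exact Or.inl (Subtype.ext (hB.sep _ w.2 _ w''.2 _ ha _ hv h1).symm)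
    · exact Or.inr (Subtype.ext (hB.sep _ w'.2 _ w''.2 _ hb _ hv h1).symm)
  rcases near_stay (free_nb h hB hp) C hn hu with h1 | ⟨z, hz, -, h1⟩
  · refine key v ?_ (Near.refl _ _ _)
    have h2 := hp.2 v h1
    have h3 : In W v := ⟨_, w''.2, hv⟩
    tauto
  · exact key z hz h1

theorem free_end (h : Sk G Γ X U Mk R κ C m D) (hB : Bl G Γ U Mk W C β) {a b a' b' z : V}
    {p : Γ.Walk a b} (hp : Free W p) (ha : In W a) (hb : In W b) {p' : Γ.Walk a' b'}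
    (hp' : Free W p') (ha' : In W a') (hz : z ∈ p.support) (hz' : z ∈ p'.support)
    (hI : ¬ In W z) : b' ∈ p.support := by
  classical
  have key : ∀ {s t : V} (q : Γ.Walk s t), (∀ y ∈ q.support, y = t ∨ ¬ In W y) →
      s ∈ p.support → t ∈ p.support := by
    intro s t q
    induction q with
    | nil => exact fun _ h1 => h1
    | @cons s s' t e q ih =>
      intro h1 h2
      rcases h1 s (by simp) with h3 | h3
      · rw [← h3]; exact h2
      · refine ih (fun y hy => h1 y (by simp [hy])) (free_nb h hB hp s h2 ?_ s' e)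
        rintro (rfl | rfl)
        exacts [h3 ha, h3 hb]
  refine key (p'.dropUntil z hz') (fun y hy => ?_) hz
  rcases hp'.2 y (p'.support_dropUntil_subset_support hz' hy) with h1 | h1
  · exfalso
    have h2 := hp'.1.support_nodup
    rw [← p'.take_spec hz', Walk.support_append, List.nodup_append] at h2
    rw [← (p'.dropUntil z hz').cons_tail_support, List.mem_cons] at hy
    rcases hy with hy | hy
    · exact hI (by rw [← hy, h1]; exact ha')
    · exact h2.2.2 a' (Walk.start_mem_support _) y hy h1.symm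
  · exact h1

theorem arc_common (h : Sk G Γ X U Mk R κ C m D) (hB : Bl G Γ U Mk W C β) {w₁ w₂ w₃ w₄ : W}
    {a b a' b' z : V} (ha : a ∈ w₁.1) (hb : b ∈ w₂.1) (ha' : a' ∈ w₃.1) (hb' : b' ∈ w₄.1)
    {p : Γ.Walk a b} (hp : Free W p) {p' : Γ.Walk a' b'} (hp' : Free W p') (hne : w₃ ≠ w₄)
    (hz : z ∈ p.support) (hz' : z ∈ p'.support) (hI : ¬ In W z) : s(w₁, w₂) = s(w₃, w₄) := by
  have e1 := free_end h hB hp ⟨_, w₁.2, ha⟩ ⟨_, w₂.2, hb⟩ hp' ⟨_, w₃.2, ha'⟩ hz hz' hI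
  have e2 := free_end h hB hp ⟨_, w₁.2, ha⟩ ⟨_, w₂.2, hb⟩ hp'.reverse ⟨_, w₄.2, hb'⟩ hz
    (by simpa using hz') hI
  have f1 := arc_blob h hB ⟨a, ha, b, hb, p, hp, rfl⟩ e1 hb' (Near.refl _ _ _)
  have f2 := arc_blob h hB ⟨a, ha, b, hb, p, hp, rfl⟩ e2 ha' (Near.refl _ _ _)
  rcases f1 with rfl | rfl <;> rcases f2 with rfl | rfl
  · exact absurd rfl hne
  · exact Sym2.eq_swap
  · rfl
  · exact absurd rfl hne

theorem free_first (hB : Bl G Γ U Mk W C β) (hC : 1 ≤ C) {w₁ w₂ : W} {a b : V} (ha : a ∈ w₁.1)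
    (hb : b ∈ w₂.1) (hne : w₁ ≠ w₂) {p : Γ.Walk a b} (hp : Free W p) :
    ∃ z ∈ p.support, Γ.Adj a z ∧ ¬ In W z := by
  cases p with
  | nil => exact absurd (Subtype.ext (hB.sep _ w₁.2 _ w₂.2 _ ha _ hb (Near.refl _ _ _))) hne
  | @cons _ z _ e p =>
    refine ⟨z, by simp, e, ?_⟩
    rcases hp.2 z (by simp) with h1 | h1 | h1
    · exact absurd h1 e.ne'
    · subst h1
      exact absurd (Subtype.ext (hB.sep _ w₁.2 _ w₂.2 _ ha _ hb ((Near.of_adj e).mono hC))) hne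
    · exact h1

theorem arc_ends (h : Sk G Γ X U Mk R κ C m D) (hB : Bl G Γ U Mk W C β) (hC : 1 ≤ C)
    {w₁ w₂ w₃ w₄ : W} {a b a' b' : V} (ha : a ∈ w₁.1) (hb : b ∈ w₂.1) (ha' : a' ∈ w₃.1)
    (hb' : b' ∈ w₄.1) {p : Γ.Walk a b} (hp : Free W p) {p' : Γ.Walk a' b'} (hp' : Free W p')
    (hne : w₁ ≠ w₂) (hne' : w₃ ≠ w₄) (hn : Near Γ C a a') : s(w₁, w₂) = s(w₃, w₄) := by
  obtain ⟨z, hz, e, hI⟩ := free_first hB hC ha hb hne hp
  obtain ⟨z', hz', e', hI'⟩ := free_first hB hC ha' hb' hne' hp'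
  obtain ⟨ν, q, hq, hν, hq'⟩ := hB.thread _ w₁.2 a ha z e fun h1 => hI ⟨_, w₁.2, h1⟩
  have haν : a ≠ ν := fun h1 => hν (h1 ▸ Near.refl _ _ _)
  obtain ⟨y, hy, ey⟩ : ∃ y ∈ q.support, Γ.Adj a y := by
    cases q with
    | nil => exact absurd rfl haν
    | @cons _ y _ ey q => exact ⟨y, by simp, ey⟩
  have hyI : In W y := ⟨_, w₁.2, (hq' y hy).1⟩
  have haM : a ∉ Mk := (hq' a q.start_mem_support).2 haν
  have hab : ¬ Near Γ C a b := fun h1 => hne (Subtype.ext (hB.sep _ w₁.2 _ w₂.2 _ ha _ hb h1))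
  have hst := near_stay (L := Γ) (T := {t | t ∈ q.support ∨ t ∈ p.support}) (Z := {ν, b}) (by
    intro t ht ht' x hx
    simp only [Set.mem_insert_iff, Set.mem_singleton_iff, not_or] at ht'
    by_cases hta : t = a
    · subst hta
      rcases h.deg t haM x y z hx ey e with h1 | h1 | h1
      · exact Or.inl (h1 ▸ hy)
      · exact Or.inr (h1 ▸ hz)
      · exact absurd (h1 ▸ hyI) hI
    rcases ht with ht | ht
    · exact Or.inl (h.path_nb q hq ht hta ht'.1 ((hq' t ht).2 ht'.1) hx)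
    · exact Or.inr (free_nb h hB hp t ht (by simp [hta, ht'.2]) x hx)) C hn
      (Or.inl q.start_mem_support)
  rcases hst with h1 | ⟨t, rfl | rfl, h1, -⟩
  · by_cases haa : a' = a
    · subst haa
      rcases h.deg a' haM z' y z e' ey e with h2 | h2 | h2
      · exact absurd (h2 ▸ hyI) hI'
      · exact arc_common h hB ha hb ha' hb' hp hp' hne' hz (h2 ▸ hz') hI
      · exact absurd (h2 ▸ hyI) hI
    exfalso
    rcases h1 with h1 | h1
    · have h2 : a' ≠ ν := fun h2 => hν (h2 ▸ hn)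
      exact hI' ⟨_, w₁.2, (hq' z' (h.path_nb q hq h1 haa h2 ((hq' a' h1).2 h2) e')).1⟩
    · rcases hp.2 a' h1 with h2 | h2 | h2
      · exact haa h2
      · exact hab (h2 ▸ hn)
      · exact h2 ⟨_, w₃.2, ha'⟩
  · exact absurd h1 hν
  · exact absurd h1 hab

theorem arc_arc (h : Sk G Γ X U Mk R κ C m D) (hB : Bl G Γ U Mk W C β) (hC : 1 ≤ C)
    {w₁ w₂ w₃ w₄ : W} {S S' : Set V} (hS : Arc Γ W w₁ w₂ S) (hS' : Arc Γ W w₃ w₄ S')
    (hne : w₁ ≠ w₂) (hne' : w₃ ≠ w₄) {u u' : V} (hu : u ∈ S) (hu' : u' ∈ S')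
    (hn : Near Γ C u u') : s(w₁, w₂) = s(w₃, w₄) := by
  obtain ⟨a, ha, b, hb, p, hp, rfl⟩ := hS
  obtain ⟨a', ha', b', hb', p', hp', rfl⟩ := hS'
  have k1 : ∀ z z', z = a ∨ z = b → z' = a' ∨ z' = b' → Near Γ C z z' → s(w₁, w₂) = s(w₃, w₄) := by
    rintro z z' (rfl | rfl) (rfl | rfl) h1
    · exact arc_ends h hB hC ha hb ha' hb' hp hp' hne hne' h1
    · exact (arc_ends h hB hC ha hb hb' ha' hp hp'.reverse hne hne'.symm h1).trans Sym2.eq_swap
    · exact Sym2.eq_swap.trans (arc_ends h hB hC hb ha ha' hb' hp.reverse hp' hne.symm hne' h1)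
    · exact (Sym2.eq_swap.trans
        (arc_ends h hB hC hb ha hb' ha' hp.reverse hp'.reverse hne.symm hne'.symm h1)).trans
        Sym2.eq_swap
  have k2 : ∀ z, z = a ∨ z = b → Near Γ C z u' → s(w₁, w₂) = s(w₃, w₄) := by
    intro z hz h1
    have hI : In W z := by
      rcases hz with rfl | rfl
      exacts [⟨_, w₁.2, ha⟩, ⟨_, w₂.2, hb⟩]
    rcases near_stay (free_nb h hB hp') C h1.symm hu' with h2 | ⟨z', hz', -, h2⟩
    · refine k1 z z hz ?_ (Near.refl _ _ _)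
      have := hp'.2 z h2
      tauto
    · exact k1 z z' hz hz' h2.symm
  rcases near_stay (free_nb h hB hp) C hn hu with h1 | ⟨z, hz, -, h1⟩
  · rcases hp.2 u' h1 with h2 | h2 | h2
    · exact k2 u' (Or.inl h2) (Near.refl _ _ _)
    · exact k2 u' (Or.inr h2) (Near.refl _ _ _)
    · exact arc_common h hB ha hb ha' hb' hp hp' hne' h1 hu' h2
  · exact k2 z hz h1

theorem arc_sub (h : Sk G Γ X U Mk R κ C m D) (hB : Bl G Γ U Mk W C β) {w w' : W} {S : Set V}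
    (hS : Arc Γ W w w' S) : S ⊆ U := by
  obtain ⟨a, ha, b, hb, p, hp, rfl⟩ := hS
  intro z hz
  obtain ⟨i, -, -, h1, -⟩ := near_support p hz
  exact near_mem h.adjU h1 (hB.sub _ w.2 ha)

/-- The skeleton is a fat minor of `G`. -/
theorem skel_fat (hG : G.Connected) (h : Sk G Γ X U Mk R κ C m D) (hB : Bl G Γ U Mk W C β)
    (hC : 1 ≤ C) : HasFatMinor G (skel Γ W) κ := by
  have hP : ∀ e : Sym2 W, ∃ S : Set V, ∀ w w', e = s(w, w') → (skel Γ W).Adj w w' →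
      Arc Γ W w w' S := by
    intro e
    by_cases he : e ∈ (skel Γ W).edgeSet
    · induction e using Sym2.ind with
      | _ w w' =>
        obtain ⟨-, S, hS⟩ := he
        refine ⟨S, fun x x' hx _ => ?_⟩
        rcases Sym2.eq_iff.1 hx with ⟨rfl, rfl⟩ | ⟨rfl, rfl⟩
        exacts [hS, hS.symm]
    · exact ⟨∅, fun w w' hw ha => absurd (by rw [hw]; exact ha) he⟩
  choose P hP using hP
  have hap : ∀ Y Z : Set V, Y ⊆ U → Z ⊆ U → (∀ y ∈ Y, ∀ z ∈ Z, ¬ Near Γ C y z) → Apart G κ Y Z := by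
    intro Y Z hY hZ hn y hy z hz
    by_contra h1
    exact hn y hy z hz (h.close y (hY hy) z (hZ hz) (by omega))
  refine ⟨fun w => w.1, P, fun w => ?_, fun w w' e => ?_, fun w w' hne => ?_, ?_, ?_⟩
  · obtain ⟨μ, -, hμ⟩ := hB.mark _ w.2
    exact (hB.conn _ w.2).induce hG ⟨μ, hμ⟩
  · obtain ⟨a, ha, b, hb, p, hp, hS⟩ := hP _ w w' rfl e
    exact ⟨a, ha, b, hb, p.mapLe h.le, hp.1.mapLe _, by simpa using hS⟩
  · exact hap _ _ (hB.sub _ w.2) (hB.sub _ w'.2) fun y hy z hz hn =>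
      hne (Subtype.ext (hB.sep _ w.2 _ w'.2 y hy z hz hn))
  · intro e he f hf hef
    induction e using Sym2.ind with
    | _ w₁ w₂ =>
    induction f using Sym2.ind with
    | _ w₃ w₄ =>
      have a1 := hP _ w₁ w₂ rfl he
      have a2 := hP _ w₃ w₄ rfl hf
      exact hap _ _ (arc_sub h hB a1) (arc_sub h hB a2) fun y hy z hz hn =>
        hef (arc_arc h hB hC a1 a2 he.1 hf.1 hy hz hn)
  · intro e he w hw
    induction e using Sym2.ind with
    | _ w₁ w₂ =>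
      have a1 := hP _ w₁ w₂ rfl he
      exact hap _ _ (arc_sub h hB a1) (hB.sub _ w.2) fun y hy z hz hn =>
        hw (Sym2.mem_iff.2 (arc_blob h hB a1 hy hz hn))

end Pool.Agent.Lib.MP_f9389f_co.Db
end

-- part Pool.Agent.Lib.MP_f9389f_co.DbStep
section

/-! One round of the construction and its iteration. -/

namespace Pool.Agent.Lib.MP_f9389f_co.Db

universe u

open SimpleGraph

variable {V : Type u} {G Γ : SimpleGraph V} {X U Mk : Set V} {R k C m D : ℕ}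

theorem Sk.step (hG : G.Connected) (h : Sk G Γ X U Mk R (5 * k) C m D) (hk : k ≤ R)
    (P : Set (V × V)) (hP : ∀ π ∈ P, π.1 ∈ X ∧ π.2 ∈ X ∧ G.dist π.1 π.2 ≤ 3 * R)
    (hfar : ∀ π ∈ P, ∀ π' ∈ P, π ≠ π' → 22 * R < G.dist π.1 π'.1) :
    ∃ Γ' U' Mk', Γ ≤ Γ' ∧
      Sk G Γ' X U' Mk' R k (C + 7 * k) (m + m * (2 * (k + 1))) (D + 3 * R + k) ∧
      ∀ π ∈ P, Near Γ' (m * (9 * R + 2 * k) + 2 * C) π.1 π.2 := by
  classical
  have hpc : ∀ π : P, ∃ Γ' U' M', Piece G Γ U R k C m π.1.1 π.1.2 Γ' U' M' := fun π =>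
    h.piece hG hk (h.mkU (h.xMk (hP π π.2).1)) (h.mkU (h.xMk (hP π π.2).2.1)) (hP π π.2).2.2
  choose Γp Up Mp hp using hpc
  have huniq : ∀ (π π' : P) (u u' : V), u ∈ Up π → u' ∈ Up π' → G.dist u u' ≤ 14 * R → π = π' := by
    intro π π' u u' hu hu' hd
    by_contra hne
    have e1 := hfar π π.2 π' π'.2 fun he => hne (Subtype.ext he)
    have e2 := (hp π).loc u hu
    have e3 := (hp π').loc u' hu'
    have e4 := tri hG π.1.1 u π'.1.1
    have e5 := tri hG u u' π'.1.1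
    rw [SimpleGraph.dist_comm] at e3
    omega
  have l1 : Γ ≤ Γ ⊔ ⨆ π, Γp π := le_sup_left
  have l2 : ∀ π, Γp π ≤ Γ ⊔ ⨆ π, Γp π := fun π => (le_iSup Γp π).trans le_sup_right
  have l3 : ∀ π, Γ ⊔ Γp π ≤ Γ ⊔ ⨆ π, Γp π := fun π => sup_le l1 (l2 π)
  have hon : ∀ u ∈ U, ∀ π, ∀ w ∈ Up π, G.dist u w ≤ k → Near (Γ ⊔ ⨆ π, Γp π) (C + 7 * k) u w := by
    intro u hu π w hw hd
    have h1 : w ∈ Mp π := by
      by_contra h1
      have := (hp π).far w hw h1 u hu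
      rw [SimpleGraph.dist_comm] at this; omega
    obtain ⟨q, hq, h2⟩ := (hp π).anchor w h1
    have e1 := near_dist h2 (hp π).le
    have e2 := tri hG u w q
    exact ((near_le (h.close u hu q hq (by omega)) l1).trans (near_le h2.symm (l2 π))).mono
      (by omega)
  refine ⟨Γ ⊔ ⨆ π, Γp π, U ∪ ⋃ π, Up π, Mk ∪ ⋃ π, (Mp π : Set V), l1,
    ⟨sup_le h.le (iSup_le fun π => (hp π).le), ?_, ?_, h.xMk.trans Set.subset_union_left,
      ?_, ?_, ?_, ?_, ?_⟩, fun π hπ => near_le (hp ⟨π, hπ⟩).link (l3 _)⟩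
  · rintro u v (h1 | h1)
    · exact Or.inl (h.adjU u v h1)
    · obtain ⟨π, h1⟩ := iSup_adj.1 h1
      exact Or.inr (Set.mem_iUnion.2 ⟨π, (hp π).adjU u v h1⟩)
  · exact Set.union_subset_union h.mkU (Set.iUnion_mono fun π => (hp π).mkU)
  · rintro u (hu | hu) w (hw | hw) hd
    · exact (near_le (h.close u hu w hw (by omega)) l1).mono (by omega)
    · obtain ⟨π, hw⟩ := Set.mem_iUnion.1 hw
      exact hon u hu π w hw hd
    · obtain ⟨π, hu⟩ := Set.mem_iUnion.1 hu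
      exact (hon w hw π u hu (by rwa [SimpleGraph.dist_comm])).symm
    · obtain ⟨π, hu⟩ := Set.mem_iUnion.1 hu
      obtain ⟨π', hw⟩ := Set.mem_iUnion.1 hw
      obtain rfl := huniq π π' u w hu hw (by omega)
      exact near_le ((hp π).close u hu w hw hd) (l3 π)
  · intro u hu a b c ha hb hc
    by_cases h1 : ∃ π, u ∈ Up π
    · obtain ⟨π, h1⟩ := h1
      have h2 : u ∉ Mp π := fun h2 => hu (Or.inr (Set.mem_iUnion.2 ⟨π, h2⟩))
      have key : ∀ v, (Γ ⊔ ⨆ π, Γp π).Adj u v → (Γp π).Adj u v := by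
        rintro v (h3 | h3)
        · simpa using (hp π).far u h1 h2 u (h.adjU u v h3)
        · obtain ⟨π', h3⟩ := iSup_adj.1 h3
          obtain rfl := huniq π π' u u h1 ((hp π').adjU u v h3) (by simp)
          exact h3
      exact (hp π).deg u h2 a b c (key a ha) (key b hb) (key c hc)
    · have key : ∀ v, (Γ ⊔ ⨆ π, Γp π).Adj u v → Γ.Adj u v := by
        rintro v (h3 | h3)
        · exact h3
        · obtain ⟨π', h3⟩ := iSup_adj.1 h3
          exact absurd ⟨π', (hp π').adjU u v h3⟩ h1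
      exact h.deg u (fun h2 => hu (Or.inl h2)) a b c (key a ha) (key b hb) (key c hc)
  · intro x F hF
    have e1 := h.cnt x (F.filter fun f => f ∈ Mk) fun f hf =>
      ⟨(Finset.mem_filter.1 hf).2, (hF f (Finset.mem_filter.1 hf).1).2⟩
    have e2 : (F.filter fun f => ¬ f ∈ Mk).card ≤ m * (2 * (k + 1)) := by
      have h1 : ∀ f ∈ F.filter fun f => ¬ f ∈ Mk, ∃ π, f ∈ Mp π := fun f hf =>
        Set.mem_iUnion.1 ((hF f (Finset.mem_filter.1 hf).1).1.resolve_left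
          (Finset.mem_filter.1 hf).2)
      rcases (F.filter fun f => ¬ f ∈ Mk).eq_empty_or_nonempty with h2 | ⟨f, hf⟩
      · simp [h2]
      obtain ⟨π, hπ⟩ := h1 f hf
      refine (Finset.card_le_card fun f' hf' => ?_).trans (hp π).card
      obtain ⟨π', hπ'⟩ := h1 f' hf'
      have d1 := (hF f (Finset.mem_filter.1 hf).1).2
      have d2 := (hF f' (Finset.mem_filter.1 hf').1).2
      have d3 := tri hG f x f'
      rw [SimpleGraph.dist_comm] at d1
      obtain rfl := huniq π π' f f' ((hp π).mkU f hπ) ((hp π').mkU f' hπ') (by omega)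
      exact hπ'
    have e3 := Finset.card_filter_add_card_filter_not (s := F) fun f => f ∈ Mk
    omega
  · rintro u (hu | hu)
    · obtain ⟨μ, h1, h2⟩ := h.nearMk u hu
      exact ⟨μ, Or.inl h1, near_le h2 l1⟩
    · obtain ⟨π, hu⟩ := Set.mem_iUnion.1 hu
      obtain ⟨μ, h1, h2⟩ := (hp π).nearMk u hu
      exact ⟨μ, Or.inr (Set.mem_iUnion.2 ⟨π, h1⟩), near_le h2 (l2 π)⟩
  · rintro u (hu | hu)
    · obtain ⟨x, h1, h2⟩ := h.nearX u hu
      exact ⟨x, h1, (near_le h2 l1).mono (by omega)⟩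
    · obtain ⟨π, hu⟩ := Set.mem_iUnion.1 hu
      obtain ⟨μ, h1, h2⟩ := (hp π).nearMk u hu
      obtain ⟨q, h3, h4⟩ := (hp π).anchor μ h1
      obtain ⟨x, h5, h6⟩ := h.nearX q h3
      exact ⟨x, h5, ((near_le (h2.trans h4) (l2 π)).trans (near_le h6 l1)).mono (by omega)⟩

theorem iterate (N : ℕ) : ∀ n K : ℕ, ∃ C m : ℕ, 1 ≤ C ∧ ∀ R, 5 ^ n * K ≤ R → ∃ D E : ℕ,
    ∀ (V : Type u) (G : SimpleGraph V), G.Connected → ∀ X : Set V,
      (∀ a ∈ X, ∀ b ∈ X, a ≠ b → R < G.dist a b) → Cnt G X (7 * R) N →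
      ∀ (P : Set (V × V)) (col : V × V → ℕ),
        (∀ π ∈ P, π.1 ∈ X ∧ π.2 ∈ X ∧ G.dist π.1 π.2 ≤ 3 * R) →
        (∀ π ∈ P, ∀ π' ∈ P, π ≠ π' → col π = col π' → 22 * R < G.dist π.1 π'.1) →
        ∃ Γ U Mk, Sk G Γ X U Mk R K C m D ∧ ∀ π ∈ P, col π < n → Near Γ E π.1 π.2 := by
  intro n
  induction n with
  | zero =>
    intro K
    refine ⟨1, N, le_rfl, fun R hR => ⟨0, 0, fun V G _ X hX hc P col _ _ =>
      ⟨⊥, X, X, ⟨bot_le, by simp, le_rfl, le_rfl, fun u hu w hw hd => ?_, by simp, hc,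
        fun u hu => ⟨u, hu, Near.refl _ _ _⟩, fun u hu => ⟨u, hu, Near.refl _ _ _⟩⟩, by simp⟩⟩⟩
    by_cases he : u = w
    · rw [he]; exact Near.refl _ _ _
    · have := hX u hu w hw he
      omega
  | succ n ih =>
    intro K
    obtain ⟨C, m, hC, h⟩ := ih (5 * K)
    refine ⟨C + 7 * K, m + m * (2 * (K + 1)), by omega, fun R hR => ?_⟩
    have h5 : 5 ^ n * (5 * K) ≤ R := by rwa [← mul_assoc, ← pow_succ]
    have hK : K ≤ R := le_trans (Nat.le_mul_of_pos_left _ (by positivity)) hR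
    obtain ⟨D, E, h⟩ := h R h5
    refine ⟨D + 3 * R + K, E + (m * (9 * R + 2 * K) + 2 * C),
      fun V G hG X hX hc P col hP hcol => ?_⟩
    obtain ⟨Γ, U, Mk, hs, hn⟩ := h V G hG X hX hc P col hP hcol
    obtain ⟨Γ', U', Mk', hle, hs', hn'⟩ := hs.step hG hK {π | π ∈ P ∧ col π = n}
      (fun π hπ => hP π hπ.1) fun π hπ π' hπ' hne => hcol π hπ.1 π' hπ'.1 hne (hπ.2.trans hπ'.2.symm)
    refine ⟨Γ', U', Mk', hs', fun π hπ hlt => ?_⟩
    rcases (Nat.lt_succ_iff.1 hlt).eq_or_lt with he | hlt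
    · exact (hn' π ⟨hπ, he⟩).mono (by omega)
    · exact (near_le (hn π hπ hlt) hle).mono (by omega)

/-- The sparse subgraph under the covering hypothesis. -/
theorem exists_sk (K N : ℕ) : ∃ C m r₀ : ℕ, 1 ≤ C ∧ ∀ r, r₀ ≤ r → ∃ D E : ℕ,
    ∀ (V : Type u) (G : SimpleGraph V), G.Connected → Covered G N r (44 * r) →
      ∃ Γ X U Mk, Sk G Γ X U Mk (2 * r) K C m D ∧ (∀ v, ∃ x ∈ X, G.dist v x ≤ 2 * r) ∧
        ∀ x ∈ X, ∀ y ∈ X, G.dist x y ≤ 3 * (2 * r) → Near Γ E x y := by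
  obtain ⟨C, m, hC, h⟩ := iterate.{u} N (N * N) K
  refine ⟨C, m, 5 ^ (N * N) * K, hC, fun r hr => ?_⟩
  obtain ⟨D, E, h⟩ := h (2 * r) (by omega)
  refine ⟨D, E, fun V G hG hcov => ?_⟩
  obtain ⟨X, -, hX, hnet⟩ := exists_net G Set.univ (2 * r)
  have hc := cnt_of_covered hG hcov hX
  obtain ⟨χ, h1, h2⟩ := exists_colour G (44 * r) N X fun x _ => hc x
  obtain ⟨Γ, U, Mk, hs, hn⟩ := h V G hG X hX (hc.mono (by omega))
    {π | π.1 ∈ X ∧ π.2 ∈ X ∧ G.dist π.1 π.2 ≤ 3 * (2 * r)} (fun π => χ π.1 * N + χ π.2)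
    (fun π hπ => hπ) (by
      rintro ⟨x, y⟩ ⟨hx, hy, hd⟩ ⟨x', y'⟩ ⟨hx', hy', hd'⟩ hne he
      simp only at hx hy hd hx' hy' hd' he ⊢
      have a1 := h1 y hy
      have a2 := h1 y' hy'
      have e1 : χ y = χ y' := by
        have := congrArg (· % N) he
        simpa [Nat.mod_eq_of_lt a1, Nat.mod_eq_of_lt a2] using this
      have e2 : χ x = χ x' := Nat.eq_of_mul_eq_mul_right (by omega : 0 < N) (by omega)
      by_cases hxx : x = x'
      · subst hxx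
        have e3 := h2 y hy y' hy' (fun h3 => hne (by rw [h3])) e1
        have e4 := tri hG y x y'
        rw [SimpleGraph.dist_comm] at hd
        omega
      · have := h2 x hx x' hx' hxx e2
        omega)
  refine ⟨Γ, X, U, Mk, hs, fun v => hnet v trivial, fun x hx y hy hd => hn (x, y) ⟨hx, hy, hd⟩ ?_⟩
  have a1 := h1 x hx
  have a2 := h1 y hy
  have a3 : (χ x + 1) * N ≤ N * N := Nat.mul_le_mul_right _ a1
  simp only
  rw [Nat.add_mul] at a3
  omega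

end Pool.Agent.Lib.MP_f9389f_co.Db
end
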