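import Mathlib
import Pool.Agent.Lib.MP_f9389f_co.DbStep


/-! The skeleton is quasi-isometric to the graph; minors of a fat minor are fat minors. -/

namespace Pool.Agent.Lib.MP_f9389f_co.Db

universe u v

open SimpleGraph

variable {V : Type u} {G Γ : SimpleGraph V} {X U Mk : Set V} {R κ C m D β : ℕ} {W : Set (Set V)}

/-- Walks of `Γ` project to walks of the skeleton. -/
theorem skel_proj (hB : Bl G Γ U Mk W C β) {n : ℕ} {w w' : W} {a b : V} (ha : a ∈ w.1)
    (hb : b ∈ w'.1) (hn : Near Γ n a b) : Near (skel Γ W) n w w' := by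
  classical
  have key : ∀ (n : ℕ) (w : W) (s : V), (∃ a ∈ w.1, ∃ q : Γ.Walk a s,
      ∀ z ∈ q.support, z = a ∨ ¬ In W z) → Near Γ n s b → Near (skel Γ W) n w w' := by
    intro n
    induction n with
    | zero =>
      rintro w s ⟨a, ha, q, hq⟩ h1
      obtain rfl := h1.zero
      rcases hq s q.end_mem_support with h2 | h2
      · rw [Subtype.ext (hB.sep _ w.2 _ w'.2 _ ha _ hb (h2 ▸ Near.refl _ _ _))]
        exact Near.refl _ _ _
      · exact absurd ⟨_, w'.2, hb⟩ h2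
    | succ n ih =>
      rintro w s ⟨a, ha, q, hq⟩ h1
      obtain ⟨x, rfl | e, h2⟩ := h1.succ
      · exact (ih w s ⟨a, ha, q, hq⟩ h2).mono (Nat.le_succ n)
      have hq' : ∀ z ∈ (q.concat e).support, z = a ∨ z = x ∨ ¬ In W z := by
        intro z hz
        simp only [Walk.support_concat, List.mem_append, List.mem_singleton] at hz
        rcases hz with hz | hz
        · have := hq z hz
          tauto
        · tauto
      by_cases hx : In W x
      · obtain ⟨w₂, hw₂, hx⟩ := hx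
        have h3 := ih ⟨w₂, hw₂⟩ x ⟨x, hx, Walk.nil, by simp⟩ h2
        refine ((Near.of_or (a := w) (b := ⟨w₂, hw₂⟩) ?_).trans h3).mono (by omega)
        by_cases he : w = ⟨w₂, hw₂⟩
        · exact Or.inl he
        · exact Or.inr ⟨he, _, a, ha, x, hx, (q.concat e).bypass, ⟨Walk.bypass_isPath _,
            fun z hz => hq' z (Walk.support_bypass_subset_support _ hz)⟩, rfl⟩
      · refine (ih w x ⟨a, ha, q.concat e, fun z hz => ?_⟩ h2).mono (Nat.le_succ n)
        rcases hq' z hz with h3 | h3 | h3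
        exacts [Or.inl h3, Or.inr (h3 ▸ hx), Or.inr h3]
  exact key n w a ⟨a, ha, Walk.nil, by simp⟩ hn

theorem walk_two (hG : G.Connected) (hle : Γ ≤ G) {a b : V} {d : ℕ} : ∀ {s : V} (p : Γ.Walk s b),
    G.dist a s ≤ d → (∀ z ∈ p.support, G.dist z a ≤ d ∨ G.dist z b ≤ d) →
      G.dist a b ≤ 2 * d + 1 := by
  intro s p
  induction p with
  | nil => intro h _; omega
  | @cons s t b e p ih =>
    intro h1 h2
    rcases h2 t (by simp) with h3 | h3
    · exact ih (by rwa [SimpleGraph.dist_comm]) fun z hz => h2 z (by simp [hz])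
    · have e1 := tri hG a s b
      have e2 := tri hG s t b
      have e3 := dist_le_one_of_adj (hle e)
      omega

theorem skel_adj (hG : G.Connected) (h : Sk G Γ X U Mk R κ C m D) (hB : Bl G Γ U Mk W C β)
    {w w' : W} (e : (skel Γ W).Adj w w') : ∃ a ∈ w.1, ∃ b ∈ w'.1, G.dist a b ≤ 6 * R + 1 := by
  obtain ⟨-, S, hS⟩ := e
  have hU := arc_sub h hB hS
  obtain ⟨a, ha, b, hb, p, hp, rfl⟩ := hS
  refine ⟨a, ha, b, hb, (walk_two hG h.le (d := 3 * R) p (by simp) fun z hz => ?_).trans (by omega)⟩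
  obtain ⟨μ, hμ, hn⟩ := h.nearMk z (hU hz)
  rcases near_stay (free_nb h hB hp) _ hn hz with h1 | ⟨t, rfl | rfl, h1, -⟩
  · rcases hp.2 μ h1 with h2 | h2 | h2
    · exact Or.inl (h2 ▸ near_dist hn h.le)
    · exact Or.inr (h2 ▸ near_dist hn h.le)
    · exact absurd hμ (hB.notMk h2)
  · exact Or.inl (near_dist h1 h.le)
  · exact Or.inr (near_dist h1 h.le)

theorem skel_qi (hG : G.Connected) (h : Sk G Γ X U Mk R κ C m D) (hB : Bl G Γ U Mk W C β)
    (hR : 1 ≤ R) {E : ℕ} (hnet : ∀ v, ∃ x ∈ X, G.dist v x ≤ R)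
    (hE : ∀ x ∈ X, ∀ y ∈ X, G.dist x y ≤ 3 * R → Near Γ E x y) :
    (skel Γ W).Connected ∧ ∃ φ, IsQI G (skel Γ W) φ (E + β + 6 * R + 1) (D + E + 1) := by
  choose net hX hd using hnet
  have hw : ∀ v, ∃ w : W, net v ∈ w.1 := fun v => by
    obtain ⟨w, h1, h2⟩ := hB.cover _ (h.xMk (hX v))
    exact ⟨⟨w, h1⟩, h2⟩
  choose φ hφ using hw
  have up : ∀ {x y : V} (q : G.Walk x y), Near Γ (E * q.length) (net x) (net y) := by
    intro x y q
    induction q with
    | nil => exact Near.refl _ _ _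
    | @cons x z y e q ih =>
      have e1 := hd x
      have e2 := hd z
      have e3 := dist_le_one_of_adj e
      have e4 := tri hG (net x) x (net z)
      have e5 := tri hG x z (net z)
      rw [SimpleGraph.dist_comm] at e1
      exact ((hE _ (hX x) _ (hX z) (by omega)).trans ih).mono
        (by rw [Walk.length_cons, Nat.mul_succ]; omega)
  have up' : ∀ x y, Near (skel Γ W) (E * G.dist x y) (φ x) (φ y) := fun x y => by
    obtain ⟨q, hq⟩ := hG.exists_walk_length_eq_dist x y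
    exact skel_proj hB (hφ x) (hφ y) (hq ▸ up q)
  have dense : ∀ w : W, ∃ x, Near (skel Γ W) (D + E) w (φ x) := fun w => by
    obtain ⟨μ, -, hμ⟩ := hB.mark _ w.2
    obtain ⟨x, hx, hn⟩ := h.nearX μ (hB.sub _ w.2 hμ)
    have := hd x
    exact ⟨x, skel_proj hB hμ (hφ x) (hn.trans (hE x hx _ (hX x) (by omega)))⟩
  have hc : (skel Γ W).Connected := by
    obtain ⟨v⟩ := hG.nonempty
    have : Nonempty W := ⟨φ v⟩
    refine ⟨fun w w' => ?_⟩
    obtain ⟨x, hx⟩ := dense w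
    obtain ⟨y, hy⟩ := dense w'
    obtain ⟨p, -⟩ := (hx.trans (up' x y)).trans hy.symm
    exact p.reachable
  have low : ∀ {w w' : W} (p : (skel Γ W).Walk w w'), ∀ a ∈ w.1, ∀ b ∈ w'.1,
      G.dist a b ≤ (β + 6 * R + 1) * p.length + β := by
    intro w w' p
    induction p with
    | nil => intro a ha b hb; simpa using hB.diam _ (Subtype.prop _) a ha b hb
    | @cons w w₂ w' e p ih =>
      intro a ha b hb
      obtain ⟨s, hs, t, ht, hst⟩ := skel_adj hG h hB e
      have e1 := ih t ht b hb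
      have e2 := hB.diam _ w.2 a ha s hs
      have e3 := tri hG a s b
      have e4 := tri hG s t b
      rw [Walk.length_cons, Nat.mul_succ]
      omega
  refine ⟨hc, φ, fun x y => ⟨?_, ?_⟩, fun w => ?_⟩
  · obtain ⟨p, hp⟩ := hc.exists_walk_length_eq_dist (φ x) (φ y)
    have e1 := low p _ (hφ x) _ (hφ y)
    have e2 := hd x
    have e3 := hd y
    have e4 := tri hG x (net x) y
    have e5 := tri hG (net x) (net y) y
    rw [SimpleGraph.dist_comm] at e3
    rw [hp] at e1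
    have e6 : G.dist x y ≤ (E + β + 6 * R + 1) * ((skel Γ W).dist (φ x) (φ y) + (D + E + 1)) := by
      nlinarith [Nat.zero_le (E * (skel Γ W).dist (φ x) (φ y)),
        Nat.zero_le ((E + β + 6 * R + 1) * (D + E))]
    have e7 : (0 : ℝ) < ((E + β + 6 * R + 1 : ℕ) : ℝ) := by positivity
    rw [sub_le_iff_le_add, inv_mul_le_iff₀ e7]
    exact_mod_cast e6
  · have e1 := near_dist (up' x y) le_rfl
    have e2 : (skel Γ W).dist (φ x) (φ y) ≤ (E + β + 6 * R + 1) * G.dist x y + (D + E + 1) := by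
      nlinarith [Nat.zero_le ((β + 6 * R + 1) * G.dist x y)]
    exact_mod_cast e2
  · obtain ⟨x, hx⟩ := dense w
    exact ⟨x, (near_dist hx le_rfl).trans (Nat.le_succ _)⟩

/-- A minor of a fat minor is a fat minor. -/
theorem fat_comp (hG : G.Connected) {α : Type u} {G' : SimpleGraph α} {ι : Type v}
    {H : SimpleGraph ι} {K : ℕ} (h : HasFatMinor G G' K) (h' : HasMinor G' H) :
    HasFatMinor G H K := by
  obtain ⟨B, P, b1, b2, b3, b4, b5⟩ := h
  obtain ⟨A, a1, a2, a3⟩ := h'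
  have hA : ∀ {s t : ι} {w : α}, w ∈ A s → w ∈ A t → s = t := fun {s t w} h1 h2 => by
    by_contra hne
    exact Set.disjoint_left.1 (a2 s t hne) h1 h2
  have hQ : ∀ e : Sym2 ι, ∃ S : Set V, ∀ s t, e = s(s, t) → H.Adj s t →
      ∃ w ∈ A s, ∃ w' ∈ A t, G'.Adj w w' ∧ S = P s(w, w') := by
    intro e
    by_cases he : e ∈ H.edgeSet
    · induction e using Sym2.ind with
      | _ s t =>
        obtain ⟨w, hw, w', hw', e'⟩ := a3 s t he
        refine ⟨P s(w, w'), fun x y hx _ => ?_⟩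
        rcases Sym2.eq_iff.1 hx with ⟨rfl, rfl⟩ | ⟨rfl, rfl⟩
        · exact ⟨w, hw, w', hw', e', rfl⟩
        · exact ⟨w', hw', w, hw, e'.symm, by rw [Sym2.eq_swap]⟩
    · exact ⟨∅, fun s t hw ha => absurd (by rw [hw]; exact ha) he⟩
  choose Q hQ using hQ
  let B' : ι → Set V := fun s =>
    {z | (∃ w ∈ A s, z ∈ B w) ∨ ∃ w ∈ A s, ∃ w' ∈ A s, G'.Adj w w' ∧ z ∈ P s(w, w')}
  have hsub : ∀ s, ∀ w ∈ A s, B w ⊆ B' s := fun s w hw z hz => Or.inl ⟨w, hw, hz⟩
  refine ⟨B', Q, fun s => ?_, fun s t e => ?_, fun s t hne => ?_, ?_, ?_⟩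
  · obtain ⟨⟨w₀, hw₀⟩⟩ := (a1 s).nonempty
    obtain ⟨⟨z₀, hz₀⟩⟩ := (b1 w₀).nonempty
    have hP : ∀ w ∈ A s, ∀ w' ∈ A s, G'.Adj w w' → ∃ a ∈ B w, ∃ b ∈ B w', b ∈ P s(w, w') ∧
        ∀ z ∈ P s(w, w'), Ch G 1 (B' s) a z := by
      intro w hw w' hw' e
      obtain ⟨a, ha, b, hb, p, -, hp⟩ := b2 w w' e
      refine ⟨a, ha, b, hb, by simp [hp], fun z hz => ?_⟩
      classical
      rw [hp] at hz
      refine ch_walk le_rfl (p.takeUntil z hz) fun y hy => Or.inr ⟨w, hw, w', hw', e, ?_⟩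
      rw [hp]
      exact p.support_takeUntil_subset_support hz hy
    have key : ∀ y : A s, Relation.ReflTransGen (G'.induce (A s)).Adj ⟨w₀, hw₀⟩ y →
        ∀ z ∈ B y, Ch G 1 (B' s) z₀ z := by
      intro y hy
      induction hy with
      | refl => exact fun z hz => (conn_induce (b1 w₀) z₀ hz₀ z hz).mono le_rfl (hsub s _ hw₀)
      | @tail x y _ e ih =>
        intro z hz
        obtain ⟨a, ha, b, hb, hb', hp⟩ := hP x x.2 y y.2 e
        exact ((ih a ha).trans (hp b hb')).trans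
          ((conn_induce (b1 y) b hb z hz).mono le_rfl (hsub s _ y.2))
    have key' : ∀ w ∈ A s, ∀ z ∈ B w, Ch G 1 (B' s) z₀ z := fun w hw =>
      key ⟨w, hw⟩ ((reachable_iff_reflTransGen _ _).1 ((a1 s).preconnected _ _))
    refine (conn_of_base z₀ ?_).induce hG ⟨z₀, hsub s _ hw₀ hz₀⟩
    rintro z (⟨w, hw, hz⟩ | ⟨w, hw, w', hw', e, hz⟩)
    · exact key' w hw z hz
    · obtain ⟨a, ha, -, -, -, hp⟩ := hP w hw w' hw' e
      exact (key' w hw a ha).trans (hp z hz)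
  · obtain ⟨w, hw, w', hw', e', hq⟩ := hQ _ s t rfl e
    obtain ⟨a, ha, b, hb, p, hp, hp'⟩ := b2 w w' e'
    exact ⟨a, hsub s w hw ha, b, hsub t w' hw' hb, p, hp, hq.trans hp'⟩
  · rintro y (⟨w, hw, hy⟩ | ⟨w, hw, w', hw', e, hy⟩) z (⟨x, hx, hz⟩ | ⟨x, hx, x', hx', f, hz⟩)
    · exact b3 w x (fun he => hne (hA hw (he ▸ hx))) y hy z hz
    · refine (b5 s(x, x') f w ?_).symm y hy z hz
      rw [Sym2.mem_iff]
      rintro (rfl | rfl)
      exacts [hne (hA hw hx), hne (hA hw hx')]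
    · refine b5 s(w, w') e x ?_ y hy z hz
      rw [Sym2.mem_iff]
      rintro (rfl | rfl)
      exacts [hne (hA hw hx), hne (hA hw' hx)]
    · refine b4 s(w, w') e s(x, x') f (fun he => ?_) y hy z hz
      rcases Sym2.eq_iff.1 he with ⟨rfl, -⟩ | ⟨rfl, -⟩
      exacts [hne (hA hw hx), hne (hA hw hx')]
  · intro e he f hf hef
    induction e using Sym2.ind with
    | _ s t =>
    induction f using Sym2.ind with
    | _ s' t' =>
      obtain ⟨w, hw, w', hw', e', hq⟩ := hQ _ s t rfl he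
      obtain ⟨x, hx, x', hx', f', hr⟩ := hQ _ s' t' rfl hf
      rw [hq, hr]
      refine b4 _ e' _ f' fun he => hef ?_
      rcases Sym2.eq_iff.1 he with ⟨rfl, rfl⟩ | ⟨rfl, rfl⟩
      · rw [hA hw hx, hA hw' hx']
      · rw [hA hw hx', hA hw' hx, Sym2.eq_swap]
  · intro e he r hr
    induction e using Sym2.ind with
    | _ s t =>
      obtain ⟨w, hw, w', hw', e', hq⟩ := hQ _ s t rfl he
      rw [hq]
      rw [Sym2.mem_iff, not_or] at hr
      rintro y hy z (⟨x, hx, hz⟩ | ⟨x, hx, x', hx', f, hz⟩)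
      · refine b5 s(w, w') e' x ?_ y hy z hz
        rw [Sym2.mem_iff]
        rintro (rfl | rfl)
        exacts [hr.1 (hA hx hw), hr.2 (hA hx hw')]
      · refine b4 s(w, w') e' s(x, x') f (fun he => ?_) y hy z hz
        rcases Sym2.eq_iff.1 he with ⟨rfl, -⟩ | ⟨rfl, -⟩
        exacts [hr.1 (hA hx hw), hr.1 (hA hx' hw)]

theorem doubling_main (K N : ℕ) : ∃ r₀ : ℕ, ∀ r, r₀ ≤ r → ∃ M A : ℕ, 1 ≤ M ∧
    ∀ (V : Type u) (G : SimpleGraph V), G.Connected → Covered G N r (44 * r) →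
      ∃ (W : Type u) (G' : SimpleGraph W) (φ : V → W), G'.Connected ∧ IsQI G G' φ M A ∧
        ∀ (ι : Type v) (H : SimpleGraph ι), ¬ HasFatMinor G H K → ¬ HasMinor G' H := by
  obtain ⟨C, m, r₀, hC, h⟩ := exists_sk.{u} K N
  refine ⟨r₀ + m * sc C m + 1, fun r hr => ?_⟩
  obtain ⟨D, E, h⟩ := h r (by omega)
  refine ⟨E + (2 * sc C m + m * sc C m) + 6 * (2 * r) + 1, D + E + 1, by omega,
    fun V G hG hcov => ?_⟩
  obtain ⟨Γ, X, U, Mk, hs, hnet, hE⟩ := h V G hG hcov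
  obtain ⟨W, hB⟩ := exists_bl hs (by omega)
  obtain ⟨hc, φ, hφ⟩ := skel_qi hG hs hB (by omega) hnet hE
  exact ⟨W, skel Γ W, φ, hc, hφ, fun ι H h1 h2 => h1 (fat_comp hG (skel_fat hG hs hB hC) h2)⟩

end Pool.Agent.Lib.MP_f9389f_co.Db
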