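import Pool.Agent.Lib.MP_f9389f_co.Defs

-- part Pool.Agent.Lib.MP_f9389f_co.Real
section

/-! Fat realizations of partial models in a region with boundary objects. -/

set_option autoImplicit false
set_option linter.unusedSectionVars false

namespace Pool.Agent.Lib.MP_f9389f_co

variable {V : Type*} {G : SimpleGraph V}

/-- Reachability inside the set `S`. -/
def Rch (G : SimpleGraph V) (S : Set V) (a b : V) : Prop :=
  Relation.ReflTransGen (fun x y => G.Adj x y ∧ x ∈ S ∧ y ∈ S) a b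

theorem Rch.refl {S : Set V} (a : V) : Rch G S a a := Relation.ReflTransGen.refl

theorem Rch.trans {S : Set V} {a b c : V} (h : Rch G S a b) (h' : Rch G S b c) : Rch G S a c :=
  Relation.ReflTransGen.trans h h'

theorem Rch.single {S : Set V} {a b : V} (h : G.Adj a b) (ha : a ∈ S) (hb : b ∈ S) :
    Rch G S a b := Relation.ReflTransGen.single ⟨h, ha, hb⟩

theorem Rch.symm {S : Set V} {a b : V} (h : Rch G S a b) : Rch G S b a := by
  induction h with
  | refl => exact Rch.refl _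
  | tail _ h ih => exact (Rch.single h.1.symm h.2.2 h.2.1).trans ih

theorem Rch.mono {S S' : Set V} {a b : V} (h : Rch G S a b) (hS : S ⊆ S') : Rch G S' a b := by
  induction h with
  | refl => exact Rch.refl _
  | tail _ h ih => exact ih.trans (Rch.single h.1 (hS h.2.1) (hS h.2.2))

theorem Rch.mem {S : Set V} {a b : V} (h : Rch G S a b) (ha : a ∈ S) : b ∈ S := by
  induction h with
  | refl => exact ha
  | tail _ h _ => exact h.2.2

theorem Rch.ind {S : Set V} {a b : V} (h : Rch G S a b) {P : V → Prop}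
    (ha : P a) (hs : ∀ x y, x ∈ S → y ∈ S → G.Adj x y → P x → P y) : P b := by
  induction h with
  | refl => exact ha
  | tail _ h ih => exact hs _ _ h.2.1 h.2.2 h.1 ih

theorem Rch.exit {S A : Set V} {a b : V} (h : Rch G S a b) (ha : a ∈ A) (hb : b ∉ A) :
    ∃ x ∈ A, ∃ y ∈ S, y ∉ A ∧ G.Adj x y ∧ x ∈ S ∧ Rch G (S ∩ A) a x := by
  have : (b ∈ A ∧ Rch G (S ∩ A) a b) ∨
      ∃ x ∈ A, ∃ y ∈ S, y ∉ A ∧ G.Adj x y ∧ x ∈ S ∧ Rch G (S ∩ A) a x := by
    clear hb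
    induction h with
    | refl => exact Or.inl ⟨ha, Rch.refl _⟩
    | @tail b c _ h ih =>
      rcases ih with ⟨hb, ih⟩ | ih
      · by_cases hc : c ∈ A
        · exact Or.inl ⟨hc, ih.trans (Rch.single h.1 ⟨h.2.1, hb⟩ ⟨h.2.2, hc⟩)⟩
        · exact Or.inr ⟨b, hb, c, h.2.2, hc, h.1, h.2.1, ih⟩
      · exact Or.inr ih
  exact this.resolve_left fun h' => hb h'.1

theorem dist_adj (hG : G.Connected) {a b : V} (e : G.Adj a b) (c : V) :
    G.dist a c ≤ G.dist b c + 1 := by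
  have := hG.dist_triangle (u := a) (v := b) (w := c)
  rw [SimpleGraph.dist_eq_one_iff_adj.2 e] at this
  omega

/-- A geodesic leaving `D` passes through the boundary `Z`. -/
theorem sep (hG : G.Connected) {D Z : Set V} (hcl : ∀ a ∈ D, ∀ b, G.Adj a b → b ∈ D ∨ b ∈ Z)
    {p q : V} (hp : p ∈ D) (hq : q ∉ D) : ∃ z ∈ Z, G.dist p z + G.dist z q ≤ G.dist p q := by
  obtain ⟨w, hw⟩ := hG.exists_walk_length_eq_dist p q
  rw [← hw]
  clear hw
  induction w with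
  | nil => exact absurd hp hq
  | @cons a b c e w ih =>
    by_cases hb : b ∈ D
    · obtain ⟨z, hz, h⟩ := ih hb hq
      have := dist_adj hG e z
      exact ⟨z, hz, by simp only [SimpleGraph.Walk.length_cons]; omega⟩
    · refine ⟨b, (hcl a hp b e).resolve_left hb, ?_⟩
      have := SimpleGraph.dist_le w
      rw [SimpleGraph.dist_eq_one_iff_adj.2 e]
      simp only [SimpleGraph.Walk.length_cons]
      omega

variable {ρ ι : Type}

/-- The finite data describing how a model meets a region. -/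
structure Pat (ρ ι : Type) where
  l0 : Option ρ → Option ι
  l1 : Option ρ → Option ι
  rel : Set (Option ρ × Option ρ)
  ed : Set (Sym2 ι)
  ins : Set ι

instance [Finite ρ] [Finite ι] : Finite (Pat ρ ι) :=
  Finite.of_injective (fun π => (π.l0, π.l1, π.rel, π.ed, π.ins)) (by
    rintro ⟨_, _, _, _, _⟩ ⟨_, _, _, _, _⟩ h
    simp only [Prod.mk.injEq] at h
    obtain ⟨rfl, rfl, rfl, rfl, rfl⟩ := h
    rfl)

/-- The class of `u` together with the objects labelled `u`. -/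
def Cl (B : ι → Set V) (O : Option ρ → Set V) (l : Option ρ → Option ι) (u : ι) : Set V :=
  {p | p ∈ B u ∨ ∃ b, l b = some u ∧ p ∈ O b}

theorem Cl.mono {B B' : ι → Set V} {O : Option ρ → Set V} {l : Option ρ → Option ι} {u : ι}
    (h : B u ⊆ B' u) : Cl B O l u ⊆ Cl B' O l u := fun _ hp => hp.imp (fun h' => h h') id

theorem cl_obj {B : ι → Set V} {O : Option ρ → Set V} {l : Option ρ → Option ι} {u : ι}
    {b : Option ρ} (h : l b = some u) : O b ⊆ Cl B O l u := fun _ hp => Or.inr ⟨b, h, hp⟩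

/-- The combinatorial part of a realization. -/
structure RealC (G : SimpleGraph V) (D : Set V) (O : Option ρ → Set V) (π : Pat ρ ι)
    (B : ι → Set V) (P : Sym2 ι → Set V) : Prop where
  sub : ∀ u, B u ⊆ D
  psub : ∀ e ∈ π.ed, P e ⊆ D
  ins1 : ∀ u, ∀ p ∈ B u, u ∈ π.ins ∨ π.l1 none = some u
  ins2 : ∀ u ∈ π.ins, (B u).Nonempty
  con : ∀ u, ∀ p ∈ B u, (∃ b, π.l1 b = some u ∧ ∀ z ∈ O b, Rch G (Cl B O π.l1 u) p z) ∨
    ((∀ b, π.l1 b ≠ some u) ∧ ∀ q ∈ B u, Rch G (Cl B O π.l1 u) p q)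
  rel : ∀ b b' u, (b, b') ∈ π.rel → π.l1 b = some u → ∀ z ∈ O b, ∀ z' ∈ O b',
    Rch G (Cl B O π.l1 u) z z'
  ed : ∀ u w, s(u, w) ∈ π.ed → ∃ a ∈ Cl B O π.l1 u, ∃ b ∈ Cl B O π.l1 w,
    a ∈ P s(u, w) ∧ Rch G (P s(u, w)) a b

/-- The metric part of a realization. -/
structure RealF (G : SimpleGraph V) (K : ℕ) (O : Option ρ → Set V) (π : Pat ρ ι)
    (B : ι → Set V) (P : Sym2 ι → Set V) : Prop where
  f1 : ∀ u w, ∀ p ∈ B u, ∀ q ∈ B w, G.dist p q < K → u = w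
  f2 : ∀ e ∈ π.ed, ∀ u, ∀ p ∈ P e, ∀ q ∈ B u, G.dist p q < K → u ∈ e
  f3 : ∀ e ∈ π.ed, ∀ f ∈ π.ed, ∀ p ∈ P e, ∀ q ∈ P f, G.dist p q < K → e = f
  n1 : ∀ u b, ∀ p ∈ B u, ∀ z ∈ O b, G.dist p z < K → π.l0 b = some u
  n2 : ∀ e ∈ π.ed, ∀ b, ∀ p ∈ P e, ∀ z ∈ O b, K ≤ G.dist p z

/-- The pattern has a fat realization in the region. -/
def Rz (G : SimpleGraph V) (K : ℕ) (D : Set V) (O : Option ρ → Set V) (π : Pat ρ ι) : Prop :=
  ∃ B P, RealC G D O π B P ∧ RealF G K O π B P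

/-- The part of the labelling `ℓ` inside `D`. -/
def res (ℓ : V → Option ι) (D : Set V) (u : ι) : Set V := {p | p ∈ D ∧ ℓ p = some u}

/-- The pattern of a model in a region. -/
def pat (G : SimpleGraph V) (ℓ : V → Option ι) (E : Set (Sym2 ι)) (wit : Sym2 ι → V) (D : Set V)
    (O : Option ρ → Set V) (l0 l1 : Option ρ → Option ι) : Pat ρ ι where
  l0 := l0
  l1 := l1
  rel := {bb | ∃ u, l1 bb.1 = some u ∧ l1 bb.2 = some u ∧ ∀ z ∈ O bb.1, ∀ z' ∈ O bb.2,
    Rch G (Cl (res ℓ D) O l1 u) z z'}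
  ed := {e | e ∈ E ∧ wit e ∈ D}
  ins := {u | ∃ p ∈ D, ℓ p = some u}

variable {K : ℕ} {ℓ : V → Option ι} {E : Set (Sym2 ι)} {wit : Sym2 ι → V}
  {O : Option ρ → Set V} {l0 l1 : Option ρ → Option ι}

theorem mem_rel {D : Set V} (hO : ∀ b, ∀ z ∈ O b, ∀ z' ∈ O b, Rch G (O b) z z') {b b' : Option ρ}
    {u : ι} (h1 : l1 b = some u) (h2 : l1 b' = some u) {z z' : V} (hz : z ∈ O b) (hz' : z' ∈ O b')
    (h : Rch G (Cl (res ℓ D) O l1 u) z z') : (b, b') ∈ (pat G ℓ E wit D O l0 l1).rel :=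
  ⟨u, h1, h2, fun y hy y' hy' => (((hO b y hy z hz).mono (cl_obj h1)).trans h).trans
    ((hO b' z' hz' y' hy').mono (cl_obj h2))⟩

theorem rz_empty {D : Set V} (h : ∀ p ∈ D, ℓ p = none) (hw : ∀ e ∈ E, ℓ (wit e) ≠ none) :
    Rz G K D O (pat G ℓ E wit D O l0 l1) := by
  have he : ∀ e, e ∉ (pat G ℓ E wit D O l0 l1).ed := fun e he => hw e he.1 (h _ he.2)
  have e : res ℓ D = fun _ => ∅ := by
    funext u; ext p; simp only [res, Set.mem_ofPred_eq, Set.mem_empty_iff_false, iff_false]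
    rintro ⟨h1, h2⟩; simp [h p h1] at h2
  refine ⟨fun _ => ∅, fun _ => ∅, ⟨by simp, by simp, by simp, ?_, by simp, ?_,
    fun u w h' => absurd h' (he _)⟩, by simp, by simp, by simp, by simp, by simp⟩
  · rintro u ⟨p, h1, h2⟩; simp [h p h1] at h2
  · rintro b b' u ⟨u', h1, -, h3⟩ h4
    obtain rfl : u' = u := Option.some.inj (h1.symm.trans h4)
    rw [e] at h3
    exact h3

theorem rz_union (hG : G.Connected) {I : Type*} {D : I → Set V}
    (hd : ∀ i j, ∀ p ∈ D i, p ∈ D j → i = j)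
    (hcl : ∀ i, ∀ a ∈ D i, ∀ b, G.Adj a b → b ∈ D i ∨ b ∈ {z | ∃ o, z ∈ O o})
    (hO : ∀ b, ∀ z ∈ O b, ∀ z' ∈ O b, Rch G (O b) z z') (hOl : ∀ o, ∀ z ∈ O o, ℓ z = l1 o)
    (H2 : ∀ u p q, ℓ p = some u → ℓ q = some u → Rch G {x | ℓ x = some u} p q)
    (h : ∀ i, Rz G K (D i) O (pat G ℓ E wit (D i) O l0 l1)) :
    Rz G K (⋃ i, D i) O (pat G ℓ E wit (⋃ i, D i) O l0 l1) := by
  choose B P hC hF using h
  have up : ∀ i u, Cl (B i) O l1 u ⊆ Cl (fun u => ⋃ i, B i u) O l1 u := fun i u =>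
    Cl.mono (Set.subset_iUnion (fun i => B i u) i)
  have ed' : ∀ e, e ∈ (pat G ℓ E wit (⋃ i, D i) O l0 l1).ed → ∀ p,
      (∃ i, wit e ∈ D i ∧ p ∈ P i e) → ∃ i, e ∈ (pat G ℓ E wit (D i) O l0 l1).ed ∧ p ∈ P i e :=
    fun e he p ⟨i, h1, h2⟩ => ⟨i, ⟨he.1, h1⟩, h2⟩
  have cross : ∀ i j, i ≠ j → ∀ p ∈ D i, ∀ q ∈ D j, G.dist p q < K →
      ∃ o, ∃ z ∈ O o, G.dist p z < K ∧ G.dist q z < K := fun i j hij p hp q hq hd' => by
    obtain ⟨z, ⟨o, hz⟩, h⟩ := sep hG (hcl i) hp fun h' => hij (hd i j q h' hq)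
    exact ⟨o, z, hz, by omega, by rw [SimpleGraph.dist_comm]; omega⟩
  refine ⟨fun u => ⋃ i, B i u, fun e => {p | ∃ i, wit e ∈ D i ∧ p ∈ P i e},
    ⟨fun u => Set.iUnion_mono fun i => (hC i).sub u, fun e he p hp => ?_, fun u p hp => ?_,
      fun u hu => ?_, fun u p hp => ?_, ?_, fun u w he => ?_⟩,
    fun u w p hp q hq hd' => ?_, fun e he u p hp q hq hd' => ?_,
    fun e he f hf p hp q hq hd' => ?_, fun u b p hp z hz hd' => ?_, fun e he b p hp z hz => ?_⟩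
  · obtain ⟨i, h1, h2⟩ := ed' e he p hp
    exact Set.mem_iUnion.2 ⟨i, (hC i).psub e h1 h2⟩
  · obtain ⟨i, hp⟩ := Set.mem_iUnion.1 hp
    exact ((hC i).ins1 u p hp).imp
      (fun ⟨q, h1, h2⟩ => ⟨q, Set.mem_iUnion.2 ⟨i, h1⟩, h2⟩) id
  · obtain ⟨p, h1, h2⟩ := hu
    obtain ⟨i, h1⟩ := Set.mem_iUnion.1 h1
    exact ((hC i).ins2 u ⟨p, h1, h2⟩).mono (Set.subset_iUnion (fun i => B i u) i)
  · obtain ⟨i, hp⟩ := Set.mem_iUnion.1 hp
    rcases (hC i).con u p hp with ⟨b, h1, h2⟩ | ⟨h1, h2⟩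
    · exact Or.inl ⟨b, h1, fun z hz => (h2 z hz).mono (up i u)⟩
    · refine Or.inr ⟨h1, fun q hq => ?_⟩
      obtain ⟨j, hq⟩ := Set.mem_iUnion.1 hq
      obtain ⟨p', a1, a2⟩ := ((hC i).ins1 u p hp).resolve_right (h1 none)
      obtain ⟨q', b1, b2⟩ := ((hC j).ins1 u q hq).resolve_right (h1 none)
      have : q' ∈ D i := (H2 u p' q' a2 b2).ind (P := (· ∈ D i)) a1 fun x y _ hy e hx =>
        (hcl i x hx y e).resolve_right fun ⟨o, ho⟩ => h1 o ((hOl o y ho).symm.trans hy)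
      obtain rfl := hd i j q' this b1
      exact (h2 q hq).mono (up i u)
  · rintro b b' u ⟨u', h1, h2, h3⟩ h4 z hz z' hz'
    obtain rfl : u' = u := Option.some.inj (h1.symm.trans h4)
    have key := (h3 z hz z' hz').ind (P := fun q => ∃ o, l1 o = some u' ∧ ∃ y ∈ O o,
      Rch G (Cl (fun u => ⋃ i, B i u) O l1 u') z y ∧
        (q ∈ O o ∨ ∃ i, q ∈ D i ∧ ℓ q = some u' ∧ Rch G (Cl (res ℓ (D i)) O l1 u') y q))
      ⟨b, h1, z, hz, Rch.refl _, Or.inl hz⟩ ?_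
    · obtain ⟨o, k1, y, hy, k2, k3 | ⟨i, k3, k4, k5⟩⟩ := key
      · exact k2.trans ((hO o y hy z' k3).mono (cl_obj k1))
      · exact k2.trans (((hC i).rel o b' u' (mem_rel hO k1 h2 hy hz' k5) k1 y hy z' hz').mono
          (up i u'))
    · rintro q q' - hq' e ⟨o, k1, y, hy, k2, k3 | ⟨i, k3, k4, k5⟩⟩
      · have k2' := k2.trans ((hO o y hy q k3).mono (cl_obj k1))
        rcases hq' with ⟨a1, a2⟩ | ⟨o', a1, a2⟩
        · obtain ⟨i, a1⟩ := Set.mem_iUnion.1 a1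
          exact ⟨o, k1, q, k3, k2', Or.inr ⟨i, a1, a2,
            Rch.single e (cl_obj k1 k3) (Or.inl ⟨a1, a2⟩)⟩⟩
        · exact ⟨o', a1, q', a2, k2'.trans (Rch.single e (cl_obj k1 k3) (cl_obj a1 a2)),
            Or.inl a2⟩
      · have lq' : ℓ q' = some u' := by
          rcases hq' with ⟨-, a2⟩ | ⟨o', a1, a2⟩
          · exact a2
          · exact (hOl o' q' a2).trans a1
        rcases hcl i q k3 q' e with a1 | ⟨o', a1⟩
        · exact ⟨o, k1, y, hy, k2, Or.inr ⟨i, a1, lq',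
            k5.trans (Rch.single e (Or.inl ⟨k3, k4⟩) (Or.inl ⟨a1, lq'⟩))⟩⟩
        · have a2 : l1 o' = some u' := (hOl o' q' a1).symm.trans lq'
          exact ⟨o', a2, q', a1, k2.trans (((hC i).rel o o' u' (mem_rel hO k1 a2 hy a1
            (k5.trans (Rch.single e (Or.inl ⟨k3, k4⟩) (cl_obj a2 a1)))) k1 y hy q' a1).mono
              (up i u')), Or.inl a1⟩
  · obtain ⟨i, hi⟩ := Set.mem_iUnion.1 he.2
    obtain ⟨a, ha, b, hb, h1, h2⟩ := (hC i).ed u w ⟨he.1, hi⟩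
    exact ⟨a, up i u ha, b, up i w hb, ⟨i, hi, h1⟩, h2.mono fun p hp => ⟨i, hi, hp⟩⟩
  · obtain ⟨i, hp⟩ := Set.mem_iUnion.1 hp
    obtain ⟨j, hq⟩ := Set.mem_iUnion.1 hq
    by_cases hij : i = j
    · subst hij; exact (hF i).f1 u w p hp q hq hd'
    · obtain ⟨o, z, hz, h1, h2⟩ := cross i j hij p ((hC i).sub u hp) q ((hC j).sub w hq) hd'
      exact Option.some.inj (((hF i).n1 u o p hp z hz h1).symm.trans ((hF j).n1 w o q hq z hz h2))
  · obtain ⟨i, he', hp⟩ := ed' e he p hp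
    obtain ⟨j, hq⟩ := Set.mem_iUnion.1 hq
    by_cases hij : i = j
    · subst hij; exact (hF i).f2 e he' u p hp q hq hd'
    · obtain ⟨o, z, hz, h1, -⟩ := cross i j hij p ((hC i).psub e he' hp) q ((hC j).sub u hq) hd'
      exact absurd ((hF i).n2 e he' o p hp z hz) (not_le.2 h1)
  · obtain ⟨i, he', hp⟩ := ed' e he p hp
    obtain ⟨j, hf', hq⟩ := ed' f hf q hq
    by_cases hij : i = j
    · subst hij; exact (hF i).f3 e he' f hf' p hp q hq hd'
    · obtain ⟨o, z, hz, h1, -⟩ :=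
        cross i j hij p ((hC i).psub e he' hp) q ((hC j).psub f hf' hq) hd'
      exact absurd ((hF i).n2 e he' o p hp z hz) (not_le.2 h1)
  · obtain ⟨i, hp⟩ := Set.mem_iUnion.1 hp
    exact (hF i).n1 u b p hp z hz hd'
  · obtain ⟨i, he', hp⟩ := ed' e he p hp
    exact (hF i).n2 e he' b p hp z hz

end Pool.Agent.Lib.MP_f9389f_co
end

-- part Pool.Agent.Lib.MP_f9389f_co.Absorb
section

/-! Absorbing the root of a region and moving to a new root. -/

set_option autoImplicit false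
set_option linter.unusedSectionVars false

namespace Pool.Agent.Lib.MP_f9389f_co

variable {V : Type*} {G : SimpleGraph V} {ρ ι : Type}

/-- The objects: a root and the balls. -/
def ob (Ro : Set V) (Y : ρ → Set V) : Option ρ → Set V
  | none => Ro
  | some i => Y i

/-- The labels of the objects. -/
def lb (a : Option ι) (l : ρ → Option ι) : Option ρ → Option ι
  | none => a
  | some i => l i

variable {K : ℕ} {ℓ : V → Option ι} {E : Set (Sym2 ι)} {wit : Sym2 ι → V} {Y : ρ → Set V}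
  {y0 y1 : ρ → Option ι} {c0 r0 r1 : Option ι} {Dq Df Ro : Set V} {c a' : V}
  {B B2 : ι → Set V} {P : Sym2 ι → Set V} {P2 : Set V}

theorem ob_conn (hY : ∀ i, ∀ z ∈ Y i, ∀ z' ∈ Y i, Rch G (Y i) z z')
    (hRo : ∀ z ∈ Ro, ∀ z' ∈ Ro, z = z') :
    ∀ b, ∀ z ∈ ob Ro Y b, ∀ z' ∈ ob Ro Y b, Rch G (ob Ro Y b) z z'
  | none, z, hz, z', hz' => hRo z hz z' hz' ▸ Rch.refl _
  | some i, z, hz, z', hz' => hY i z hz z' hz'

/-- The combinatorial setting of one step up the forest. -/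
structure Step (G : SimpleGraph V) (ℓ : V → Option ι) (Y : ρ → Set V) (y1 : ρ → Option ι)
    (Dq Ro : Set V) (c : V) (r1 : Option ι) : Prop where
  hY : ∀ i, ∀ z ∈ Y i, ∀ z' ∈ Y i, Rch G (Y i) z z'
  hYl : ∀ i, ∀ z ∈ Y i, ℓ z = y1 i
  hRo : ∀ z ∈ Ro, ∀ z' ∈ Ro, z = z'
  hRl : ∀ z ∈ Ro, ℓ z = r1
  H2 : ∀ u p q, ℓ p = some u → ℓ q = some u → Rch G {x | ℓ x = some u} p q
  q1 : ∀ a ∈ Dq, ∀ b, G.Adj a b → b ∈ Dq ∨ b = c ∨ ∃ i, b ∈ Y i
  q2 : ∀ b, G.Adj c b → b ∈ Dq ∨ b ∈ Ro ∨ ∃ i, b ∈ Y i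
  out : ∀ b, ∀ z ∈ ob Ro Y b, z ∉ insert c Dq
  cD : c ∉ Dq

theorem absC (s : Step G ℓ Y y1 Dq Ro c r1)
    (hC : RealC G Df (ob {a'} Y) (pat G ℓ E wit Dq (ob {c} Y) (lb c0 y0) (lb (ℓ c) y1)) B P)
    (s1 : Df ⊆ insert c Dq) (s2 : ∀ u, B2 u ⊆ insert c Dq)
    (s3 : ∀ e ∈ E, wit e = c → P2 ⊆ insert c Dq) (ha : ∀ u, ℓ c = some u → a' ∈ B2 u)
    (hB2 : ∀ u, ∀ p ∈ B2 u, (ℓ c = some u ∧ Rch G (B2 u) p a') ∨
      (r1 = some u ∧ ∀ z ∈ Ro, Rch G (B2 u ∪ Ro) p z))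
    (hlink : ∀ u, ℓ c = some u → r1 = some u → ∀ z ∈ Ro, G.Adj c z → G.Adj a' z)
    (hed : ∀ u w, s(u, w) ∈ E → wit s(u, w) = c →
      ∃ a ∈ B2 u, ∃ b ∈ B2 w, a ∈ P2 ∧ Rch G P2 a b) :
    RealC G (insert c Dq) (ob Ro Y)
      (pat G ℓ E wit (insert c Dq) (ob Ro Y) (lb r0 y0) (lb r1 y1)) (fun u => B u ∪ B2 u)
      (fun e => {p | (wit e = c ∧ p ∈ P2) ∨ (wit e ≠ c ∧ p ∈ P e)}) := by
  have hOc := ob_conn (Ro := {c}) s.hY (by simp)
  have hOn := ob_conn s.hY s.hRo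
  have up : ∀ u, Cl B (ob {a'} Y) (lb (ℓ c) y1) u ⊆
      Cl (fun u => B u ∪ B2 u) (ob Ro Y) (lb r1 y1) u := by
    rintro u p (hp | ⟨_ | i, h1, h2⟩)
    · exact Or.inl (Or.inl hp)
    · exact Or.inl (Or.inr (h2 ▸ ha u h1))
    · exact Or.inr ⟨some i, h1, h2⟩
  have up2 : ∀ u, B2 u ⊆ Cl (fun u => B u ∪ B2 u) (ob Ro Y) (lb r1 y1) u :=
    fun u p hp => Or.inl (Or.inr hp)
  have inR : ∀ u, r1 = some u → Ro ⊆ Cl (fun u => B u ∪ B2 u) (ob Ro Y) (lb r1 y1) u :=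
    fun u h p hp => Or.inr ⟨none, h, hp⟩
  have inY : ∀ u i, y1 i = some u → Y i ⊆ Cl (fun u => B u ∪ B2 u) (ob Ro Y) (lb r1 y1) u :=
    fun u i h p hp => Or.inr ⟨some i, h, hp⟩
  have qin : ∀ u p, p ∈ insert c Dq → ℓ p = some u →
      p ∈ Cl (res ℓ Dq) (ob {c} Y) (lb (ℓ c) y1) u := by
    rintro u p (rfl | hp) h
    · exact Or.inr ⟨none, h, rfl⟩
    · exact Or.inl ⟨hp, h⟩
  have obl : ∀ b, ∀ z ∈ ob Ro Y b, ℓ z = lb r1 y1 b := by
    rintro (_ | i) z hz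
    · exact s.hRl z hz
    · exact s.hYl i z hz
  have anchor : ∀ u, ℓ c = some u → (∃ b, lb r1 y1 b = some u ∧ ∀ z ∈ ob Ro Y b,
      Rch G (Cl (fun u => B u ∪ B2 u) (ob Ro Y) (lb r1 y1) u) a' z) ∨
        ∀ b, lb r1 y1 b ≠ some u := by
    intro u hu
    by_cases hb : ∃ b, lb r1 y1 b = some u
    swap
    · exact Or.inr fun b h => hb ⟨b, h⟩
    left
    obtain ⟨b, hb⟩ := hb
    rcases (ob Ro Y b).eq_empty_or_nonempty with h0 | ⟨z0, hz0⟩
    · exact ⟨b, hb, by simp [h0]⟩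
    obtain ⟨x, hx, y, hy, hyA, e, hxl, hr⟩ := (s.H2 u c z0 hu ((obl b z0 hz0).trans hb)).exit
      (A := insert c Dq) (Or.inl rfl) (s.out b z0 hz0)
    have hr' := hr.mono fun p hp => qin u p hp.2 hp.1
    have ball : ∀ j, y ∈ Y j → ∃ b, lb r1 y1 b = some u ∧ ∀ z ∈ ob Ro Y b,
        Rch G (Cl (fun u => B u ∪ B2 u) (ob Ro Y) (lb r1 y1) u) a' z := fun j hj => by
      have h1 : lb (ℓ c) y1 (some j) = some u := (s.hYl j y hj).symm.trans hy
      exact ⟨some j, h1, fun z hz => (hC.rel none (some j) u (mem_rel hOc hu h1 rfl hj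
        (hr'.trans (Rch.single e (qin u x hx hxl) (cl_obj h1 hj)))) hu a' rfl z hz).mono (up u)⟩
    rcases hx with rfl | hx
    · rcases s.q2 y e with h | h | ⟨j, h⟩
      · exact absurd (Or.inr h) hyA
      · have h1 : r1 = some u := (s.hRl y h).symm.trans hy
        exact ⟨none, h1, fun z hz => Rch.single (hlink u hu h1 z hz (s.hRo y h z hz ▸ e))
          (up2 u (ha u hu)) (cl_obj (b := none) h1 hz)⟩
      · exact ball j h
    · rcases s.q1 x hx y e with h | h | ⟨j, h⟩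
      · exact absurd (Or.inr h) hyA
      · exact absurd (Or.inl h) hyA
      · exact ball j h
  have viaA : ∀ u, ℓ c = some u → ∀ p,
      Rch G (Cl (fun u => B u ∪ B2 u) (ob Ro Y) (lb r1 y1) u) p a' →
      (∃ b, lb r1 y1 b = some u ∧ ∀ z ∈ ob Ro Y b,
        Rch G (Cl (fun u => B u ∪ B2 u) (ob Ro Y) (lb r1 y1) u) p z) ∨
      ((∀ b, lb r1 y1 b ≠ some u) ∧ ∀ q ∈ B u ∪ B2 u,
        Rch G (Cl (fun u => B u ∪ B2 u) (ob Ro Y) (lb r1 y1) u) p q) := by
    intro u hu p hp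
    rcases anchor u hu with ⟨b, h1, h2⟩ | h1
    · exact Or.inl ⟨b, h1, fun z hz => hp.trans (h2 z hz)⟩
    · refine Or.inr ⟨h1, fun q hq => hp.trans (Rch.symm ?_)⟩
      rcases hq with hq | hq
      · rcases hC.con u q hq with ⟨_ | i, k1, k2⟩ | ⟨k1, -⟩
        · exact (k2 a' rfl).mono (up u)
        · exact absurd k1 (h1 (some i))
        · exact absurd hu (k1 none)
      · rcases hB2 u q hq with ⟨-, k⟩ | ⟨k, -⟩
        · exact k.mono (up2 u)
        · exact absurd k (h1 none)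
  refine ⟨fun u => Set.union_subset ((hC.sub u).trans s1) (s2 u), ?_, ?_, ?_, ?_, ?_, ?_⟩
  · rintro e he p (⟨h1, h2⟩ | ⟨h1, h2⟩)
    · exact s3 e he.1 h1 h2
    · exact s1 (hC.psub e ⟨he.1, he.2.resolve_left h1⟩ h2)
  · rintro u p (hp | hp)
    · rcases hC.ins1 u p hp with ⟨q, h1, h2⟩ | h
      · exact Or.inl ⟨q, Or.inr h1, h2⟩
      · exact Or.inl ⟨c, Or.inl rfl, h⟩
    · rcases hB2 u p hp with ⟨h, -⟩ | ⟨h, -⟩
      · exact Or.inl ⟨c, Or.inl rfl, h⟩
      · exact Or.inr h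
  · rintro u ⟨q, rfl | h1, h2⟩
    · exact ⟨a', Or.inr (ha u h2)⟩
    · exact (hC.ins2 u ⟨q, h1, h2⟩).mono Set.subset_union_left
  · rintro u p (hp | hp)
    · rcases hC.con u p hp with ⟨_ | i, k1, k2⟩ | ⟨k1, k2⟩
      · exact viaA u k1 p ((k2 a' rfl).mono (up u))
      · exact Or.inl ⟨some i, k1, fun z hz => (k2 z hz).mono (up u)⟩
      · by_cases hr : r1 = some u
        · refine Or.inl ⟨none, hr, fun z hz => ?_⟩
          obtain ⟨q, h1, h2⟩ := (hC.ins1 u p hp).resolve_right (k1 none)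
          have : z ∈ Dq := (s.H2 u q z h2 ((s.hRl z hz).trans hr)).ind (P := (· ∈ Dq)) h1
            fun x y _ hy e hx => by
              rcases s.q1 x hx y e with h | rfl | ⟨j, h⟩
              · exact h
              · exact absurd hy (k1 none)
              · exact absurd ((s.hYl j y h).symm.trans hy) (k1 (some j))
          exact absurd (Or.inr this) (s.out none z hz)
        · refine Or.inr ⟨?_, ?_⟩
          · rintro (_ | i)
            · exact hr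
            · exact k1 (some i)
          · rintro q (hq | hq)
            · exact (k2 q hq).mono (up u)
            · rcases hB2 u q hq with ⟨h, -⟩ | ⟨h, -⟩
              · exact absurd h (k1 none)
              · exact absurd h hr
    · rcases hB2 u p hp with ⟨h, k⟩ | ⟨h, k⟩
      · exact viaA u h p (k.mono (up2 u))
      · exact Or.inl ⟨none, h, fun z hz => (k z hz).mono
          (Set.union_subset (up2 u) (inR u h))⟩
  · rintro b b' u ⟨u', h1, h2, h3⟩ h4 z hz z' hz'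
    obtain rfl : u' = u := Option.some.inj (h1.symm.trans h4)
    have key := (h3 z hz z' hz').ind (P := fun q =>
      (r1 = some u' ∧ q ∈ Ro ∧ Rch G (Cl (fun u => B u ∪ B2 u) (ob Ro Y) (lb r1 y1) u') z q) ∨
      ∃ o, lb (ℓ c) y1 o = some u' ∧ (∀ y ∈ ob {a'} Y o,
        Rch G (Cl (fun u => B u ∪ B2 u) (ob Ro Y) (lb r1 y1) u') z y) ∧ ∃ y ∈ ob {c} Y o,
          Rch G (Cl (res ℓ Dq) (ob {c} Y) (lb (ℓ c) y1) u') y q) ?_ ?_
    · rcases key with ⟨-, -, k⟩ | ⟨o, k1, k2, y, hy, k3⟩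
      · exact k
      · cases b' with
        | none =>
          have := k3.mem (cl_obj k1 hy)
          rcases this with ⟨k4, -⟩ | ⟨_ | j, k4, k5⟩
          · exact absurd (Or.inr k4) (s.out none z' hz')
          · exact absurd (Or.inl k5) (s.out none z' hz')
          · have hrel := mem_rel (E := E) (wit := wit) (l0 := lb c0 y0) hOc k1 k4 hy k5 k3
            cases o with
            | none => exact (k2 a' rfl).trans ((hC.rel _ _ u' hrel k1 a' rfl z' k5).mono (up u'))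
            | some i => exact (k2 y hy).trans ((hC.rel _ _ u' hrel k1 y hy z' k5).mono (up u'))
        | some j =>
          have hrel := mem_rel (E := E) (wit := wit) (l0 := lb c0 y0) (b' := some j) hOc k1 h2
            hy hz' k3
          cases o with
          | none => exact (k2 a' rfl).trans ((hC.rel _ _ u' hrel k1 a' rfl z' hz').mono (up u'))
          | some i => exact (k2 y hy).trans ((hC.rel _ _ u' hrel k1 y hy z' hz').mono (up u'))
    · cases b with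
      | none => exact Or.inl ⟨h1, hz, Rch.refl _⟩
      | some i => exact Or.inr ⟨some i, h1, fun y hy =>
          (s.hY i z hz y hy).mono (inY u' i h1), z, hz, Rch.refl _⟩
    · rintro q q' hq hq' e hP
      have dich : ∀ x ∈ Cl (res ℓ (insert c Dq)) (ob Ro Y) (lb r1 y1) u',
          x ∈ Cl (res ℓ Dq) (ob {c} Y) (lb (ℓ c) y1) u' ∨ (r1 = some u' ∧ x ∈ Ro) := by
        rintro x (⟨a1, a2⟩ | ⟨_ | i, a1, a2⟩)
        · exact Or.inl (qin u' x a1 a2)
        · exact Or.inr ⟨a1, a2⟩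
        · exact Or.inl (Or.inr ⟨some i, a1, a2⟩)
      have notin : ∀ x ∈ Ro, ∀ y ∈ Dq, G.Adj y x → ∃ i, x ∈ Y i := fun x hx y hy e => by
        rcases s.q1 y hy x e with h | h | h
        · exact absurd (Or.inr h) (s.out none x hx)
        · exact absurd (Or.inl h) (s.out none x hx)
        · exact h
      rcases hP with ⟨k1, k2, k3⟩ | ⟨o, k1, k2, y, hy, k3⟩
      · rcases dich q' hq' with (⟨a1, a2⟩ | ⟨_ | i, a1, a2⟩) | ⟨a1, a2⟩
        · obtain ⟨i, hi⟩ := notin q k2 q' a1 e.symm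
          have h5 : lb (ℓ c) y1 (some i) = some u' :=
            (s.hYl i q hi).symm.trans ((s.hRl q k2).trans k1)
          exact Or.inr ⟨some i, h5, fun y hy => k3.trans
            ((s.hY i q hi y hy).mono (inY u' i h5)), q, hi,
            Rch.single e (cl_obj h5 hi) (Or.inl ⟨a1, a2⟩)⟩
        · obtain rfl : q' = c := a2
          refine Or.inr ⟨none, a1, fun y hy => ?_, q', rfl, Rch.refl _⟩
          obtain rfl : y = a' := hy
          exact k3.trans (Rch.single (hlink u' a1 k1 q k2 e.symm).symm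
            (cl_obj (b := none) k1 k2) (up2 u' (ha u' a1)))
        · exact Or.inr ⟨some i, a1, fun y hy => (k3.trans (Rch.single e (cl_obj (b := none) k1 k2)
            (inY u' i a1 a2))).trans
            ((s.hY i q' a2 y hy).mono (inY u' i a1)), q', a2, Rch.refl _⟩
        · exact absurd (s.hRo q k2 q' a2) e.ne
      · have hq0 := k3.mem (cl_obj k1 hy)
        rcases dich q' hq' with a1 | ⟨a1, a2⟩
        · exact Or.inr ⟨o, k1, k2, y, hy, k3.trans (Rch.single e hq0 a1)⟩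
        · have fat : ∀ o', lb (ℓ c) y1 o' = some u' → (∃ t ∈ ob {c} Y o',
              Rch G (Cl (res ℓ Dq) (ob {c} Y) (lb (ℓ c) y1) u') y t) → ∀ t ∈ ob {a'} Y o',
              Rch G (Cl (fun u => B u ∪ B2 u) (ob Ro Y) (lb r1 y1) u') z t := by
            rintro o' k4 ⟨t, ht, k5⟩ t' ht'
            have hrel := mem_rel (E := E) (wit := wit) (l0 := lb c0 y0) hOc k1 k4 hy ht k5
            cases o with
            | none => exact (k2 a' rfl).trans ((hC.rel _ _ u' hrel k1 a' rfl t' ht').mono (up u'))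
            | some i => exact (k2 y hy).trans ((hC.rel _ _ u' hrel k1 y hy t' ht').mono (up u'))
          refine Or.inl ⟨a1, a2, ?_⟩
          rcases hq0 with ⟨b1, -⟩ | ⟨_ | i, b1, b2⟩
          · obtain ⟨i, hi⟩ := notin q' a2 q b1 e
            have h5 : lb (ℓ c) y1 (some i) = some u' :=
              (s.hYl i q' hi).symm.trans ((s.hRl q' a2).trans a1)
            exact fat (some i) h5 ⟨q', hi, k3.trans (Rch.single e (k3.mem (cl_obj k1 hy))
              (cl_obj h5 hi))⟩ q' hi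
          · obtain rfl : q = c := b2
            exact (fat none b1 ⟨q, rfl, k3⟩ a' rfl).trans (Rch.single (hlink u' b1 a1 q' a2 e)
              (up2 u' (ha u' b1)) (cl_obj (b := none) a1 a2))
          · exact (fat (some i) b1 ⟨q, b2, k3⟩ q b2).trans (Rch.single e
              (inY u' i b1 b2) (inR u' a1 a2))
  · intro u w he
    by_cases h : wit s(u, w) = c
    · obtain ⟨a, h1, b, h2, h3, h4⟩ := hed u w he.1 h
      exact ⟨a, up2 u h1, b, up2 w h2, Or.inl ⟨h, h3⟩, h4.mono fun p hp => Or.inl ⟨h, hp⟩⟩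
    · obtain ⟨a, h1, b, h2, h3, h4⟩ := hC.ed u w ⟨he.1, he.2.resolve_left h⟩
      exact ⟨a, up u h1, b, up w h2, Or.inr ⟨h, h3⟩, h4.mono fun p hp => Or.inr ⟨h, hp⟩⟩

theorem abs1 (s : Step G ℓ Y y1 Dq Ro c r1)
    (h : Rz G K Df (ob {a'} Y) (pat G ℓ E wit Dq (ob {c} Y) (lb c0 y0) (lb (ℓ c) y1)))
    (hc0 : ∀ u, ℓ c = some u → c0 = some u) (s1 : insert a' Df ⊆ insert c Dq)
    (hne : ∀ e ∈ E, wit e ≠ c)
    (hlink : ∀ u, ℓ c = some u → r1 = some u → ∀ z ∈ Ro, G.Adj c z → G.Adj a' z)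
    (haY : ∀ i, ∀ y ∈ Y i, G.dist a' y < K → y0 i = c0)
    (hRo : ∀ p ∈ insert a' Df, ∀ z ∈ Ro, G.dist p z < K →
      (G.dist p a' < K ∧ r0 = c0) ∨ ∃ i, ∃ y ∈ Y i, G.dist p y < K ∧ y0 i = r0) :
    Rz G K (insert c Dq) (ob Ro Y)
      (pat G ℓ E wit (insert c Dq) (ob Ro Y) (lb r0 y0) (lb r1 y1)) := by
  obtain ⟨B, P, hC, hF⟩ := h
  have old : ∀ e ∈ (pat G ℓ E wit (insert c Dq) (ob Ro Y) (lb r0 y0) (lb r1 y1)).ed, ∀ p,
      (wit e = c ∧ p ∈ (∅ : Set V)) ∨ (wit e ≠ c ∧ p ∈ P e) →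
      e ∈ (pat G ℓ E wit Dq (ob {c} Y) (lb c0 y0) (lb (ℓ c) y1)).ed ∧ p ∈ P e := by
    rintro e he p (⟨-, h⟩ | ⟨h1, h2⟩)
    · exact h.elim
    · exact ⟨⟨he.1, he.2.resolve_left h1⟩, h2⟩
  have n1 : ∀ u, ∀ p ∈ B u, G.dist p a' < K → c0 = some u := fun u p hp h =>
    hF.n1 u none p hp a' rfl h
  refine ⟨_, _, absC (B2 := fun u => {p | p = a' ∧ ℓ c = some u}) (P2 := ∅) s hC
    ((Set.subset_insert _ _).trans s1) (fun u p hp => s1 (Or.inl hp.1)) (by simp)
    (fun u h => ⟨rfl, h⟩) (fun u p hp => Or.inl ⟨hp.2, hp.1 ▸ Rch.refl _⟩) hlink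
    (fun u w he h => absurd h (hne _ he)), ?_, ?_, ?_, ?_, ?_⟩
  · rintro u w p (hp | ⟨rfl, hp⟩) q (hq | ⟨rfl, hq⟩) hd
    · exact hF.f1 u w p hp q hq hd
    · exact Option.some.inj ((n1 u p hp hd).symm.trans (hc0 w hq))
    · rw [SimpleGraph.dist_comm] at hd
      exact Option.some.inj ((hc0 u hp).symm.trans (n1 w q hq hd))
    · exact Option.some.inj (hp.symm.trans hq)
  · rintro e he u p hp q (hq | ⟨rfl, -⟩) hd
    · exact hF.f2 e (old e he p hp).1 u p (old e he p hp).2 q hq hd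
    · exact absurd (hF.n2 e (old e he p hp).1 none p (old e he p hp).2 q rfl) (not_le.2 hd)
  · intro e he f hf p hp q hq hd
    exact hF.f3 e (old e he p hp).1 f (old f hf q hq).1 p (old e he p hp).2 q (old f hf q hq).2 hd
  · rintro u (_ | i) p (hp | ⟨rfl, hp⟩) z hz hd
    · rcases hRo p (Or.inr (hC.sub u hp)) z hz hd with ⟨h1, h2⟩ | ⟨i, y, hy, h1, h2⟩
      · exact h2.trans (n1 u p hp h1)
      · exact h2.symm.trans (hF.n1 u (some i) p hp y hy h1)
    · rcases hRo p (Or.inl rfl) z hz hd with ⟨-, h2⟩ | ⟨i, y, hy, h1, h2⟩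
      · exact h2.trans (hc0 u hp)
      · exact h2.symm.trans ((haY i y hy h1).trans (hc0 u hp))
    · exact hF.n1 u (some i) p hp z hz hd
    · exact (haY i z hz hd).trans (hc0 u hp)
  · rintro e he (_ | i) p hp z hz
    · obtain ⟨h1, h2⟩ := old e he p hp
      by_contra hd
      rcases hRo p (Or.inr (hC.psub e h1 h2)) z hz (not_le.1 hd) with ⟨h3, -⟩ | ⟨i, y, hy, h3, -⟩
      · exact absurd (hF.n2 e h1 none p h2 a' rfl) (not_le.2 h3)
      · exact absurd (hF.n2 e h1 (some i) p h2 y hy) (not_le.2 h3)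
    · exact hF.n2 e (old e he p hp).1 (some i) p (old e he p hp).2 z hz

theorem rch_seq {S : Set V} {z : ℕ → V} {a b : ℕ} (hab : a ≤ b)
    (h1 : ∀ j, a ≤ j → j < b → G.Adj (z j) (z (j + 1))) (h2 : ∀ j, a ≤ j → j ≤ b → z j ∈ S) :
    Rch G S (z a) (z b) := by
  induction b, hab using Nat.le_induction with
  | base => exact Rch.refl _
  | succ b hab ih =>
    exact (ih (fun j k1 k2 => h1 j k1 (by omega)) fun j k1 k2 => h2 j k1 (by omega)).trans
      (Rch.single (h1 b hab (by omega)) (h2 b hab (by omega)) (h2 _ (by omega) le_rfl))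

theorem abs2 {v : V} {u0 w0 : ι} {z : ℕ → V} {m : ℕ} (s : Step G ℓ Y y1 Dq {v} c (some u0))
    (h : Rz G K Df (ob {z 0} Y) (pat G ℓ E wit Dq (ob {c} Y) (lb (some w0) y0) (lb (ℓ c) y1)))
    (hc : ℓ c = some w0) (huw : u0 ≠ w0) (s1 : Df ⊆ insert c Dq)
    (hwit : ∀ e ∈ E, wit e = c → e = s(u0, w0)) (hK : 1 ≤ K) (hm : 3 * K ≤ m + 1)
    (hv : z (m + 1) = v) (hadj : ∀ j ≤ m, G.Adj (z j) (z (j + 1)))
    (hz : ∀ j ≤ m, z j ∈ insert c Dq)
    (Z1 : ∀ j j', j + K ≤ j' → j' ≤ m + 1 → K ≤ G.dist (z j) (z j'))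
    (Z2 : ∀ p ∈ Df, ∀ j ≤ m, G.dist p (z j) < K → G.dist p (z 0) < K ∧ j < K)
    (Z3 : ∀ j ≤ m, ∀ i, ∀ y ∈ Y i, K ≤ G.dist (z j) y)
    (Z5 : ∀ p ∈ Df, G.dist p v < K → ∃ i, ∃ y ∈ Y i, G.dist p y < K ∧ y0 i = some u0) :
    Rz G K (insert c Dq) (ob {v} Y)
      (pat G ℓ E wit (insert c Dq) (ob {v} Y) (lb (some u0) y0) (lb (some u0) y1)) := by
  obtain ⟨B, P, hC, hF⟩ := h
  have old : ∀ e ∈ (pat G ℓ E wit (insert c Dq) (ob {v} Y) (lb (some u0) y0)
      (lb (some u0) y1)).ed, wit e ≠ c →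
      e ∈ (pat G ℓ E wit Dq (ob {c} Y) (lb (some w0) y0) (lb (ℓ c) y1)).ed :=
    fun e he h1 => ⟨he.1, he.2.resolve_left h1⟩
  have Z2' : ∀ p ∈ Df, ∀ j ≤ m, G.dist (z j) p < K → G.dist p (z 0) < K ∧ j < K :=
    fun p hp j hj hd => Z2 p hp j hj (SimpleGraph.dist_comm ▸ hd)
  refine ⟨_, _, absC (B2 := fun u => {p | (u = w0 ∧ ∃ j ≤ K, p = z j) ∨
      (u = u0 ∧ ∃ j, m + 1 ≤ j + K ∧ j ≤ m ∧ p = z j)})
    (P2 := {p | ∃ j, K ≤ j ∧ j + K ≤ m + 1 ∧ p = z j}) s hC s1 ?_ ?_ ?_ ?_ ?_ ?_,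
    ?_, ?_, ?_, ?_, ?_⟩
  · rintro u p (⟨-, j, h1, rfl⟩ | ⟨-, j, -, h1, rfl⟩)
    · exact hz j (by omega)
    · exact hz j h1
  · rintro e - - p ⟨j, -, h1, rfl⟩
    exact hz j (by omega)
  · intro u hu
    exact Or.inl ⟨Option.some.inj (hu.symm.trans hc), 0, by omega, rfl⟩
  · rintro u p (⟨rfl, j, h1, rfl⟩ | ⟨rfl, j, h1, h2, rfl⟩)
    · exact Or.inl ⟨hc, (rch_seq (Nat.zero_le j) (fun i _ _ => hadj i (by omega))
        fun i _ _ => Or.inl ⟨rfl, i, by omega, rfl⟩).symm⟩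
    · refine Or.inr ⟨rfl, fun y hy => ?_⟩
      obtain rfl : y = v := hy
      rw [← hv]
      refine rch_seq (by omega) (fun i _ _ => hadj i (by omega)) fun i k1 k2 => ?_
      by_cases hi : i ≤ m
      · exact Or.inl (Or.inr ⟨rfl, i, by omega, hi, rfl⟩)
      · obtain rfl : i = m + 1 := by omega
        exact Or.inr rfl
  · intro u h1 h2
    exact absurd (Option.some.inj (h2.trans (h1.symm.trans hc))) huw
  · intro u w he hw
    have key : Rch G {p | ∃ j, K ≤ j ∧ j + K ≤ m + 1 ∧ p = z j} (z K) (z (m + 1 - K)) :=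
      rch_seq (by omega) (fun i _ _ => hadj i (by omega)) fun i _ _ => ⟨i, by omega, by omega, rfl⟩
    rcases Sym2.eq_iff.1 (hwit _ he hw) with ⟨rfl, rfl⟩ | ⟨rfl, rfl⟩
    · exact ⟨_, Or.inr ⟨rfl, m + 1 - K, by omega, by omega, rfl⟩, _, Or.inl ⟨rfl, K, le_rfl, rfl⟩,
        ⟨m + 1 - K, by omega, by omega, rfl⟩, key.symm⟩
    · exact ⟨_, Or.inl ⟨rfl, K, le_rfl, rfl⟩, _, Or.inr ⟨rfl, m + 1 - K, by omega, by omega, rfl⟩,
        ⟨K, by omega, by omega, rfl⟩, key⟩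
  · have k1 : ∀ u w, ∀ p ∈ B u, ∀ q, ((w = w0 ∧ ∃ j ≤ K, q = z j) ∨
        (w = u0 ∧ ∃ j, m + 1 ≤ j + K ∧ j ≤ m ∧ q = z j)) → G.dist p q < K → u = w := by
      rintro u w p hp q (⟨rfl, j, h1, rfl⟩ | ⟨rfl, j, h1, h2, rfl⟩) hd
      · exact (Option.some.inj (hF.n1 u none p hp _ rfl
          (Z2 p (hC.sub u hp) j (by omega) hd).1)).symm
      · have := (Z2 p (hC.sub u hp) j h2 hd).2
        omega
    rintro u w p (hp | hp) q (hq | hq) hd
    · exact hF.f1 u w p hp q hq hd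
    · exact k1 u w p hp q hq hd
    · exact (k1 w u q hq p hp (SimpleGraph.dist_comm ▸ hd)).symm
    · rcases hp with ⟨rfl, j, h1, rfl⟩ | ⟨rfl, j, h1, h2, rfl⟩ <;>
        rcases hq with ⟨rfl, j', h3, rfl⟩ | ⟨rfl, j', h3, h4, rfl⟩
      · rfl
      · exact absurd (Z1 j j' (by omega) (by omega)) (not_le.2 hd)
      · rw [SimpleGraph.dist_comm] at hd
        exact absurd (Z1 j' j (by omega) (by omega)) (not_le.2 hd)
      · rfl
  · rintro e he u p (⟨h1, j, h2, h3, rfl⟩ | ⟨h1, hp⟩) q (hq | hq) hd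
    · have := (Z2' q (hC.sub u hq) j (by omega) hd).2
      omega
    · rw [hwit e he.1 h1]
      rcases hq with ⟨rfl, -⟩ | ⟨rfl, -⟩ <;> simp
    · exact hF.f2 e (old e he h1) u p hp q hq hd
    · have : ∃ j ≤ m, q = z j := by
        rcases hq with ⟨-, j, k, rfl⟩ | ⟨-, j, -, k, rfl⟩
        · exact ⟨j, by omega, rfl⟩
        · exact ⟨j, k, rfl⟩
      obtain ⟨j, k, rfl⟩ := this
      exact absurd (hF.n2 e (old e he h1) none p hp _ rfl)
        (not_le.2 (Z2 p (hC.psub e (old e he h1) hp) j k hd).1)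
  · rintro e he f hf p (⟨h1, j, h2, h3, rfl⟩ | ⟨h1, hp⟩) q (⟨h4, j', h5, h6, rfl⟩ | ⟨h4, hq⟩) hd
    · rw [hwit e he.1 h1, hwit f hf.1 h4]
    · have := (Z2' q (hC.psub f (old f hf h4) hq) j (by omega) hd).2
      omega
    · have := (Z2 p (hC.psub e (old e he h1) hp) j' (by omega) hd).2
      omega
    · exact hF.f3 e (old e he h1) f (old f hf h4) p hp q hq hd
  · rintro u (_ | i) p (hp | hp) y hy hd
    · obtain rfl : y = v := hy
      obtain ⟨i, y', hy', h1, h2⟩ := Z5 p (hC.sub u hp) hd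
      exact h2.symm.trans (hF.n1 u (some i) p hp y' hy' h1)
    · obtain rfl : y = v := hy
      rcases hp with ⟨rfl, j, h1, rfl⟩ | ⟨rfl, -⟩
      · exact absurd (hv ▸ Z1 j (m + 1) (by omega) le_rfl) (not_le.2 hd)
      · rfl
    · exact hF.n1 u (some i) p hp y hy hd
    · rcases hp with ⟨-, j, k, rfl⟩ | ⟨-, j, -, k, rfl⟩
      · exact absurd (Z3 j (by omega) i y hy) (not_le.2 hd)
      · exact absurd (Z3 j k i y hy) (not_le.2 hd)
  · rintro e he (_ | i) p (⟨h1, j, h2, h3, rfl⟩ | ⟨h1, hp⟩) y hy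
    · obtain rfl : y = v := hy
      exact hv ▸ Z1 j (m + 1) h3 le_rfl
    · obtain rfl : y = v := hy
      by_contra hd
      obtain ⟨i, y', hy', k1, -⟩ := Z5 p (hC.psub e (old e he h1) hp) (not_le.1 hd)
      exact absurd (hF.n2 e (old e he h1) (some i) p hp y' hy') (not_le.2 k1)
    · exact Z3 j (by omega) i y hy
    · exact hF.n2 e (old e he h1) (some i) p hp y hy

end Pool.Agent.Lib.MP_f9389f_co
end

-- part Pool.Agent.Lib.MP_f9389f_co.Forest
section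

/-! Rooted forests, the cut rule, and the lifting of models along the forest. -/

set_option autoImplicit false
set_option linter.unusedSectionVars false

namespace Pool.Agent.Lib.MP_f9389f_co

variable {V : Type*} {G : SimpleGraph V} {ρ ι : Type}

/-- Parent and depth functions of a rooted forest on `U`. -/
structure Rooted (G : SimpleGraph V) (U : Set V) (par : V → V) (dep : V → ℕ) : Prop where
  mem : ∀ a ∈ U, 0 < dep a → par a ∈ U
  adj : ∀ a ∈ U, 0 < dep a → G.Adj a (par a)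
  dp : ∀ a ∈ U, 0 < dep a → dep (par a) + 1 = dep a
  edge : ∀ a ∈ U, ∀ b ∈ U, G.Adj a b → (0 < dep a ∧ par a = b) ∨ (0 < dep b ∧ par b = a)

theorem rooted_univ {F : SimpleGraph V} (h : F.IsAcyclic) :
    ∃ par dep, Rooted F Set.univ par dep := by
  classical
  let rt : V → V := fun a => (F.connectedComponentMk a).out
  have hr : ∀ a, F.Reachable (rt a) a := fun a =>
    SimpleGraph.ConnectedComponent.exact (F.connectedComponentMk a).out_eq
  have he : ∀ a b, F.Adj a b → rt a = rt b := fun a b e => by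
    simp only [rt, SimpleGraph.ConnectedComponent.sound e.reachable]
  have ex : ∀ a, ∃ b, 0 < F.dist (rt a) a → F.Adj a b ∧ F.dist (rt a) b + 1 = F.dist (rt a) a := by
    intro a
    by_cases h0 : 0 < F.dist (rt a) a
    · obtain ⟨w, hw⟩ := (hr a).symm.exists_walk_length_eq_dist
      have hne : a ≠ rt a := fun e => by rw [← e] at h0; simp at h0
      obtain ⟨b, e, w', rfl⟩ := w.exists_eq_cons_of_ne hne
      refine ⟨b, fun _ => ⟨e, ?_⟩⟩
      have h1 := SimpleGraph.dist_le w'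
      have h2 := h.dist_eq_dist_add_one_of_adj_of_reachable (rt a) e (hr a)
      simp only [SimpleGraph.Walk.length_cons] at hw
      rw [SimpleGraph.dist_comm] at hw h1
      omega
    · exact ⟨a, fun h' => absurd h' h0⟩
  choose par hp using ex
  have uniq : ∀ a b b', F.Adj a b → F.Adj a b' → F.dist (rt a) b + 1 = F.dist (rt a) a →
      F.dist (rt a) b' + 1 = F.dist (rt a) a → b = b' := by
    intro a b b' e e' h1 h2
    obtain ⟨p, hp⟩ := ((hr a).trans e.reachable).exists_walk_length_eq_dist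
    obtain ⟨q, hq⟩ := ((hr a).trans e'.reachable).exists_walk_length_eq_dist
    have k1 := (p.concat e.symm).isPath_of_length_eq_dist (by simp; omega)
    have k2 := (q.concat e'.symm).isPath_of_length_eq_dist (by simp; omega)
    have := congrArg (fun w : F.Path (rt a) a => w.1.penultimate)
      ((h.subsingleton_path _ _).elim ⟨_, k1⟩ ⟨_, k2⟩)
    simpa using this
  refine ⟨par, fun a => F.dist (rt a) a, fun _ _ _ => trivial, fun a _ h0 => (hp a h0).1,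
    fun a _ h0 => ?_, fun a _ b _ e => ?_⟩
  · rw [← he _ _ (hp a h0).1]; exact (hp a h0).2
  · rcases h.dist_eq_dist_add_one_of_adj_of_reachable (rt a) e (hr a) with k | k
    · have h0 : 0 < F.dist (rt a) a := by omega
      exact Or.inl ⟨h0, uniq a _ _ (hp a h0).1 e (hp a h0).2 k.symm⟩
    · rw [he a b e] at k
      have h0 : 0 < F.dist (rt b) b := by omega
      exact Or.inr ⟨h0, uniq b _ _ (hp b h0).1 e.symm (hp b h0).2 k.symm⟩

theorem exists_rooted {U : Set V} (h : (G.induce U).IsAcyclic) :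
    ∃ par dep, Rooted G U par dep := by
  classical
  obtain ⟨par, dep, hr⟩ := rooted_univ h
  refine ⟨fun a => if ha : a ∈ U then (par ⟨a, ha⟩).1 else a,
    fun a => if ha : a ∈ U then dep ⟨a, ha⟩ else 0, fun a ha _ => ?_, fun a ha h0 => ?_,
    fun a ha h0 => ?_, fun a ha b hb e => ?_⟩
  · simp only [dif_pos ha]; exact (par ⟨a, ha⟩).2
  · simp only [dif_pos ha] at h0 ⊢; exact hr.adj ⟨a, ha⟩ trivial h0
  · simp only [dif_pos ha, dif_pos (par ⟨a, ha⟩).2] at h0 ⊢; exact hr.dp ⟨a, ha⟩ trivial h0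
  · simp only [dif_pos ha, dif_pos hb]
    exact (hr.edge ⟨a, ha⟩ trivial ⟨b, hb⟩ trivial e).imp
      (fun h => ⟨h.1, congrArg Subtype.val h.2⟩) fun h => ⟨h.1, congrArg Subtype.val h.2⟩

/-- The vertices outside all balls. -/
def Out (Y : ρ → Set V) : Set V := {p | ∀ i, p ∉ Y i}

/-- The subtree below `v`. -/
def Tr (U : Set V) (par : V → V) (dep : V → ℕ) (v : V) : Set V :=
  {p | p ∈ U ∧ ∃ j ≤ dep p, par^[j] p = v}

variable {U : Set V} {par : V → V} {dep : V → ℕ} {Y : ρ → Set V} {K : ℕ}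

theorem Rooted.it (h : Rooted G U par dep) {p : V} (hp : p ∈ U) {j : ℕ} (hj : j ≤ dep p) :
    par^[j] p ∈ U ∧ dep (par^[j] p) + j = dep p := by
  induction j with
  | zero => exact ⟨hp, rfl⟩
  | succ j ih =>
    obtain ⟨h1, h2⟩ := ih (by omega)
    rw [Function.iterate_succ_apply']
    have := h.dp _ h1 (by omega)
    exact ⟨h.mem _ h1 (by omega), by omega⟩

theorem tr_self {v : V} (hv : v ∈ U) : v ∈ Tr U par dep v := ⟨hv, 0, by omega, rfl⟩

theorem Rooted.tr_dep (h : Rooted G U par dep) {p v : V} (hp : p ∈ Tr U par dep v) :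
    dep v ≤ dep p ∧ (dep p ≤ dep v → p = v) := by
  obtain ⟨h1, j, h2, rfl⟩ := hp
  have := (h.it h1 h2).2
  refine ⟨by omega, fun h' => ?_⟩
  obtain rfl : j = 0 := by omega
  rfl

theorem Rooted.tr_trans (h : Rooted G U par dep) {p a c : V} (hp : p ∈ Tr U par dep a)
    (ha : a ∈ Tr U par dep c) : p ∈ Tr U par dep c := by
  obtain ⟨h1, j, h2, rfl⟩ := hp
  obtain ⟨-, k, h4, rfl⟩ := ha
  have := (h.it h1 h2).2
  exact ⟨h1, k + j, by omega, Function.iterate_add_apply _ _ _ _⟩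

theorem tr_par {c : V} (hc : c ∈ U) (h0 : 0 < dep c) : c ∈ Tr U par dep (par c) :=
  ⟨hc, 1, h0, rfl⟩

theorem Rooted.tr_uniq (h : Rooted G U par dep) {p c c' : V} (h1 : p ∈ Tr U par dep c)
    (h2 : p ∈ Tr U par dep c') (e : dep c = dep c') : c = c' := by
  obtain ⟨hp, j, hj, rfl⟩ := h1
  obtain ⟨-, k, hk, rfl⟩ := h2
  have := (h.it hp hj).2
  have := (h.it hp hk).2
  obtain rfl : j = k := by omega
  rfl

theorem Rooted.tr_split (h : Rooted G U par dep) {p v : V} (hp : p ∈ Tr U par dep v)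
    (hne : p ≠ v) : (0 < dep p ∧ par p ∈ Tr U par dep v) ∧
      ∃ c ∈ U, 0 < dep c ∧ par c = v ∧ p ∈ Tr U par dep c := by
  obtain ⟨h1, j, h2, rfl⟩ := hp
  cases j with
  | zero => exact absurd rfl hne
  | succ j =>
    have := h.dp p h1 (by omega)
    have k := h.it h1 (show j ≤ dep p by omega)
    exact ⟨⟨by omega, h.mem p h1 (by omega), j, by omega, rfl⟩, par^[j] p, k.1, by omega,
      (Function.iterate_succ_apply' _ _ _).symm, h1, j, by omega, rfl⟩

theorem Rooted.tr_edge (h : Rooted G (Out Y) par dep) {p q v : V} (hp : p ∈ Tr (Out Y) par dep v)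
    (e : G.Adj p q) : q ∈ Tr (Out Y) par dep v ∨ (∃ i, q ∈ Y i) ∨
      (p = v ∧ 0 < dep v ∧ par v = q) := by
  by_cases hq : q ∈ Out Y
  · rcases h.edge p hp.1 q hq e with ⟨h1, rfl⟩ | ⟨h1, rfl⟩
    · by_cases hpv : p = v
      · subst hpv; exact Or.inr (Or.inr ⟨rfl, h1, rfl⟩)
      · exact Or.inl (h.tr_split hp hpv).1.2
    · exact Or.inl (h.tr_trans (tr_par hq h1) hp)
  · simp only [Out, Set.mem_ofPred_eq, not_forall, not_not] at hq
    exact Or.inr (Or.inl hq)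

theorem Rooted.lip (h : Rooted G (Out Y) par dep) (hG : G.Connected) {p q : V} (hp : p ∈ Out Y) :
    dep q ≤ dep p + G.dist p q ∨ ∃ i, ∃ y ∈ Y i, G.dist p y + G.dist y q ≤ G.dist p q := by
  obtain ⟨w, hw⟩ := hG.exists_walk_length_eq_dist p q
  rw [← hw]
  clear hw
  induction w with
  | nil => left; simp
  | @cons a b c e w ih =>
    simp only [SimpleGraph.Walk.length_cons]
    by_cases hb : b ∈ Out Y
    · rcases ih hb with k | ⟨i, y, hy, k⟩
      · left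
        rcases h.edge a hp b hb e with ⟨h1, rfl⟩ | ⟨h1, rfl⟩
        · have := h.dp a hp h1; omega
        · have := h.dp b hb h1; omega
      · have := dist_adj hG e y
        exact Or.inr ⟨i, y, hy, by omega⟩
    · simp only [Out, Set.mem_ofPred_eq, not_forall, not_not] at hb
      obtain ⟨i, hi⟩ := hb
      have := SimpleGraph.dist_le w
      refine Or.inr ⟨i, b, hi, ?_⟩
      rw [SimpleGraph.dist_eq_one_iff_adj.2 e]
      omega

/-- The subtree below `v` without `v`. -/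
def Dn (Y : ρ → Set V) (par : V → V) (dep : V → ℕ) (v : V) : Set V :=
  {p | p ∈ Tr (Out Y) par dep v ∧ p ≠ v}

theorem insert_dn {v : V} (hv : v ∈ Out Y) :
    insert v (Dn Y par dep v) = Tr (Out Y) par dep v := by
  ext p
  constructor
  · rintro (rfl | h)
    · exact tr_self hv
    · exact h.1
  · intro h
    by_cases e : p = v
    · exact Or.inl e
    · exact Or.inr ⟨h, e⟩

theorem Rooted.dn_edge (h : Rooted G (Out Y) par dep) {v : V} :
    ∀ a ∈ Dn Y par dep v, ∀ b, G.Adj a b → b ∈ Dn Y par dep v ∨ b = v ∨ ∃ i, b ∈ Y i := by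
  intro a ha b e
  rcases h.tr_edge ha.1 e with k | k | k
  · by_cases e' : b = v
    · exact Or.inr (Or.inl e')
    · exact Or.inl ⟨k, e'⟩
  · exact Or.inr (Or.inr k)
  · exact absurd k.1 ha.2

theorem Rooted.dn_sep (h : Rooted G (Out Y) par dep) (hG : G.Connected) {v p q : V}
    (hp : p ∈ Dn Y par dep v) (hq : q ∉ Dn Y par dep v) :
    G.dist p v + G.dist v q ≤ G.dist p q ∨
      ∃ i, ∃ y ∈ Y i, G.dist p y + G.dist y q ≤ G.dist p q := by
  obtain ⟨z, rfl | ⟨i, hz⟩, k⟩ := sep hG (Z := {b | b = v ∨ ∃ i, b ∈ Y i}) h.dn_edge hp hq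
  · exact Or.inl k
  · exact Or.inr ⟨i, z, hz, k⟩

/-- Far from all balls. -/
def Fr (G : SimpleGraph V) (K : ℕ) (Y : ρ → Set V) (p : V) : Prop :=
  ∀ i, ∀ y ∈ Y i, K ≤ G.dist p y

/-- The set of patterns with a fat realization below `v`. -/
def tp (ι : Type) (G : SimpleGraph V) (K : ℕ) (Y : ρ → Set V) (par : V → V) (dep : V → ℕ)
    (v : V) : Set (Pat ρ ι) := {π | Rz G K (Dn Y par dep v) (ob {v} Y) π}

/-- The edge above `c` is cut. -/
def Cut (ι : Type) (G : SimpleGraph V) (K : ℕ) (Y : ρ → Set V) (par : V → V) (dep : V → ℕ)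
    (c : V) : Prop :=
  c ∈ Out Y ∧ 0 < dep c ∧ ∃ a ∈ Out Y, ∃ m ≤ dep a, par^[m] a = c ∧ 3 * K ≤ m ∧
    (∀ j ≤ m, Fr G K Y (par^[j] a)) ∧ tp ι G K Y par dep a = tp ι G K Y par dep c

/-- A model that is constant along the edges that are not cut. -/
structure Model (G : SimpleGraph V) (K : ℕ) (Y : ρ → Set V) (par : V → V) (dep : V → ℕ)
    (ℓ0 ℓ : V → Option ι) (y0 y1 : ρ → Option ι) (E : Set (Sym2 ι)) (wit : Sym2 ι → V)
    (h : ℕ) : Prop where
  hY : ∀ i, ∀ z ∈ Y i, ∀ z' ∈ Y i, Rch G (Y i) z z'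
  un : ∀ c ∈ Out Y, 0 < dep c → ¬ Cut ι G K Y par dep c → ℓ0 c = ℓ0 (par c)
  near : ∀ p i, ∀ y ∈ Y i, G.dist p y < K → y0 i = ℓ0 p
  H1 : ∀ p u, ℓ p = some u → ℓ0 p = some u
  H2 : ∀ u p q, ℓ p = some u → ℓ q = some u → Rch G {x | ℓ x = some u} p q
  hYl : ∀ i, ∀ z ∈ Y i, ℓ z = y1 i
  H4 : ∀ p ∈ Out Y, h < dep p → ℓ p = none
  H5 : ∀ e ∈ E, wit e ∈ Out Y ∧ 0 < dep (wit e) ∧ ∃ u w, u ≠ w ∧ ℓ (par (wit e)) = some u ∧
    ℓ (wit e) = some w ∧ e = s(u, w)

variable {ℓ0 ℓ : V → Option ι} {y0 y1 : ρ → Option ι} {E : Set (Sym2 ι)} {wit : Sym2 ι → V}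
  {h : ℕ}

theorem Model.step (M : Model G K Y par dep ℓ0 ℓ y0 y1 E wit h)
    (hr : Rooted G (Out Y) par dep) {c : V} (hc : c ∈ Out Y) {Ro : Set V} {r1 : Option ι}
    (h1 : ∀ z ∈ Ro, 0 < dep c ∧ z = par c ∧ ℓ z = r1) (h2 : 0 < dep c → par c ∈ Ro) :
    Step G ℓ Y y1 (Dn Y par dep c) Ro c r1 := by
  refine ⟨M.hY, M.hYl, fun z hz z' hz' => (h1 z hz).2.1.trans (h1 z' hz').2.1.symm,
    fun z hz => (h1 z hz).2.2, M.H2, hr.dn_edge, fun b e => ?_, ?_, fun h => h.2 rfl⟩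
  · rcases hr.tr_edge (tr_self hc) e with k | k | k
    · exact Or.inl ⟨k, e.ne'⟩
    · exact Or.inr (Or.inr k)
    · exact Or.inr (Or.inl (k.2.2 ▸ h2 k.2.1))
  · rw [insert_dn hc]
    rintro (_ | i) z hz hz'
    · obtain ⟨k1, rfl, -⟩ := h1 z hz
      have := (hr.tr_dep hz').1
      have := hr.dp c hc k1
      omega
    · exact hz'.1 i hz

theorem Model.up (M : Model G K Y par dep ℓ0 ℓ y0 y1 E wit h) (hG : G.Connected) (hK : 1 ≤ K)
    (hr : Rooted G (Out Y) par dep) {c : V} (hc : c ∈ Out Y) (h0 : 0 < dep c)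
    (hz : Rz G K (Dn Y par dep c) (ob {c} Y)
      (pat G ℓ E wit (Dn Y par dep c) (ob {c} Y) (lb (ℓ0 c) y0) (lb (ℓ c) y1))) :
    Rz G K (Tr (Out Y) par dep c) (ob {par c} Y) (pat G ℓ E wit (Tr (Out Y) par dep c)
      (ob {par c} Y) (lb (ℓ0 (par c)) y0) (lb (ℓ (par c)) y1)) := by
  have s := M.step hr hc (Ro := {par c}) (r1 := ℓ (par c))
    (fun z hz => ⟨h0, hz, congrArg ℓ hz⟩) fun _ => rfl
  have hv : par c ∉ Tr (Out Y) par dep c := insert_dn (par := par) (dep := dep) hc ▸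
    s.out none _ rfl
  rw [← insert_dn hc]
  by_cases he : ℓ0 c = ℓ0 (par c)
  · refine abs1 s hz (M.H1 c) Set.Subset.rfl (fun e he' hw => ?_) (fun _ _ _ _ _ e => e)
      (M.near c) ?_
    · obtain ⟨-, -, u, w, k1, k2, k3, -⟩ := M.H5 e he'
      rw [hw] at k2 k3
      exact k1 (Option.some.inj ((M.H1 _ _ k2).symm.trans (he.symm.trans (M.H1 _ _ k3))))
    · rintro p (rfl | hp) z rfl hd
      · exact Or.inl ⟨by simp; omega, he.symm⟩
      · rcases hr.dn_sep hG hp fun h' => hv h'.1 with k | ⟨i, y, hy, k⟩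
        · exact Or.inl ⟨by omega, he.symm⟩
        · exact Or.inr ⟨i, y, hy, by omega,
            M.near _ i y hy (by rw [SimpleGraph.dist_comm]; omega)⟩
  obtain ⟨-, -, a, ha, m, hm, hac, hm3, hfr, htp⟩ :=
    not_not.1 fun hn => he (M.un c hc h0 hn)
  have hz' : Rz G K (Dn Y par dep a) (ob {a} Y)
      (pat G ℓ E wit (Dn Y par dep c) (ob {c} Y) (lb (ℓ0 c) y0) (lb (ℓ c) y1)) := by
    have : _ ∈ tp ι G K Y par dep c := hz
    rw [← htp] at this
    exact this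
  have hdc := (hr.it ha hm).2
  rw [hac] at hdc
  have hv' : par^[m + 1] a = par c := by rw [Function.iterate_succ_apply', hac]
  have haT : a ∈ Tr (Out Y) par dep c := ⟨ha, m, hm, hac⟩
  have s1 : Dn Y par dep a ⊆ insert c (Dn Y par dep c) := fun p hp =>
    insert_dn (par := par) (dep := dep) hc ▸ hr.tr_trans hp.1 haT
  have Z1 : ∀ j j', j + K ≤ j' → j' ≤ m + 1 → K ≤ G.dist (par^[j] a) (par^[j'] a) := by
    intro j j' k1 k2
    have a1 := hr.it ha (show j ≤ dep a by omega)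
    have a2 := hr.it ha (show j' ≤ dep a by omega)
    rcases hr.lip hG (q := par^[j] a) a2.1 with k | ⟨i, y, hy, k⟩
    · rw [SimpleGraph.dist_comm]; omega
    · have := hfr j (by omega) i y hy
      rw [SimpleGraph.dist_comm] at this ⊢
      omega
  have notD : ∀ j ≤ m + 1, par^[j] a ∉ Dn Y par dep a := fun j hj h' => by
    have := (hr.it ha (show j ≤ dep a by omega)).2
    exact h'.2 ((hr.tr_dep h'.1).2 (by omega))
  have Z2 : ∀ p ∈ Dn Y par dep a, ∀ j ≤ m, G.dist p (par^[j] a) < K →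
      G.dist p a < K ∧ j < K := fun p hp j hj hd => by
    rcases hr.dn_sep hG hp (notD j (by omega)) with k | ⟨i, y, hy, k⟩
    · refine ⟨by omega, ?_⟩
      by_contra h'
      have : K ≤ G.dist a (par^[j] a) := Z1 0 j (by omega) (by omega)
      omega
    · have := hfr j hj i y hy
      rw [SimpleGraph.dist_comm] at this
      omega
  have Z4 : K ≤ G.dist a (par c) := hv' ▸ Z1 0 (m + 1) (by omega) le_rfl
  have Z5 : ∀ p ∈ Dn Y par dep a, G.dist p (par c) < K →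
      ∃ i, ∃ y ∈ Y i, G.dist p y < K ∧ y0 i = ℓ0 (par c) := fun p hp hd => by
    rcases hr.dn_sep hG hp (hv' ▸ notD (m + 1) le_rfl) with k | ⟨i, y, hy, k⟩
    · omega
    · exact ⟨i, y, hy, by omega, M.near _ i y hy (by rw [SimpleGraph.dist_comm]; omega)⟩
  by_cases hw : ∃ e ∈ E, wit e = c
  · obtain ⟨e, he', hw⟩ := hw
    obtain ⟨-, -, u, w, k1, k2, k3, -⟩ := M.H5 e he'
    rw [hw] at k2 k3
    rw [k2] at s
    rw [M.H1 _ _ k3] at hz'
    rw [M.H1 _ _ k2] at Z5 ⊢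
    rw [k2]
    refine abs2 (z := fun j => par^[j] a) (m := m) s hz' k3 k1 s1 (fun f hf hw' => ?_) hK
      (by omega) hv' (fun j hj => ?_) (fun j hj => ?_) Z1 Z2 hfr Z5
    · obtain ⟨-, -, u', w', -, l2, l3, rfl⟩ := M.H5 f hf
      rw [hw'] at l2 l3
      rw [Option.some.inj (l2.symm.trans k2), Option.some.inj (l3.symm.trans k3)]
    · have a1 := hr.it ha (show j ≤ dep a by omega)
      simp only [Function.iterate_succ_apply']
      exact hr.adj _ a1.1 (by omega)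
    · have a1 := hr.it ha (show j ≤ dep a by omega)
      rw [insert_dn hc]
      refine ⟨a1.1, m - j, by omega, ?_⟩
      rw [← Function.iterate_add_apply, show m - j + j = m by omega, hac]
  · refine abs1 s hz' (M.H1 c) (Set.insert_subset (insert_dn (par := par) (dep := dep) hc ▸ haT)
      s1) (fun e he' h' => hw ⟨e, he', h'⟩) (fun u k1 k2 => ?_) (fun i y hy hd => ?_) ?_
    · exact absurd ((M.H1 _ _ k1).trans (M.H1 _ _ k2).symm) he
    · exact absurd (hfr 0 (by omega) i y hy) (not_le.2 hd)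
    · rintro p (rfl | hp) z rfl hd
      · omega
      · exact Or.inr (Z5 p hp hd)

theorem Model.dn (M : Model G K Y par dep ℓ0 ℓ y0 y1 E wit h) (hG : G.Connected) (hK : 1 ≤ K)
    (hr : Rooted G (Out Y) par dep) (n : ℕ) : ∀ v ∈ Out Y, h < dep v + n →
    Rz G K (Dn Y par dep v) (ob {v} Y)
      (pat G ℓ E wit (Dn Y par dep v) (ob {v} Y) (lb (ℓ0 v) y0) (lb (ℓ v) y1)) := by
  induction n with
  | zero =>
    intro v _ hd
    refine rz_empty (fun p hp => M.H4 p hp.1.1 (by have := (hr.tr_dep hp.1).1; omega))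
      fun e he => ?_
    obtain ⟨-, -, u, w, -, -, k, -⟩ := M.H5 e he
    simp [k]
  | succ n ih =>
    intro v hv hd
    have e : Dn Y par dep v =
        ⋃ c : {c // c ∈ Out Y ∧ 0 < dep c ∧ par c = v}, Tr (Out Y) par dep c := by
      ext p
      simp only [Set.mem_iUnion]
      constructor
      · intro hp
        obtain ⟨c, k1, k2, k3, k4⟩ := (hr.tr_split hp.1 hp.2).2
        exact ⟨⟨c, k1, k2, k3⟩, k4⟩
      · rintro ⟨⟨c, k1, k2, rfl⟩, k4⟩
        refine ⟨hr.tr_trans k4 (tr_par k1 k2), ?_⟩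
        rintro rfl
        have := (hr.tr_dep k4).1
        have := hr.dp c k1 k2
        simp only at *
        omega
    rw [e]
    refine rz_union hG ?_ ?_ (ob_conn M.hY (by simp)) ?_ M.H2 ?_
    · rintro ⟨c, k1, k2, k3⟩ ⟨c', l1, l2, l3⟩ p h1 h2
      have a1 := hr.dp c k1 k2
      have a2 := hr.dp c' l1 l2
      rw [k3] at a1
      rw [l3] at a2
      exact Subtype.ext (hr.tr_uniq h1 h2 (by simp only; omega))
    · rintro ⟨c, k1, k2, k3⟩ a ha b e
      rcases hr.tr_edge ha e with k | ⟨i, k⟩ | k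
      · exact Or.inl k
      · exact Or.inr ⟨some i, k⟩
      · exact Or.inr ⟨none, k.2.2.symm.trans k3⟩
    · rintro (_ | i) z hz
      · exact congrArg ℓ hz
      · exact M.hYl i z hz
    · rintro ⟨c, k1, k2, rfl⟩
      exact M.up hG hK hr k1 k2 (ih c k1 (by have := hr.dp c k1 k2; omega))

theorem Model.top (M : Model G K Y par dep ℓ0 ℓ y0 y1 E wit h) (hG : G.Connected) (hK : 1 ≤ K)
    (hr : Rooted G (Out Y) par dep) :
    Rz G K (Out Y) (ob ∅ Y) (pat G ℓ E wit (Out Y) (ob ∅ Y) (lb none y0) (lb none y1)) := by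
  have e : Out Y = ⋃ c : {c // c ∈ Out Y ∧ dep c = 0}, Tr (Out Y) par dep c := by
    ext p
    simp only [Set.mem_iUnion]
    constructor
    · intro hp
      have := hr.it hp le_rfl
      exact ⟨⟨par^[dep p] p, this.1, by omega⟩, hp, dep p, le_rfl, rfl⟩
    · rintro ⟨c, k⟩
      exact k.1
  have key := rz_union (K := K) (E := E) (wit := wit) (l0 := lb none y0) (l1 := lb none y1)
    (D := fun c : {c // c ∈ Out Y ∧ dep c = 0} => Tr (Out Y) par dep c) hG ?_ ?_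
    (ob_conn (Ro := ∅) M.hY (by simp)) ?_ M.H2 ?_
  · rwa [← e] at key
  · rintro ⟨c, k1, k2⟩ ⟨c', l1, l2⟩ p h1 h2
    exact Subtype.ext (hr.tr_uniq h1 h2 (k2.trans l2.symm))
  · rintro ⟨c, k1, k2⟩ a ha b e
    rcases hr.tr_edge ha e with k | ⟨i, k⟩ | k
    · exact Or.inl k
    · exact Or.inr ⟨some i, k⟩
    · have := k.2.1
      simp only at this
      omega
  · rintro (_ | i) z hz
    · exact hz.elim
    · exact M.hYl i z hz
  · rintro ⟨c, k1, k2⟩
    simp only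
    rw [← insert_dn k1]
    refine abs1 (M.step hr k1 (Ro := ∅) (by simp) (by omega))
      (M.dn hG hK hr (h + 1) c k1 (by omega)) (M.H1 c) Set.Subset.rfl (fun e he hw => ?_)
      (by simp) (M.near c) (by simp)
    have := (M.H5 e he).2.1
    rw [hw] at this
    omega

end Pool.Agent.Lib.MP_f9389f_co
end
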