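import Pool.Agent.Lib.MP_f9389f_co.Forest

/-! The quotient graph, its quasi-isometry constants and the lifting of minors. -/

set_option autoImplicit false
set_option linter.unusedSectionVars false

namespace Pool.Agent.Lib.MP_f9389f_co

variable {V : Type*} {G : SimpleGraph V} {ρ ι : Type}

theorem rch_of_walk {S : Set V} {a b : V} (w : G.Walk a b) (h : ∀ x ∈ w.support, x ∈ S) :
    Rch G S a b := by
  induction w with
  | nil => exact Rch.refl _
  | cons e w ih =>
    exact (Rch.single e (h _ (by simp)) (h _ (by simp))).trans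
      (ih fun x hx => h x (by simp [hx]))

theorem Rch.walk {S : Set V} {a b : V} (h : Rch G S a b) (ha : a ∈ S) :
    ∃ w : G.Walk a b, ∀ x ∈ w.support, x ∈ S := by
  induction h with
  | refl => exact ⟨.nil, by simpa using ha⟩
  | tail _ e ih =>
    obtain ⟨w, hw⟩ := ih
    refine ⟨w.concat e.1, fun x hx => ?_⟩
    simp only [SimpleGraph.Walk.support_concat, List.mem_append,
      List.mem_singleton] at hx
    rcases hx with hx | rfl
    · exact hw x hx
    · exact e.2.2

theorem rch_of_induce {S : Set V} (h : (G.induce S).Connected) {a b : V} (ha : a ∈ S)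
    (hb : b ∈ S) : Rch G S a b := by
  have key : ∀ y : S, Relation.ReflTransGen (G.induce S).Adj ⟨a, ha⟩ y → Rch G S a y := by
    intro y hy
    induction hy with
    | refl => exact Rch.refl _
    | @tail x y _ e ih => exact ih.trans (Rch.single e x.2 y.2)
  exact key _ ((SimpleGraph.reachable_iff_reflTransGen _ _).1 (h.preconnected ⟨a, ha⟩ ⟨b, hb⟩))

theorem induce_of_rch {S : Set V} (hne : S.Nonempty) (h : ∀ a ∈ S, ∀ b ∈ S, Rch G S a b) :
    (G.induce S).Connected := by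
  have : Nonempty S := hne.to_subtype
  refine ⟨fun a b => ?_⟩
  have key := (h a a.2 b b.2).ind (P := fun y => ∀ hy : y ∈ S, (G.induce S).Reachable a ⟨y, hy⟩)
    (fun _ => .refl _) fun x y hx hy e ih _ =>
      (ih hx).trans (SimpleGraph.Adj.reachable (G := G.induce S) (u := ⟨x, hx⟩) (v := ⟨y, hy⟩) e)
  exact key b.2

theorem ball_conn (hG : G.Connected) (x : V) (R : ℕ) {z : V} (hz : G.dist x z ≤ R) :
    Rch G {y | G.dist x y ≤ R} x z := by
  obtain ⟨w, hw⟩ := hG.exists_walk_length_eq_dist x z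
  classical
  refine rch_of_walk w fun y hy => ?_
  have h1 := SimpleGraph.dist_le (w.takeUntil y hy)
  have h2 := w.length_takeUntil_le_length hy
  simp only [Set.mem_ofPred_eq]
  omega

theorem Rch.ivt (hG : G.Connected) {H : SimpleGraph V} (hH : H ≤ G) {p q : V}
    (h : H.Reachable p q) {k : ℕ} (hk : k ≤ G.dist p q) :
    ∃ x, H.Reachable p x ∧ G.dist p x = k := by
  rw [SimpleGraph.reachable_iff_reflTransGen] at h
  induction h with
  | refl => exact ⟨p, .refl _, by simp at hk; simp [hk]⟩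
  | @tail b c h1 e ih =>
    by_cases h' : k ≤ G.dist p b
    · exact ih h'
    · have := dist_adj hG (hH e).symm p
      rw [SimpleGraph.dist_comm, SimpleGraph.dist_comm (u := b)] at this
      exact ⟨c, ((SimpleGraph.reachable_iff_reflTransGen _ _).2 h1).trans e.reachable, by omega⟩

theorem diam_of_cover (hG : G.Connected) {H : SimpleGraph V} (hH : H ≤ G) {κ : Type} [Fintype κ]
    (cen : κ → V) {s : ℕ} {p : V} (h : ∀ q, H.Reachable p q → ∃ o, G.dist (cen o) q ≤ s) {q : V}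
    (hq : H.Reachable p q) : G.dist p q ≤ Fintype.card κ * (2 * s + 1) := by
  by_contra hlt
  have : ∀ i : Fin (Fintype.card κ + 1), ∃ x o, G.dist p x = i * (2 * s + 1) ∧
      G.dist (cen o) x ≤ s := fun i => by
    obtain ⟨x, h1, h2⟩ := Rch.ivt hG hH hq (k := i * (2 * s + 1))
      ((Nat.mul_le_mul_right _ (Nat.lt_succ_iff.1 i.2)).trans (not_le.1 hlt).le)
    obtain ⟨o, ho⟩ := h x h1
    exact ⟨x, o, h2, ho⟩
  choose x o h1 h2 using this
  obtain ⟨i, j, hij, e⟩ := Fintype.exists_ne_map_eq_of_card_lt o (by simp)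
  have key : ∀ i j : Fin (Fintype.card κ + 1), i < j → o i ≠ o j := fun i j hij e => by
    have a1 := hG.dist_triangle (u := p) (v := x i) (w := x j)
    have a2 := hG.dist_triangle (u := x i) (v := cen (o i)) (w := x j)
    have a3 := h2 i
    have a4 := h2 j
    rw [← e] at a4
    rw [SimpleGraph.dist_comm] at a3
    have a5 : (i.1 + 1) * (2 * s + 1) ≤ j.1 * (2 * s + 1) := Nat.mul_le_mul_right _ hij
    rw [h1 i, h1 j] at a1
    rw [Nat.add_mul] at a5
    omega
  rcases lt_or_gt_of_ne hij with h' | h'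
  · exact key i j h' e
  · exact key j i h' e.symm

/-- The quotient of `G` by the components of a subgraph `H`. -/
def quo (G H : SimpleGraph V) : SimpleGraph H.ConnectedComponent where
  Adj s t := s ≠ t ∧ ∃ a b, H.connectedComponentMk a = s ∧ H.connectedComponentMk b = t ∧ G.Adj a b
  symm := ⟨fun _ _ ⟨h, a, b, h1, h2, e⟩ => ⟨h.symm, b, a, h2, h1, e.symm⟩⟩
  loopless := ⟨fun _ h => h.1 rfl⟩

theorem quo_walk {H : SimpleGraph V} {a b : V} (w : G.Walk a b) :
    ∃ w' : (quo G H).Walk (H.connectedComponentMk a) (H.connectedComponentMk b),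
      w'.length ≤ w.length := by
  induction w with
  | nil => exact ⟨.nil, le_rfl⟩
  | @cons a b c e w ih =>
    obtain ⟨w', hw⟩ := ih
    by_cases h : H.connectedComponentMk a = H.connectedComponentMk b
    · exact ⟨w'.copy h.symm rfl, by simp; omega⟩
    · exact ⟨.cons ⟨h, a, b, rfl, rfl, e⟩ w', Nat.succ_le_succ hw⟩

theorem quo_conn (hG : G.Connected) (H : SimpleGraph V) : (quo G H).Connected := by
  have : Nonempty H.ConnectedComponent := hG.nonempty.map H.connectedComponentMk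
  refine ⟨fun s t => ?_⟩
  obtain ⟨a, rfl⟩ := s.exists_rep
  obtain ⟨b, rfl⟩ := t.exists_rep
  obtain ⟨w⟩ := hG.preconnected a b
  obtain ⟨w', -⟩ := quo_walk (H := H) w
  exact ⟨w'⟩

theorem quo_qi (hG : G.Connected) {H : SimpleGraph V} {D : ℕ}
    (hD : ∀ p q, H.Reachable p q → G.dist p q ≤ D) :
    IsQI G (quo G H) H.connectedComponentMk (D + 1) 1 := by
  have low : ∀ (s t : H.ConnectedComponent) (w : (quo G H).Walk s t) (x y : V),
      H.connectedComponentMk x = s → H.connectedComponentMk y = t →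
      G.dist x y ≤ (D + 1) * w.length + D := by
    intro s t w
    induction w with
    | nil =>
      intro x y h1 h2
      simpa using hD x y (SimpleGraph.ConnectedComponent.exact (h1.trans h2.symm))
    | cons e w ih =>
      intro x y h1 h2
      rw [SimpleGraph.Walk.length_cons, Nat.mul_succ]
      obtain ⟨-, a, b, k1, k2, e'⟩ := e
      have a1 := ih b y k2 h2
      have a2 := hD x a (SimpleGraph.ConnectedComponent.exact (h1.trans k1.symm))
      have a3 := hG.dist_triangle (u := x) (v := a) (w := y)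
      have a4 := dist_adj hG e' y
      omega
  refine ⟨fun x y => ⟨?_, ?_⟩, fun w => ?_⟩
  · obtain ⟨w, hw⟩ := (quo_conn hG H).exists_walk_length_eq_dist
      (H.connectedComponentMk x) (H.connectedComponentMk y)
    have h1 := low _ _ w x y rfl rfl
    rw [hw] at h1
    have h2 : (G.dist x y : ℝ) ≤ (D + 1) * ((quo G H).dist (H.connectedComponentMk x)
        (H.connectedComponentMk y) + 1) := by
      have : G.dist x y ≤ (D + 1) * ((quo G H).dist (H.connectedComponentMk x)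
        (H.connectedComponentMk y) + 1) := by rw [Nat.mul_succ]; omega
      exact_mod_cast this
    have h3 : (0 : ℝ) < D + 1 := by positivity
    push_cast
    rw [sub_le_iff_le_add, inv_mul_le_iff₀ h3]
    exact h2
  · obtain ⟨w, hw⟩ := hG.exists_walk_length_eq_dist x y
    obtain ⟨w', hw'⟩ := quo_walk (H := H) w
    have h1 := SimpleGraph.dist_le w'
    have : (quo G H).dist (H.connectedComponentMk x) (H.connectedComponentMk y) ≤
        (D + 1) * G.dist x y + 1 := by
      rw [Nat.succ_mul]; omega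
    exact_mod_cast this
  · obtain ⟨a, rfl⟩ := w.exists_rep
    exact ⟨a, SimpleGraph.dist_self.trans_le (Nat.zero_le _)⟩

variable {par : V → V} {dep : V → ℕ} {Y : ρ → Set V} {K : ℕ}

/-- The edges that are not cut. -/
def unc (ι : Type) (G : SimpleGraph V) (K : ℕ) (Y : ρ → Set V) (par : V → V) (dep : V → ℕ) :
    SimpleGraph V where
  Adj a b := G.Adj a b ∧ ¬ (Cut ι G K Y par dep a ∧ par a = b) ∧
    ¬ (Cut ι G K Y par dep b ∧ par b = a)
  symm := ⟨fun _ _ h => ⟨h.1.symm, h.2.2, h.2.1⟩⟩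
  loopless := ⟨fun _ h => h.1.ne rfl⟩

theorem Cut.fr {c : V} (h : Cut ι G K Y par dep c) : Fr G K Y c := by
  obtain ⟨-, -, a, -, m, -, rfl, -, h, -⟩ := h
  exact h m le_rfl

theorem unc_near (hG : G.Connected) {p y : V} {i : ρ} (hy : y ∈ Y i) (hd : G.dist p y < K) :
    (unc ι G K Y par dep).Reachable p y := by
  obtain ⟨w, hw⟩ := hG.exists_walk_length_eq_dist p y
  rw [← hw] at hd
  clear hw
  induction w with
  | nil => exact .refl _
  | @cons a b c e w ih =>
    have h1 := SimpleGraph.dist_le (SimpleGraph.Walk.cons e w)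
    have h2 := SimpleGraph.dist_le w
    simp only [SimpleGraph.Walk.length_cons] at hd h1
    exact (SimpleGraph.Adj.reachable (G := unc ι G K Y par dep) ⟨e,
      fun h => by have := h.1.fr i c hy; omega,
      fun h => by have := h.1.fr i c hy; omega⟩).trans (ih hy (by omega))

/-- `t` is reached from `p` by climbing along edges that are not cut, far from the balls. -/
def Up (ι : Type) (G : SimpleGraph V) (K : ℕ) (Y : ρ → Set V) (par : V → V) (dep : V → ℕ)
    (p t : V) : Prop := ∃ m ≤ dep p, par^[m] p = t ∧ (∀ j ≤ m, Fr G K Y (par^[j] p)) ∧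
      ∀ j < m, ¬ Cut ι G K Y par dep (par^[j] p)

theorem Fr.out (hK : 1 ≤ K) {p : V} (h : Fr G K Y p) : p ∈ Out Y := fun i hi => by
  have := h i p hi
  simp at this
  omega

theorem Up.dist [Finite ρ] [Finite ι] (hG : G.Connected) (hK : 1 ≤ K)
    (hr : Rooted G (Out Y) par dep) {p t : V} (h : Up ι G K Y par dep p t) :
    G.dist p t ≤ 3 * K * Nat.card (Set (Pat ρ ι)) := by
  obtain ⟨m, h1, rfl, h2, h3⟩ := h
  have hp : p ∈ Out Y := (h2 0 (by omega)).out hK
  have hd : ∀ j ≤ m, G.dist p (par^[j] p) ≤ j := fun j hj => by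
    induction j with
    | zero => simp
    | succ j ih =>
      have a1 := hr.it hp (show j ≤ dep p by omega)
      have a2 := dist_adj hG (hr.adj _ a1.1 (by omega)).symm p
      have := ih (by omega)
      rw [Function.iterate_succ_apply', SimpleGraph.dist_comm]
      rw [SimpleGraph.dist_comm] at this
      omega
  refine (hd m le_rfl).trans ?_
  by_contra hlt
  have := Fintype.ofFinite (Set (Pat ρ ι))
  have key : ∀ i j : Fin (Nat.card (Set (Pat ρ ι)) + 1), i < j →
      tp ι G K Y par dep (par^[3 * K * i] p) ≠ tp ι G K Y par dep (par^[3 * K * j] p) := by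
    intro i j hij e
    have a1 : 3 * K * j ≤ 3 * K * Nat.card (Set (Pat ρ ι)) :=
      Nat.mul_le_mul_left _ (Nat.lt_succ_iff.1 j.2)
    have a2 : 3 * K * (i + 1) ≤ 3 * K * j := Nat.mul_le_mul_left _ hij
    rw [Nat.mul_succ] at a2
    have b1 := hr.it hp (show 3 * K * i ≤ dep p by omega)
    have b2 := hr.it hp (show 3 * K * j ≤ dep p by omega)
    refine h3 (3 * K * j) (by omega) ⟨b2.1, by omega, _, b1.1, 3 * K * j - 3 * K * i, by omega,
      ?_, by omega, fun k hk => ?_, e⟩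
    · rw [← Function.iterate_add_apply, Nat.sub_add_cancel (by omega)]
    · rw [← Function.iterate_add_apply]
      exact h2 _ (by omega)
  obtain ⟨i, j, hij, e⟩ := Fintype.exists_ne_map_eq_of_card_lt
    (fun i : Fin (Nat.card (Set (Pat ρ ι)) + 1) => tp ι G K Y par dep (par^[3 * K * i] p))
    (by simp)
  rcases lt_or_gt_of_ne hij with h' | h'
  · exact key i j h' e
  · exact key j i h' e.symm

theorem up_self {p : V} (h : Fr G K Y p) : Up ι G K Y par dep p p :=
  ⟨0, by omega, rfl, fun j hj => by obtain rfl : j = 0 := by omega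
                                    exact h, by simp⟩

theorem unc_inv (hK : 1 ≤ K) (hr : Rooted G (Out Y) par dep) {p q : V}
    (h : (unc ι G K Y par dep).Reachable p q) : ¬ Fr G K Y q ∨ ∃ s t,
      (s = p ∨ ∃ z, ¬ Fr G K Y z ∧ G.Adj z s) ∧ Up ι G K Y par dep s t ∧
        Up ι G K Y par dep q t := by
  rw [SimpleGraph.reachable_iff_reflTransGen] at h
  induction h with
  | refl =>
    by_cases hp : Fr G K Y p
    · exact Or.inr ⟨p, p, Or.inl rfl, up_self hp, up_self hp⟩
    · exact Or.inl hp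
  | @tail b c _ e ih =>
    by_cases hc : Fr G K Y c
    swap
    · exact Or.inl hc
    right
    rcases ih with hb | ⟨s, t, h1, h2, m, k1, k2, k3, k4⟩
    · exact ⟨c, c, Or.inr ⟨b, hb, e.1⟩, up_self hc, up_self hc⟩
    have hb : b ∈ Out Y := (k3 0 (by omega)).out hK
    rcases hr.edge b hb c (hc.out hK) e.1 with ⟨a1, rfl⟩ | ⟨a1, rfl⟩
    · have a2 := hr.dp b hb a1
      cases m with
      | zero =>
        obtain rfl : b = t := k2
        obtain ⟨n, l1, l2, l3, l4⟩ := h2
        have := (hr.it (p := s) ((l3 0 (by omega)).out hK) l1).2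
        rw [l2] at this
        refine ⟨s, par b, h1, ⟨n + 1, by omega, by rw [Function.iterate_succ_apply', l2],
          fun j hj => ?_, fun j hj => ?_⟩, up_self hc⟩
        · by_cases hj' : j ≤ n
          · exact l3 j hj'
          · obtain rfl : j = n + 1 := by omega
            rwa [Function.iterate_succ_apply', l2]
        · by_cases hj' : j < n
          · exact l4 j hj'
          · obtain rfl : j = n := by omega
            rw [l2]
            exact fun h => e.2.1 ⟨h, rfl⟩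
      | succ m =>
        exact ⟨s, t, h1, h2, m, by omega, k2, fun j hj => k3 (j + 1) (by omega),
          fun j hj => k4 (j + 1) (by omega)⟩
    · have a2 := hr.dp c (hc.out hK) a1
      refine ⟨s, t, h1, h2, m + 1, by omega, k2, fun j hj => ?_, fun j hj => ?_⟩
      · cases j with
        | zero => exact hc
        | succ j => exact k3 j (by omega)
      · cases j with
        | zero => exact fun h => e.2.2 ⟨h, rfl⟩
        | succ j => exact k4 j (by omega)

theorem unc_diam [Fintype ρ] [Finite ι] (hG : G.Connected) (hK : 1 ≤ K)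
    (hr : Rooted G (Out Y) par dep) {x : ρ → V} {R : ℕ} (hx : ∀ i, ∀ y ∈ Y i, G.dist (x i) y ≤ R)
    {p q : V} (h : (unc ι G K Y par dep).Reachable p q) : G.dist p q ≤
      (Fintype.card ρ + 1) * (2 * (2 * (3 * K * Nat.card (Set (Pat ρ ι))) + 1 + K + R) + 1) := by
  rw [← Fintype.card_option]
  refine diam_of_cover hG (H := unc ι G K Y par dep) (fun _ _ h => h.1) (fun o : Option ρ => o.elim p x) (fun q hq => ?_) h
  have near : ∀ z, ¬ Fr G K Y z → ∃ i, G.dist (x i) z ≤ K + R := fun z hz => by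
    simp only [Fr, not_forall, not_le] at hz
    obtain ⟨i, y, hy, hd⟩ := hz
    have := hG.dist_triangle (u := x i) (v := y) (w := z)
    have := hx i y hy
    rw [SimpleGraph.dist_comm] at hd
    exact ⟨i, by omega⟩
  rcases unc_inv hK hr hq with k | ⟨s, t, h1, h2, h3⟩
  · obtain ⟨i, hi⟩ := near q k
    exact ⟨some i, by simp only [Option.elim]; omega⟩
  · have a1 := h2.dist hG hK hr
    have a2 := h3.dist hG hK hr
    have a3 := hG.dist_triangle (u := s) (v := t) (w := q)
    rw [SimpleGraph.dist_comm] at a2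
    rcases h1 with rfl | ⟨z, k, e⟩
    · exact ⟨none, by simp only [Option.elim]; omega⟩
    · obtain ⟨i, hi⟩ := near z k
      have a4 := hG.dist_triangle (u := x i) (v := z) (w := q)
      have a5 := dist_adj hG e q
      exact ⟨some i, by simp only [Option.elim]; omega⟩

theorem exists_label {S : ι → Set V} (h : ∀ u w, ∀ p ∈ S u, p ∈ S w → u = w) :
    ∃ ℓ : V → Option ι, ∀ p u, ℓ p = some u ↔ p ∈ S u := by
  classical
  refine ⟨fun p => if h : ∃ u, p ∈ S u then some h.choose else none, fun p u => ?_⟩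
  dsimp only
  split_ifs with h'
  · exact ⟨fun e => Option.some.inj e ▸ h'.choose_spec,
      fun hp => congrArg some (h _ _ p h'.choose_spec hp)⟩
  · exact ⟨fun e => by simp at e, fun hp => absurd ⟨u, hp⟩ h'⟩

theorem Rch.cmp {S : Set V} {a b : V} (h : Rch G S a b) : Rch G {x | Rch G S a x} a b := by
  induction h with
  | refl => exact Rch.refl _
  | @tail b c h1 h ih => exact ih.trans (Rch.single h.1 h1 (Relation.ReflTransGen.tail h1 h))

theorem Rch.bound {S : Set V} {a b : V} (h : Rch G S a b) (ha : a ∈ S) (dep : V → ℕ) :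
    ∃ n, ∀ T : Set V, (∀ x, dep x ≤ n → x ∈ T) → a ∈ T ∧ Rch G (S ∩ T) a b := by
  obtain ⟨w, hw⟩ := h.walk ha
  have : ∀ x ∈ w.support, dep x ≤ (w.support.map dep).sum := fun x hx =>
    List.single_le_sum (fun _ _ => Nat.zero_le _) _ (List.mem_map_of_mem hx)
  exact ⟨_, fun T hT => ⟨hT a (this a (by simp)),
    rch_of_walk w fun x hx => ⟨hw x hx, hT x (this x hx)⟩⟩⟩

theorem pull_conn {H : SimpleGraph V} (hH : H ≤ G) {B : Set H.ConnectedComponent}
    (h : ∀ s ∈ B, ∀ t ∈ B, Rch (quo G H) B s t) {p q : V} (hp : H.connectedComponentMk p ∈ B)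
    (hq : H.connectedComponentMk q ∈ B) : Rch G {x | H.connectedComponentMk x ∈ B} p q := by
  have part : ∀ a b, H.connectedComponentMk a ∈ B →
      H.connectedComponentMk a = H.connectedComponentMk b →
      Rch G {x | H.connectedComponentMk x ∈ B} a b := by
    intro a b ha e
    have := (SimpleGraph.reachable_iff_reflTransGen _ _).1 (SimpleGraph.ConnectedComponent.exact e)
    clear e
    induction this with
    | refl => exact Rch.refl _
    | @tail x y _ e ih =>
      have hx := ih.mem ha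
      exact ih.trans (Rch.single (hH e) hx (by
        simp only [Set.mem_ofPred_eq] at hx ⊢
        rwa [← SimpleGraph.ConnectedComponent.sound e.reachable]))
  refine (h _ hp _ hq).ind (P := fun t => ∀ q, H.connectedComponentMk q = t →
    Rch G {x | H.connectedComponentMk x ∈ B} p q) (fun q e => part p q hp e.symm) ?_ q rfl
  rintro s t hs ht ⟨-, a, b, rfl, rfl, e⟩ ih q e'
  exact ((ih a rfl).trans (Rch.single e hs ht)).trans (part b q ht e'.symm)

theorem exists_model [Finite ι] (hG : G.Connected) (hK : 1 < K) (hr : Rooted G (Out Y) par dep)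
    {x : ρ → V} (hx : ∀ i, x i ∈ Y i) (hY : ∀ i, ∀ z ∈ Y i, ∀ z' ∈ Y i, Rch G (Y i) z z')
    (H : SimpleGraph ι) (B : ι → Set (unc ι G K Y par dep).ConnectedComponent)
    (hc : ∀ u, ∀ s ∈ B u, ∀ t ∈ B u, Rch (quo G _) (B u) s t)
    (hd : ∀ u w, ∀ s ∈ B u, s ∈ B w → u = w)
    (he : ∀ u w, H.Adj u w → ∃ a ∈ B u, ∃ b ∈ B w, (quo G _).Adj a b) :
    ∃ ℓ0 ℓ wit h, Model G K Y par dep ℓ0 ℓ (fun i => ℓ0 (x i)) (fun i => ℓ (x i)) H.edgeSet wit h ∧
      ∀ u, (B u).Nonempty → ∃ p, ℓ p = some u := by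
  classical
  have := hG.nonempty
  set mk := (unc ι G K Y par dep).connectedComponentMk with hmk
  have near : ∀ p i, ∀ y ∈ Y i, G.dist p y < K → mk p = mk y := fun p i y hy hd =>
    SimpleGraph.ConnectedComponent.sound (unc_near hG hy hd)
  have ball : ∀ i, ∀ z ∈ Y i, ∀ y ∈ Y i, mk z = mk y := fun i z hz y hy =>
    (hY i z hz y hy).ind (P := fun y => mk z = mk y) rfl fun a b _ hb e ih =>
      ih.trans (near a i b hb (by rw [SimpleGraph.dist_eq_one_iff_adj.2 e]; exact hK))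
  have hS : ∀ u p q, mk p ∈ B u → mk q ∈ B u → Rch G {x | mk x ∈ B u} p q := fun u p q =>
    pull_conn (H := unc ι G K Y par dep) (fun _ _ h => h.1) (hc u)
  have : ∀ u, ∃ b, (B u).Nonempty → mk b ∈ B u := fun u => by
    by_cases h : (B u).Nonempty
    · obtain ⟨s, hs⟩ := h
      obtain ⟨b, rfl⟩ := s.exists_rep
      exact ⟨b, fun _ => hs⟩
    · exact ⟨Classical.arbitrary V, fun h' => absurd h' h⟩
  choose bs hbs using this
  have bd : ∀ u p, ∃ n, mk p ∈ B u → ∀ T : Set V, (∀ x, dep x ≤ n → x ∈ T) →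
      bs u ∈ T ∧ Rch G ({x | mk x ∈ B u} ∩ T) (bs u) p := fun u p => by
    by_cases h : mk p ∈ B u
    · obtain ⟨n, hn⟩ := (hS u _ p (hbs u ⟨_, h⟩) h).bound (hbs u ⟨_, h⟩) dep
      exact ⟨n, fun _ => hn⟩
    · exact ⟨0, fun h' => absurd h' h⟩
  choose nn hnn using bd
  have : ∀ e : Sym2 ι, ∃ c, e ∈ H.edgeSet → c ∈ Out Y ∧ 0 < dep c ∧ ∃ u w, u ≠ w ∧
      mk (par c) ∈ B u ∧ mk c ∈ B w ∧ e = s(u, w) := by
    intro e
    induction e using Sym2.ind with
    | h u w =>
    by_cases h : H.Adj u w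
    swap
    · exact ⟨Classical.arbitrary V, fun h' => absurd h' h⟩
    obtain ⟨_, ha, _, hb, hne, a, b, rfl, rfl, e⟩ := he u w h
    have e1 : G.dist a b < K := by rw [SimpleGraph.dist_eq_one_iff_adj.2 e]; exact hK
    have haO : a ∈ Out Y := fun i hi => hne (near b i a hi (SimpleGraph.dist_comm ▸ e1)).symm
    have hbO : b ∈ Out Y := fun i hi => hne (near a i b hi e1)
    rcases hr.edge a haO b hbO e with ⟨k, rfl⟩ | ⟨k, rfl⟩
    · exact ⟨a, fun _ => ⟨haO, k, w, u, h.ne', hb, ha, Sym2.eq_swap⟩⟩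
    · exact ⟨b, fun _ => ⟨hbO, k, u, w, h.ne, ha, hb, rfl⟩⟩
  choose wit hwit using this
  obtain ⟨n1, h1⟩ := (Set.finite_range fun t : ι × Sym2 ι => nn t.1 (wit t.2)).bddAbove
  obtain ⟨n2, h2⟩ := (Set.finite_range fun t : ι × Sym2 ι => nn t.1 (par (wit t.2))).bddAbove
  obtain ⟨n3, h3⟩ := (Set.finite_range fun u : ι => nn u (bs u)).bddAbove
  set T : Set V := {x | x ∈ Out Y → dep x ≤ n1 + n2 + n3} with hT
  have hT' : ∀ u p, nn u p ≤ n1 + n2 + n3 → mk p ∈ B u →
      bs u ∈ T ∧ Rch G ({x | mk x ∈ B u} ∩ T) (bs u) p := fun u p h hp =>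
    hnn u p hp T fun x hx _ => hx.trans h
  obtain ⟨ℓ0, l0⟩ := exists_label (S := fun u => {x | mk x ∈ B u}) fun u w p => hd u w _
  have mem : ∀ u p, (B u).Nonempty ∧ Rch G ({x | mk x ∈ B u} ∩ T) (bs u) p →
      mk p ∈ B u ∧ p ∈ T := fun u p h => h.2.mem ⟨hbs u h.1,
        (hT' u _ (by have : nn u (bs u) ≤ n3 := h3 ⟨u, rfl⟩; omega) (hbs u h.1)).1⟩
  obtain ⟨ℓ, l1⟩ := exists_label (S := fun u =>
    {p | (B u).Nonempty ∧ Rch G ({x | mk x ∈ B u} ∩ T) (bs u) p})
    fun u w p a b => hd u w _ (mem u p a).1 (mem w p b).1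
  have eq0 : ∀ p q, mk p = mk q → ℓ0 p = ℓ0 q := fun p q e => Option.ext fun u => by
    simp only [l0, Set.mem_ofPred_eq, e]
  have ext1 : ∀ i, ∀ z ∈ Y i, ∀ y ∈ Y i, ∀ u, ℓ z = some u → ℓ y = some u :=
    fun i z hz y hy u h => by
    rw [l1] at h ⊢
    exact ⟨h.1, h.2.trans ((hY i z hz y hy).mono fun t ht =>
      ⟨by simp only [Set.mem_ofPred_eq]; rw [ball i t ht z hz]; exact (mem u z h).1,
        fun h' => absurd ht (h' i)⟩)⟩
  refine ⟨ℓ0, ℓ, wit, n1 + n2 + n3, ⟨hY, fun c hc h0 hn => eq0 _ _ ?_, fun p i y hy hd => ?_,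
    fun p u h => (l0 p u).2 (mem u p ((l1 p u).1 h)).1, fun u p q hp hq => ?_,
    fun i z hz => Option.ext fun u => ⟨ext1 i z hz _ (hx i) u, ext1 i _ (hx i) z hz u⟩,
    fun p hp hd => ?_, fun e he => ?_⟩, fun u hu => ⟨bs u, (l1 _ _).2 ⟨hu, Rch.refl _⟩⟩⟩
  · refine SimpleGraph.ConnectedComponent.sound (SimpleGraph.Adj.reachable
      ⟨hr.adj c hc h0, fun h => hn h.1, fun h => ?_⟩)
    have a1 := hr.dp c hc h0
    have a2 := hr.dp _ h.1.1 h.1.2.1
    rw [h.2] at a2
    omega
  · exact eq0 _ _ ((ball i _ (hx i) y hy).trans (near p i y hy hd).symm)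
  · rw [l1] at hp hq
    exact (hp.2.cmp.symm.trans hq.2.cmp).mono fun t ht => (l1 t u).2 ⟨hp.1, ht⟩
  · by_contra h'
    obtain ⟨u, hu⟩ := Option.ne_none_iff_exists'.1 h'
    have := (mem u p ((l1 p u).1 hu)).2 hp
    omega
  · obtain ⟨a1, a2, u, w, a3, a4, a5, a6⟩ := hwit e he
    refine ⟨a1, a2, u, w, a3, (l1 _ _).2 ⟨⟨_, a4⟩, (hT' u _ ?_ a4).2⟩,
      (l1 _ _).2 ⟨⟨_, a5⟩, (hT' w _ ?_ a5).2⟩, a6⟩
    · have : nn u (par (wit e)) ≤ n2 := h2 ⟨(u, e), rfl⟩
      omega
    · have : nn w (wit e) ≤ n1 := h1 ⟨(w, e), rfl⟩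
      omega

theorem Model.fat {ℓ0 ℓ : V → Option ι} {y0 y1 : ρ → Option ι} {H : SimpleGraph ι}
    {wit : Sym2 ι → V} {h : ℕ} (M : Model G K Y par dep ℓ0 ℓ y0 y1 H.edgeSet wit h)
    (hG : G.Connected) (hK : 1 ≤ K) (hr : Rooted G (Out Y) par dep) {x : ρ → V}
    (hx : ∀ i, x i ∈ Y i) : ∃ (B : ι → Set V) (P : Sym2 ι → Set V),
      (∀ u, (∃ p, ℓ p = some u) → (G.induce (B u)).Connected) ∧
      (∀ u w, H.Adj u w → ∃ a ∈ B u, ∃ b ∈ B w, ∃ p : G.Walk a b,
        p.IsPath ∧ P s(u, w) = {x | x ∈ p.support}) ∧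
      (∀ u w, u ≠ w → Apart G K (B u) (B w)) ∧
      (∀ e ∈ H.edgeSet, ∀ f ∈ H.edgeSet, e ≠ f → Apart G K (P e) (P f)) ∧
      ∀ e ∈ H.edgeSet, ∀ u, u ∉ e → Apart G K (P e) (B u) := by
  classical
  obtain ⟨B, P, hC, hF⟩ := M.top hG hK hr
  have hed : ∀ e ∈ H.edgeSet, e ∈ (pat G ℓ H.edgeSet wit (Out Y) (ob ∅ Y) (lb none y0)
      (lb none y1)).ed := fun e he => ⟨he, (M.H5 e he).1⟩
  have y01 : ∀ i u, y1 i = some u → y0 i = some u := fun i u h =>
    (M.near _ i _ (hx i) (by simp; omega)).trans (M.H1 _ _ ((M.hYl i _ (hx i)).trans h))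
  have cl : ∀ u, ∀ p ∈ Cl B (ob ∅ Y) (lb none y1) u, p ∈ B u ∨ ∃ i, y1 i = some u ∧ p ∈ Y i := by
    rintro u p (hp | ⟨_ | i, h1, h2⟩)
    · exact Or.inl hp
    · exact h2.elim
    · exact Or.inr ⟨i, h1, h2⟩
  have : ∀ e : Sym2 ι, ∃ Q : Set V, e ∈ H.edgeSet → Q ⊆ P e ∧ ∀ u w, e = s(u, w) →
      ∃ a ∈ Cl B (ob ∅ Y) (lb none y1) u, ∃ b ∈ Cl B (ob ∅ Y) (lb none y1) w,
        ∃ p : G.Walk a b, p.IsPath ∧ Q = {x | x ∈ p.support} := by
    intro e
    induction e using Sym2.ind with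
    | h u w =>
    by_cases he : s(u, w) ∈ H.edgeSet
    swap
    · exact ⟨∅, fun h' => absurd h' he⟩
    obtain ⟨a, ha, b, hb, h1, h2⟩ := hC.ed u w (hed _ he)
    obtain ⟨p, hp⟩ := h2.walk h1
    refine ⟨{x | x ∈ p.bypass.support}, fun _ =>
      ⟨fun x hx => hp x (p.support_bypass_subset_support hx), fun u' w' e => ?_⟩⟩
    rcases Sym2.eq_iff.1 e with ⟨rfl, rfl⟩ | ⟨rfl, rfl⟩
    · exact ⟨a, ha, b, hb, _, p.bypass_isPath, rfl⟩
    · exact ⟨b, hb, a, ha, _, p.bypass_isPath.reverse, by simp⟩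
  choose Q hQ using this
  refine ⟨Cl B (ob ∅ Y) (lb none y1), Q, fun u ⟨p0, hp0⟩ => induce_of_rch ?_ ?_,
    fun u w e => (hQ s(u, w) e).2 u w rfl, fun u w huw p hp q hq => ?_,
    fun e he f hf hef p hp q hq => ?_, fun e he u hu p hp q hq => ?_⟩
  · by_cases h : p0 ∈ Out Y
    · exact (hC.ins2 u ⟨p0, h, hp0⟩).mono fun _ => Or.inl
    · simp only [Out, Set.mem_ofPred_eq, not_forall, not_not] at h
      obtain ⟨i, hi⟩ := h
      exact ⟨p0, Or.inr ⟨some i, (M.hYl i p0 hi).symm.trans hp0, hi⟩⟩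
  · have obj : ∀ i j, y1 i = some u → y1 j = some u →
        Rch G (Cl B (ob ∅ Y) (lb none y1) u) (x i) (x j) := fun i j h1 h2 =>
      hC.rel (some i) (some j) u (mem_rel (ob_conn M.hY (by simp)) h1 h2 (hx i) (hx j)
        ((M.H2 u _ _ ((M.hYl i _ (hx i)).trans h1) ((M.hYl j _ (hx j)).trans h2)).mono
          fun t ht => by
            by_cases h : t ∈ Out Y
            · exact Or.inl ⟨h, ht⟩
            · simp only [Out, Set.mem_ofPred_eq, not_forall, not_not] at h
              obtain ⟨i, hi⟩ := h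
              exact Or.inr ⟨some i, (M.hYl i t hi).symm.trans ht, hi⟩)) h1 _ (hx i) _ (hx j)
    have key : ∀ p ∈ Cl B (ob ∅ Y) (lb none y1) u,
        (∃ i, y1 i = some u ∧ Rch G (Cl B (ob ∅ Y) (lb none y1) u) p (x i)) ∨
        ((∀ i, y1 i ≠ some u) ∧ ∀ q ∈ B u, Rch G (Cl B (ob ∅ Y) (lb none y1) u) p q) := by
      intro p hp
      rcases cl u p hp with hp | ⟨i, h1, h2⟩
      · rcases hC.con u p hp with ⟨_ | i, k1, k2⟩ | ⟨k1, k2⟩
        · exact absurd k1 (by simp [pat, lb])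
        · exact Or.inl ⟨i, k1, k2 _ (hx i)⟩
        · exact Or.inr ⟨fun i => k1 (some i), k2⟩
      · exact Or.inl ⟨i, h1, (M.hY i p h2 _ (hx i)).mono fun t ht => Or.inr ⟨some i, h1, ht⟩⟩
    intro p hp q hq
    rcases key p hp with ⟨i, h1, h2⟩ | ⟨h1, h2⟩
    · rcases key q hq with ⟨j, k1, k2⟩ | ⟨k1, -⟩
      · exact (h2.trans (obj i j h1 k1)).trans k2.symm
      · exact absurd h1 (k1 i)
    · exact h2 q ((cl u q hq).resolve_right fun ⟨i, k, _⟩ => h1 i k)
  · by_contra hd
    rw [not_le] at hd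
    rcases cl u p hp with hp | ⟨i, h1, h2⟩ <;> rcases cl w q hq with hq | ⟨j, k1, k2⟩
    · exact huw (hF.f1 u w p hp q hq hd)
    · exact huw (Option.some.inj ((hF.n1 u (some j) p hp q k2 hd).symm.trans (y01 j w k1)))
    · exact huw (Option.some.inj ((y01 i u h1).symm.trans
        (hF.n1 w (some i) q hq p h2 (SimpleGraph.dist_comm ▸ hd))))
    · exact huw (Option.some.inj ((y01 i u h1).symm.trans
        ((M.near p i p h2 (by simp; omega)).trans ((M.near p j q k2 hd).symm.trans (y01 j w k1)))))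
  · by_contra hd
    exact hef (hF.f3 e (hed e he) f (hed f hf) p ((hQ e he).1 hp) q ((hQ f hf).1 hq) (not_le.1 hd))
  · rcases cl u q hq with hq | ⟨j, -, k2⟩
    · by_contra hd
      exact hu (hF.f2 e (hed e he) u p ((hQ e he).1 hp) q hq (not_le.1 hd))
    · exact hF.n2 e (hed e he) (some j) p ((hQ e he).1 hp) q k2

universe u in
theorem main (n K r R : ℕ) : ∃ M A : ℕ, 1 ≤ M ∧ ∀ (V : Type u) (G : SimpleGraph V), G.Connected →
    ∀ x : Fin r → V, (G.induce {v | ∀ i, R < G.dist (x i) v}).IsAcyclic →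
    ∃ (W : Type u) (G' : SimpleGraph W) (φ : V → W), G'.Connected ∧ Function.Surjective φ ∧
      IsQI G G' φ M A ∧ ∀ (ι : Type) [Fintype ι] (H : SimpleGraph ι), Fintype.card ι ≤ n →
        ¬ HasFatMinor G H K → ¬ HasMinor G' H := by
  refine ⟨(Fintype.card (Fin r) + 1) * (2 * (2 * (3 * (K + 2) *
    Nat.card (Set (Pat (Fin r) (Fin n)))) + 1 + (K + 2) + R) + 1) + 1, 1,
    Nat.succ_le_succ (Nat.zero_le _), fun V G hG x hac => ?_⟩
  set Y : Fin r → Set V := fun i => {y | G.dist (x i) y ≤ R} with hY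
  have e : {v | ∀ i, R < G.dist (x i) v} = Out Y := by ext v; simp [Out, hY]
  rw [e] at hac
  obtain ⟨par, dep, hr⟩ := exists_rooted hac
  have hx : ∀ i, x i ∈ Y i := fun i => by simp [hY]
  have hYc : ∀ i, ∀ z ∈ Y i, ∀ z' ∈ Y i, Rch G (Y i) z z' := fun i z hz z' hz' =>
    (ball_conn hG (x i) R hz).symm.trans (ball_conn hG (x i) R hz')
  refine ⟨_, quo G (unc (Fin n) G (K + 2) Y par dep), SimpleGraph.connectedComponentMk _,
    quo_conn hG _, fun s => s.exists_rep, quo_qi hG fun p q h =>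
      unc_diam hG (by omega) hr (fun _ _ h => h) h, fun ι _ H hn hf ⟨B, h1, h2, h3⟩ => hf ?_⟩
  obtain ⟨j⟩ : Nonempty (ι ↪ Fin n) := Function.Embedding.nonempty_of_card_le (by simpa using hn)
  refine (exists_model hG (by omega) hr hx hYc (H.map j)
    (fun a => {s | ∃ u, j u = a ∧ s ∈ B u}) ?_ ?_ ?_).elim fun ℓ0 ⟨ℓ, wit, h, M, hne⟩ => ?_
  rotate_left 3
  · obtain ⟨B', P, k1, k2, k3, k4, k5⟩ := M.fat hG (by omega) hr hx
    have mono : ∀ {S T : Set V}, Apart G (K + 2) S T → Apart G K S T :=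
      fun h y hy z hz => (Nat.le_add_right _ _).trans (h y hy z hz)
    have hm : ∀ e ∈ H.edgeSet, e.map j ∈ (H.map j).edgeSet := fun e he => by
      induction e using Sym2.ind with
      | h u w => simpa using he
    refine ⟨fun u => B' (j u), fun e => P (e.map j), fun u => k1 _ (hne _ ?_),
      fun u w e => k2 _ _ (by simpa using e), fun u w huw => mono (k3 _ _ (j.injective.ne huw)),
      fun e he f hf hef => mono (k4 _ (hm e he) _ (hm f hf)
        ((Sym2.map.injective j.injective).ne hef)), fun e he u hu => mono (k5 _ (hm e he) _ ?_)⟩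
    · obtain ⟨s, hs⟩ := (h1 u).nonempty
      exact ⟨s, u, rfl, hs⟩
    · rw [Sym2.mem_map]
      rintro ⟨w, hw, e'⟩
      exact hu (j.injective e' ▸ hw)
  · rintro _ s ⟨u, rfl, hs⟩ t ⟨w, e, ht⟩
    obtain rfl := j.injective e
    exact (rch_of_induce (h1 w) hs ht).mono fun t ht => ⟨w, rfl, ht⟩
  · rintro _ _ s ⟨u, rfl, hs⟩ ⟨w, rfl, ht⟩
    by_contra hne
    exact Set.disjoint_left.1 (h2 u w fun e => hne (congrArg j e)) hs ht
  · rintro _ _ hadj
    obtain ⟨u, w, e, rfl, rfl⟩ := (SimpleGraph.map_adj j H _ _).1 hadj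
    obtain ⟨a, ha, b, hb, e'⟩ := h3 u w e
    exact ⟨a, ⟨u, rfl, ha⟩, b, ⟨w, rfl, hb⟩, e'⟩

end Pool.Agent.Lib.MP_f9389f_co
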